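import Pool.Agent.H159R3.Exp.Borel

/-!
Zero-free holomorphic functions in a finite dimensional space: at most as many classes of
proportional ones as the dimension (Borel's theorem), on a domain biholomorphic to `ℂⁿ`.
-/

set_option autoImplicit false

namespace Pool.Agent.X882.FB

open Filter Metric Set Topology

/-- zero-free entire functions of one variable are exponentials -/
theorem exists_exp {g : ℂ → ℂ} (hg : Differentiable ℂ g) (h0 : ∀ z, g z ≠ 0) :
    ∃ G : ℂ → ℂ, Differentiable ℂ G ∧ ∀ z, g z = Complex.exp (G z) := by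
  have hdg : Differentiable ℂ (deriv g) := (hg.contDiff (n := 2)).differentiable_deriv_two
  have hq : Differentiable ℂ (fun z => deriv g z / g z) := hdg.div hg h0
  obtain ⟨h, hh⟩ : ∃ h : ℂ → ℂ, ∀ z, HasDerivAt h (deriv g z / g z) z := by
    refine ⟨fun w => Complex.wedgeIntegral 0 w (fun z => deriv g z / g z), fun z => ?_⟩
    have h1 : Complex.IsConservativeOn (fun z => deriv g z / g z) (ball (0 : ℂ) (‖z‖ + 1)) :=
      hq.differentiableOn.isConservativeOn
    exact h1.hasDerivAt_wedgeIntegral (z := z) hq.continuous.continuousOn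
      (by rw [mem_ball, dist_zero_right]; linarith)
  have hhd : Differentiable ℂ h := fun z => (hh z).differentiableAt
  have hder : ∀ z, HasDerivAt (fun z => g z * Complex.exp (-h z)) 0 z := by
    intro z
    have h1 : HasDerivAt (fun z => Complex.exp (-h z)) (Complex.exp (-h z) * -(deriv g z / g z)) z :=
      (hh z).neg.cexp
    have h2 := ((hg z).hasDerivAt).mul h1
    have e : deriv g z * Complex.exp (-h z) + g z * (Complex.exp (-h z) * -(deriv g z / g z)) = 0 := by
      have := h0 z
      field_simp
      ring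
    rw [e] at h2
    exact h2
  have hconst : ∀ z, g z * Complex.exp (-h z) = g 0 * Complex.exp (-h 0) := by
    intro z
    exact is_const_of_deriv_eq_zero (fun z => (hder z).differentiableAt)
      (fun z => (hder z).deriv) z 0
  have hne : g 0 * Complex.exp (-h 0) ≠ 0 := mul_ne_zero (h0 0) (Complex.exp_ne_zero _)
  refine ⟨fun z => h z + Complex.log (g 0 * Complex.exp (-h 0)), hhd.add_const _, fun z => ?_⟩
  rw [Complex.exp_add, Complex.exp_log hne, ← hconst z, mul_comm, mul_assoc, ← Complex.exp_add]
  simp

/-- A zero-free member of the span of zero-free entire functions of one variable is proportional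
to one of them. -/
theorem one_var {κ : Type} [Fintype κ] (r : κ → ℂ → ℂ) (hr : ∀ j, Differentiable ℂ (r j))
    (hr0 : ∀ j z, r j z ≠ 0) (s : ℂ → ℂ) (hs : Differentiable ℂ s) (hs0 : ∀ z, s z ≠ 0)
    (c : κ → ℂ) (hc : ∀ z, s z = ∑ j, c j * r j z) :
    ∃ j, ∀ z, r j z * s 0 = r j 0 * s z := by
  classical
  choose Gr hGr hGre using fun j => exists_exp (hr j) (hr0 j)
  obtain ⟨Gs, hGs, hGse⟩ := exists_exp hs hs0
  by_contra hcon
  push Not at hcon
  -- the family indexed by `Option κ`
  let GG : Option κ → ℂ → ℂ := fun o => o.elim Gs Gr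
  have hGG : ∀ i, Differentiable ℂ (GG i) := by
    rintro (_ | j)
    · exact hGs
    · exact hGr j
  let T : Option κ → Prop := fun i => ∃ a : ℂ, ∀ z, GG i z = Gs z + a
  let x : Option κ → ℂ := fun i => if T i then Complex.exp (GG i 0) else 0
  have hx : ∀ i j (c : ℂ), (∀ z, GG i z = GG j z + c) → x i = Complex.exp c • x j := by
    intro i j c h
    have hT : T i ↔ T j := by
      constructor
      · rintro ⟨a, ha⟩
        exact ⟨a - c, fun z => by linear_combination ha z - h z⟩
      · rintro ⟨a, ha⟩
        exact ⟨a + c, fun z => by linear_combination ha z + h z⟩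
    by_cases hi : T i
    · simp only [x, if_pos hi, if_pos (hT.1 hi)]
      rw [h 0, Complex.exp_add, smul_eq_mul, mul_comm]
    · simp only [x, if_neg hi, if_neg (fun h => hi (hT.2 h)), smul_zero]
  have key := H159R3.Exp.borel_spec (B := ℂ) GG hGG x hx Finset.univ
    (fun o => o.elim (-1) c) (by
      intro z
      rw [Fintype.sum_option]
      simp only [Option.elim, GG]
      rw [← hGse z, hc z]
      have : ∀ j, c j * Complex.exp (Gr j z) = c j * r j z := fun j => by rw [← hGre j z]
      simp [this])
  rw [Fintype.sum_option] at key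
  have hTn : T none := ⟨0, fun z => by simp [GG]⟩
  have hTs : ∀ j, ¬ T (some j) := by
    rintro j ⟨a, ha⟩
    obtain ⟨z, hz⟩ := hcon j
    apply hz
    have h1 : ∀ z, r j z = Complex.exp a * s z := by
      intro z
      rw [hGre j z, hGse z]
      have := ha z
      simp only [GG, Option.elim] at this
      rw [this, Complex.exp_add, mul_comm]
    rw [h1 z, h1 0]
    ring
  have e2 : ∀ j, x (some j) = 0 := fun j => by simp only [x, if_neg (hTs j)]
  have e1 : x none = s 0 := by
    simp only [x, if_pos hTn, GG, Option.elim]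
    exact (hGse 0).symm
  simp only [e1, e2, smul_zero, Finset.sum_const_zero, add_zero, Option.elim] at key
  simp at key
  exact hs0 0 key

variable {E : Type} [NormedAddCommGroup E] [NormedSpace ℂ E]

/-- an entire function that vanishes near one point vanishes -/
theorem zero_of_near {f : E → ℂ} (hf : Differentiable ℂ f) {p : E}
    (h : ∀ᶠ y in 𝓝 p, f y = 0) : ∀ y, f y = 0 := by
  intro y
  let g : ℂ → ℂ := fun t => f (p + t • (y - p))
  have hg : Differentiable ℂ g := by
    intro t
    apply (hf _).comp t
    fun_prop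
  have hg0 : ∀ᶠ t in 𝓝 (0 : ℂ), g t = 0 := by
    have hc : Tendsto (fun t : ℂ => p + t • (y - p)) (𝓝 0) (𝓝 p) := by
      have : ContinuousAt (fun t : ℂ => p + t • (y - p)) 0 := by fun_prop
      simpa [ContinuousAt] using this
    exact hc.eventually h
  have hA : AnalyticOnNhd ℂ g univ := fun z _ => hg.analyticAt z
  have h1 := hA.eqOn_of_preconnected_of_eventuallyEq (g := fun _ => (0 : ℂ))
    analyticOnNhd_const isPreconnected_univ (mem_univ (0 : ℂ)) hg0
  have h2 := h1 (mem_univ (1 : ℂ))
  simpa [g] using h2

/-- the several variable version on a Banach space -/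
theorem several [CompleteSpace E] {κ : Type} [Fintype κ] (r : κ → E → ℂ)
    (hr : ∀ j, Differentiable ℂ (r j))
    (hr0 : ∀ j z, r j z ≠ 0) (s : E → ℂ) (hs : Differentiable ℂ s) (hs0 : ∀ z, s z ≠ 0)
    (c : κ → ℂ) (hc : ∀ z, s z = ∑ j, c j * r j z) :
    ∃ j, ∀ z, r j z * s 0 = r j 0 * s z := by
  by_contra hcon
  push Not at hcon
  let f : κ → E → ℂ := fun j z => r j z * s 0 - r j 0 * s z
  have hf : ∀ j, Differentiable ℂ (f j) := fun j =>
    ((hr j).mul_const _).sub (hs.const_mul _)
  have hfd : ∀ j, Dense {z | f j z ≠ 0} := by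
    intro j
    obtain ⟨z0, hz0⟩ := hcon j
    intro z
    rw [mem_closure_iff_frequently]
    intro hz
    have h1 : ∀ᶠ y in 𝓝 z, f j y = 0 := by
      filter_upwards [hz] with y hy
      simpa using hy
    exact hz0 (sub_eq_zero.1 (zero_of_near (hf j) h1 z0))
  have hfo : ∀ j, IsOpen {z | f j z ≠ 0} := fun j =>
    isOpen_ne_fun (hf j).continuous continuous_const
  have hd : Dense (⋂ j, {z | f j z ≠ 0}) := dense_iInter_of_isOpen hfo hfd
  obtain ⟨y, hy⟩ := hd.nonempty
  rw [mem_iInter] at hy
  have hl : Differentiable ℂ (fun t : ℂ => t • y) := differentiable_id.smul_const y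
  obtain ⟨j, hj⟩ := one_var (fun j t => r j (t • y)) (fun j => (hr j).comp hl)
    (fun j t => hr0 j _) (fun t => s (t • y)) (hs.comp hl) (fun t => hs0 _) c
    (fun t => hc _)
  have h1 := hj 1
  simp only [one_smul, zero_smul] at h1
  exact hy j (sub_eq_zero.2 h1)

end Pool.Agent.X882.FB
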