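import Mathlib

/-!
No holomorphic barriers on a domain biholomorphic to `ℂⁿ`.
-/

set_option autoImplicit false

namespace Pool.Agent.X882.FB

open Filter Metric Set Topology

/-- `Ω` is biholomorphic to the whole space `E`: `F : Ω → E` and `G : E → Ω` are holomorphic and
inverse to each other. -/
structure IsFB {E : Type} [NormedAddCommGroup E] [NormedSpace ℂ E] (Ω : Set E) (F G : E → E) :
    Prop where
  opn : IsOpen Ω
  dF : DifferentiableOn ℂ F Ω
  dG : Differentiable ℂ G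
  mem : ∀ y, G y ∈ Ω
  gf : ∀ x ∈ Ω, G (F x) = x
  fg : ∀ y, F (G y) = y

/-- One variable: a continuous function on the plane, bounded above, which is the real part of a
holomorphic function near each point where it exceeds `c`, and whose values are `≥ c`, is
constant. -/
theorem liouville_one {φ : ℂ → ℝ} {c M : ℝ} (hφ : Continuous φ) (hM : ∀ z, φ z ≤ M)
    (hc : ∀ z, c ≤ φ z)
    (hloc : ∀ z, c < φ z → ∃ H : ℂ → ℂ, (∀ᶠ w in 𝓝 z, DifferentiableAt ℂ H w) ∧
      ∀ᶠ w in 𝓝 z, φ w = (H w).re) : φ 1 ≤ φ 0 := by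
  by_contra hcon
  push Not at hcon
  -- a small radius
  obtain ⟨b, hb0, hb1⟩ := exists_between hcon
  have hnear : ∀ᶠ z in 𝓝 (0 : ℂ), φ z < b := hφ.continuousAt.eventually_lt continuousAt_const hb0
  obtain ⟨r, hr, hrb⟩ := Metric.eventually_nhds_iff.1 hnear
  obtain ⟨s, hs0, hs1⟩ : ∃ s : ℝ, 0 < s ∧ s < min r 1 := exists_between (lt_min hr one_pos)
  have hsr : s < r := lt_of_lt_of_le hs1 (min_le_left _ _)
  have hs1' : s < 1 := lt_of_lt_of_le hs1 (min_le_right _ _)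
  have hle : ∀ z : ℂ, ‖z‖ ≤ s → φ z < b := fun z hz =>
    hrb (by rw [dist_zero_right]; linarith)
  -- the comparison function
  have hlog : 0 < Real.log (1 / s) := Real.log_pos (by rw [lt_div_iff₀ hs0]; linarith)
  obtain ⟨η, hη0, hη⟩ : ∃ η : ℝ, 0 < η ∧ η * Real.log (1 / s) < φ 1 - b := by
    refine ⟨(φ 1 - b) / (2 * Real.log (1 / s)), div_pos (by linarith) (by linarith), ?_⟩
    have e : (φ 1 - b) / (2 * Real.log (1 / s)) * Real.log (1 / s) = (φ 1 - b) / 2 := by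
      field_simp
    rw [e]
    linarith
  set ψ : ℂ → ℝ := fun z => φ z - η * Real.log (‖z‖ / s) with hψ
  obtain ⟨R, hR1, hR⟩ : ∃ R : ℝ, 1 < R ∧ M - η * Real.log (R / s) < b := by
    have h1 : Tendsto (fun R : ℝ => Real.log (R / s)) atTop atTop :=
      Real.tendsto_log_atTop.comp (tendsto_id.atTop_div_const hs0)
    have h2 := (h1.const_mul_atTop hη0).eventually_gt_atTop (M - b)
    obtain ⟨R, hR⟩ := (h2.and (eventually_gt_atTop 1)).exists
    exact ⟨R, hR.2, by linarith [hR.1]⟩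
  have hbig : ∀ z : ℂ, R ≤ ‖z‖ → ψ z < b := by
    intro z hz
    have h1 : Real.log (R / s) ≤ Real.log (‖z‖ / s) :=
      Real.log_le_log (by positivity) (by gcongr)
    have h2 := mul_le_mul_of_nonneg_left h1 hη0.le
    have h3 := hM z
    simp only [hψ]
    linarith
  have hsmall : ∀ z : ℂ, ‖z‖ = s → ψ z < b := by
    intro z hz
    simp only [hψ]
    rw [hz, div_self hs0.ne', Real.log_one, mul_zero, sub_zero]
    exact hle z hz.le
  -- maximum on an annulus
  let K : Set ℂ := {z | s ≤ ‖z‖ ∧ ‖z‖ ≤ R}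
  have hK : IsCompact K := by
    have : K = closedBall 0 R ∩ {z | s ≤ ‖z‖} := by
      ext z
      simp [K, and_comm]
    rw [this]
    exact (isCompact_closedBall 0 R).inter_right (isClosed_le continuous_const continuous_norm)
  have hψc : ContinuousOn ψ K := by
    apply hφ.continuousOn.sub
    apply ContinuousOn.mul continuousOn_const
    apply ContinuousOn.log (by fun_prop)
    intro z hz
    have : 0 < ‖z‖ := lt_of_lt_of_le hs0 hz.1
    positivity
  have h1K : (1 : ℂ) ∈ K := ⟨by simp; exact hs1'.le, by simp; exact hR1.le⟩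
  obtain ⟨z₀, hz₀K, hz₀⟩ := hK.exists_isMaxOn ⟨1, h1K⟩ hψc
  have hm : b < ψ z₀ := by
    have h1 : ψ 1 ≤ ψ z₀ := hz₀ h1K
    have h2 : ψ 1 = φ 1 - η * Real.log (1 / s) := by simp [hψ]
    linarith
  let A : Set ℂ := {z | z ∈ K ∧ ψ z = ψ z₀}
  have hA : IsCompact A := by
    have : A = K ∩ ψ ⁻¹' {ψ z₀} := rfl
    rw [this]
    exact hK.of_isClosed_subset (hψc.preimage_isClosed_of_isClosed hK.isClosed isClosed_singleton)
      inter_subset_left
  obtain ⟨z₁, hz₁A, hz₁⟩ := hA.exists_isMaxOn ⟨z₀, hz₀K, rfl⟩ continuous_norm.continuousOn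
  have hz₁K := hz₁A.1
  have hψ1 := hz₁A.2
  have hz₁s : s < ‖z₁‖ := by
    rcases hz₁K.1.lt_or_eq with h | h
    · exact h
    · have := hsmall z₁ h.symm
      linarith
  have hz₁R : ‖z₁‖ < R := by
    by_contra h
    push Not at h
    have := hbig z₁ h
    linarith
  have hz₁0 : z₁ ≠ 0 := by
    intro h
    rw [h, norm_zero] at hz₁s
    linarith
  have hnorm1 : 0 < ‖z₁‖ := norm_pos_iff.2 hz₁0
  have hcz : c < φ z₁ := by
    have h1 : 0 < Real.log (‖z₁‖ / s) := Real.log_pos (by rw [lt_div_iff₀ hs0]; linarith)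
    have h2 : ψ z₁ = φ z₁ - η * Real.log (‖z₁‖ / s) := rfl
    have h3 : 0 < η * Real.log (‖z₁‖ / s) := mul_pos hη0 h1
    have h4 := hc 0
    linarith
  obtain ⟨H, hHd, hHe⟩ := hloc z₁ hcz
  have hslit : ∀ᶠ w in 𝓝 z₁, w / z₁ ∈ Complex.slitPlane := by
    have hc1 : ContinuousAt (fun w : ℂ => w / z₁) z₁ := by fun_prop
    apply hc1.eventually_mem
    rw [div_self hz₁0]
    exact Complex.isOpen_slitPlane.mem_nhds Complex.one_mem_slitPlane
  have hKn : ∀ᶠ w in 𝓝 z₁, w ∈ K := by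
    have h1 : ∀ᶠ w in 𝓝 z₁, s < ‖w‖ :=
      continuousAt_const.eventually_lt continuous_norm.continuousAt hz₁s
    have h2 : ∀ᶠ w in 𝓝 z₁, ‖w‖ < R :=
      continuous_norm.continuousAt.eventually_lt continuousAt_const hz₁R
    filter_upwards [h1, h2] with w h3 h4
    exact ⟨h3.le, h4.le⟩
  set g : ℂ → ℂ := fun w => Complex.exp (H w - η * Complex.log (w / z₁)) with hg
  have hgd : ∀ᶠ w in 𝓝 z₁, DifferentiableAt ℂ g w := by
    filter_upwards [hHd, hslit] with w h1 h2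
    have h3 : DifferentiableAt ℂ (fun w : ℂ => Complex.log (w / z₁)) w := by
      apply DifferentiableAt.clog
      · fun_prop
      · exact h2
    exact (h1.sub (h3.const_mul _)).cexp
  have hgn : ∀ᶠ w in 𝓝 z₁, ‖g w‖ = Real.exp (ψ w + η * Real.log (‖z₁‖ / s)) := by
    filter_upwards [hHe, hKn] with w h1 h2
    have hw : 0 < ‖w‖ := lt_of_lt_of_le hs0 h2.1
    simp only [hg]
    rw [Complex.norm_exp]
    congr 1
    rw [Complex.sub_re, ← h1, Complex.re_ofReal_mul, Complex.log_re, norm_div]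
    simp only [hψ]
    rw [Real.log_div hw.ne' hnorm1.ne', Real.log_div hw.ne' hs0.ne',
      Real.log_div hnorm1.ne' hs0.ne']
    ring
  have hmax : IsLocalMax (norm ∘ g) z₁ := by
    have h0 := hgn.self_of_nhds
    filter_upwards [hgn, hKn] with w h1 h2
    simp only [Function.comp]
    rw [h1, h0]
    apply Real.exp_le_exp.2
    have : ψ w ≤ ψ z₀ := hz₀ h2
    linarith
  have hconst := Complex.eventually_eq_of_isLocalMax_norm hgd hmax
  have hψconst : ∀ᶠ w in 𝓝 z₁, w ∈ A := by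
    have h0 := hgn.self_of_nhds
    filter_upwards [hconst, hgn, hKn] with w h1 h2 h3
    refine ⟨h3, ?_⟩
    rw [h1, h0] at h2
    have := Real.exp_injective h2
    linarith
  -- a point of larger norm
  have ht : Tendsto (fun t : ℝ => ((1 + t : ℝ) : ℂ) * z₁) (𝓝[>] 0) (𝓝 z₁) := by
    have hc1 : ContinuousAt (fun t : ℝ => ((1 + t : ℝ) : ℂ) * z₁) 0 := by fun_prop
    have h1 : Tendsto (fun t : ℝ => ((1 + t : ℝ) : ℂ) * z₁) (𝓝 0) (𝓝 z₁) := by
      have := hc1.tendsto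
      simpa using this
    exact h1.mono_left nhdsWithin_le_nhds
  obtain ⟨t, ht1, ht2⟩ := ((ht.eventually hψconst).and self_mem_nhdsWithin).exists
  have h1 : ‖((1 + t : ℝ) : ℂ) * z₁‖ ≤ ‖z₁‖ := hz₁ ht1
  rw [norm_mul, Complex.norm_real, Real.norm_eq_abs, abs_of_pos (by
    have : 0 < t := ht2
    linarith)] at h1
  have ht3 : 0 < t := ht2
  nlinarith

variable {E : Type} [NormedAddCommGroup E] [NormedSpace ℂ E]

/-- No pluriharmonic barrier on a domain biholomorphic to the whole space. -/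
theorem no_barrier_u {Ω : Set E} {F G : E → E} (hFB : IsFB Ω F G) {V : Set E} (hVo : IsOpen V)
    (hVΩ : V ⊆ Ω) {u : E → ℝ}
    (hu : ∀ x ∈ V, ∃ k : E → ℂ, (∀ᶠ z in 𝓝 x, DifferentiableAt ℂ k z) ∧
      ∀ᶠ z in 𝓝 x, u z = (k z).re) {c M : ℝ}
    (hM : ∀ x ∈ V, u x ≤ M)
    (hcl : ∀ x ∈ Ω, x ∈ closure {x | x ∈ V ∧ c ≤ u x} → x ∈ V)
    {x₀ x₁ : E} (h0 : x₀ ∈ V) (h1 : x₁ ∈ V) (hc0 : c < u x₀)
    (h01 : u x₀ < u x₁) : False := by
  classical
  let y : ℂ → E := fun ζ => F x₀ + ζ • (F x₁ - F x₀)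
  have hy : Differentiable ℂ y := by
    intro ζ
    fun_prop
  let g : ℂ → E := fun ζ => G (y ζ)
  have hg : Differentiable ℂ g := hFB.dG.comp hy
  have hg0 : g 0 = x₀ := by simp [g, y, hFB.gf x₀ (hVΩ h0)]
  have hg1 : g 1 = x₁ := by simp [g, y, hFB.gf x₁ (hVΩ h1)]
  let φ : ℂ → ℝ := fun ζ => if g ζ ∈ V then max (u (g ζ)) c else c
  have hloc1 : ∀ ζ, g ζ ∈ V → ∀ᶠ w in 𝓝 ζ, g w ∈ V := fun ζ h =>
    hg.continuous.continuousAt.eventually_mem (hVo.mem_nhds h)
  have hkg : ∀ ζ, g ζ ∈ V → ∃ K : ℂ → ℂ, (∀ᶠ w in 𝓝 ζ, DifferentiableAt ℂ K w) ∧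
      ∀ᶠ w in 𝓝 ζ, u (g w) = (K w).re := by
    intro ζ h
    obtain ⟨k, hk1, hk2⟩ := hu _ h
    refine ⟨fun w => k (g w), ?_, ?_⟩
    · filter_upwards [hg.continuous.continuousAt.eventually hk1] with w hw
      exact hw.comp w (hg w)
    · exact hg.continuous.continuousAt.eventually hk2
  have hucont : ∀ ζ, g ζ ∈ V → ContinuousAt (fun w => u (g w)) ζ := by
    intro ζ h
    obtain ⟨K, hK1, hK2⟩ := hkg ζ h
    have h2 : ContinuousAt (fun w => (K w).re) ζ :=
      Complex.continuous_re.continuousAt.comp hK1.self_of_nhds.continuousAt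
    exact h2.congr (hK2.mono fun w hw => hw.symm)
  have hφc : Continuous φ := by
    rw [continuous_iff_continuousAt]
    intro ζ
    by_cases h : g ζ ∈ V
    · have h2 : ContinuousAt (fun w => max (u (g w)) c) ζ := (hucont ζ h).max continuousAt_const
      apply h2.congr
      filter_upwards [hloc1 ζ h] with w hw
      simp only [φ, if_pos hw]
    · have h2 : g ζ ∉ closure {x | x ∈ V ∧ c ≤ u x} := fun h3 =>
        h (hcl _ (hFB.mem _) h3)
      have h3 : ∀ᶠ w in 𝓝 ζ, g w ∉ closure {x | x ∈ V ∧ c ≤ u x} :=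
        hg.continuous.continuousAt.eventually_mem (isClosed_closure.isOpen_compl.mem_nhds h2)
      have h4 : ContinuousAt (fun _ : ℂ => c) ζ := continuousAt_const
      apply h4.congr
      filter_upwards [h3] with w hw
      by_cases hwV : g w ∈ V
      · have h5 : u (g w) < c := by
          by_contra h6
          push Not at h6
          exact hw (subset_closure ⟨hwV, h6⟩)
        simp only [φ, if_pos hwV]
        exact (max_eq_right h5.le).symm
      · simp only [φ, if_neg hwV]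
  have key := liouville_one (φ := φ) (c := c) (M := max M c) hφc (by
      intro ζ
      by_cases h : g ζ ∈ V
      · simp only [φ, if_pos h]
        exact max_le_max (hM _ h) le_rfl
      · simp only [φ, if_neg h]
        exact le_max_right _ _) (by
      intro ζ
      by_cases h : g ζ ∈ V
      · simp only [φ, if_pos h]
        exact le_max_right _ _
      · simp only [φ, if_neg h]
        exact le_rfl) (by
      intro ζ hζ
      have h : g ζ ∈ V := by
        by_contra h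
        simp only [φ, if_neg h] at hζ
        exact lt_irrefl _ hζ
      have hζ2 : c < u (g ζ) := by
        simp only [φ, if_pos h] at hζ
        rcases lt_max_iff.1 hζ with h2 | h2
        · exact h2
        · exact absurd h2 (lt_irrefl _)
      obtain ⟨K, hK1, hK2⟩ := hkg ζ h
      refine ⟨K, hK1, ?_⟩
      filter_upwards [hloc1 ζ h, continuousAt_const.eventually_lt (hucont ζ h) hζ2, hK2]
        with w hw hw2 hw3
      simp only [φ, if_pos hw]
      rw [max_eq_left hw2.le]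
      exact hw3)
  simp only [φ] at key
  rw [hg0, hg1, if_pos h0, if_pos h1, max_eq_left hc0.le, max_eq_left (hc0.trans h01).le] at key
  linarith

/-- No holomorphic barrier on a domain biholomorphic to the whole space. -/
theorem no_barrier {Ω : Set E} {F G : E → E} (hFB : IsFB Ω F G) {V : Set E} (hVo : IsOpen V)
    (hVΩ : V ⊆ Ω) {k : E → ℂ} (hk : DifferentiableOn ℂ k V) {c M : ℝ}
    (hM : ∀ x ∈ V, (k x).re ≤ M)
    (hcl : ∀ x ∈ Ω, x ∈ closure {x | x ∈ V ∧ c ≤ (k x).re} → x ∈ V)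
    {x₀ x₁ : E} (h0 : x₀ ∈ V) (h1 : x₁ ∈ V) (hc0 : c < (k x₀).re)
    (h01 : (k x₀).re < (k x₁).re) : False := by
  refine no_barrier_u hFB hVo hVΩ (u := fun x => (k x).re) ?_ hM hcl h0 h1 hc0 h01
  intro x hx
  refine ⟨k, ?_, Eventually.of_forall fun z => rfl⟩
  filter_upwards [hVo.mem_nhds hx] with z hz
  exact (hk z hz).differentiableAt (hVo.mem_nhds hz)

/-- The exclusion of uniformly thick first integrals. -/
theorem no_thick {Ω : Set E} {F G : E → E} (hFB : IsFB Ω F G) {V : Set E} (hVo : IsOpen V)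
    {h : E → ℂ} (hh : DifferentiableOn ℂ h V) (hneg : ∀ x ∈ V ∩ Ω, (h x).re < 0)
    {δ : ℝ} (hδ : 0 < δ)
    (hcl : ∀ x ∈ Ω, x ∈ closure {x | x ∈ V ∩ Ω ∧ ‖h x‖ ≤ δ} → x ∈ V)
    (hacc : ∀ ε : ℝ, 0 < ε → ∃ x ∈ V ∩ Ω, ‖h x‖ < ε) : False := by
  set ε : ℝ := 1 / (4 * δ) with hε
  have hε0 : 0 < ε := by positivity
  have hεδ : ε * δ = 1 / 4 := by
    rw [hε]
    field_simp
  let V' : Set E := {x | x ∈ V ∩ Ω ∧ ‖h x‖ < δ}
  have hVΩo : IsOpen (V ∩ Ω) := hVo.inter hFB.opn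
  have hhc : ContinuousOn h (V ∩ Ω) := hh.continuousOn.mono inter_subset_left
  have hV'o : IsOpen V' := by
    have : V' = (V ∩ Ω) ∩ (fun x => ‖h x‖) ⁻¹' (Iio δ) := rfl
    rw [this]
    exact hhc.norm.isOpen_inter_preimage hVΩo isOpen_Iio
  let k : E → ℂ := fun x => h x + ε * (h x) ^ 2
  have hk : DifferentiableOn ℂ k V' := by
    have h1 : DifferentiableOn ℂ h V' := hh.mono fun x hx => hx.1.1
    exact h1.add ((h1.pow 2).const_mul _)
  have hest : ∀ x ∈ V ∩ Ω, ‖h x‖ ≤ δ → (k x).re ≤ - (ε * ‖h x‖ ^ 2) := by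
    intro x hx hn
    have h1 := hneg x hx
    have h2 : -(h x).re ≤ δ := by
      have := Complex.abs_re_le_norm (h x)
      have h3 := neg_abs_le (h x).re
      linarith
    have h3 : (k x).re = (h x).re + ε * ((h x).re ^ 2 - (h x).im ^ 2) := by
      simp only [k, Complex.add_re, Complex.re_ofReal_mul]
      rw [sq (h x), Complex.mul_re]
      ring
    have h4 : ‖h x‖ ^ 2 = (h x).re ^ 2 + (h x).im ^ 2 := by
      rw [← Complex.normSq_eq_norm_sq, Complex.normSq_apply]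
      ring
    rw [h3, h4]
    have h5 : ε * (-(h x).re) ≤ 1 / 4 := by
      calc ε * (-(h x).re) ≤ ε * δ := by gcongr
        _ = 1 / 4 := hεδ
    nlinarith
  have hneg' : ∀ x ∈ V', (k x).re < 0 := by
    intro x hx
    have h1 := hest x hx.1 hx.2.le
    have h2 : 0 < ‖h x‖ := by
      rw [norm_pos_iff]
      intro h3
      have := hneg x hx.1
      rw [h3] at this
      simp at this
    have h3 : 0 < ε * ‖h x‖ ^ 2 := by positivity
    linarith
  set c : ℝ := -(ε * (δ / 2) ^ 2) with hc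
  have hc0 : c < 0 := by
    have : 0 < ε * (δ / 2) ^ 2 := by positivity
    linarith
  have hsub : ∀ x, x ∈ V' → c ≤ (k x).re → ‖h x‖ ≤ δ / 2 := by
    intro x hx hx2
    have h1 := hest x hx.1 hx.2.le
    have h2 : ε * ‖h x‖ ^ 2 ≤ ε * (δ / 2) ^ 2 := by linarith
    have h3 := le_of_mul_le_mul_left h2 hε0
    exact le_of_sq_le_sq h3 (by positivity)
  have hclo : ∀ x ∈ Ω, x ∈ closure {x | x ∈ V' ∧ c ≤ (k x).re} → x ∈ V' := by
    intro x hx hxc
    have hsub1 : {x | x ∈ V' ∧ c ≤ (k x).re} ⊆ {x | x ∈ V ∩ Ω ∧ ‖h x‖ ≤ δ} := fun z hz =>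
      ⟨hz.1.1, hz.1.2.le⟩
    have hxV : x ∈ V := hcl x hx (closure_mono hsub1 hxc)
    refine ⟨⟨hxV, hx⟩, ?_⟩
    have hcx : ContinuousAt (fun x => ‖h x‖) x :=
      (hhc.continuousAt (hVΩo.mem_nhds ⟨hxV, hx⟩)).norm
    by_contra hcon
    push Not at hcon
    have h1 : ∀ᶠ z in 𝓝 x, δ / 2 < ‖h z‖ :=
      continuousAt_const.eventually_lt hcx (by linarith)
    rw [mem_closure_iff_frequently] at hxc
    obtain ⟨z, hz, hz2⟩ := (hxc.and_eventually h1).exists
    have := hsub z hz.1 hz.2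
    linarith
  -- the first point
  have hk_near : ∀ x ∈ V', -(2 * ‖h x‖) ≤ (k x).re := by
    intro x hx
    have h1 : ‖k x‖ ≤ ‖h x‖ + ε * ‖h x‖ ^ 2 := by
      calc ‖k x‖ ≤ ‖h x‖ + ‖(ε : ℂ) * (h x) ^ 2‖ := norm_add_le _ _
        _ = ‖h x‖ + ε * ‖h x‖ ^ 2 := by
          rw [norm_mul, Complex.norm_real, Real.norm_eq_abs, abs_of_pos hε0, norm_pow]
    have h2 : ε * ‖h x‖ ^ 2 ≤ ‖h x‖ := by
      have h3 : ε * ‖h x‖ ≤ 1 := by
        calc ε * ‖h x‖ ≤ ε * δ := by
              have := hx.2.le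
              gcongr
          _ = 1 / 4 := hεδ
          _ ≤ 1 := by norm_num
      nlinarith [norm_nonneg (h x)]
    have h3 := Complex.abs_re_le_norm (k x)
    have h4 := neg_abs_le (k x).re
    linarith
  obtain ⟨x₀, hx₀, hx₀n⟩ := hacc (min δ (-c / 2)) (lt_min hδ (by linarith))
  have hx₀V : x₀ ∈ V' := ⟨hx₀, lt_of_lt_of_le hx₀n (min_le_left _ _)⟩
  have hx₀c : c < (k x₀).re := by
    have h1 := hk_near x₀ hx₀V
    have h2 : ‖h x₀‖ < -c / 2 := lt_of_lt_of_le hx₀n (min_le_right _ _)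
    linarith
  have hx₀neg := hneg' x₀ hx₀V
  obtain ⟨x₁, hx₁, hx₁n⟩ := hacc (min δ (-(k x₀).re / 2)) (lt_min hδ (by linarith))
  have hx₁V : x₁ ∈ V' := ⟨hx₁, lt_of_lt_of_le hx₁n (min_le_left _ _)⟩
  have hx₁c : (k x₀).re < (k x₁).re := by
    have h1 := hk_near x₁ hx₁V
    have h2 : ‖h x₁‖ < -(k x₀).re / 2 := lt_of_lt_of_le hx₁n (min_le_right _ _)
    linarith
  exact no_barrier hFB hV'o (fun x hx => hx.1.2) hk (M := 0) (fun x hx => (hneg' x hx).le) hclo
    hx₀V hx₁V hx₀c hx₁c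

end Pool.Agent.X882.FB
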