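import Mathlib

/-!
Connectedness of an irreducible plane algebraic curve outside finitely many vertical lines.
-/

set_option autoImplicit false

namespace Pool.Agent.X882.FB

open Filter Metric Set Topology Polynomial
open scoped ContDiff

/-- The resultant type identity for an irreducible polynomial and one it does not divide. -/
theorem bezout' (K : Type) [Field K] [Algebra ℂ[X] K] [IsFractionRing ℂ[X] K] {T S : ℂ[X][X]}
    (hT : Irreducible T) (hd : T.natDegree ≠ 0) (hS : ¬ T ∣ S) :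
    ∃ δ : ℂ[X], δ ≠ 0 ∧ ∃ u v : ℂ[X][X], u * T + v * S = C δ := by
  have hprim : T.IsPrimitive := hT.isPrimitive hd
  have hirr : Irreducible (T.map (algebraMap ℂ[X] K)) :=
    (hprim.irreducible_iff_irreducible_map_fraction_map (K := K)).1 hT
  have hnd : ¬ T.map (algebraMap ℂ[X] K) ∣ S.map (algebraMap ℂ[X] K) := fun h =>
    hS (hprim.dvd_of_fraction_map_dvd_fraction_map h)
  obtain ⟨a, b, hab⟩ := (hirr.coprime_iff_not_dvd.2 hnd)
  obtain ⟨c, hc0, hc⟩ := IsLocalization.integerNormalization_spec (nonZeroDivisors ℂ[X]) a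
  obtain ⟨e, he0, he⟩ := IsLocalization.integerNormalization_spec (nonZeroDivisors ℂ[X]) b
  set a' := IsLocalization.integerNormalization (nonZeroDivisors ℂ[X]) a
  set b' := IsLocalization.integerNormalization (nonZeroDivisors ℂ[X]) b
  have hinj := map_injective (algebraMap ℂ[X] K) (IsFractionRing.injective ℂ[X] K)
  refine ⟨c * e, mul_ne_zero (nonZeroDivisors.ne_zero hc0) (nonZeroDivisors.ne_zero he0),
    C e * a', C c * b', ?_⟩
  apply hinj
  rw [Polynomial.map_add, Polynomial.map_mul, Polynomial.map_mul, Polynomial.map_mul,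
    Polynomial.map_mul, map_C, map_C, map_C, hc, he]
  rw [Algebra.smul_def, Algebra.smul_def, map_mul, C_mul]
  have e1 : ∀ c : ℂ[X], algebraMap ℂ[X] K[X] c = C (algebraMap ℂ[X] K c) := fun c => rfl
  rw [e1, e1]
  linear_combination (C (algebraMap ℂ[X] K c) * C (algebraMap ℂ[X] K e)) * hab

theorem bezout {T S : ℂ[X][X]} (hT : Irreducible T) (hd : T.natDegree ≠ 0) (hS : ¬ T ∣ S) :
    ∃ δ : ℂ[X], δ ≠ 0 ∧ ∃ u v : ℂ[X][X], u * T + v * S = C δ :=
  bezout' (FractionRing ℂ[X]) hT hd hS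

theorem evalEval_sum' (T : ℂ[X][X]) (z x : ℂ) :
    evalEval z x T = ∑ i ∈ Finset.range (T.natDegree + 1), (T.coeff i).eval z * x ^ i := by
  rw [← map_evalRingHom_eval, eval_map, eval₂_eq_sum_range]
  rfl

theorem contDiff_evalEval (T : ℂ[X][X]) {n : WithTop ℕ∞} :
    ContDiff ℂ n (fun p : ℂ × ℂ => evalEval p.1 p.2 T) := by
  simp only [evalEval_sum']
  apply ContDiff.sum
  intro i _
  have h1 : ContDiff ℂ n (fun z : ℂ => (T.coeff i).eval z) := by
    have := (T.coeff i).contDiff_aeval (𝕜 := ℂ) n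
    simpa using this
  exact (h1.comp contDiff_fst).mul (contDiff_snd.pow i)

theorem continuous_evalEval (T : ℂ[X][X]) : Continuous (fun p : ℂ × ℂ => evalEval p.1 p.2 T) :=
  (contDiff_evalEval T (n := 0)).continuous

theorem hasDerivAt_evalEval (T : ℂ[X][X]) (z x : ℂ) :
    HasDerivAt (fun x => evalEval z x T) (evalEval z x (derivative T)) x := by
  have h1 := (T.map (evalRingHom z)).hasDerivAt x
  rw [derivative_map, map_evalRingHom_eval] at h1
  simp only [map_evalRingHom_eval] at h1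
  exact h1

/-- The branch of an algebraic curve through a point where the second partial derivative does not
vanish. -/
theorem branch (T : ℂ[X][X]) {z₁ x₁ : ℂ} (h0 : evalEval z₁ x₁ T = 0)
    (h1 : evalEval z₁ x₁ (derivative T) ≠ 0) :
    ∃ g : ℂ → ℂ, ContDiffAt ℂ ω g z₁ ∧ g z₁ = x₁ ∧ (∀ᶠ z in 𝓝 z₁, evalEval z (g z) T = 0) ∧
      (∀ᶠ w : ℂ × ℂ in 𝓝 (z₁, x₁), evalEval w.1 w.2 T = 0 → w.2 = g w.1) := by
  let f : ℂ × ℂ → ℂ := fun w => evalEval w.1 w.2 T
  have hf : ∀ w, ContDiffAt ℂ ω f w := fun w => (contDiff_evalEval T).contDiffAt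
  set u : ℂ × ℂ := (z₁, x₁) with hu
  have hfu : f u = 0 := h0
  have hinv : (fderiv ℂ f u ∘L .inr ℂ ℂ ℂ).IsInvertible := by
    have hd : HasFDerivAt f (fderiv ℂ f u) u :=
      ((hf u).differentiableAt (by simp)).hasFDerivAt
    have hline : HasDerivAt (fun t : ℂ => ((z₁, t) : ℂ × ℂ)) ((0, 1) : ℂ × ℂ) x₁ :=
      (hasDerivAt_const x₁ z₁).prodMk (hasDerivAt_id x₁)
    have h2 : HasDerivAt (fun t : ℂ => f (z₁, t)) (fderiv ℂ f u (0, 1)) x₁ :=
      hd.comp_hasDerivAt x₁ hline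
    have h3 := hasDerivAt_evalEval T z₁ x₁
    have h5 : fderiv ℂ f u (0, 1) = evalEval z₁ x₁ (derivative T) := h2.unique h3
    set c := evalEval z₁ x₁ (derivative T) with hc
    have h6 : (fderiv ℂ f u ∘L .inr ℂ ℂ ℂ) =
        ((ContinuousLinearEquiv.unitsEquivAut ℂ (Units.mk0 c h1) : ℂ ≃L[ℂ] ℂ) : ℂ →L[ℂ] ℂ) := by
      ext
      simp only [ContinuousLinearMap.coe_comp, Function.comp_apply,
        ContinuousLinearMap.inr_apply]
      rw [h5]
      simp
    rw [h6]
    exact ContinuousLinearMap.isInvertible_equiv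
  have hw : (ω : WithTop ℕ∞) ≠ 0 := by simp
  refine ⟨(hf u).implicitFunction hw hinv, ?_, ?_, ?_, ?_⟩
  · exact (hf u).contDiffAt_implicitFunction hw hinv
  · exact (hf u).implicitFunction_apply_self hw hinv
  · have h2 := (hf u).eventually_apply_implicitFunction hw hinv
    rw [hfu] at h2
    exact h2
  · have h2 := (hf u).eventually_apply_eq_iff_implicitFunction hw hinv
    rw [hfu] at h2
    filter_upwards [h2] with w hw2 hw3
    exact (hw2.1 hw3).symm

/-- growth of a polynomial -/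
theorem poly_bound (p : ℂ[X]) : ∃ (C : ℝ) (N : ℕ), 0 ≤ C ∧ ∀ z, ‖p.eval z‖ ≤ C * (1 + ‖z‖) ^ N := by
  induction p using Polynomial.induction_on' with
  | add p q hp hq =>
    obtain ⟨C, N, hC, h⟩ := hp
    obtain ⟨C', N', hC', h'⟩ := hq
    refine ⟨C + C', N + N', by positivity, fun z => ?_⟩
    rw [eval_add]
    have h1 : (1 : ℝ) ≤ 1 + ‖z‖ := by linarith [norm_nonneg z]
    have h2 : (1 + ‖z‖) ^ N ≤ (1 + ‖z‖) ^ (N + N') := pow_le_pow_right₀ h1 (by omega)
    have h3 : (1 + ‖z‖) ^ N' ≤ (1 + ‖z‖) ^ (N + N') := pow_le_pow_right₀ h1 (by omega)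
    calc ‖eval z p + eval z q‖ ≤ ‖eval z p‖ + ‖eval z q‖ := norm_add_le _ _
      _ ≤ C * (1 + ‖z‖) ^ N + C' * (1 + ‖z‖) ^ N' := add_le_add (h z) (h' z)
      _ ≤ C * (1 + ‖z‖) ^ (N + N') + C' * (1 + ‖z‖) ^ (N + N') := by gcongr
      _ = _ := by ring
  | monomial n a =>
    refine ⟨‖a‖, n, norm_nonneg _, fun z => ?_⟩
    rw [eval_monomial, norm_mul, norm_pow]
    gcongr
    linarith [norm_nonneg z]

/-- entire functions of polynomial growth are polynomials -/
theorem poly_of_growth (N : ℕ) : ∀ (h : ℂ → ℂ), Differentiable ℂ h → ∀ C : ℝ,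
    (∀ z, ‖h z‖ ≤ C * (1 + ‖z‖) ^ N) → ∃ p : ℂ[X], ∀ z, h z = p.eval z := by
  induction N with
  | zero =>
    intro h hd C hb
    have h1 : Bornology.IsBounded (range h) := by
      rw [isBounded_iff_forall_norm_le]
      refine ⟨C, ?_⟩
      rintro _ ⟨z, rfl⟩
      simpa using hb z
    refine ⟨Polynomial.C (h 0), fun z => ?_⟩
    rw [eval_C]
    exact hd.apply_eq_apply_of_bounded h1 z 0
  | succ N ih =>
    intro h hd C hb
    have hg : Differentiable ℂ (dslope h 0) := by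
      rw [← differentiableOn_univ] at hd ⊢
      exact (Complex.differentiableOn_dslope univ_mem).2 hd
    have hC : 0 ≤ C := by
      have := hb 0
      simp at this
      exact (norm_nonneg _).trans this
    obtain ⟨B, hB⟩ := (isCompact_closedBall (0 : ℂ) 1).bddAbove_image
      hg.continuous.norm.continuousOn
    have hB' : ∀ z : ℂ, ‖z‖ ≤ 1 → ‖dslope h 0 z‖ ≤ B := fun z hz =>
      hB ⟨z, mem_closedBall_zero_iff.2 hz, rfl⟩
    have hB0 : 0 ≤ B := (norm_nonneg _).trans (hB' 0 (by simp))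
    obtain ⟨p, hp⟩ := ih (dslope h 0) hg (B + 4 * C) (by
      intro z
      have h1 : (1 : ℝ) ≤ 1 + ‖z‖ := by linarith [norm_nonneg z]
      have h1N : (1 : ℝ) ≤ (1 + ‖z‖) ^ N := one_le_pow₀ h1
      rcases le_or_gt ‖z‖ 1 with hz | hz
      · have := hB' z hz
        nlinarith
      · have hz0 : z ≠ 0 := by
          rintro rfl
          simp at hz
          linarith
        rw [dslope_of_ne _ hz0, slope_def_field, sub_zero, norm_div]
        rw [div_le_iff₀ (by linarith)]
        have h2 := hb z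
        have h3 := hb 0
        simp only [norm_zero, add_zero, one_pow, mul_one] at h3
        have h4 : ‖h z - h 0‖ ≤ ‖h z‖ + ‖h 0‖ := norm_sub_le _ _
        have h5 : (1 + ‖z‖) ^ (N + 1) = (1 + ‖z‖) ^ N * (1 + ‖z‖) := pow_succ _ _
        have h6 : (1 + ‖z‖) ≤ 2 * ‖z‖ := by linarith
        have h7 : C * (1 + ‖z‖) ^ (N + 1) ≤ 2 * C * (1 + ‖z‖) ^ N * ‖z‖ := by
          rw [h5]
          have : 0 ≤ C * (1 + ‖z‖) ^ N := by positivity
          nlinarith
        have h8 : C ≤ C * (1 + ‖z‖) ^ N * ‖z‖ := by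
          have h9 : 1 ≤ (1 + ‖z‖) ^ N * ‖z‖ := by nlinarith
          nlinarith
        have h10 : 0 ≤ B * (1 + ‖z‖) ^ N * ‖z‖ := by positivity
        have h11 : 0 ≤ C * (1 + ‖z‖) ^ N * ‖z‖ := by positivity
        nlinarith)
    refine ⟨Polynomial.C (h 0) + X * p, fun z => ?_⟩
    rw [eval_add, eval_mul, eval_X, eval_C, ← hp z]
    have := sub_smul_dslope h 0 z
    rw [sub_zero, smul_eq_mul] at this
    rw [this]
    ring

end Pool.Agent.X882.FB
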