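import Pool.Agent.X882.FB.Levi

/-!
The level curves of `x ↦ P(x, q̄)` near a zero `q` of a real polynomial.
-/

set_option autoImplicit false

namespace Pool.Agent.X882.FB

open Filter Metric Set Topology MvPolynomial
open scoped ContDiff ComplexConjugate

/-- the value of the real polynomial -/
noncomputable def rho (P : MvPolynomial (Fin 4) ℂ) (a x : ℂ) : ℝ :=
  (ev P a x (conj a) (conj x)).re

theorem family {P : MvPolynomial (Fin 4) ℂ} (hP : Herm P) {q0 q1 : ℂ}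
    (h0 : ev P q0 q1 (conj q0) (conj q1) = 0)
    (h1 : ev (pderiv 1 P) q0 q1 (conj q0) (conj q1) ≠ 0) :
    ∃ (θ : ℂ → ℝ → ℂ) (r : ℝ), 0 < r ∧ θ 0 0 = q1 ∧
      ContDiffAt ℂ ω (fun s => θ s 0) 0 ∧
      ContinuousOn (fun p : ℂ × ℝ => θ p.1 p.2) {p | ‖p.1‖ < r ∧ |p.2| < r} ∧
      (∀ ε, |ε| < r → ∀ s, ‖s‖ < r → DifferentiableAt ℂ (fun s => θ s ε) s) ∧
      (∀ s ε, ‖s‖ < r → |ε| < r → ev P (q0 + s) (θ s ε) (conj q0) (conj q1) = ε) ∧
      (∀ (s : ℂ) (ε : ℝ) (x : ℂ), ‖s‖ < r → |ε| < r → ‖x - q1‖ < r →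
        ev P (q0 + s) x (conj q0) (conj q1) = ε → x = θ s ε) ∧
      (∀ s, ‖s‖ < r → ∀ ε ε', |ε| < r → |ε'| < r → ε ≤ ε' →
        ε' - ε ≤ rho P (q0 + s) (θ s ε') - rho P (q0 + s) (θ s ε)) := by
  obtain ⟨Θ, hΘc, hΘ0, hΘe, hΘu⟩ := pack P h0 h1
  have hp3 := hP.p3 q0 q1
  let ι : ℂ × ℝ → ℂ × ℂ × ℂ × ℂ := fun p => (q0 + p.1, conj q0, conj q1, (p.2 : ℂ))
  have hιc : Continuous ι := by
    have : Continuous (fun p : ℂ × ℝ => ((p.2 : ℝ) : ℂ)) :=
      Complex.continuous_ofReal.comp continuous_snd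
    exact (continuous_const.add continuous_fst).prodMk
      (continuous_const.prodMk (continuous_const.prodMk this))
  have hι0 : ι (0, 0) = (q0, conj q0, conj q1, 0) := by simp [ι]
  let θ : ℂ → ℝ → ℂ := fun s ε => Θ (ι (s, ε))
  let T : ℂ × ℂ × ℂ × ℂ → ℂ := fun u => fderiv ℂ Θ u (0, 0, 0, 1)
  have hΘn : ∀ᶠ u in 𝓝 ((q0, conj q0, conj q1, 0) : ℂ × ℂ × ℂ × ℂ), ContDiffAt ℂ ω Θ u :=
    hΘc.eventually (by simp)
  have hTc : ContinuousAt T (q0, conj q0, conj q1, 0) := by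
    have h2 : ContinuousAt (fderiv ℂ Θ) (q0, conj q0, conj q1, 0) :=
      hΘc.continuousAt_fderiv (by simp)
    exact (ContinuousLinearMap.apply ℂ ℂ ((0, 0, 0, 1) : ℂ × ℂ × ℂ × ℂ)).continuous.continuousAt.comp h2
  have hT0 : T (q0, conj q0, conj q1, 0) * ev (pderiv 1 P) q0 q1 (conj q0) (conj q1) = 1 := by
    have hcurve : HasDerivAt (fun t : ℂ => ((q0, conj q0, conj q1, t) : ℂ × ℂ × ℂ × ℂ))
        ((0, 0, 0, 1) : ℂ × ℂ × ℂ × ℂ) 0 := by
      exact (hasDerivAt_const (0 : ℂ) q0).prodMk ((hasDerivAt_const (0 : ℂ) (conj q0)).prodMk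
        ((hasDerivAt_const (0 : ℂ) (conj q1)).prodMk (hasDerivAt_id (0 : ℂ))))
    have h2 : HasDerivAt (fun t : ℂ => Θ (q0, conj q0, conj q1, t))
        (T (q0, conj q0, conj q1, 0)) 0 :=
      (hΘc.differentiableAt (by simp)).hasFDerivAt.comp_hasDerivAt (0 : ℂ) hcurve
    have h3 := hasDerivAt_ev (𝕜 := ℂ) P (hasDerivAt_const (0 : ℂ) q0) h2
      (hasDerivAt_const (0 : ℂ) (conj q0)) (hasDerivAt_const (0 : ℂ) (conj q1))
    have h4 : HasDerivAt (fun t : ℂ => ev P q0 (Θ (q0, conj q0, conj q1, t)) (conj q0) (conj q1))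
        1 0 := by
      apply (hasDerivAt_id (0 : ℂ)).congr_of_eventuallyEq
      have h5 : Tendsto (fun t : ℂ => ((q0, conj q0, conj q1, t) : ℂ × ℂ × ℂ × ℂ)) (𝓝 0)
          (𝓝 (q0, conj q0, conj q1, 0)) := hcurve.continuousAt.tendsto
      filter_upwards [h5.eventually hΘe] with t ht
      exact ht
    have h5 := h3.unique h4
    simp only [zero_mul, zero_add, add_zero] at h5
    rw [hΘ0] at h5
    exact h5
  -- the real derivative in ε
  let Dε : ℂ × ℝ → ℂ := fun p =>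
    T (ι p) * ev (pderiv 1 P) (q0 + p.1) (Θ (ι p)) (conj (q0 + p.1)) (conj (Θ (ι p)))
    + conj (T (ι p)) * ev (pderiv 3 P) (q0 + p.1) (Θ (ι p)) (conj (q0 + p.1)) (conj (Θ (ι p)))
  have hDc : ContinuousAt Dε (0, 0) := by
    have e0 : ContinuousAt ι (0, 0) := hιc.continuousAt
    have e1 : ContinuousAt (fun p : ℂ × ℝ => q0 + p.1) (0, 0) := by fun_prop
    have e2 : ContinuousAt (fun p : ℂ × ℝ => Θ (ι p)) (0, 0) := by
      apply ContinuousAt.comp (g := Θ) _ e0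
      rw [hι0]
      exact hΘc.continuousAt
    have e3 : ContinuousAt (fun p : ℂ × ℝ => T (ι p)) (0, 0) := by
      apply ContinuousAt.comp (g := T) _ e0
      rw [hι0]
      exact hTc
    have e1' : ContinuousAt (fun p : ℂ × ℝ => conj (q0 + p.1)) (0, 0) :=
      Complex.continuous_conj.continuousAt.comp e1
    have e2' : ContinuousAt (fun p : ℂ × ℝ => conj (Θ (ι p))) (0, 0) :=
      Complex.continuous_conj.continuousAt.comp e2
    have e3' : ContinuousAt (fun p : ℂ × ℝ => conj (T (ι p))) (0, 0) :=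
      Complex.continuous_conj.continuousAt.comp e3
    exact (e3.mul (continuousAt_ev _ e1 e2 e1' e2')).add
      (e3'.mul (continuousAt_ev _ e1 e2 e1' e2'))
  have hD0 : Dε (0, 0) = 2 := by
    simp only [Dε, hι0, add_zero, hΘ0]
    rw [hp3, ← map_mul, hT0]
    norm_num
  have hDre : ∀ᶠ p in 𝓝 ((0, 0) : ℂ × ℝ), 1 ≤ (Dε p).re := by
    have h2 : ContinuousAt (fun p => (Dε p).re) (0, 0) :=
      Complex.continuous_re.continuousAt.comp hDc
    have h3 : (1 : ℝ) < (Dε (0, 0)).re := by rw [hD0]; norm_num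
    filter_upwards [continuousAt_const.eventually_lt h2 h3] with p hp
    exact hp.le
  have hιt : Tendsto ι (𝓝 (0, 0)) (𝓝 (q0, conj q0, conj q1, 0)) := by
    rw [← hι0]
    exact hιc.continuousAt.tendsto
  have hall : ∀ᶠ p in 𝓝 ((0, 0) : ℂ × ℝ), ContDiffAt ℂ ω Θ (ι p) ∧
      ev P (ι p).1 (Θ (ι p)) (ι p).2.1 (ι p).2.2.1 = (ι p).2.2.2 ∧ 1 ≤ (Dε p).re :=
    (hιt.eventually hΘn).and ((hιt.eventually hΘe).and hDre)
  obtain ⟨r₁, hr₁, hr₁p⟩ := Metric.eventually_nhds_iff.1 hall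
  obtain ⟨r₂, hr₂, hr₂p⟩ := Metric.eventually_nhds_iff.1 hΘu
  set r := min r₁ r₂ with hr
  have hr0 : 0 < r := lt_min hr₁ hr₂
  have hbox : ∀ (s : ℂ) (ε : ℝ), ‖s‖ < r → |ε| < r → dist ((s, ε) : ℂ × ℝ) (0, 0) < r₁ := by
    intro s ε hs hε
    rw [Prod.dist_eq, max_lt_iff]
    simp only [dist_zero_right, Real.norm_eq_abs]
    exact ⟨lt_of_lt_of_le hs (min_le_left _ _), lt_of_lt_of_le hε (min_le_left _ _)⟩
  refine ⟨θ, r, hr0, ?_, ?_, ?_, ?_, ?_, ?_, ?_⟩
  · simp only [θ]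
    rw [hι0, hΘ0]
  · -- smoothness in s
    have h2 : ContDiffAt ℂ ω (fun s : ℂ => ((q0 + s, conj q0, conj q1, ((0 : ℝ) : ℂ)) :
        ℂ × ℂ × ℂ × ℂ)) 0 := by fun_prop
    have h3 : ContDiffAt ℂ ω Θ ((fun s : ℂ => ((q0 + s, conj q0, conj q1, ((0 : ℝ) : ℂ)) :
        ℂ × ℂ × ℂ × ℂ)) 0) := by simpa using hΘc
    exact h3.comp (0 : ℂ) h2
  · intro p hp
    have h2 := (hr₁p (hbox p.1 p.2 hp.1 hp.2)).1.continuousAt
    have h3 : ContinuousAt (fun p : ℂ × ℝ => Θ (ι p)) p :=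
      ContinuousAt.comp (g := Θ) h2 hιc.continuousAt
    exact h3.continuousWithinAt
  · intro ε hε s hs
    have h2 := (hr₁p (hbox s ε hs hε)).1.differentiableAt (by simp)
    have h3 : DifferentiableAt ℂ (fun s : ℂ => ((q0 + s, conj q0, conj q1, (ε : ℂ)) :
        ℂ × ℂ × ℂ × ℂ)) s := by fun_prop
    exact DifferentiableAt.comp (g := Θ) s h2 h3
  · intro s ε hs hε
    exact (hr₁p (hbox s ε hs hε)).2.1
  · intro s ε x hs hε hx he
    have h2 : dist ((((q0 + s, conj q0, conj q1, (ε : ℂ)), x)) : (ℂ × ℂ × ℂ × ℂ) × ℂ)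
        ((q0, conj q0, conj q1, 0), q1) < r₂ := by
      rw [Prod.dist_eq, max_lt_iff]
      constructor
      · simp only [Prod.dist_eq, dist_self, max_lt_iff]
        refine ⟨?_, hr₂, hr₂, ?_⟩
        · rw [dist_eq_norm]
          simpa using lt_of_lt_of_le hs (min_le_right _ _)
        · rw [dist_zero_right, Complex.norm_real, Real.norm_eq_abs]
          exact lt_of_lt_of_le hε (min_le_right _ _)
      · simp only [dist_eq_norm]
        exact lt_of_lt_of_le hx (min_le_right _ _)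
    exact hr₂p h2 he
  · intro s hs ε ε' hε hε' hle
    have hder : ∀ e : ℝ, |e| < r → HasDerivAt (fun e => rho P (q0 + s) (θ s e))
        (Dε (s, e)).re e := by
      intro e he
      have h2 := ((hr₁p (hbox s e hs he)).1.differentiableAt (by simp)).hasFDerivAt
      have hcurve : HasDerivAt (fun t : ℝ => ι (s, t)) ((0, 0, 0, 1) : ℂ × ℂ × ℂ × ℂ) e := by
        have h5 : HasDerivAt (fun t : ℝ => (t : ℂ)) 1 e := Complex.ofRealCLM.hasDerivAt
        exact (hasDerivAt_const e (q0 + s)).prodMk ((hasDerivAt_const e (conj q0)).prodMk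
          ((hasDerivAt_const e (conj q1)).prodMk h5))
      have h3 : HasDerivAt (fun t : ℝ => Θ (ι (s, t))) (T (ι (s, e))) e := by
        have h6 := (h2.restrictScalars ℝ).comp_hasDerivAt e hcurve
        exact h6
      have h4 := hasDerivAt_ev (𝕜 := ℝ) P (hasDerivAt_const e (q0 + s)) h3
        (hasDerivAt_const e (conj (q0 + s))) (h3.star)
      have h7 := Complex.reCLM.hasFDerivAt.comp_hasDerivAt e h4
      refine h7.congr_deriv ?_
      simp only [Complex.reCLM_apply, Dε, zero_mul, zero_add, add_zero]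
      rfl
    have hcvx : Convex ℝ (Icc ε ε') := convex_Icc ε ε'
    have hin : ∀ e ∈ Icc ε ε', |e| < r := by
      intro e he
      rw [abs_lt] at *
      exact ⟨lt_of_lt_of_le hε.1 he.1, lt_of_le_of_lt he.2 hε'.2⟩
    have hmv := hcvx.mul_sub_le_image_sub_of_le_deriv (C := 1)
      (f := fun e => rho P (q0 + s) (θ s e))
      (fun e he => (hder e (hin e he)).continuousAt.continuousWithinAt)
      (fun e he => (hder e (hin e (interior_subset he))).differentiableAt.differentiableWithinAt)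
      (fun e he => by
        have he' := hin e (interior_subset he)
        rw [(hder e he').deriv]
        exact (hr₁p (hbox s e hs he')).2.2) ε ⟨le_rfl, hle⟩ ε' ⟨hle, le_rfl⟩ hle
    simpa using hmv

end Pool.Agent.X882.FB
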