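import Pool.Agent.X882.FB.Sides

/-!
Final forms of the two main theorems.
-/

set_option autoImplicit false

namespace Pool.Agent.X882.FB

open Filter Metric Set Topology MvPolynomial
open scoped ContDiff ComplexConjugate

theorem totalDegree_pderiv_lt {Q : MvPolynomial (Fin 4) ℝ} {i : Fin 4} (h : pderiv i Q ≠ 0) :
    (pderiv i Q).totalDegree < Q.totalDegree := by
  have key : ∀ m ∈ (pderiv i Q).support, (m.sum fun _ e => e) + 1 ≤ Q.totalDegree := by
    intro m hm
    rw [mem_support_iff, coeff_pderiv] at hm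
    have h1 : coeff (m + Finsupp.single i 1) Q ≠ 0 := left_ne_zero_of_mul hm
    have h2 := le_totalDegree (mem_support_iff.2 h1)
    rw [Finsupp.sum_add_index' (fun _ => rfl) (fun _ _ _ => rfl),
      Finsupp.sum_single_index rfl] at h2
    exact h2
  obtain ⟨m, hm⟩ := support_nonempty.2 h
  have h1 := key m hm
  have h2 : (pderiv i Q).totalDegree ≤ Q.totalDegree - 1 := by
    apply Finset.sup_le
    intro m' hm'
    have := key m' hm'
    omega
  omega

theorem eq_C_of_pderiv {Q : MvPolynomial (Fin 4) ℝ} (h : ∀ i, pderiv i Q = 0) :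
    Q = C (coeff 0 Q) := by
  classical
  ext m
  rw [coeff_C]
  by_cases hm : m = 0
  · simp [hm]
  · rw [if_neg (fun h => hm h.symm)]
    obtain ⟨i, hi⟩ : ∃ i, m i ≠ 0 := by
      by_contra hcon
      push Not at hcon
      exact hm (Finsupp.ext hcon)
    have h1 := congrArg (coeff (m - Finsupp.single i 1)) (h i)
    rw [coeff_pderiv, coeff_zero] at h1
    have h2 : m - Finsupp.single i 1 + Finsupp.single i 1 = m := by
      apply tsub_add_cancel_of_le
      intro j
      by_cases hj : j = i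
      · subst hj
        simp only [Finsupp.single_eq_same]
        omega
      · simp [Finsupp.single_apply, Ne.symm hj]
    rw [h2] at h1
    rcases mul_eq_zero.1 h1 with h3 | h3
    · exact h3
    · exfalso
      obtain ⟨k, hk⟩ : ∃ k : ℕ, k = (m - Finsupp.single i 1 : Fin 4 →₀ ℕ) i := ⟨_, rfl⟩
      rw [← hk] at h3
      have : (0 : ℝ) < (k : ℝ) + 1 := by positivity
      linarith

theorem rq_neg (Q : MvPolynomial (Fin 4) ℝ) : rq (-Q) = fun z => -rq Q z := by
  funext z
  simp [rq]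

section

variable {Ω : Set (Fin 2 → ℂ)} {F G : (Fin 2 → ℂ) → (Fin 2 → ℂ)}

theorem step_i (hFB : IsFB Ω F G) (hb : RAB2 Ω) (Q : MvPolynomial (Fin 4) ℝ) {p : Fin 2 → ℂ}
    (hp : p ∈ frontier Ω) (hd : fderiv ℝ (rq Q) p ≠ 0)
    (hv : ∀ᶠ z in 𝓝 p, z ∈ frontier Ω → rq Q z = 0) : False := by
  rcases two_sides hFB.opn (contDiff_rq Q).contDiffAt hd hp hv with h | h | h
  · exact core_i hFB hb Q hp hd h
  · refine core_i hFB hb (-Q) hp ?_ ?_
    · rw [rq_neg, fderiv_fun_neg]
      exact neg_ne_zero.2 hd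
    · simpa only [rq_neg] using h
  · obtain ⟨ρ, h1, h2, U, hU, h3⟩ := hb p hp
    have hfi : ρ p = 0 := by
      have := frontier_iff hFB.opn (h1.contDiffAt (n := 1)) h2
        (by filter_upwards [hU] with w hw using h3 w hw)
      exact this.self_of_nhds.1 hp
    have h4 := (freq_sides h1.differentiableAt h2).2
    rw [hfi] at h4
    have h5 : ∀ᶠ z in 𝓝 p, ContinuousAt ρ z := by
      have := h1.eventually_analyticAt
      exact this.mono fun z hz => hz.continuousAt
    have h6 : ∀ᶠ z in 𝓝 p, ∀ᶠ w in 𝓝 z, (w ∈ Ω ↔ ρ w < 0) := by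
      have : ∀ᶠ z in 𝓝 p, (z ∈ Ω ↔ ρ z < 0) := by
        filter_upwards [hU] with w hw using h3 w hw
      exact this.eventually_nhds
    have h7 : ∀ᶠ z in 𝓝 p, fderiv ℝ (rq Q) z ≠ 0 :=
      (((contDiff_rq Q (n := 1)).contDiffAt (x := p)).continuousAt_fderiv (by simp)).eventually_ne hd
    obtain ⟨z, hz1, ⟨hz2, hz3⟩, hz4, hz5⟩ :=
      (h4.and_eventually ((h5.and h6).and (h7.and h.eventually_nhds))).exists
    have h8 : ∀ᶠ w in 𝓝 z, 0 < ρ w := continuousAt_const.eventually_lt hz2 hz1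
    have h9 : ∀ᶠ w in 𝓝 z, rq Q w = 0 := by
      filter_upwards [h8, hz3, hz5] with w hw1 hw2 hw3
      by_contra hw4
      have := hw2.1 (hw3 hw4)
      linarith
    have h10 := (freq_sides (((contDiff_rq Q (n := 1)).differentiable (by simp)) z) hz4).2
    obtain ⟨w, hw1, hw2⟩ := (h10.and_eventually h9).exists
    rw [h9.self_of_nhds, hw2] at hw1
    exact lt_irrefl _ hw1

theorem final_i (hFB : IsFB Ω F G) (hb : RAB2 Ω) (n : ℕ) : ∀ Q : MvPolynomial (Fin 4) ℝ,
    Q.totalDegree < n → Q ≠ 0 → ∀ p ∈ frontier Ω,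
      (∀ᶠ z in 𝓝 p, z ∈ frontier Ω → rq Q z = 0) → False := by
  induction n with
  | zero => exact fun Q h => absurd h (Nat.not_lt_zero _)
  | succ n ih =>
    intro Q hdeg hQ p hp hv
    by_cases hcase : ∃ i, ∃ᶠ p' in 𝓝 p, p' ∈ frontier Ω ∧ rq (pderiv i Q) p' ≠ 0
    · obtain ⟨i, hi⟩ := hcase
      obtain ⟨p', ⟨h1, h2⟩, h3⟩ := (hi.and_eventually hv.eventually_nhds).exists
      refine step_i hFB hb Q h1 ?_ h3
      intro h4
      apply h2
      rw [← fderiv_rq, h4]
      rfl
    · push Not at hcase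
      have hall : ∀ i, pderiv i Q = 0 := by
        intro i
        by_contra hne
        apply ih (pderiv i Q) (lt_of_lt_of_le (totalDegree_pderiv_lt hne) (Nat.lt_succ_iff.1 hdeg))
          hne p hp
        exact hcase i
      have h1 := eq_C_of_pderiv hall
      have h2 := hv.self_of_nhds hp
      rw [h1] at h2
      simp only [rq, eval_C] at h2
      apply hQ
      rw [h1, h2, C_0]

theorem final_ii (hFB : IsFB Ω F G) (Q : MvPolynomial (Fin 4) ℝ) {p : Fin 2 → ℂ}
    (hp : p ∈ frontier Ω) (hd : fderiv ℝ (rq Q) p ≠ 0)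
    (hv : ∀ᶠ z in 𝓝 p, z ∈ frontier Ω → rq Q z = 0) : ∃ z ∈ Ω, rq Q z = 0 := by
  by_contra hnz
  push Not at hnz
  rcases two_sides hFB.opn (contDiff_rq Q).contDiffAt hd hp hv with h | h | h
  · exact core_ii hFB Q hnz hp hd h
  · refine core_ii hFB (-Q) ?_ hp ?_ ?_
    · intro z hz
      rw [rq_neg]
      exact neg_ne_zero.2 (hnz z hz)
    · rw [rq_neg, fderiv_fun_neg]
      exact neg_ne_zero.2 hd
    · simpa only [rq_neg] using h
  · have h0 : rq Q p = 0 := hv.self_of_nhds hp
    obtain ⟨h1, h2⟩ := freq_sides (((contDiff_rq Q (n := 1)).differentiable (by simp)) p) hd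
    rw [h0] at h1 h2
    obtain ⟨z, hz1, hz2⟩ := (h1.and_eventually h).exists
    obtain ⟨z', hz1', hz2'⟩ := (h2.and_eventually h).exists
    have hz : z ∈ Ω := hz2 hz1.ne
    have hz' : z' ∈ Ω := hz2' hz1'.ne'
    have hconn : IsPreconnected Ω := by
      have h3 : Ω = range G := by
        ext x
        constructor
        · intro hx
          exact ⟨F x, hFB.gf x hx⟩
        · rintro ⟨y, rfl⟩
          exact hFB.mem y
      rw [h3]
      exact isPreconnected_range hFB.dG.continuous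
    obtain ⟨w, hw, hw0⟩ := hconn.intermediate_value hz hz'
      ((contDiff_rq Q (n := 0)).continuous.continuousOn) ⟨hz1.le, hz1'.le⟩
    exact hnz w hw hw0

end

end Pool.Agent.X882.FB
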