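import Pool.Agent.X882.FB.Cases

/-!
Vanishing of the Levi form on the zero set of a real polynomial: the Segre curves lie in the zero
set.
-/

set_option autoImplicit false

namespace Pool.Agent.X882.FB

open Filter Metric Set Topology MvPolynomial
open scoped ContDiff ComplexConjugate

theorem right_pos {g : ℝ → ℝ} {d : ℝ} (h : HasDerivAt g d 0) (hd : 0 < d) :
    (∀ᶠ t in 𝓝[>] (0 : ℝ), g 0 < g t) ∧ (∀ᶠ t in 𝓝[<] (0 : ℝ), g t < g 0) := by
  have h1 := (hasDerivAt_iff_tendsto_slope.1 h).eventually_const_lt hd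
  have hgt : 𝓝[>] (0 : ℝ) ≤ 𝓝[≠] 0 := nhdsWithin_mono _ fun t (ht : 0 < t) => ht.ne'
  have hlt : 𝓝[<] (0 : ℝ) ≤ 𝓝[≠] 0 := nhdsWithin_mono _ fun t (ht : t < 0) => ht.ne
  constructor
  · filter_upwards [hgt h1, self_mem_nhdsWithin] with t ht ht0
    have ht0' : 0 < t := ht0
    rw [slope_def_field, sub_zero] at ht
    have := (div_pos_iff_of_pos_right ht0').1 ht
    linarith
  · filter_upwards [hlt h1, self_mem_nhdsWithin] with t ht ht0
    have ht0' : t < 0 := ht0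
    rw [slope_def_field, sub_zero] at ht
    rcases div_pos_iff.1 ht with h2 | h2
    · linarith [h2.2]
    · linarith [h2.1]

/-- directional derivative of the real polynomial in the second variable -/
theorem rho_dir {P : MvPolynomial (Fin 4) ℂ} (hP : Herm P) (a x w : ℂ) :
    HasDerivAt (fun t : ℝ => rho P a (x + (t : ℂ) * w))
      (2 * (w * ev (pderiv 1 P) a x (conj a) (conj x)).re) 0 := by
  have h1 : HasDerivAt (fun t : ℝ => x + (t : ℂ) * w) w 0 := by
    have h2 : HasDerivAt (fun t : ℝ => (t : ℂ)) 1 0 := Complex.ofRealCLM.hasDerivAt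
    exact ((h2.mul_const w).const_add x).congr_deriv (by simp)
  have h2 : HasDerivAt (fun t : ℝ => conj (x + (t : ℂ) * w)) (conj w) 0 := h1.star
  have h3 := hasDerivAt_ev (𝕜 := ℝ) P (hasDerivAt_const 0 a) h1
    (hasDerivAt_const 0 (conj a)) h2
  have h7 := Complex.reCLM.hasFDerivAt.comp_hasDerivAt (0 : ℝ) h3
  refine h7.congr_deriv ?_
  simp only [Complex.reCLM_apply, zero_mul, zero_add, add_zero, Complex.ofReal_zero]
  rw [hP.p3, ← map_mul, Complex.add_re, Complex.conj_re]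
  ring

theorem rho_dir_pos {P : MvPolynomial (Fin 4) ℂ} (hP : Herm P) {a x : ℂ}
    (h1 : ev (pderiv 1 P) a x (conj a) (conj x) ≠ 0) :
    (∀ᶠ t : ℝ in 𝓝[>] (0 : ℝ), rho P a x < rho P a (x + (t : ℂ) *
      conj (ev (pderiv 1 P) a x (conj a) (conj x)))) ∧
    (∀ᶠ t : ℝ in 𝓝[<] (0 : ℝ), rho P a (x + (t : ℂ) *
      conj (ev (pderiv 1 P) a x (conj a) (conj x))) < rho P a x) := by
  set D := ev (pderiv 1 P) a x (conj a) (conj x) with hD
  have h2 := rho_dir hP a x (conj D)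
  have h3 : 0 < 2 * (conj D * D).re := by
    rw [mul_comm (conj D), Complex.mul_conj, Complex.ofReal_re]
    have : 0 < Complex.normSq D := Complex.normSq_pos.2 h1
    linarith
  have h4 := right_pos h2 h3
  simpa using h4

/-- zeros of the real polynomial are limits of points where it is negative -/
theorem freq_neg {P : MvPolynomial (Fin 4) ℂ} (hP : Herm P) {a x : ℂ}
    (h0 : rho P a x = 0) (h1 : ev (pderiv 1 P) a x (conj a) (conj x) ≠ 0) :
    ∃ᶠ z : ℂ × ℂ in 𝓝 (a, x), rho P z.1 z.2 < 0 := by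
  have h2 := (rho_dir_pos hP h1).2
  rw [h0] at h2
  have h3 : Tendsto (fun t : ℝ => ((a, x + (t : ℂ) *
      conj (ev (pderiv 1 P) a x (conj a) (conj x))) : ℂ × ℂ)) (𝓝[<] 0) (𝓝 (a, x)) := by
    have hc : Continuous (fun t : ℝ => ((a, x + (t : ℂ) *
      conj (ev (pderiv 1 P) a x (conj a) (conj x))) : ℂ × ℂ)) := by fun_prop
    have h4 := hc.tendsto 0
    simp only [Complex.ofReal_zero, zero_mul, add_zero] at h4
    exact h4.mono_left nhdsWithin_le_nhds
  exact h3.frequently h2.frequently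

theorem cont_m (P : MvPolynomial (Fin 4) ℂ) (q1 D : ℂ) : Continuous (fun p : ℂ × ℝ × ℝ =>
    rho P p.1 (q1 + ((p.2.1 : ℂ) + Complex.I * (p.2.2 : ℂ)) * D)) := by
  have h3 : Continuous (fun p : ℂ × ℝ × ℝ => q1 + ((p.2.1 : ℂ) + Complex.I * (p.2.2 : ℂ)) * D) := by
    fun_prop
  unfold rho
  apply Complex.continuous_re.comp
  exact continuous_ev P continuous_fst h3 (Complex.continuous_conj.comp continuous_fst)
    (Complex.continuous_conj.comp h3)

/-- the slices of the zero set are infinite near a point where the derivative does not vanish -/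
theorem slice_infinite {P : MvPolynomial (Fin 4) ℂ} (hP : Herm P) {q0 q1 : ℂ}
    (h0 : rho P q0 q1 = 0) (h1 : ev (pderiv 1 P) q0 q1 (conj q0) (conj q1) ≠ 0) {r : ℝ}
    (hr : 0 < r) : ∀ᶠ a in 𝓝 q0, {x : ℂ | dist x q1 < r ∧ rho P a x = 0}.Infinite := by
  set D := conj (ev (pderiv 1 P) q0 q1 (conj q0) (conj q1)) with hD
  have hD0 : D ≠ 0 := by simpa [hD] using h1
  have hDn : 0 < ‖D‖ := norm_pos_iff.2 hD0
  have h2 := rho_dir_pos hP h1
  rw [h0, ← hD] at h2
  -- choose s₀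
  have hsmall : ∀ᶠ t : ℝ in 𝓝[>] (0 : ℝ), t * ‖D‖ < r / 2 := by
    have hc : Continuous (fun t : ℝ => t * ‖D‖) := by fun_prop
    have h3 := hc.tendsto 0
    rw [zero_mul] at h3
    exact (h3.mono_left nhdsWithin_le_nhds).eventually_lt_const (by linarith)
  have hneg : ∀ᶠ t : ℝ in 𝓝[>] (0 : ℝ), rho P q0 (q1 + ((-t : ℝ) : ℂ) * D) < 0 := by
    have h3 : Tendsto (fun t : ℝ => -t) (𝓝[>] 0) (𝓝[<] 0) := by
      have := tendsto_neg_nhdsGT (a := (0 : ℝ))
      simpa using this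
    exact h3.eventually h2.2
  obtain ⟨s, ⟨⟨hs1, hs2⟩, hs3⟩, hs0⟩ :=
    (((h2.1.and hneg).and hsmall).and self_mem_nhdsWithin).exists
  have hs0' : 0 < s := hs0
  -- the map
  obtain ⟨m, hm⟩ : ∃ m : ℂ → ℝ → ℝ → ℝ, ∀ a σ τ,
    m a σ τ = rho P a (q1 + ((σ : ℂ) + Complex.I * τ) * D) := ⟨_, fun _ _ _ => rfl⟩
  have hmc : Continuous (fun p : ℂ × ℝ × ℝ => m p.1 p.2.1 p.2.2) := by
    simp only [hm]
    exact cont_m P q1 D
  have e1 : ∀ᶠ p : ℂ × ℝ in 𝓝 (q0, 0), 0 < m p.1 s p.2 := by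
    have h3 : Continuous (fun p : ℂ × ℝ => m p.1 s p.2) :=
      hmc.comp (continuous_fst.prodMk (continuous_const.prodMk continuous_snd))
    apply continuousAt_const.eventually_lt h3.continuousAt
    simpa [hm] using hs1
  have e2 : ∀ᶠ p : ℂ × ℝ in 𝓝 (q0, 0), m p.1 (-s) p.2 < 0 := by
    have h3 : Continuous (fun p : ℂ × ℝ => m p.1 (-s) p.2) :=
      hmc.comp (continuous_fst.prodMk (continuous_const.prodMk continuous_snd))
    apply h3.continuousAt.eventually_lt continuousAt_const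
    simpa [hm] using hs2
  obtain ⟨δ, hδ, hδe⟩ := Metric.eventually_nhds_iff.1 (e1.and e2)
  filter_upwards [Metric.ball_mem_nhds q0 hδ] with a ha
  set τ₀ := min δ s / 2 with hτ₀
  have hτ₀0 : 0 < τ₀ := by
    have : 0 < min δ s := lt_min hδ hs0'
    positivity
  have hτδ : τ₀ < δ := by
    have : min δ s ≤ δ := min_le_left _ _
    have : 0 < min δ s := lt_min hδ hs0'
    linarith
  have hτs : τ₀ < s := by
    have : min δ s ≤ s := min_le_right _ _
    have : 0 < min δ s := lt_min hδ hs0'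
    linarith
  have hex : ∀ τ ∈ Icc (0 : ℝ) τ₀, ∃ σ ∈ Icc (-s) s, m a σ τ = 0 := by
    intro τ hτ
    have h3 := hδe (y := (a, τ)) (by
      rw [Prod.dist_eq, max_lt_iff]
      refine ⟨ha, ?_⟩
      rw [dist_zero_right, Real.norm_eq_abs, abs_of_nonneg hτ.1]
      exact lt_of_le_of_lt hτ.2 hτδ)
    have h4 : ContinuousOn (fun σ => m a σ τ) (Icc (-s) s) := by
      have : Continuous (fun σ : ℝ => m a σ τ) :=
        hmc.comp (continuous_const.prodMk (continuous_id.prodMk continuous_const))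
      exact this.continuousOn
    have h5 := intermediate_value_Icc (by linarith) h4
    exact h5 ⟨h3.2.le, h3.1.le⟩
  choose! σ hσ hσ0 using hex
  have hinj : InjOn (fun τ : ℝ => q1 + ((σ τ : ℂ) + Complex.I * τ) * D) (Icc 0 τ₀) := by
    intro τ hτ τ' hτ' he
    have h3 : ((σ τ : ℂ) + Complex.I * τ) = ((σ τ' : ℂ) + Complex.I * τ') :=
      mul_right_cancel₀ hD0 (add_left_cancel he)
    have h4 := congrArg Complex.im h3
    simpa using h4
  apply ((Icc_infinite hτ₀0).image hinj).mono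
  rintro _ ⟨τ, hτ, rfl⟩
  refine ⟨?_, (hm _ _ _).symm.trans (hσ0 τ hτ)⟩
  rw [dist_eq_norm]
  simp only [add_sub_cancel_left, norm_mul]
  have h3 : ‖(σ τ : ℂ) + Complex.I * τ‖ ≤ s + s := by
    refine (norm_add_le _ _).trans (add_le_add ?_ ?_)
    · rw [Complex.norm_real, Real.norm_eq_abs, abs_le]
      exact hσ τ hτ
    · rw [norm_mul, Complex.norm_I, one_mul, Complex.norm_real, Real.norm_eq_abs,
        abs_of_nonneg hτ.1]
      exact hτ.2.trans hτs.le
  calc ‖(σ τ : ℂ) + Complex.I * τ‖ * ‖D‖ ≤ (s + s) * ‖D‖ := by gcongr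
    _ = s * ‖D‖ + s * ‖D‖ := by ring
    _ < r := by linarith

/-- identity theorem along the real axis -/
theorem zero_of_real {g : ℂ → ℂ} {ρ : ℝ} (hρ : 0 < ρ) (hg : DifferentiableOn ℂ g (ball 0 ρ))
    (h : ∀ t : ℝ, |t| < ρ → g t = 0) : ∀ z ∈ ball (0 : ℂ) ρ, g z = 0 := by
  have h1 : AnalyticOnNhd ℂ g (ball 0 ρ) := hg.analyticOnNhd isOpen_ball
  have h2 : ∃ᶠ z in 𝓝[≠] (0 : ℂ), g z = 0 := by
    have h3 : Tendsto (fun t : ℝ => (t : ℂ)) (𝓝[≠] 0) (𝓝[≠] 0) := by
      apply tendsto_nhdsWithin_of_tendsto_nhds_of_eventually_within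
      · have := Complex.continuous_ofReal.tendsto 0
        rw [Complex.ofReal_zero] at this
        exact this.mono_left nhdsWithin_le_nhds
      · filter_upwards [self_mem_nhdsWithin] with t ht
        simpa using ht
    apply h3.frequently
    apply Eventually.frequently
    have h4 : ∀ᶠ t in 𝓝 (0 : ℝ), |t| < ρ :=
      continuous_abs.continuousAt.eventually_lt continuousAt_const (by simpa using hρ)
    exact (h4.filter_mono nhdsWithin_le_nhds).mono h
  exact h1.eqOn_zero_of_preconnected_of_frequently_eq_zero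
    (convex_ball 0 ρ).isPreconnected (mem_ball_self hρ) h2

/-- identity theorem on an infinite set inside a smaller closed ball -/
theorem zero_of_infinite {g : ℂ → ℂ} {c : ℂ} {r r' : ℝ} (hr' : r' < r)
    (hg : DifferentiableOn ℂ g (ball c r)) {S : Set ℂ} (hS : S.Infinite)
    (hSs : S ⊆ closedBall c r') (h : ∀ z ∈ S, g z = 0) : ∀ z ∈ ball c r, g z = 0 := by
  have h1 : AnalyticOnNhd ℂ g (ball c r) := hg.analyticOnNhd isOpen_ball
  obtain ⟨z₀, hz₀, hacc⟩ := hS.exists_accPt_of_subset_isCompact (isCompact_closedBall c r') hSs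
  have h2 : ∃ᶠ z in 𝓝[≠] z₀, g z = 0 := by
    rw [accPt_iff_frequently_nhdsNE] at hacc
    exact hacc.mono h
  exact h1.eqOn_zero_of_preconnected_of_frequently_eq_zero
    (convex_ball c r).isPreconnected (closedBall_subset_ball hr' hz₀) h2

/-- The implicit function in three variables, with uniform radius. -/
theorem pack3 (P : MvPolynomial (Fin 4) ℂ) {q0 q1 p0 p1 : ℂ} (h0 : ev P q0 q1 p0 p1 = 0)
    (h1 : ev (pderiv 1 P) q0 q1 p0 p1 ≠ 0) (h3 : ev (pderiv 3 P) q0 q1 p0 p1 ≠ 0) :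
    ∃ (Θ : ℂ × ℂ × ℂ → ℂ) (r : ℝ), 0 < r ∧ Θ (q0, p0, p1) = q1 ∧
      (∀ u ∈ ball ((q0, p0, p1) : ℂ × ℂ × ℂ) r, DifferentiableAt ℂ Θ u ∧
        ev P u.1 (Θ u) u.2.1 u.2.2 = 0 ∧ ev (pderiv 1 P) u.1 (Θ u) u.2.1 u.2.2 ≠ 0 ∧
        ev (pderiv 3 P) u.1 (Θ u) u.2.1 u.2.2 ≠ 0) ∧
      (∀ u ∈ ball ((q0, p0, p1) : ℂ × ℂ × ℂ) r, ∀ x, dist x q1 < r →
        ev P u.1 x u.2.1 u.2.2 = 0 → x = Θ u) := by
  obtain ⟨Θ, hΘc, hΘ0, hΘe, hΘu⟩ := pack P h0 h1
  let ι : ℂ × ℂ × ℂ → ℂ × ℂ × ℂ × ℂ := fun u => (u.1, u.2.1, u.2.2, 0)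
  have hιd : Differentiable ℂ ι := by
    intro u
    fun_prop
  have hιc : Continuous ι := hιd.continuous
  have hι0 : ι (q0, p0, p1) = (q0, p0, p1, 0) := rfl
  have hιt : Tendsto ι (𝓝 (q0, p0, p1)) (𝓝 (q0, p0, p1, 0)) := by
    rw [← hι0]
    exact hιc.continuousAt.tendsto
  have hΘn : ∀ᶠ u in 𝓝 ((q0, p0, p1, 0) : ℂ × ℂ × ℂ × ℂ), ContDiffAt ℂ ω Θ u :=
    hΘc.eventually (by simp)
  have hcont : ContinuousAt (fun u => Θ (ι u)) (q0, p0, p1) := by
    apply ContinuousAt.comp (g := Θ) _ hιc.continuousAt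
    rw [hι0]
    exact hΘc.continuousAt
  have hd : ∀ Q : MvPolynomial (Fin 4) ℂ,
      ContinuousAt (fun u : ℂ × ℂ × ℂ => ev Q u.1 (Θ (ι u)) u.2.1 u.2.2) (q0, p0, p1) := by
    intro Q
    exact continuousAt_ev Q continuousAt_fst hcont
      (continuous_fst.comp continuous_snd).continuousAt
      (continuous_snd.comp continuous_snd).continuousAt
  have hne1 : ∀ᶠ u : ℂ × ℂ × ℂ in 𝓝 (q0, p0, p1),
      ev (pderiv 1 P) u.1 (Θ (ι u)) u.2.1 u.2.2 ≠ 0 := by
    apply (hd (pderiv 1 P)).eventually_ne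
    simp only [hι0, hΘ0]
    exact h1
  have hne3 : ∀ᶠ u : ℂ × ℂ × ℂ in 𝓝 (q0, p0, p1),
      ev (pderiv 3 P) u.1 (Θ (ι u)) u.2.1 u.2.2 ≠ 0 := by
    apply (hd (pderiv 3 P)).eventually_ne
    simp only [hι0, hΘ0]
    exact h3
  have hall : ∀ᶠ u in 𝓝 ((q0, p0, p1) : ℂ × ℂ × ℂ), (ContDiffAt ℂ ω Θ (ι u) ∧
      ev P (ι u).1 (Θ (ι u)) (ι u).2.1 (ι u).2.2.1 = (ι u).2.2.2) ∧
      ev (pderiv 1 P) u.1 (Θ (ι u)) u.2.1 u.2.2 ≠ 0 ∧
      ev (pderiv 3 P) u.1 (Θ (ι u)) u.2.1 u.2.2 ≠ 0 :=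
    ((hιt.eventually hΘn).and (hιt.eventually hΘe)).and (hne1.and hne3)
  obtain ⟨r₁, hr₁, hr₁p⟩ := Metric.eventually_nhds_iff.1 hall
  obtain ⟨r₂, hr₂, hr₂p⟩ := Metric.eventually_nhds_iff.1 hΘu
  refine ⟨fun u => Θ (ι u), min r₁ r₂, lt_min hr₁ hr₂, ?_, ?_, ?_⟩
  · simp only [hι0, hΘ0]
  · intro u hu
    have hu1 : dist u (q0, p0, p1) < r₁ := lt_of_lt_of_le hu (min_le_left _ _)
    obtain ⟨⟨a1, a2⟩, a3, a4⟩ := hr₁p hu1
    refine ⟨?_, a2, a3, a4⟩
    exact DifferentiableAt.comp (g := Θ) u (a1.differentiableAt (by simp)) (hιd u)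
  · intro u hu x hx he
    have hu2 : dist u (q0, p0, p1) < r₂ := lt_of_lt_of_le hu (min_le_right _ _)
    have h4 : dist ((ι u, x) : (ℂ × ℂ × ℂ × ℂ) × ℂ) ((q0, p0, p1, 0), q1) < r₂ := by
      rw [Prod.dist_eq, max_lt_iff]
      refine ⟨?_, lt_of_lt_of_le hx (min_le_right _ _)⟩
      simp only [Prod.dist_eq, max_lt_iff, ι, dist_self] at hu2 ⊢
      exact ⟨hu2.1, hu2.2.1, hu2.2.2, hr₂⟩
    exact hr₂p h4 he

theorem differentiableAt_ev {E' : Type} [NormedAddCommGroup E'] [NormedSpace ℂ E']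
    (Q : MvPolynomial (Fin 4) ℂ) {a x b v : E' → ℂ} {s : E'}
    (ha : DifferentiableAt ℂ a s) (hx : DifferentiableAt ℂ x s) (hb : DifferentiableAt ℂ b s)
    (hv : DifferentiableAt ℂ v s) :
    DifferentiableAt ℂ (fun t => ev Q (a t) (x t) (b t) (v t)) s := by
  induction Q using MvPolynomial.induction_on with
  | C c =>
    have : (fun t => ev (C c) (a t) (x t) (b t) (v t)) = fun _ => c := by
      funext t
      simp [ev]
    rw [this]
    exact differentiableAt_const c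
  | add p q hp hq =>
    have : (fun t => ev (p + q) (a t) (x t) (b t) (v t)) =
        fun t => ev p (a t) (x t) (b t) (v t) + ev q (a t) (x t) (b t) (v t) := by
      funext t
      simp [ev]
    rw [this]
    exact hp.add hq
  | mul_X p i hp =>
    have key : ∀ (g : E' → ℂ), DifferentiableAt ℂ g s →
        (∀ t, g t = ![a t, x t, b t, v t] i) →
        DifferentiableAt ℂ (fun t => ev (p * X i) (a t) (x t) (b t) (v t)) s := by
      intro g hg hgt
      have : (fun t => ev (p * X i) (a t) (x t) (b t) (v t)) =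
          fun t => ev p (a t) (x t) (b t) (v t) * g t := by
        funext t
        simp [ev, hgt t]
      rw [this]
      exact hp.mul hg
    fin_cases i
    · exact key a ha (fun t => by simp)
    · exact key x hx (fun t => by simp)
    · exact key b hb (fun t => by simp)
    · exact key v hv (fun t => by simp)

theorem const_on_ball {f : ℂ → ℂ} {c : ℂ} {r : ℝ} (h : ∀ z ∈ ball c r, HasDerivAt f 0 z) :
    ∀ z ∈ ball c r, f z = f c := by
  intro z hz
  have hr : 0 < r := lt_of_le_of_lt dist_nonneg hz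
  have h2 := (convex_ball c r).norm_image_sub_le_of_norm_hasDerivWithin_le
    (f := f) (f' := fun _ => 0) (C := 0) (x := c) (y := z)
    (fun w hw => (h w hw).hasDerivWithinAt) (fun w _ => by simp) (mem_ball_self hr) hz
  rw [zero_mul] at h2
  exact sub_eq_zero.1 (norm_le_zero_iff.1 h2)

/-- The Segre curves lie in the zero set of a real polynomial with vanishing Levi form. -/
theorem flat {P : MvPolynomial (Fin 4) ℂ} (hP : Herm P) {q0 q1 : ℂ}
    (h0 : rho P q0 q1 = 0)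
    (h1 : ev (pderiv 1 P) q0 q1 (conj q0) (conj q1) ≠ 0)
    (hL : ∀ᶠ z : ℂ × ℂ in 𝓝 (q0, q1), rho P z.1 z.2 = 0 →
      Lv P z.1 z.2 (conj z.1) (conj z.2) = 0) {δ : ℝ} (hδ : 0 < δ) :
    ∃ r : ℝ, 0 < r ∧ ∀ x', dist x' q1 < r → rho P q0 x' = 0 → ∃ θ : ℂ → ℂ,
      DifferentiableOn ℂ θ (ball q0 r) ∧ θ q0 = x' ∧
      (∀ a ∈ ball q0 r, ev P a (θ a) (conj q0) (conj x') = 0) ∧
      (∀ a ∈ ball q0 r, ∀ c ∈ ball q0 r, ev P a (θ a) (conj c) (conj (θ c)) = 0) ∧
      (∀ a ∈ ball q0 r, dist (θ a) q1 < δ) := by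
  have h0' : ev P q0 q1 (conj q0) (conj q1) = 0 := by
    rw [rho_eq hP, h0]
    simp
  have h3 : ev (pderiv 3 P) q0 q1 (conj q0) (conj q1) ≠ 0 := by
    rw [hP.p3]
    simpa using h1
  obtain ⟨Θ, r₀, hr₀, hΘ0, hΘ, hΘu⟩ := pack3 P h0' h1 h3
  obtain ⟨p0, hp0⟩ : ∃ p0, p0 = conj q0 := ⟨_, rfl⟩
  obtain ⟨p1, hp1⟩ : ∃ p1, p1 = conj q1 := ⟨_, rfl⟩
  rw [← hp0] at h0' h1 h3 hΘ0 hΘ hΘu ⊢
  rw [← hp1] at h0' h1 h3 hΘ0 hΘ hΘu
  have hdc : ∀ x y : ℂ, dist (conj x) (conj y) = dist x y := by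
    intro x y
    rw [dist_eq_norm, dist_eq_norm, ← map_sub, RCLike.norm_conj]
  have hmem : ∀ (a b v : ℂ) (r : ℝ), ((a, b, v) : ℂ × ℂ × ℂ) ∈ ball ((q0, p0, p1) : ℂ × ℂ × ℂ) r ↔
      dist a q0 < r ∧ dist b p0 < r ∧ dist v p1 < r := by
    intro a b v r
    rw [mem_ball, Prod.dist_eq, max_lt_iff, Prod.dist_eq, max_lt_iff]
  obtain ⟨r₁, hr₁, hr₁L⟩ := Metric.eventually_nhds_iff.1 hL
  -- step 2a
  set r₂ := min r₀ r₁ with hr₂
  have hr₂0 : 0 < r₂ := lt_min hr₀ hr₁
  have hr₂₀ : r₂ ≤ r₀ := min_le_left _ _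
  let Λ : ℂ × ℂ × ℂ → ℂ := fun u => Lv P u.1 (Θ u) u.2.1 u.2.2
  have hevd : ∀ (Q : MvPolynomial (Fin 4) ℂ), ∀ u ∈ ball ((q0, p0, p1) : ℂ × ℂ × ℂ) r₀,
      DifferentiableAt ℂ (fun u : ℂ × ℂ × ℂ => ev Q u.1 (Θ u) u.2.1 u.2.2) u := by
    intro Q u hu
    exact differentiableAt_ev Q differentiableAt_fst (hΘ u hu).1 (by fun_prop) (by fun_prop)
  have hΛd : ∀ u ∈ ball ((q0, p0, p1) : ℂ × ℂ × ℂ) r₀, DifferentiableAt ℂ Λ u := by
    intro u hu
    have e : ∀ Q, DifferentiableAt ℂ (fun u : ℂ × ℂ × ℂ => ev Q u.1 (Θ u) u.2.1 u.2.2) u :=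
      fun Q => hevd Q u hu
    exact ((((((e _).mul (e _)).mul (e _)).sub (((e _).mul (e _)).mul (e _))).sub
      (((e _).mul (e _)).mul (e _)))).add (((e _).mul (e _)).mul (e _))
  have s2a : ∀ a x : ℂ, dist a q0 < r₂ → dist x q1 < r₂ → rho P a x = 0 →
      Λ (a, conj a, conj x) = 0 := by
    intro a x ha hx hax
    have hu : ((a, conj a, conj x) : ℂ × ℂ × ℂ) ∈ ball ((q0, p0, p1) : ℂ × ℂ × ℂ) r₀ := by
      rw [hmem, hp0, hp1, hdc, hdc]
      exact ⟨lt_of_lt_of_le ha hr₂₀, lt_of_lt_of_le ha hr₂₀, lt_of_lt_of_le hx hr₂₀⟩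
    have he : x = Θ (a, conj a, conj x) := hΘu _ hu x (lt_of_lt_of_le hx hr₂₀) (by
      have := rho_eq hP a x
      rw [hax] at this
      simpa using this)
    have h4 := hr₁L (y := (a, x)) (by
      rw [Prod.dist_eq, max_lt_iff]
      exact ⟨lt_of_lt_of_le ha (min_le_right _ _), lt_of_lt_of_le hx (min_le_right _ _)⟩) hax
    simp only [Λ]
    rw [← he]
    exact h4
  -- step 2b
  obtain ⟨r₃, hr₃, hr₃i⟩ := Metric.eventually_nhds_iff.1
    (slice_infinite hP h0 (by rw [← hp0, ← hp1]; exact h1) (half_pos hr₂0))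
  have s2b : ∀ a : ℂ, dist a q0 < r₂ → dist a q0 < r₃ → ∀ v ∈ ball p1 r₂,
      Λ (a, conj a, v) = 0 := by
    intro a ha ha3
    have hdist : dist (conj a) p0 < r₂ := by rw [hp0, hdc]; exact ha
    have hg : DifferentiableOn ℂ (fun v => Λ (a, conj a, v)) (ball p1 r₂) := by
      intro v hv
      have hu : ((a, conj a, v) : ℂ × ℂ × ℂ) ∈ ball ((q0, p0, p1) : ℂ × ℂ × ℂ) r₀ := by
        rw [hmem]
        exact ⟨lt_of_lt_of_le ha hr₂₀, lt_of_lt_of_le hdist hr₂₀, lt_of_lt_of_le hv hr₂₀⟩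
      exact (DifferentiableAt.comp (g := Λ) v (hΛd _ hu) (by fun_prop)).differentiableWithinAt
    have hinf := (hr₃i ha3).image (f := fun x : ℂ => conj x)
      (fun x _ y _ hxy => (starRingEnd ℂ).injective hxy)
    refine zero_of_infinite (r' := r₂ / 2) (by linarith) hg hinf ?_ ?_
    · rintro _ ⟨x, hx, rfl⟩
      rw [mem_closedBall, hp1, hdc]
      exact hx.1.le
    · rintro _ ⟨x, hx, rfl⟩
      exact s2a a x ha (lt_trans hx.1 (by linarith)) hx.2
  -- step 2d
  set R := min r₂ r₃ / 2 with hR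
  have hm0 : 0 < min r₂ r₃ := lt_min hr₂0 hr₃
  have hR0 : 0 < R := by positivity
  have h2R2 : 2 * R ≤ r₂ := by
    rw [hR]
    have : min r₂ r₃ ≤ r₂ := min_le_left _ _
    linarith
  have h2R3 : 2 * R ≤ r₃ := by
    rw [hR]
    have : min r₂ r₃ ≤ r₃ := min_le_right _ _
    linarith
  have hRr0 : R ≤ r₀ := by linarith
  have hnst : ∀ s t : ℂ, ‖s‖ < R → ‖t‖ < R → ‖s + Complex.I * t‖ < 2 * R ∧
      ‖s - Complex.I * t‖ < 2 * R := by
    intro s t hs ht
    have h4 : ‖Complex.I * t‖ = ‖t‖ := by rw [norm_mul, Complex.norm_I, one_mul]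
    constructor
    · have := norm_add_le s (Complex.I * t)
      linarith
    · have := norm_sub_le s (Complex.I * t)
      linarith
  have hst : ∀ v ∈ ball p1 r₂, ∀ s t : ℂ, ‖s‖ < R → ‖t‖ < R →
      DifferentiableAt ℂ Λ (q0 + (s + Complex.I * t), p0 + (s - Complex.I * t), v) := by
    intro v hv s t hs ht
    apply hΛd
    rw [hmem]
    refine ⟨?_, ?_, lt_of_lt_of_le hv hr₂₀⟩
    · rw [dist_eq_norm, add_sub_cancel_left]
      have := (hnst s t hs ht).1
      linarith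
    · rw [dist_eq_norm, add_sub_cancel_left]
      have := (hnst s t hs ht).2
      linarith
  have s2d : ∀ v ∈ ball p1 r₂, ∀ s t : ℂ, ‖s‖ < R → ‖t‖ < R →
      Λ (q0 + (s + Complex.I * t), p0 + (s - Complex.I * t), v) = 0 := by
    intro v hv
    have e1 : ∀ s : ℝ, |s| < R → ∀ t ∈ ball (0 : ℂ) R,
        Λ (q0 + ((s : ℂ) + Complex.I * t), p0 + ((s : ℂ) - Complex.I * t), v) = 0 := by
      intro s hs
      have hs' : ‖(s : ℂ)‖ < R := by rwa [Complex.norm_real]
      apply zero_of_real hR0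
      · intro t ht
        rw [mem_ball_zero_iff] at ht
        exact (DifferentiableAt.comp (g := Λ) t (hst v hv s t hs' ht)
          (by fun_prop)).differentiableWithinAt
      · intro t ht
        have ht' : ‖(t : ℂ)‖ < R := by rwa [Complex.norm_real]
        have h4 : p0 + ((s : ℂ) - Complex.I * t) = conj (q0 + ((s : ℂ) + Complex.I * t)) := by
          rw [hp0]
          simp
          ring
        rw [h4]
        have h5 := (hnst s t hs' ht').1
        apply s2b _ _ _ v hv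
        · rw [dist_eq_norm, add_sub_cancel_left]
          linarith
        · rw [dist_eq_norm, add_sub_cancel_left]
          linarith
    intro s t hs ht
    have e2 := zero_of_real hR0 (g := fun s : ℂ =>
      Λ (q0 + (s + Complex.I * t), p0 + (s - Complex.I * t), v)) (by
        intro s hs
        rw [mem_ball_zero_iff] at hs
        exact (DifferentiableAt.comp (g := Λ) s (hst v hv s t hs ht)
          (by fun_prop)).differentiableWithinAt) (by
        intro s hs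
        exact e1 s hs t (by rwa [mem_ball_zero_iff]))
    exact e2 s (by rwa [mem_ball_zero_iff])
  have s2 : ∀ a b v : ℂ, dist a q0 < R → dist b p0 < R → dist v p1 < r₂ → Λ (a, b, v) = 0 := by
    intro a b v ha hb hv
    rw [dist_eq_norm] at ha hb
    set s := ((a - q0) + (b - p0)) / 2 with hs
    set t := ((a - q0) - (b - p0)) / (2 * Complex.I) with ht
    have hs' : ‖s‖ < R := by
      rw [hs, norm_div]
      have := norm_add_le (a - q0) (b - p0)
      simp only [Complex.norm_ofNat]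
      linarith
    have ht' : ‖t‖ < R := by
      rw [ht, norm_div]
      have := norm_sub_le (a - q0) (b - p0)
      simp only [norm_mul, Complex.norm_ofNat, Complex.norm_I, mul_one]
      linarith
    have hI : Complex.I * t = ((a - q0) - (b - p0)) / 2 := by
      rw [ht]
      field_simp [Complex.I_ne_zero]
    have h4 := s2d v hv s t hs' ht'
    have e1 : q0 + (s + Complex.I * t) = a := by
      rw [hI, hs]
      ring
    have e2 : p0 + (s - Complex.I * t) = b := by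
      rw [hI, hs]
      ring
    rw [e1, e2] at h4
    exact h4
  have hRr2 : R ≤ r₂ := by linarith
  -- step 3
  have s3 : ∀ b v : ℂ, dist b p0 < R → dist v p1 < R → ∀ a ∈ ball q0 R,
      ev (pderiv 2 P) a (Θ (a, b, v)) b v / ev (pderiv 3 P) a (Θ (a, b, v)) b v
      = ev (pderiv 2 P) q0 (Θ (q0, b, v)) b v / ev (pderiv 3 P) q0 (Θ (q0, b, v)) b v := by
    intro b v hb hv
    apply const_on_ball
    intro a ha
    have hu : ∀ a ∈ ball q0 R, ((a, b, v) : ℂ × ℂ × ℂ) ∈ ball ((q0, p0, p1) : ℂ × ℂ × ℂ) r₀ := by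
      intro a ha
      rw [hmem]
      exact ⟨lt_of_lt_of_le ha hRr0, lt_of_lt_of_le hb hRr0, lt_of_lt_of_le hv hRr0⟩
    obtain ⟨k1, k2, k3, k4⟩ := hΘ _ (hu a ha)
    have hd : HasDerivAt (fun a => Θ (a, b, v)) (deriv (fun a => Θ (a, b, v)) a) a := by
      apply DifferentiableAt.hasDerivAt
      exact DifferentiableAt.comp (g := Θ) a k1 (by fun_prop)
    set d := deriv (fun a => Θ (a, b, v)) a with hddef
    have f0 := hasDerivAt_ev (𝕜 := ℂ) P (hasDerivAt_id a) hd (hasDerivAt_const a b)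
      (hasDerivAt_const a v)
    have f2 := hasDerivAt_ev (𝕜 := ℂ) (pderiv 2 P) (hasDerivAt_id a) hd (hasDerivAt_const a b)
      (hasDerivAt_const a v)
    have f3 := hasDerivAt_ev (𝕜 := ℂ) (pderiv 3 P) (hasDerivAt_id a) hd (hasDerivAt_const a b)
      (hasDerivAt_const a v)
    simp only [id] at f0 f2 f3
    have f0' : HasDerivAt (fun a => ev P a (Θ (a, b, v)) b v) 0 a := by
      apply (hasDerivAt_const a (0 : ℂ)).congr_of_eventuallyEq
      filter_upwards [isOpen_ball.mem_nhds ha] with c hc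
      exact (hΘ _ (hu c hc)).2.1
    have f4 := f0.unique f0'
    refine (f2.div f3 k4).congr_deriv ?_
    have hΛ0 := s2 a b v ha hb (lt_of_lt_of_le hv hRr2)
    simp only [Λ, Lv] at hΛ0
    rw [div_eq_zero_iff]
    left
    apply mul_left_cancel₀ k3
    rw [mul_zero]
    linear_combination hΛ0 + (ev (pderiv 1 (pderiv 2 P)) a (Θ (a, b, v)) b v *
      ev (pderiv 3 P) a (Θ (a, b, v)) b v - ev (pderiv 2 P) a (Θ (a, b, v)) b v *
      ev (pderiv 1 (pderiv 3 P)) a (Θ (a, b, v)) b v) * f4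
  -- step 4
  have hΘcont : ContinuousAt Θ (q0, p0, p1) :=
    (hΘ _ (mem_ball_self hr₀)).1.continuousAt
  rw [Metric.continuousAt_iff] at hΘcont
  obtain ⟨R₁, hR₁, hR₁c⟩ := hΘcont (min R δ) (lt_min hR0 hδ)
  rw [hΘ0] at hR₁c
  set r := min R R₁ with hr
  have hr0 : 0 < r := lt_min hR0 hR₁
  have hrR : r ≤ R := min_le_left _ _
  have hrr0 : r ≤ r₀ := hrR.trans hRr0
  refine ⟨r, hr0, ?_⟩
  intro x' hx' hρx'
  obtain ⟨y', hy'⟩ : ∃ y', y' = conj x' := ⟨_, rfl⟩
  have hy'd : dist y' p1 < r := by rw [hy', hp1, hdc]; exact hx'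
  rw [← hy']
  let θ : ℂ → ℂ := fun a => Θ (a, p0, y')
  have hum : ∀ a ∈ ball q0 r, ∀ ρ : ℝ, r ≤ ρ → ((a, p0, y') : ℂ × ℂ × ℂ) ∈
      ball ((q0, p0, p1) : ℂ × ℂ × ℂ) ρ := by
    intro a ha ρ hρ
    rw [hmem, dist_self]
    exact ⟨lt_of_lt_of_le ha hρ, lt_of_lt_of_le hr0 hρ, lt_of_lt_of_le hy'd hρ⟩
  have hθd : ∀ a ∈ ball q0 r, HasDerivAt θ (deriv θ a) a := by
    intro a ha
    apply DifferentiableAt.hasDerivAt
    exact DifferentiableAt.comp (g := Θ) a (hΘ _ (hum a ha _ hrr0)).1 (by fun_prop)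
  have hθn : ∀ a ∈ ball q0 r, dist (θ a) q1 < min R δ := by
    intro a ha
    exact hR₁c (hum a ha _ (min_le_right _ _))
  have hθe : ∀ a ∈ ball q0 r, ev P a (θ a) p0 y' = 0 := fun a ha =>
    (hΘ _ (hum a ha _ hrr0)).2.1
  have hx'e : ev P q0 x' p0 y' = 0 := by
    have := rho_eq hP q0 x'
    rw [hρx', ← hp0, ← hy'] at this
    simpa using this
  have hθ0 : θ q0 = x' :=
    (hΘu _ (hum q0 (mem_ball_self hr0) _ hrr0) x' (lt_of_lt_of_le hx' hrr0) hx'e).symm
  let V : ℂ → ℂ := fun b => conj (θ (conj b))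
  have hcb : ∀ b ∈ ball p0 r, conj b ∈ ball q0 r := by
    intro b hb
    rw [mem_ball, hp0] at hb
    rw [mem_ball, ← hdc, Complex.conj_conj]
    exact hb
  have hVd : ∀ b ∈ ball p0 r, HasDerivAt V (conj (deriv θ (conj b))) b := by
    intro b hb
    have h4 := (hθd _ (hcb b hb)).conj_conj
    rw [Complex.conj_conj] at h4
    exact h4
  have hVn : ∀ b ∈ ball p0 r, dist (V b) p1 < R := by
    intro b hb
    simp only [V]
    rw [hp1, hdc]
    exact lt_of_lt_of_le (hθn _ (hcb b hb)) (min_le_left _ _)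
  have hVe : ∀ b ∈ ball p0 r, ev P q0 x' b (V b) = 0 := by
    intro b hb
    have h4 := congrArg conj (hθe _ (hcb b hb))
    rw [hP, Complex.conj_conj, hp0, Complex.conj_conj, hy', Complex.conj_conj, map_zero] at h4
    exact h4
  have hK : ∀ a ∈ ball q0 r, ∀ b ∈ ball p0 r, ev P a (θ a) b (V b) = 0 := by
    intro a ha
    have haR : a ∈ ball q0 R := lt_of_lt_of_le ha hrR
    have hub : ∀ c ∈ ball q0 R, ∀ b ∈ ball p0 r, ((c, b, V b) : ℂ × ℂ × ℂ) ∈
        ball ((q0, p0, p1) : ℂ × ℂ × ℂ) r₀ := by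
      intro c hc b hb
      rw [hmem]
      exact ⟨lt_of_lt_of_le hc hRr0, lt_of_lt_of_le hb hrr0, lt_of_lt_of_le (hVn b hb) hRr0⟩
    have hX : ∀ b ∈ ball p0 r, Θ (a, b, V b) = Θ (a, p0, V p0) := by
      apply const_on_ball (f := fun b => Θ (a, b, V b))
      intro b hb
      obtain ⟨k1, k2, k3, k4⟩ := hΘ _ (hub a haR b hb)
      have hXd : HasDerivAt (fun b => Θ (a, b, V b)) (deriv (fun b => Θ (a, b, V b)) b) b := by
        apply DifferentiableAt.hasDerivAt
        exact DifferentiableAt.comp (g := Θ) b k1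
          ((differentiableAt_const _).prodMk (differentiableAt_id.prodMk
            (hVd b hb).differentiableAt))
      set e := deriv (fun b => Θ (a, b, V b)) b with he
      set V' := conj (deriv θ (conj b)) with hV'
      -- first identity
      have g1 := hasDerivAt_ev (𝕜 := ℂ) P (hasDerivAt_const b q0) (hasDerivAt_const b x')
        (hasDerivAt_id b) (hVd b hb)
      simp only [id] at g1
      have g1' : HasDerivAt (fun b => ev P q0 x' b (V b)) 0 b := by
        apply (hasDerivAt_const b (0 : ℂ)).congr_of_eventuallyEq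
        filter_upwards [isOpen_ball.mem_nhds hb] with c hc
        exact hVe c hc
      have g2 := g1.unique g1'
      have hx'Θ : x' = Θ (q0, b, V b) :=
        hΘu _ (hub q0 (mem_ball_self hR0) b hb) x' (lt_of_lt_of_le hx' hrr0) (hVe b hb)
      -- second identity
      have g3 := hasDerivAt_ev (𝕜 := ℂ) P (hasDerivAt_const b a) hXd
        (hasDerivAt_id b) (hVd b hb)
      simp only [id] at g3
      have g3' : HasDerivAt (fun b => ev P a (Θ (a, b, V b)) b (V b)) 0 b := by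
        apply (hasDerivAt_const b (0 : ℂ)).congr_of_eventuallyEq
        filter_upwards [isOpen_ball.mem_nhds hb] with c hc
        exact (hΘ _ (hub a haR c hc)).2.1
      have g4 := g3.unique g3'
      have g5 := s3 b (V b) (lt_of_lt_of_le hb hrR) (hVn b hb) a haR
      obtain ⟨l1, l2, l3, l4⟩ := hΘ _ (hub q0 (mem_ball_self hR0) b hb)
      simp only at k3 k4 l3 l4
      rw [div_eq_div_iff k4 l4] at g5
      rw [hx'Θ] at g2
      simp only [zero_mul, one_mul, zero_add] at g2 g4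
      -- g2 : P₂ + V' P₃ = 0 at (q0, ..), g4 : e P₁ + P₂ + V' P₃ = 0 at (a, ..)
      have g6 : e = 0 := by
        apply mul_right_cancel₀ (mul_ne_zero k3 l4)
        rw [zero_mul]
        linear_combination (ev (pderiv 3 P) q0 (Θ (q0, b, V b)) b (V b)) * g4 - g5
          - (ev (pderiv 3 P) a (Θ (a, b, V b)) b (V b)) * g2
      rw [g6] at hXd
      exact hXd
    intro b hb
    have h4 := hX b hb
    have h5 : V p0 = y' := by
      simp only [V]
      rw [hp0, Complex.conj_conj, hθ0, hy']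
    rw [h5] at h4
    have h6 := (hΘ _ (hub a haR b hb)).2.1
    simp only at h6
    rw [h4] at h6
    exact h6
  refine ⟨θ, fun a ha => (hθd a ha).differentiableAt.differentiableWithinAt, hθ0, hθe, ?_,
    fun a ha => lt_of_lt_of_le (hθn a ha) (min_le_right _ _)⟩
  intro a ha c hc
  have hca : conj c ∈ ball p0 r := by
    rw [mem_ball, hp0, hdc]
    exact hc
  have h4 := hK a ha (conj c) hca
  simp only [V, Complex.conj_conj] at h4
  exact h4

end Pool.Agent.X882.FB
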