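import Pool.Agent.X882.FB.Roots
import Pool.Agent.X882.FB.Flat
import Pool.Agent.X882.FB.Omit

/-!
Zeros of an irreducible polynomial near a given zero, on nearby vertical lines; local facts on
real hypersurfaces.
-/

set_option autoImplicit false

namespace Pool.Agent.X882.FB

open Filter Metric Set Topology Polynomial
open scoped ContDiff

/-- zeros persist under perturbation of the parameter -/
theorem persist {f : ℂ × ℂ → ℂ} (hf : Continuous f)
    (hd : ∀ z, Differentiable ℂ (fun x => f (z, x))) {z₀ x₀ : ℂ} (h0 : f (z₀, x₀) = 0)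
    (hne : ∀ᶠ x in 𝓝[≠] x₀, f (z₀, x) ≠ 0) {r : ℝ} (hr : 0 < r) :
    ∀ᶠ z in 𝓝 z₀, ∃ x, dist x x₀ < r ∧ f (z, x) = 0 := by
  rw [eventually_nhdsWithin_iff, Metric.eventually_nhds_iff] at hne
  obtain ⟨r₁, hr₁, hr₁n⟩ := hne
  obtain ⟨s, hs0, hs⟩ : ∃ s : ℝ, 0 < s ∧ s < min r r₁ := exists_between (lt_min hr hr₁)
  have hsr : s < r := lt_of_lt_of_le hs (min_le_left _ _)
  have hsr₁ : s < r₁ := lt_of_lt_of_le hs (min_le_right _ _)
  have hsph : ∀ x ∈ sphere x₀ s, f (z₀, x) ≠ 0 := by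
    intro x hx
    rw [mem_sphere] at hx
    apply hr₁n (by rw [hx]; exact hsr₁)
    rintro rfl
    rw [dist_self] at hx
    linarith
  have hc0 : Continuous (fun x => ‖f (z₀, x)‖) := by fun_prop
  obtain ⟨x₁, hx₁, hmin⟩ := (isCompact_sphere x₀ s).exists_isMinOn
    (NormedSpace.sphere_nonempty.2 hs0.le) hc0.continuousOn
  set m := ‖f (z₀, x₁)‖ with hm
  have hm0 : 0 < m := norm_pos_iff.2 (hsph x₁ hx₁)
  have hev : ∀ᶠ z in 𝓝 z₀, ∀ x ∈ sphere x₀ s, m / 2 < ‖f (z, x)‖ := by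
    apply (isCompact_sphere x₀ s).eventually_forall_of_forall_eventually
    intro x hx
    have h2 : m / 2 < ‖f (z₀, x)‖ := by
      have : m ≤ ‖f (z₀, x)‖ := hmin hx
      linarith
    have h3 : ContinuousAt (fun p : ℂ × ℂ => ‖f (p.1, p.2)‖) (z₀, x) := by
      have : Continuous (fun p : ℂ × ℂ => ‖f (p.1, p.2)‖) := by fun_prop
      exact this.continuousAt
    exact continuousAt_const.eventually_lt h3 h2
  have hev2 : ∀ᶠ z in 𝓝 z₀, ‖f (z, x₀)‖ < m / 2 := by
    have h3 : ContinuousAt (fun z => ‖f (z, x₀)‖) z₀ := by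
      have : Continuous (fun z => ‖f (z, x₀)‖) := by fun_prop
      exact this.continuousAt
    exact h3.eventually_lt continuousAt_const (by rw [h0, norm_zero]; linarith)
  filter_upwards [hev, hev2] with z hz1 hz2
  by_contra hcon
  push Not at hcon
  have hcb : ∀ x ∈ closedBall x₀ s, f (z, x) ≠ 0 := by
    intro x hx
    exact hcon x (lt_of_le_of_lt hx hsr)
  have hdd : DiffContOnCl ℂ (fun x => (f (z, x))⁻¹) (ball x₀ s) := by
    apply DifferentiableOn.diffContOnCl
    rw [closure_ball _ hs0.ne']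
    intro x hx
    exact ((hd z x).inv (hcb x hx)).differentiableWithinAt
  have h2 := Complex.norm_le_of_forall_mem_frontier_norm_le isBounded_ball hdd (C := (m / 2)⁻¹) (by
    intro x hx
    rw [frontier_ball _ hs0.ne'] at hx
    rw [norm_inv]
    exact inv_anti₀ (by linarith) (hz1 x hx).le) (z := x₀) (by
    rw [closure_ball _ hs0.ne']
    exact mem_closedBall_self hs0.le)
  rw [norm_inv] at h2
  have h3 : 0 < ‖f (z, x₀)‖ := norm_pos_iff.2 (hcb x₀ (mem_closedBall_self hs0.le))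
  have h4 := (inv_le_inv₀ h3 (by linarith)).1 h2
  linarith

theorem map_eval_ne {T : ℂ[X][X]} (hT : Irreducible T) (hd : T.natDegree ≠ 0) (z : ℂ) :
    T.map (evalRingHom z) ≠ 0 := by
  intro h
  have hprim : T.IsPrimitive := hT.isPrimitive hd
  have h1 : C (X - C z) ∣ T := by
    rw [C_dvd_iff_dvd_coeff]
    intro i
    rw [dvd_iff_isRoot, IsRoot.def]
    have := congrArg (fun p => coeff p i) h
    simpa using this
  have h2 := hprim _ h1
  have h3 := degree_eq_zero_of_isUnit h2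
  rw [degree_X_sub_C] at h3
  exact one_ne_zero h3

theorem exists_zero_near {T : ℂ[X][X]} (hT : Irreducible T) (hd : T.natDegree ≠ 0) {z x : ℂ}
    (h0 : evalEval z x T = 0) {Δ : ℂ[X]} (hΔ : Δ ≠ 0) :
    ∃ᶠ w : ℂ × ℂ in 𝓝 (z, x), evalEval w.1 w.2 T = 0 ∧ Δ.eval w.1 ≠ 0 := by
  have hne : ∀ᶠ x' in 𝓝[≠] x, evalEval z x' T ≠ 0 := by
    have hfin : {x' | evalEval z x' T = 0}.Finite := by
      have : {x' | evalEval z x' T = 0} ⊆ ↑(rt T z) := by
        intro x' hx'
        exact (mem_rt (map_eval_ne hT hd z)).2 hx'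
      exact (Finset.finite_toSet _).subset this
    have hfin2 : ({x' | evalEval z x' T = 0} \ {x}).Finite := hfin.subset sdiff_subset
    have h2 : ({x' | evalEval z x' T = 0} \ {x})ᶜ ∈ 𝓝 x :=
      hfin2.isClosed.isOpen_compl.mem_nhds (by simp)
    filter_upwards [mem_nhdsWithin_of_mem_nhds h2, self_mem_nhdsWithin] with x' h3 h4 h5
    exact h3 ⟨h5, h4⟩
  have hΔe : ∃ᶠ z' in 𝓝 z, Δ.eval z' ≠ 0 := by
    intro hcon
    simp only [not_not] at hcon
    have h1 := zero_of_near (E := ℂ) Δ.differentiable hcon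
    exact hΔ (Polynomial.funext (fun z => by rw [h1 z, eval_zero]))
  rw [Metric.nhds_basis_ball.frequently_iff]
  intro r hr
  have h3 := persist (f := fun p => evalEval p.1 p.2 T) (continuous_evalEval T)
    (fun z x => (hasDerivAt_evalEval T z x).differentiableAt) h0 hne hr
  obtain ⟨z', hz1, ⟨x', hx1, hx2⟩, hz2⟩ := (hΔe.and_eventually (h3.and
    (Metric.ball_mem_nhds z hr))).exists
  refine ⟨(z', x'), ?_, hx2, hz1⟩
  rw [mem_ball, Prod.dist_eq, max_lt_iff]
  exact ⟨hz2, hx1⟩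

section

variable {E' : Type} [NormedAddCommGroup E'] [NormedSpace ℝ E']

theorem exists_dir {L : E' →L[ℝ] ℝ} (hL : L ≠ 0) : ∃ v, 0 < L v := by
  by_contra hcon
  push Not at hcon
  apply hL
  ext v
  have h1 := hcon v
  have h2 := hcon (-v)
  rw [map_neg] at h2
  simp only [ContinuousLinearMap.zero_apply]
  linarith

/-- both sides of a level set are approached -/
theorem freq_sides {ρ : E' → ℝ} {w : E'} (hd : DifferentiableAt ℝ ρ w) (hne : fderiv ℝ ρ w ≠ 0) :
    (∃ᶠ w' in 𝓝 w, ρ w' < ρ w) ∧ (∃ᶠ w' in 𝓝 w, ρ w < ρ w') := by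
  obtain ⟨v, hv⟩ := exists_dir hne
  have hline : HasDerivAt (fun t : ℝ => w + t • v) v 0 := by
    have := ((hasDerivAt_id (0 : ℝ)).smul_const v).const_add w
    simpa using this
  have hd' : HasFDerivAt ρ (fderiv ℝ ρ w) ((fun t : ℝ => w + t • v) 0) := by
    simpa using hd.hasFDerivAt
  have h1 : HasDerivAt (fun t : ℝ => ρ (w + t • v)) (fderiv ℝ ρ w v) 0 :=
    hd'.comp_hasDerivAt 0 hline
  obtain ⟨h2, h3⟩ := right_pos h1 hv
  simp only [zero_smul, add_zero] at h2 h3
  have ht : Tendsto (fun t : ℝ => w + t • v) (𝓝 0) (𝓝 w) := by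
    have := hline.continuousAt.tendsto
    simpa using this
  exact ⟨(ht.mono_left nhdsWithin_le_nhds).frequently h3.frequently,
    (ht.mono_left nhdsWithin_le_nhds).frequently h2.frequently⟩

theorem mem_closure_of_zero {Ω : Set E'} {ρ : E' → ℝ} {w : E'}
    (hd : DifferentiableAt ℝ ρ w) (hne : fderiv ℝ ρ w ≠ 0) (h0 : ρ w = 0)
    (hloc : ∀ᶠ z in 𝓝 w, (z ∈ Ω ↔ ρ z < 0)) : w ∈ closure Ω := by
  have h1 := (freq_sides hd hne).1
  rw [h0] at h1
  rw [mem_closure_iff_frequently]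
  exact (h1.and_eventually hloc).mono fun z hz => hz.2.2 hz.1

/-- near a smooth boundary point the boundary is the zero set -/
theorem frontier_iff {Ω : Set E'} (hΩ : IsOpen Ω) {ρ : E' → ℝ} {p : E'}
    (hd : ContDiffAt ℝ 1 ρ p) (hne : fderiv ℝ ρ p ≠ 0)
    (hloc : ∀ᶠ z in 𝓝 p, (z ∈ Ω ↔ ρ z < 0)) : ∀ᶠ w in 𝓝 p, (w ∈ frontier Ω ↔ ρ w = 0) := by
  have h1 : ∀ᶠ w in 𝓝 p, ContDiffAt ℝ 1 ρ w := hd.eventually (by simp)
  have h2 : ∀ᶠ w in 𝓝 p, fderiv ℝ ρ w ≠ 0 :=
    (hd.continuousAt_fderiv (by simp)).eventually_ne hne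
  filter_upwards [h1, h2, hloc.eventually_nhds] with w hw1 hw2 hw3
  constructor
  · intro hw
    have hcl : w ∈ closure Ω := frontier_subset_closure hw
    have hn : w ∉ Ω := by
      intro h
      rw [hΩ.frontier_eq] at hw
      exact hw.2 h
    have h3 : 0 ≤ ρ w := by
      by_contra h
      push Not at h
      exact hn (hw3.self_of_nhds.2 h)
    have h4 : ρ w ≤ 0 := by
      by_contra h
      push Not at h
      have h5 : ∀ᶠ z in 𝓝 w, 0 < ρ z := continuousAt_const.eventually_lt hw1.continuousAt h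
      rw [mem_closure_iff_frequently] at hcl
      obtain ⟨z, hz, hz1, hz2⟩ := (hcl.and_eventually (hw3.and h5)).exists
      have := hz1.1 hz
      linarith
    exact le_antisymm h4 h3
  · intro hw
    rw [hΩ.frontier_eq]
    refine ⟨mem_closure_of_zero (hw1.differentiableAt (by simp)) hw2 hw hw3, fun h => ?_⟩
    have := hw3.self_of_nhds.1 h
    linarith

end

end Pool.Agent.X882.FB
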