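import Pool.Agent.X882.FB.Poly

/-!
The restriction of a real polynomial to the Segre curve through a zero: second order behaviour and
the family of level curves.
-/

set_option autoImplicit false

namespace Pool.Agent.X882.FB

open Filter Metric Set Topology MvPolynomial
open scoped ContDiff ComplexConjugate

/-- Hermitian symmetry: `P(x, ȳ)` is the conjugate of `P(y, x̄)`. -/
def Herm (P : MvPolynomial (Fin 4) ℂ) : Prop :=
  ∀ a x b v, conj (ev P a x b v) = ev P (conj b) (conj v) (conj a) (conj x)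

/-- The complexified Levi determinant. -/
noncomputable def Lv (P : MvPolynomial (Fin 4) ℂ) (a x b v : ℂ) : ℂ :=
  ev (pderiv 0 (pderiv 2 P)) a x b v * ev (pderiv 1 P) a x b v * ev (pderiv 3 P) a x b v
  - ev (pderiv 1 (pderiv 2 P)) a x b v * ev (pderiv 0 P) a x b v * ev (pderiv 3 P) a x b v
  - ev (pderiv 0 (pderiv 3 P)) a x b v * ev (pderiv 1 P) a x b v * ev (pderiv 2 P) a x b v
  + ev (pderiv 1 (pderiv 3 P)) a x b v * ev (pderiv 0 P) a x b v * ev (pderiv 2 P) a x b v

theorem Herm.real {P : MvPolynomial (Fin 4) ℂ} (hP : Herm P) (a x : ℂ) :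
    conj (ev P a x (conj a) (conj x)) = ev P a x (conj a) (conj x) := by
  rw [hP]
  simp

theorem Herm.p3 {P : MvPolynomial (Fin 4) ℂ} (hP : Herm P) (q0 q1 : ℂ) :
    ev (pderiv 3 P) q0 q1 (conj q0) (conj q1)
      = conj (ev (pderiv 1 P) q0 q1 (conj q0) (conj q1)) := by
  have key : ∀ w : ℂ, conj (w * ev (pderiv 1 P) q0 q1 (conj q0) (conj q1)
      + conj w * ev (pderiv 3 P) q0 q1 (conj q0) (conj q1))
      = w * ev (pderiv 1 P) q0 q1 (conj q0) (conj q1)
      + conj w * ev (pderiv 3 P) q0 q1 (conj q0) (conj q1) := by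
    intro w
    have h1 : HasDerivAt (fun t : ℝ => q1 + (t : ℂ) * w) w 0 := by
      have h2 : HasDerivAt (fun t : ℝ => (t : ℂ)) 1 0 := Complex.ofRealCLM.hasDerivAt
      exact ((h2.mul_const w).const_add q1).congr_deriv (by simp)
    have h2 : HasDerivAt (fun t : ℝ => conj (q1 + (t : ℂ) * w)) (conj w) 0 := h1.star
    have h3 := hasDerivAt_ev (𝕜 := ℝ) P (hasDerivAt_const 0 q0) h1
      (hasDerivAt_const 0 (conj q0)) h2
    simp only [Complex.ofReal_zero, zero_mul, add_zero, zero_add] at h3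
    have h4 := h3.star
    have h5 : (fun t : ℝ => star (ev P q0 (q1 + (t : ℂ) * w) (conj q0)
        (conj (q1 + (t : ℂ) * w)))) = fun t : ℝ => ev P q0 (q1 + (t : ℂ) * w) (conj q0)
        (conj (q1 + (t : ℂ) * w)) := by
      funext t
      exact hP.real q0 _
    rw [h5] at h4
    exact h4.unique h3
  have k1 := key 1
  have k2 := key Complex.I
  simp only [map_one, one_mul, map_add, map_mul, Complex.conj_I, map_neg] at k1 k2
  have hI : Complex.I * Complex.I = -1 := Complex.I_mul_I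
  set A := ev (pderiv 1 P) q0 q1 (conj q0) (conj q1)
  set B := ev (pderiv 3 P) q0 q1 (conj q0) (conj q1)
  -- k1 : conj A + conj B = A + B ; k2 : -I conj A + I conj B = I A - I B
  have k3 : Complex.I * (-(conj A) + conj B - A + B) = 0 := by
    simp only [neg_mul] at k2
    linear_combination k2
  have k4 : -(conj A) + conj B - A + B = 0 := by
    rcases mul_eq_zero.1 k3 with h | h
    · exact absurd h Complex.I_ne_zero
    · exact h
  have k5 : 2 * B = 2 * conj A := by linear_combination k4 - k1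
  have h2 : (2 : ℂ) ≠ 0 := two_ne_zero
  exact mul_left_cancel₀ h2 k5

section second

variable {P : MvPolynomial (Fin 4) ℂ} {q0 q1 : ℂ} {θ : ℂ → ℂ}

/-- Second order behaviour along the Segre curve. -/
theorem second (hP : Herm P)
    (h1 : ev (pderiv 1 P) q0 q1 (conj q0) (conj q1) ≠ 0)
    (hθ : ContDiffAt ℂ ω θ 0) (hθ0 : θ 0 = q1)
    (hθe : ∀ᶠ s in 𝓝 (0 : ℂ), ev P (q0 + s) (θ s) (conj q0) (conj q1) = 0)
    {η : ℝ} (hη : 0 < η) :
    ∀ᶠ s in 𝓝 (0 : ℂ), ‖ev P (q0 + s) (θ s) (conj (q0 + s)) (conj (θ s))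
      - Lv P q0 q1 (conj q0) (conj q1) / (ev (pderiv 1 P) q0 q1 (conj q0) (conj q1)
        * ev (pderiv 3 P) q0 q1 (conj q0) (conj q1)) * (s * conj s)‖ ≤ η * ‖s‖ ^ 2 := by
  have hp3 := hP.p3 q0 q1
  set L := Lv P q0 q1 (conj q0) (conj q1) / (ev (pderiv 1 P) q0 q1 (conj q0) (conj q1)
        * ev (pderiv 3 P) q0 q1 (conj q0) (conj q1)) with hL
  have h3 : ev (pderiv 3 P) q0 q1 (conj q0) (conj q1) ≠ 0 := by
    rw [hp3]
    simpa using h1
  -- derivatives of θ near 0
  have hθn : ∀ᶠ s in 𝓝 (0 : ℂ), HasDerivAt θ (deriv θ s) s := by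
    have h2 : ∀ᶠ s in 𝓝 (0 : ℂ), ContDiffAt ℂ ω θ s := hθ.eventually (by simp)
    filter_upwards [h2] with s hs
    exact (hs.differentiableAt (by simp)).hasDerivAt
  have hdc : ContinuousAt (deriv θ) 0 := by
    have h2 : AnalyticAt ℂ θ 0 := hθ.analyticAt
    exact h2.deriv.continuousAt
  have hd0 : deriv θ 0 = - (ev (pderiv 0 P) q0 q1 (conj q0) (conj q1)
      / ev (pderiv 1 P) q0 q1 (conj q0) (conj q1)) := by
    have h2 := hasDerivAt_ev (𝕜 := ℂ) P ((hasDerivAt_id (0 : ℂ)).const_add q0)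
      hθn.self_of_nhds (hasDerivAt_const (0 : ℂ) (conj q0)) (hasDerivAt_const (0 : ℂ) (conj q1))
    have h4 : HasDerivAt (fun s : ℂ => ev P (q0 + id s) (θ s) (conj q0) (conj q1)) 0 0 := by
      apply (hasDerivAt_const (0 : ℂ) (0 : ℂ)).congr_of_eventuallyEq
      filter_upwards [hθe] with s hs
      exact hs
    have h5 := h2.unique h4
    simp only [id, add_zero, hθ0, zero_mul, one_mul] at h5
    rw [← neg_div, eq_div_iff h1]
    linear_combination h5
  -- the box
  obtain ⟨r₁, hr₁, hr₁θ⟩ : ∃ r₁ : ℝ, 0 < r₁ ∧ ∀ s : ℂ, ‖s‖ < r₁ →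
      HasDerivAt θ (deriv θ s) s ∧ ev P (q0 + s) (θ s) (conj q0) (conj q1) = 0 := by
    obtain ⟨r₁, hr₁, h⟩ := Metric.eventually_nhds_iff.1 (hθn.and hθe)
    exact ⟨r₁, hr₁, fun s hs => h (by rwa [dist_zero_right])⟩
  let θs : ℂ → ℂ := fun σ => conj (θ (conj σ))
  have hθs : ∀ σ : ℂ, ‖σ‖ < r₁ → HasDerivAt θs (conj (deriv θ (conj σ))) σ := by
    intro σ hσ
    have h2 := (hr₁θ (conj σ) (by rwa [RCLike.norm_conj])).1
    have h4 := h2.conj_conj
    rw [Complex.conj_conj] at h4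
    exact h4
  let D : ℂ × ℂ → ℂ := fun p =>
    ev (pderiv 0 (pderiv 2 P)) (q0 + p.1) (θ p.1) (conj q0 + p.2) (θs p.2)
    + deriv θ p.1 * ev (pderiv 1 (pderiv 2 P)) (q0 + p.1) (θ p.1) (conj q0 + p.2) (θs p.2)
    + conj (deriv θ (conj p.2)) *
      (ev (pderiv 0 (pderiv 3 P)) (q0 + p.1) (θ p.1) (conj q0 + p.2) (θs p.2)
      + deriv θ p.1 * ev (pderiv 1 (pderiv 3 P)) (q0 + p.1) (θ p.1) (conj q0 + p.2) (θs p.2))
  have hθc : ContinuousAt θ 0 := hθn.self_of_nhds.continuousAt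
  have hconj : ContinuousAt (fun z : ℂ => conj z) 0 := Complex.continuous_conj.continuousAt
  have hDc : ContinuousAt D (0, 0) := by
    have e1 : ContinuousAt (fun p : ℂ × ℂ => q0 + p.1) (0, 0) := by fun_prop
    have e2 : ContinuousAt (fun p : ℂ × ℂ => θ p.1) (0, 0) :=
      ContinuousAt.comp (f := fun p : ℂ × ℂ => p.1) (g := θ) hθc continuousAt_fst
    have e3 : ContinuousAt (fun p : ℂ × ℂ => conj q0 + p.2) (0, 0) := by fun_prop
    have hcs : ContinuousAt (fun p : ℂ × ℂ => conj p.2) (0, 0) :=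
      (Complex.continuous_conj.comp continuous_snd).continuousAt
    have e4 : ContinuousAt (fun p : ℂ × ℂ => θs p.2) (0, 0) := by
      have h2 : ContinuousAt (fun p : ℂ × ℂ => θ (conj p.2)) (0, 0) := by
        apply ContinuousAt.comp (f := fun p : ℂ × ℂ => conj p.2) (g := θ) _ hcs
        simpa using hθc
      exact Complex.continuous_conj.continuousAt.comp h2
    have e5 : ContinuousAt (fun p : ℂ × ℂ => deriv θ p.1) (0, 0) :=
      ContinuousAt.comp (f := fun p : ℂ × ℂ => p.1) (g := deriv θ) hdc continuousAt_fst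
    have e6 : ContinuousAt (fun p : ℂ × ℂ => conj (deriv θ (conj p.2))) (0, 0) := by
      have h2 : ContinuousAt (fun p : ℂ × ℂ => deriv θ (conj p.2)) (0, 0) := by
        apply ContinuousAt.comp (f := fun p : ℂ × ℂ => conj p.2) (g := deriv θ) _ hcs
        simpa using hdc
      exact Complex.continuous_conj.continuousAt.comp h2
    exact ((continuousAt_ev _ e1 e2 e3 e4).add (e5.mul (continuousAt_ev _ e1 e2 e3 e4))).add
      (e6.mul ((continuousAt_ev _ e1 e2 e3 e4).add (e5.mul (continuousAt_ev _ e1 e2 e3 e4))))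
  have hc0 : conj (deriv θ 0) = - (ev (pderiv 2 P) q0 q1 (conj q0) (conj q1)
      / ev (pderiv 3 P) q0 q1 (conj q0) (conj q1)) := by
    -- differentiate the conjugate equation
    have h2 := hasDerivAt_ev (𝕜 := ℂ) P (hasDerivAt_const (0 : ℂ) q0)
      (hasDerivAt_const (0 : ℂ) q1) ((hasDerivAt_id (0 : ℂ)).const_add (conj q0))
      (hθs 0 (by simpa using hr₁))
    have h4 : HasDerivAt (fun σ : ℂ => ev P q0 q1 (conj q0 + id σ) (θs σ)) 0 0 := by
      apply (hasDerivAt_const (0 : ℂ) (0 : ℂ)).congr_of_eventuallyEq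
      have h5 : ∀ᶠ σ in 𝓝 (0 : ℂ), ‖σ‖ < r₁ := by
        filter_upwards [Metric.ball_mem_nhds (0 : ℂ) hr₁] with σ hσ
        rwa [mem_ball_zero_iff] at hσ
      filter_upwards [h5] with σ hσ
      have h6 := (hr₁θ (conj σ) (by rwa [RCLike.norm_conj])).2
      have h7 := congrArg conj h6
      rw [hP] at h7
      simpa [θs] using h7
    have h5 := h2.unique h4
    have e0 : θs 0 = conj q1 := by simp [θs, hθ0]
    simp only [id, add_zero, zero_mul, one_mul, map_zero, e0, zero_add] at h5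
    rw [← neg_div, eq_div_iff h3]
    linear_combination h5
  have hD0 : D (0, 0) = L := by
    have e0 : θs 0 = conj q1 := by simp [θs, hθ0]
    simp only [D, add_zero, hθ0, e0, map_zero, hd0]
    rw [hd0] at hc0
    rw [hc0, hL]
    unfold Lv
    field_simp
    ring
  rw [Metric.continuousAt_iff] at hDc
  obtain ⟨r₂, hr₂, hr₂D⟩ := hDc η hη
  rw [hD0] at hr₂D
  set r := min r₁ r₂ with hr
  have hr0 : 0 < r := lt_min hr₁ hr₂
  have hbound : ∀ s σ : ℂ, ‖s‖ < r → ‖σ‖ < r → ‖D (s, σ) - L‖ ≤ η := by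
    intro s σ hs hσ
    have h2 : dist (s, σ) ((0, 0) : ℂ × ℂ) < r₂ := by
      rw [Prod.dist_eq, max_lt_iff]
      simp only [dist_zero_right]
      exact ⟨lt_of_lt_of_le hs (min_le_right _ _), lt_of_lt_of_le hσ (min_le_right _ _)⟩
    have h4 := hr₂D h2
    rw [dist_eq_norm] at h4
    exact h4.le
  -- first integration
  let χ : ℂ → ℂ → ℂ := fun s σ =>
    ev (pderiv 2 P) (q0 + s) (θ s) (conj q0 + σ) (θs σ)
      + conj (deriv θ (conj σ)) * ev (pderiv 3 P) (q0 + s) (θ s) (conj q0 + σ) (θs σ)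
  have hχd : ∀ s σ : ℂ, ‖s‖ < r → HasDerivAt (fun s => χ s σ) (D (s, σ)) s := by
    intro s σ hs
    have hs1 := (hr₁θ s (lt_of_lt_of_le hs (min_le_left _ _))).1
    have e1 := hasDerivAt_ev (𝕜 := ℂ) (pderiv 2 P) ((hasDerivAt_id s).const_add q0) hs1
      (hasDerivAt_const s (conj q0 + σ)) (hasDerivAt_const s (θs σ))
    have e2 := hasDerivAt_ev (𝕜 := ℂ) (pderiv 3 P) ((hasDerivAt_id s).const_add q0) hs1
      (hasDerivAt_const s (conj q0 + σ)) (hasDerivAt_const s (θs σ))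
    have e3 := e1.add (e2.const_mul (conj (deriv θ (conj σ))))
    simp only [id] at e3
    refine e3.congr_deriv ?_
    simp only [D]
    ring
  have hχ0 : ∀ σ : ℂ, ‖σ‖ < r → χ 0 σ = 0 := by
    intro σ hσ
    have hσ1 : ‖σ‖ < r₁ := lt_of_lt_of_le hσ (min_le_left _ _)
    have h2 := hasDerivAt_ev (𝕜 := ℂ) P (hasDerivAt_const σ q0)
      (hasDerivAt_const σ q1) ((hasDerivAt_id σ).const_add (conj q0)) (hθs σ hσ1)
    have h4 : HasDerivAt (fun σ : ℂ => ev P q0 q1 (conj q0 + id σ) (θs σ)) 0 σ := by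
      apply (hasDerivAt_const σ (0 : ℂ)).congr_of_eventuallyEq
      have h5 : ∀ᶠ τ in 𝓝 σ, ‖τ‖ < r₁ :=
        continuous_norm.continuousAt.eventually_lt continuousAt_const hσ1
      filter_upwards [h5] with τ hτ
      have h6 := (hr₁θ (conj τ) (by rwa [RCLike.norm_conj])).2
      have h7 := congrArg conj h6
      rw [hP] at h7
      simpa [θs] using h7
    have h5 := h2.unique h4
    simp only [id, zero_mul, one_mul, zero_add] at h5
    simp only [χ, add_zero, hθ0]
    exact h5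
  have hχ : ∀ s σ : ℂ, ‖s‖ < r → ‖σ‖ < r → ‖χ s σ - L * s‖ ≤ η * ‖s‖ := by
    intro s σ hs hσ
    have h2 := (convex_ball (0 : ℂ) r).norm_image_sub_le_of_norm_hasDerivWithin_le
      (f := fun s => χ s σ - L * s) (f' := fun s => D (s, σ) - L) (C := η) (x := 0) (y := s)
      (fun z hz => by
        rw [mem_ball_zero_iff] at hz
        exact (((hχd z σ hz).sub ((hasDerivAt_id z).const_mul L)).congr_deriv
          (by ring)).hasDerivWithinAt)
      (fun z hz => by
        rw [mem_ball_zero_iff] at hz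
        exact hbound z σ hz hσ)
      (mem_ball_self hr0) (by rwa [mem_ball_zero_iff])
    simpa [hχ0 σ hσ] using h2
  -- second integration
  have hφd : ∀ s σ : ℂ, ‖s‖ < r → ‖σ‖ < r → HasDerivAt
      (fun σ => ev P (q0 + s) (θ s) (conj q0 + σ) (θs σ)) (χ s σ) σ := by
    intro s σ hs hσ
    have hσ1 : ‖σ‖ < r₁ := lt_of_lt_of_le hσ (min_le_left _ _)
    have e1 := hasDerivAt_ev (𝕜 := ℂ) P (hasDerivAt_const σ (q0 + s))
      (hasDerivAt_const σ (θ s)) ((hasDerivAt_id σ).const_add (conj q0)) (hθs σ hσ1)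
    simp only [id] at e1
    refine e1.congr_deriv ?_
    simp only [χ]
    ring
  have hφ : ∀ s σ : ℂ, ‖s‖ < r → ‖σ‖ < r →
      ‖ev P (q0 + s) (θ s) (conj q0 + σ) (θs σ) - L * s * σ‖ ≤ η * ‖s‖ * ‖σ‖ := by
    intro s σ hs hσ
    have h2 := (convex_ball (0 : ℂ) r).norm_image_sub_le_of_norm_hasDerivWithin_le
      (f := fun σ => ev P (q0 + s) (θ s) (conj q0 + σ) (θs σ) - L * s * σ)
      (f' := fun σ => χ s σ - L * s) (C := η * ‖s‖) (x := 0) (y := σ)
      (fun z hz => by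
        rw [mem_ball_zero_iff] at hz
        exact (((hφd s z hs hz).sub ((hasDerivAt_id z).const_mul (L * s))).congr_deriv
          (by ring)).hasDerivWithinAt)
      (fun z hz => by
        rw [mem_ball_zero_iff] at hz
        exact hχ s z hs hz)
      (mem_ball_self hr0) (by rwa [mem_ball_zero_iff])
    have e0 : θs 0 = conj q1 := by simp [θs, hθ0]
    have h4 := (hr₁θ s (lt_of_lt_of_le hs (min_le_left _ _))).2
    simp only [add_zero, e0, h4, mul_zero, sub_zero] at h2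
    simpa using h2
  filter_upwards [Metric.ball_mem_nhds (0 : ℂ) hr0] with s hs
  rw [mem_ball_zero_iff] at hs
  have h2 := hφ s (conj s) hs (by rwa [RCLike.norm_conj])
  have e1 : conj q0 + conj s = conj (q0 + s) := by rw [map_add]
  have e2 : θs (conj s) = conj (θ s) := by simp [θs]
  rw [e1, e2, RCLike.norm_conj] at h2
  calc _ = ‖ev P (q0 + s) (θ s) (conj (q0 + s)) (conj (θ s)) - L * s * conj s‖ := by
        rw [mul_assoc]
    _ ≤ η * ‖s‖ * ‖s‖ := h2
    _ = η * ‖s‖ ^ 2 := by ring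

end second

end Pool.Agent.X882.FB
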