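import Pool.Agent.X882.FB.Segre

/-!
A domain biholomorphic to `ℂ²` with real-analytic boundary: no piece of the boundary is given by a
polynomial.
-/

set_option autoImplicit false

namespace Pool.Agent.X882.FB

open Filter Metric Set Topology Polynomial
open scoped ContDiff ComplexConjugate

/-- real-analytic boundary -/
def RAB (Ω : Set (ℂ × ℂ)) : Prop :=
  ∀ p ∈ frontier Ω, ∃ ρ : ℂ × ℂ → ℝ, AnalyticAt ℝ ρ p ∧ fderiv ℝ ρ p ≠ 0 ∧
    ∃ U ∈ 𝓝 p, ∀ z ∈ U, z ∈ Ω ↔ ρ z < 0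

/-- An irreducible algebraic curve containing an analytic disc of a real-analytic boundary does not
meet the domain. -/
theorem zero_free {Ω : Set (ℂ × ℂ)} (hΩ : IsOpen Ω) (hb : RAB Ω) {T : ℂ[X][X]}
    (hT : Irreducible T) (hd : T.natDegree ≠ 0) {q0 : ℂ} {r : ℝ} (hr : 0 < r) {θ : ℂ → ℂ}
    (hθ : DifferentiableOn ℂ θ (ball q0 r))
    (hTθ : ∀ a ∈ ball q0 r, evalEval a (θ a) T = 0)
    (hfr : ∀ a ∈ ball q0 r, (a, θ a) ∈ frontier Ω) :
    ∀ w ∈ Ω, evalEval w.1 w.2 T ≠ 0 := by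
  obtain ⟨Δ, hΔ0, hgood, hconn⟩ := curve_connected hT hd
  let A : Set (ℂ × ℂ) := {w | ∀ᶠ w' : ℂ × ℂ in 𝓝 w, evalEval w'.1 w'.2 T = 0 → w' ∈ frontier Ω}
  have hA1 : ∀ z x, Δ.eval z ≠ 0 → evalEval z x T = 0 → (z, x) ∈ A →
      ∀ᶠ w : ℂ × ℂ in 𝓝 (z, x), evalEval w.1 w.2 T = 0 → w ∈ A := by
    intro z x _ _ hA
    have h1 : ∀ᶠ w' : ℂ × ℂ in 𝓝 (z, x), evalEval w'.1 w'.2 T = 0 → w' ∈ frontier Ω := hA
    exact h1.eventually_nhds.mono fun w hw _ => hw
  have hA2 : ∀ z x, Δ.eval z ≠ 0 → evalEval z x T = 0 → (z, x) ∉ A →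
      ∀ᶠ w : ℂ × ℂ in 𝓝 (z, x), evalEval w.1 w.2 T = 0 → w ∉ A := by
    intro z x hz hx hA
    by_contra hcon
    rw [not_eventually] at hcon
    simp only [Classical.not_imp, not_not] at hcon
    have hp : ((z, x) : ℂ × ℂ) ∈ frontier Ω := by
      rw [← isClosed_frontier.closure_eq, mem_closure_iff_frequently]
      refine hcon.mono fun w hw => ?_
      have h2 : ∀ᶠ w' : ℂ × ℂ in 𝓝 w, evalEval w'.1 w'.2 T = 0 → w' ∈ frontier Ω := hw.2
      exact h2.self_of_nhds hw.1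
    obtain ⟨ρ, hρa, hρd, U, hU, hUρ⟩ := hb _ hp
    have hfi := frontier_iff hΩ (ρ := ρ) (p := (z, x)) (hρa.contDiffAt) hρd
      (by filter_upwards [hU] with w hw using hUρ w hw)
    obtain ⟨g, hg1, hg2, hg3, hg4⟩ := branch T hx ((hgood z hz).2 x hx)
    have hgt : Tendsto (fun a => ((a, g a) : ℂ × ℂ)) (𝓝 z) (𝓝 (z, x)) := by
      have h1 : ContinuousAt (fun a => ((a, g a) : ℂ × ℂ)) z :=
        continuousAt_id.prodMk hg1.continuousAt
      have h2 := h1.tendsto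
      rw [hg2] at h2
      exact h2
    have hgω : ∀ᶠ a in 𝓝 z, ContDiffAt ℂ ω g a := hg1.eventually (by simp)
    have hall : ∀ᶠ a in 𝓝 z, (ContDiffAt ℂ ω g a ∧ evalEval a (g a) T = 0) ∧
        AnalyticAt ℝ ρ (a, g a) ∧ ((a, g a) ∈ frontier Ω ↔ ρ (a, g a) = 0) :=
      (hgω.and hg3).and ((hgt.eventually hρa.eventually_analyticAt).and (hgt.eventually hfi))
    obtain ⟨ε, hε, hεa⟩ := Metric.eventually_nhds_iff.1 hall
    have hφ : AnalyticOnNhd ℝ (fun a : ℂ => ρ (a, g a)) (ball z ε) := by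
      intro a ha
      obtain ⟨⟨h1, h2⟩, h3, h4⟩ := hεa ha
      have h5 : AnalyticAt ℂ g a := h1.analyticAt
      have h6 : AnalyticAt ℝ g a := h5.restrictScalars
      have h7 : AnalyticAt ℝ (fun a : ℂ => ((a, g a) : ℂ × ℂ)) a := analyticAt_id.prod h6
      exact AnalyticAt.comp (g := ρ) (f := fun a : ℂ => ((a, g a) : ℂ × ℂ)) h3 h7
    have hwd : ∀ᶠ w : ℂ × ℂ in 𝓝 (z, x), dist w.1 z < ε :=
      (continuous_fst.dist continuous_const).continuousAt.eventually_lt continuousAt_const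
        (by simpa using hε)
    obtain ⟨w, ⟨hw1, hw2⟩, hw3, hw4⟩ := (hcon.and_eventually (hg4.and hwd)).exists
    have hw5 : w.2 = g w.1 := hw3 hw1
    have hw6 : ∀ᶠ w' : ℂ × ℂ in 𝓝 w, evalEval w'.1 w'.2 T = 0 → w' ∈ frontier Ω := hw2
    have hgt' : Tendsto (fun a => ((a, g a) : ℂ × ℂ)) (𝓝 w.1) (𝓝 w) := by
      have h1 : ContinuousAt (fun a => ((a, g a) : ℂ × ℂ)) w.1 :=
        continuousAt_id.prodMk (hεa hw4).1.1.continuousAt
      have h2 := h1.tendsto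
      rw [← hw5] at h2
      exact h2
    have hz0 : (fun a : ℂ => ρ (a, g a)) =ᶠ[𝓝 w.1] 0 := by
      filter_upwards [hgt'.eventually hw6, isOpen_ball.mem_nhds hw4] with a ha1 ha2
      obtain ⟨⟨h1, h2⟩, h3, h4⟩ := hεa ha2
      exact h4.1 (ha1 h2)
    have hzero := hφ.eqOn_zero_of_preconnected_of_eventuallyEq_zero
      (convex_ball z ε).isPreconnected hw4 hz0
    apply hA
    show ∀ᶠ w' : ℂ × ℂ in 𝓝 (z, x), evalEval w'.1 w'.2 T = 0 → w' ∈ frontier Ω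
    filter_upwards [hg4, hwd] with w' h1 h2 h3
    have h4 : w' = (w'.1, g w'.1) := Prod.ext rfl (h1 h3)
    rw [h4]
    exact (hεa h2).2.2.2 (hzero h2)
  -- the base point
  obtain ⟨a, ha, haΔ⟩ : ∃ a ∈ ball q0 r, Δ.eval a ≠ 0 := by
    by_contra hcon
    push Not at hcon
    have h1 : ∀ᶠ y in 𝓝 q0, Δ.eval y = 0 := by
      filter_upwards [Metric.ball_mem_nhds q0 hr] with y hy using hcon y hy
    have h2 := zero_of_near (E := ℂ) Δ.differentiable h1
    exact hΔ0 (Polynomial.funext (fun z => by rw [h2 z, eval_zero]))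
  have hbase : (a, θ a) ∈ A := by
    obtain ⟨g, hg1, hg2, hg3, hg4⟩ := branch T (hTθ a ha) ((hgood a haΔ).2 _ (hTθ a ha))
    have hθc : ContinuousAt θ a := (hθ.continuousOn).continuousAt (isOpen_ball.mem_nhds ha)
    have ht : Tendsto (fun b => ((b, θ b) : ℂ × ℂ)) (𝓝 a) (𝓝 (a, θ a)) :=
      (continuousAt_id.prodMk hθc).tendsto
    have he : ∀ᶠ b in 𝓝 a, θ b = g b := by
      filter_upwards [ht.eventually hg4, isOpen_ball.mem_nhds ha] with b hb1 hb2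
      exact hb1 (hTθ b hb2)
    have he2 : ∀ᶠ b in 𝓝 a, θ b = g b ∧ b ∈ ball q0 r := he.and (isOpen_ball.mem_nhds ha)
    have hfst : Tendsto (fun w : ℂ × ℂ => w.1) (𝓝 (a, θ a)) (𝓝 a) := continuousAt_fst.tendsto
    show ∀ᶠ w' : ℂ × ℂ in 𝓝 (a, θ a), evalEval w'.1 w'.2 T = 0 → w' ∈ frontier Ω
    filter_upwards [hg4, hfst.eventually he2] with w' h1 h2 h3
    have h4 : w' = (w'.1, θ w'.1) := Prod.ext rfl ((h1 h3).trans h2.1.symm)
    rw [h4]
    exact hfr _ h2.2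
  have hallA := hconn A hA1 hA2 a (θ a) haΔ (hTθ a ha) hbase
  intro w hw hTw
  have h1 := exists_zero_near hT hd hTw hΔ0
  obtain ⟨w', ⟨h2, h3⟩, h4⟩ := (h1.and_eventually (hΩ.mem_nhds hw)).exists
  have h5 : (w'.1, w'.2) ∈ A := hallA w'.1 w'.2 h3 h2
  have h6 : ∀ᶠ w'' : ℂ × ℂ in 𝓝 w', evalEval w''.1 w''.2 T = 0 → w'' ∈ frontier Ω := h5
  have h7 := h6.self_of_nhds h2
  rw [hΩ.frontier_eq] at h7
  exact h7.2 h4

theorem swap_dvd {T S : ℂ[X][X]} (h : T ∣ S) : Bivariate.swap T ∣ Bivariate.swap S := by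
  obtain ⟨W, hW⟩ := h
  exact ⟨Bivariate.swap W, by rw [hW, map_mul]⟩

theorem swap_ne {S : ℂ[X][X]} (h : S ≠ 0) : Bivariate.swap S ≠ 0 := by
  intro h2
  have h3 := congrArg (fun W => Bivariate.swap W) h2
  simp only [Bivariate.swap_swap_apply, map_zero] at h3
  exact h h3

section

variable {Ω : Set (ℂ × ℂ)} {F G : ℂ × ℂ → ℂ × ℂ} {P : MvPolynomial (Fin 4) ℂ} {q0 q1 : ℂ}

theorem p1_eventually (P : MvPolynomial (Fin 4) ℂ)
    (h1 : ev (MvPolynomial.pderiv 1 P) q0 q1 (conj q0) (conj q1) ≠ 0) :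
    ∀ᶠ z : ℂ × ℂ in 𝓝 (q0, q1),
      ev (MvPolynomial.pderiv 1 P) z.1 z.2 (conj z.1) (conj z.2) ≠ 0 := by
  have hc := continuous_ev (MvPolynomial.pderiv 1 P) (T := ℂ × ℂ) continuous_fst continuous_snd
    (Complex.continuous_conj.comp continuous_fst) (Complex.continuous_conj.comp continuous_snd)
  exact (hc.continuousAt (x := (q0, q1))).eventually_ne h1

theorem near_facts (hFB : IsFB Ω F G) (hP : Herm P)
    (hloc : ∀ᶠ z : ℂ × ℂ in 𝓝 (q0, q1), (z ∈ Ω ↔ rho P z.1 z.2 < 0))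
    (h1 : ev (MvPolynomial.pderiv 1 P) q0 q1 (conj q0) (conj q1) ≠ 0) :
    ∀ᶠ z : ℂ × ℂ in 𝓝 (q0, q1), rho P z.1 z.2 = 0 →
      Lv P z.1 z.2 (conj z.1) (conj z.2) = 0 ∧ z ∈ frontier Ω := by
  filter_upwards [hloc.eventually_nhds, p1_eventually P h1] with z hz1 hz2 hz0
  have hn : z ∉ Ω := fun h => by
    have := hz1.self_of_nhds.1 h
    linarith
  have hcl : z ∈ closure Ω := by
    rw [mem_closure_iff_frequently]
    exact ((freq_neg hP hz0 hz2).and_eventually hz1).mono fun y hy => hy.2.2 hy.1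
  refine ⟨levi_zero hFB hP (q0 := z.1) (q1 := z.2) hcl hn hz1 hz2, ?_⟩
  rw [hFB.opn.frontier_eq]
  exact ⟨hcl, hn⟩

/-- a polynomial vanishing on a germ of an irreducible curve is divisible by its equation -/
theorem dvd_of_germ {T S : ℂ[X][X]} (hT : Irreducible T) (hd : T.natDegree ≠ 0) {c : ℂ} {r : ℝ}
    (hr : 0 < r) {θ : ℂ → ℂ} (h1 : ∀ a ∈ ball c r, evalEval a (θ a) T = 0)
    (h2 : ∀ a ∈ ball c r, evalEval a (θ a) S = 0) : T ∣ S := by
  by_contra hn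
  obtain ⟨δ, hδ0, u, v, huv⟩ := bezout hT hd hn
  have h3 : ∀ᶠ y in 𝓝 c, δ.eval y = 0 := by
    filter_upwards [Metric.ball_mem_nhds c hr] with y hy
    have h4 := congrArg (evalEval y (θ y)) huv
    rw [evalEval_add, evalEval_mul, evalEval_mul, h1 y hy, h2 y hy, evalEval_C] at h4
    rw [← h4]
    ring
  have h4 := zero_of_near (E := ℂ) δ.differentiable h3
  exact hδ0 (Polynomial.funext (fun z => by rw [h4 z, eval_zero]))

/-- If the real polynomial has no zero in the domain, the curve does not meet the domain. -/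
theorem zero_free' (hP : Herm P) (hnz : ∀ w ∈ Ω, rho P w.1 w.2 ≠ 0) {T : ℂ[X][X]}
    (hT : Irreducible T) (hd : T.natDegree ≠ 0) {c₀ : ℂ} {r : ℝ} (hr : 0 < r) {θ : ℂ → ℂ}
    (hTθ : ∀ a ∈ ball c₀ r, evalEval a (θ a) T = 0)
    (hK : ∀ a ∈ ball c₀ r, ∀ c ∈ ball c₀ r, ev P a (θ a) (conj c) (conj (θ c)) = 0) :
    ∀ w ∈ Ω, evalEval w.1 w.2 T ≠ 0 := by
  intro w hw hTw
  have s1 : ∀ c ∈ ball c₀ r, ev P w.1 w.2 (conj c) (conj (θ c)) = 0 := by
    intro c hc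
    obtain ⟨W, hW⟩ := dvd_of_germ (S := Sg P (conj c) (conj (θ c))) hT hd hr hTθ (by
      intro a ha
      rw [evalEval_Sg]
      exact hK a ha c hc)
    rw [← evalEval_Sg, hW, evalEval_mul, hTw, zero_mul]
  have s2 : ev P w.1 w.2 (conj w.1) (conj w.2) = 0 := by
    obtain ⟨W, hW⟩ := dvd_of_germ (S := Sg P (conj w.1) (conj w.2)) hT hd hr hTθ (by
      intro a ha
      rw [evalEval_Sg]
      have h3 := congrArg conj (s1 a ha)
      rw [hP, Complex.conj_conj, Complex.conj_conj, map_zero] at h3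
      exact h3)
    rw [← evalEval_Sg, hW, evalEval_mul, hTw, zero_mul]
  apply hnz w hw
  rw [rho, s2]
  simp

/-- the common part of the two main theorems -/
theorem main_core (hFB : IsFB Ω F G) (hP : Herm P)
    (hzf : ∀ T : ℂ[X][X], Irreducible T → T.natDegree ≠ 0 → ∀ (r : ℝ) (θ : ℂ → ℂ), 0 < r →
      DifferentiableOn ℂ θ (ball q0 r) → (∀ a ∈ ball q0 r, evalEval a (θ a) T = 0) →
      (∀ a ∈ ball q0 r, ∀ c ∈ ball q0 r, ev P a (θ a) (conj c) (conj (θ c)) = 0) →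
      (∀ a ∈ ball q0 r, (a, θ a) ∈ frontier Ω) → ∀ w ∈ Ω, evalEval w.1 w.2 T ≠ 0)
    (hq : ((q0, q1) : ℂ × ℂ) ∈ frontier Ω)
    (hloc : ∀ᶠ z : ℂ × ℂ in 𝓝 (q0, q1), (z ∈ Ω ↔ rho P z.1 z.2 < 0))
    (h1 : ev (MvPolynomial.pderiv 1 P) q0 q1 (conj q0) (conj q1) ≠ 0) : False := by
  have hq' := hq
  rw [hFB.opn.frontier_eq] at hq'
  have h0 : rho P q0 q1 = 0 := rho_zero hq'.1 hq'.2 hloc
  have hnear := near_facts hFB hP hloc h1
  obtain ⟨δ, hδ, hδn⟩ := Metric.eventually_nhds_iff.1 (hnear.and (p1_eventually P h1))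
  obtain ⟨r₀, hr₀, hflat⟩ := flat hP h0 h1 (hnear.mono fun z hz h => (hz h).1) hδ
  set r := min r₀ δ with hr
  have hr0 : 0 < r := lt_min hr₀ hδ
  have hrr₀ : r ≤ r₀ := min_le_left _ _
  have hrδ : r ≤ δ := min_le_right _ _
  have hIinf : {x : ℂ | dist x q1 < r ∧ rho P q0 x = 0}.Infinite :=
    (slice_infinite hP h0 h1 hr0).self_of_nhds
  set I : Set ℂ := {x : ℂ | dist x q1 < r ∧ rho P q0 x = 0} with hI
  have hex : ∀ i : I, ∃ T : ℂ[X][X], T ∣ Sg P (conj q0) (conj i.1) ∧ Sg P (conj q0) (conj i.1) ≠ 0 ∧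
      evalEval q0 i.1 T = 0 ∧ T.map (evalRingHom q0) ≠ 0 ∧ ∀ w ∈ Ω, evalEval w.1 w.2 T ≠ 0 := by
    rintro ⟨x', hx', hρx'⟩
    obtain ⟨θ, hθd, hθ0, hθe, hθK, hθn⟩ := hflat x' (lt_of_lt_of_le hx' hrr₀) hρx'
    have hθρ : ∀ a ∈ ball q0 r₀, rho P a (θ a) = 0 := by
      intro a ha
      rw [rho, hθK a ha a ha]
      simp
    have hS : Sg P (conj q0) (conj x') ≠ 0 := by
      intro hS
      have h2 := (hδn (y := (q0, x')) (by
        rw [Prod.dist_eq, max_lt_iff, dist_self]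
        exact ⟨hδ, lt_of_lt_of_le hx' hrδ⟩)).2
      apply h2
      have h3 := hasDerivAt_ev (𝕜 := ℂ) P (hasDerivAt_const x' q0) (hasDerivAt_id x')
        (hasDerivAt_const x' (conj q0)) (hasDerivAt_const x' (conj x'))
      simp only [id, zero_mul, one_mul, zero_add, add_zero] at h3
      have h4 : HasDerivAt (fun x => ev P q0 x (conj q0) (conj x')) 0 x' := by
        have h5 : (fun x => ev P q0 x (conj q0) (conj x')) = fun _ => 0 := by
          funext x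
          rw [← evalEval_Sg, hS, evalEval_zero]
        rw [h5]
        exact hasDerivAt_const x' (0 : ℂ)
      exact h3.unique h4
    have hθd' : DifferentiableOn ℂ θ (ball q0 r) := hθd.mono (ball_subset_ball hrr₀)
    obtain ⟨T, hT1, hT2, hT3, hT4⟩ := factor hr0 hθd' _ hS (by
      intro a ha
      rw [evalEval_Sg]
      exact hθe a (ball_subset_ball hrr₀ ha))
    refine ⟨T, hT2, hS, ?_, map_eval_ne hT1 hT3 q0, ?_⟩
    · have := hT4 q0 (mem_ball_self hr0)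
      rwa [hθ0] at this
    · apply hzf T hT1 hT3 r θ hr0 hθd' hT4
        (fun a ha c hc => hθK a (ball_subset_ball hrr₀ ha) c (ball_subset_ball hrr₀ hc))
      intro a ha
      have ha' := ball_subset_ball hrr₀ ha
      have h2 := (hδn (y := (a, θ a)) (by
        rw [Prod.dist_eq, max_lt_iff]
        exact ⟨lt_of_lt_of_le ha hrδ, hθn a ha'⟩)).1 (hθρ a ha')
      exact h2.2
  choose T hT1 hT2 hT3 hT4 hT5 using hex
  obtain ⟨N, hN⟩ := Sg_degree P
  obtain ⟨κ, hκ, a, hspan⟩ := finite_span N T (fun i => by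
    refine ⟨(natDegree_le_of_dvd (hT1 i) (hT2 i)).trans (hN _ _).1, ?_⟩
    exact (natDegree_le_of_dvd (swap_dvd (hT1 i)) (swap_ne (hT2 i))).trans (hN _ _).2)
  -- every member vanishes at a point of the finite set
  have hkey : ∀ i : I, ∃ k : κ, evalEval q0 i.1 (T (a k)) = 0 := by
    intro i
    obtain ⟨c, hc⟩ := hspan i
    have hdiff : ∀ S : ℂ[X][X], Differentiable ℂ (fun w : ℂ × ℂ => evalEval w.1 w.2 S) :=
      fun S => (contDiff_evalEval S (n := 1)).differentiable (by simp)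
    have hcomp : ∀ S : ℂ[X][X], Differentiable ℂ (fun y : ℂ × ℂ => evalEval (G y).1 (G y).2 S) :=
      fun S => Differentiable.comp (g := fun w : ℂ × ℂ => evalEval w.1 w.2 S) (hdiff S) hFB.dG
    obtain ⟨k, hk⟩ := several (E := ℂ × ℂ) (κ := κ)
      (fun k y => evalEval (G y).1 (G y).2 (T (a k)))
      (fun k => hcomp (T (a k)))
      (fun k y => hT5 (a k) (G y) (hFB.mem y))
      (fun y => evalEval (G y).1 (G y).2 (T i))
      (hcomp (T i)) (fun y => hT5 i (G y) (hFB.mem y)) c (by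
        intro y
        conv_lhs => rw [hc]
        rw [evalEval_finsetSum]
        apply Finset.sum_congr rfl
        intro k _
        rw [evalEval_smul, smul_eq_mul])
    refine ⟨k, ?_⟩
    have hfd : Differentiable ℂ (fun w : ℂ × ℂ =>
        evalEval w.1 w.2 (T (a k)) * evalEval (G 0).1 (G 0).2 (T i) -
        evalEval (G 0).1 (G 0).2 (T (a k)) * evalEval w.1 w.2 (T i)) :=
      ((hdiff (T (a k))).mul_const _).sub ((hdiff (T i)).const_mul _)
    have h2 := zero_of_near hfd (p := G 0) (by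
      filter_upwards [hFB.opn.mem_nhds (hFB.mem 0)] with w hw
      have := hk (F w)
      rw [hFB.gf w hw] at this
      exact sub_eq_zero.2 this) (q0, i.1)
    simp only [hT3 i, mul_zero, sub_zero] at h2
    exact (mul_eq_zero.1 h2).resolve_right (hT5 i _ (hFB.mem 0))
  apply hIinf
  have hsub : I ⊆ ⋃ k : κ, (↑(rt (T (a k)) q0) : Set ℂ) := by
    intro x hx
    obtain ⟨k, hk⟩ := hkey ⟨x, hx⟩
    exact mem_iUnion.2 ⟨k, (mem_rt (hT4 (a k))).2 hk⟩
  exact (finite_iUnion fun k => Finset.finite_toSet _).subset hsub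

/-- real-analytic boundary, given by a polynomial near one point -/
theorem main (hFB : IsFB Ω F G) (hb : RAB Ω) (hP : Herm P)
    (hq : ((q0, q1) : ℂ × ℂ) ∈ frontier Ω)
    (hloc : ∀ᶠ z : ℂ × ℂ in 𝓝 (q0, q1), (z ∈ Ω ↔ rho P z.1 z.2 < 0))
    (h1 : ev (MvPolynomial.pderiv 1 P) q0 q1 (conj q0) (conj q1) ≠ 0) : False :=
  main_core hFB hP (fun _ hT hd _ _ hr hθ hTθ _ hfr => zero_free hFB.opn hb hT hd hr hθ hTθ hfr)
    hq hloc h1

/-- the real polynomial has no zero in the domain -/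
theorem main' (hFB : IsFB Ω F G) (hP : Herm P) (hnz : ∀ w ∈ Ω, rho P w.1 w.2 ≠ 0)
    (hq : ((q0, q1) : ℂ × ℂ) ∈ frontier Ω)
    (hloc : ∀ᶠ z : ℂ × ℂ in 𝓝 (q0, q1), (z ∈ Ω ↔ rho P z.1 z.2 < 0))
    (h1 : ev (MvPolynomial.pderiv 1 P) q0 q1 (conj q0) (conj q1) ≠ 0) : False :=
  main_core hFB hP (fun _ hT hd _ _ hr _ hTθ hK _ => zero_free' hP hnz hT hd hr hTθ hK)
    hq hloc h1

end

end Pool.Agent.X882.FB
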