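import Pool.Agent.X882.FB.NPoly

/-!
Connectedness of an irreducible algebraic hypersurface outside a set of vertical lines.
-/

set_option autoImplicit false

namespace Pool.Agent.X882.FB.N

open Filter Metric Set Topology Polynomial
open scoped ContDiff

variable {n : ℕ}

/-- the restriction to a line -/
noncomputable def lineP (Δ : MvPolynomial (Fin n) ℂ) (z v : Fin n → ℂ) : ℂ[X] :=
  MvPolynomial.aeval (fun i => C (z i) + X * C (v i)) Δ

theorem eval_lineP (Δ : MvPolynomial (Fin n) ℂ) (z v : Fin n → ℂ) (s : ℂ) :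
    (lineP Δ z v).eval s = MvPolynomial.eval (z + s • v) Δ := by
  induction Δ using MvPolynomial.induction_on with
  | C c =>
    simp only [lineP, MvPolynomial.aeval_C, MvPolynomial.eval_C]
    exact eval_C
  | add p q hp hq =>
    have h1 : lineP (p + q) z v = lineP p z v + lineP q z v := by simp [lineP]
    rw [h1, eval_add, hp, hq, map_add]
  | mul_X p i hp =>
    have h1 : lineP (p * MvPolynomial.X i) z v = lineP p z v * (C (z i) + X * C (v i)) := by
      simp [lineP]
    rw [h1, eval_mul, hp, map_mul, MvPolynomial.eval_X, eval_add, eval_mul, eval_C, eval_C, eval_X]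
    rfl

theorem diff_prod {E : Type} [NormedAddCommGroup E] [NormedSpace ℂ E] {x : E} (s : Finset ℂ)
    (f : ℂ → E → ℂ) (h : ∀ i ∈ s, DifferentiableAt ℂ (f i) x) :
    DifferentiableAt ℂ (fun z => ∏ i ∈ s, f i z) x := by
  classical
  induction s using Finset.induction_on with
  | empty => simp
  | insert a s ha ih =>
    simp only [Finset.prod_insert ha]
    exact (h a (Finset.mem_insert_self _ _)).mul
      (ih fun i hi => h i (Finset.mem_insert_of_mem hi))

/-- a complex line minus the zeros of a polynomial is connected -/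
theorem line_const {Δ : MvPolynomial (Fin n) ℂ} {f : (Fin n → ℂ) → ℕ}
    (hf : ∀ z, MvPolynomial.eval z Δ ≠ 0 → ContinuousAt f z) {z₀ z₁ : Fin n → ℂ}
    (h0 : MvPolynomial.eval z₀ Δ ≠ 0) (h1 : MvPolynomial.eval z₁ Δ ≠ 0) : f z₁ = f z₀ := by
  set D := lineP Δ z₀ (z₁ - z₀) with hD
  have hD0 : D ≠ 0 := by
    intro h
    have h2 := eval_lineP Δ z₀ (z₁ - z₀) 0
    rw [← hD, h, eval_zero, zero_smul, add_zero] at h2
    exact h0 h2.symm
  have hfin : {s : ℂ | D.eval s = 0}.Finite := by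
    have : {s : ℂ | D.eval s = 0} ⊆ ↑D.roots.toFinset := by
      intro s hs
      simpa [hD0] using hs
    exact (Finset.finite_toSet _).subset this
  have hconn : IsPreconnected ({s : ℂ | D.eval s = 0}ᶜ) := by
    have hrank : 1 < Module.rank ℝ ℂ := by
      rw [Complex.rank_real_complex]
      exact Nat.one_lt_ofNat
    exact (hfin.countable.isConnected_compl_of_one_lt_rank hrank).isPreconnected
  have hcont : ContinuousOn (fun s : ℂ => f (z₀ + s • (z₁ - z₀))) ({s : ℂ | D.eval s = 0}ᶜ) := by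
    intro s hs
    apply ContinuousAt.continuousWithinAt
    have h2 : MvPolynomial.eval (z₀ + s • (z₁ - z₀)) Δ ≠ 0 := by
      rw [← eval_lineP]
      exact hs
    have h3 : ContinuousAt (fun s : ℂ => z₀ + s • (z₁ - z₀)) s := by fun_prop
    exact ContinuousAt.comp (g := f) (hf _ h2) h3
  have h2 := hconn.constant hcont (x := 1) (y := 0) (by
    show D.eval 1 ≠ 0
    rw [eval_lineP]
    simpa using h1) (by
    show D.eval 0 ≠ 0
    rw [eval_lineP]
    simpa using h0)
  simpa using h2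

/-- An irreducible algebraic hypersurface is connected outside a set of vertical lines: a relatively
open and closed part that is not empty is everything. -/
theorem hyp_connected {T : (MvPolynomial (Fin n) ℂ)[X]} (hT : Irreducible T)
    (hd : T.natDegree ≠ 0) :
    ∃ Δ : MvPolynomial (Fin n) ℂ, Δ ≠ 0 ∧ (∀ z, MvPolynomial.eval z Δ ≠ 0 → Good T z) ∧
      ∀ A : Set ((Fin n → ℂ) × ℂ),
      (∀ z x, MvPolynomial.eval z Δ ≠ 0 → vl T z x = 0 → (z, x) ∈ A →
        ∀ᶠ w : (Fin n → ℂ) × ℂ in 𝓝 (z, x), vl T w.1 w.2 = 0 → w ∈ A) →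
      (∀ z x, MvPolynomial.eval z Δ ≠ 0 → vl T z x = 0 → (z, x) ∉ A →
        ∀ᶠ w : (Fin n → ℂ) × ℂ in 𝓝 (z, x), vl T w.1 w.2 = 0 → w ∉ A) →
      ∀ z₀ x₀, MvPolynomial.eval z₀ Δ ≠ 0 → vl T z₀ x₀ = 0 → (z₀, x₀) ∈ A →
      ∀ z x, MvPolynomial.eval z Δ ≠ 0 → vl T z x = 0 → (z, x) ∈ A := by
  classical
  have hT0 : T ≠ 0 := hT.ne_zero
  have hder : derivative T ≠ 0 := fun h => hd (natDegree_eq_zero_of_derivative_eq_zero h)
  have hndvd : ¬ T ∣ derivative T := by
    intro h
    have h1 := natDegree_le_of_dvd h hder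
    have h2 := natDegree_derivative_lt hd
    omega
  obtain ⟨δ, hδ0, u, v, huv⟩ := bezout hT hd hndvd
  set d := T.natDegree with hddef
  set lc := T.leadingCoeff with hlc
  have hlc0 : lc ≠ 0 := leadingCoeff_ne_zero.2 hT0
  set Δ := lc * δ with hΔ
  have hΔ0 : Δ ≠ 0 := mul_ne_zero hlc0 hδ0
  have hgood : ∀ z, MvPolynomial.eval z Δ ≠ 0 → Good T z := by
    intro z hz
    rw [hΔ, map_mul] at hz
    refine ⟨left_ne_zero_of_mul hz, fun x h1 h2 => right_ne_zero_of_mul hz ?_⟩
    have h3 := congrArg (fun S => vl S z x) huv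
    simp only [vl_add, vl_mul, vl_C] at h3
    rw [h1, h2] at h3
    simpa using h3.symm
  refine ⟨Δ, hΔ0, hgood, ?_⟩
  intro A hA1 hA2 z₀ x₀ hz₀ hx₀ hA₀
  have hΔc : Continuous (fun z : Fin n → ℂ => MvPolynomial.eval z Δ) :=
    (contDiff_eval Δ (k := 0)).continuous
  have hΔe : ∀ z₁, MvPolynomial.eval z₁ Δ ≠ 0 → ∀ᶠ z in 𝓝 z₁, MvPolynomial.eval z Δ ≠ 0 :=
    fun z₁ h => hΔc.continuousAt.eventually_ne h
  let Ar : (Fin n → ℂ) → Finset ℂ := fun z => (rt T z).filter (fun ξ => (z, ξ) ∈ A)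
  have hArsub : ∀ z, Ar z ⊆ rt T z := fun z => Finset.filter_subset _ _
  have hlocal : ∀ z₁, MvPolynomial.eval z₁ Δ ≠ 0 → ∃ G : ℂ → (Fin n → ℂ) → ℂ,
      (∀ ξ ∈ rt T z₁, G ξ z₁ = ξ ∧ ContDiffAt ℂ ω (G ξ) z₁) ∧
      ∀ᶠ z in 𝓝 z₁, InjOn (fun ξ => G ξ z) (Ar z₁) ∧ Ar z = (Ar z₁).image (fun ξ => G ξ z) := by
    intro z₁ hz₁
    obtain ⟨G, hG1, hG2⟩ := local_roots (hgood z₁ hz₁) ((hΔe z₁ hz₁).mono hgood)
    refine ⟨G, hG1, ?_⟩
    have hmem : ∀ᶠ z in 𝓝 z₁, ∀ ξ ∈ rt T z₁, vl T z (G ξ z) = 0 →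
        ((z, G ξ z) ∈ A ↔ (z₁, ξ) ∈ A) := by
      rw [Filter.eventually_all_finset]
      intro ξ hξ
      have ht : Tendsto (fun z => ((z, G ξ z) : (Fin n → ℂ) × ℂ)) (𝓝 z₁) (𝓝 (z₁, ξ)) := by
        have h1 : ContinuousAt (fun z => ((z, G ξ z) : (Fin n → ℂ) × ℂ)) z₁ :=
          continuousAt_id.prodMk (hG1 ξ hξ).2.continuousAt
        have h2 := h1.tendsto
        rw [(hG1 ξ hξ).1] at h2
        exact h2
      have hξ0 := eval_of_mem_rt hξ
      by_cases hA : (z₁, ξ) ∈ A
      · filter_upwards [ht.eventually (hA1 z₁ ξ hz₁ hξ0 hA)] with z hz hz0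
        exact ⟨fun _ => hA, fun _ => hz hz0⟩
      · filter_upwards [ht.eventually (hA2 z₁ ξ hz₁ hξ0 hA)] with z hz hz0
        exact ⟨fun h => absurd h (hz hz0), fun h => absurd h hA⟩
    filter_upwards [hG2, hmem] with z hz1 hz2
    refine ⟨hz1.1.mono (by exact_mod_cast hArsub z₁), ?_⟩
    ext y
    simp only [Ar, Finset.mem_filter, Finset.mem_image]
    constructor
    · rintro ⟨hy1, hy2⟩
      rw [hz1.2, Finset.mem_image] at hy1
      obtain ⟨ξ, hξ, rfl⟩ := hy1
      have h0 : vl T z (G ξ z) = 0 := by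
        apply eval_of_mem_rt
        rw [hz1.2]
        exact Finset.mem_image_of_mem _ hξ
      exact ⟨ξ, ⟨hξ, (hz2 ξ hξ h0).1 hy2⟩, rfl⟩
    · rintro ⟨ξ, ⟨hξ, hξA⟩, rfl⟩
      have h1 : G ξ z ∈ rt T z := by
        rw [hz1.2]
        exact Finset.mem_image_of_mem _ hξ
      exact ⟨h1, (hz2 ξ hξ (eval_of_mem_rt h1)).2 hξA⟩
  -- the number of roots in `A` is constant
  have hcard : ∀ z, MvPolynomial.eval z Δ ≠ 0 → (Ar z).card = (Ar z₀).card := by
    intro z hz
    refine line_const (Δ := Δ) (f := fun z => (Ar z).card) ?_ hz₀ hz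
    intro z₁ hz₁
    obtain ⟨G, hG1, hG2⟩ := hlocal z₁ hz₁
    apply (continuousAt_const (y := (Ar z₁).card)).congr
    filter_upwards [hG2] with z hz
    rw [hz.2, Finset.card_image_of_injOn hz.1]
  by_contra hcon
  push Not at hcon
  obtain ⟨z', x', hz', hx', hA'⟩ := hcon
  have hk0 : 0 < (Ar z₀).card := by
    rw [Finset.card_pos]
    exact ⟨x₀, Finset.mem_filter.2 ⟨(mem_rt (hgood z₀ hz₀).map_ne).2 hx₀, hA₀⟩⟩
  -- the function
  let R : (Fin n → ℂ) → ℂ → ℂ := fun z x => ∏ ξ ∈ Ar z, (MvPolynomial.eval z lc * (x - ξ))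
  have hRd : ∀ x z₁, MvPolynomial.eval z₁ Δ ≠ 0 → DifferentiableAt ℂ (fun z => R z x) z₁ := by
    intro x z₁ hz₁
    obtain ⟨G, hG1, hG2⟩ := hlocal z₁ hz₁
    have h1 : DifferentiableAt ℂ (fun z => ∏ ξ ∈ Ar z₁, (MvPolynomial.eval z lc * (x - G ξ z)))
        z₁ := by
      apply diff_prod (Ar z₁) (fun ξ z => MvPolynomial.eval z lc * (x - G ξ z))
      intro ξ hξ
      have h2 : DifferentiableAt ℂ (G ξ) z₁ :=
        (hG1 ξ (hArsub z₁ hξ)).2.differentiableAt (by simp)
      have h3 : DifferentiableAt ℂ (fun z : Fin n → ℂ => MvPolynomial.eval z lc) z₁ :=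
        ((contDiff_eval lc (k := 1)).differentiable (by simp)) z₁
      exact h3.mul ((differentiableAt_const x).sub h2)
    apply h1.congr_of_eventuallyEq
    filter_upwards [hG2] with z hz
    simp only [R]
    rw [hz.2, Finset.prod_image hz.1]
  let B : ℂ → (Fin n → ℂ) → ℝ := fun x z => ‖MvPolynomial.eval z lc‖ * ‖x‖ +
    ∑ i ∈ Finset.range (d + 1), ‖MvPolynomial.eval z (T.coeff i)‖
  have hB0 : ∀ x z, 0 ≤ B x z := fun x z => by positivity
  have hRb : ∀ x z, ‖R z x‖ ≤ (1 + B x z) ^ d := by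
    intro x z
    simp only [R]
    rw [norm_prod]
    have h1 : ∏ ξ ∈ Ar z, ‖MvPolynomial.eval z lc * (x - ξ)‖ ≤ ∏ ξ ∈ Ar z, (1 + B x z) := by
      apply Finset.prod_le_prod
      · intro ξ _
        exact norm_nonneg _
      · intro ξ hξ
        have h2 := eval_of_mem_rt (hArsub z hξ)
        have h3 := root_bound (T.map (MvPolynomial.eval z)) d natDegree_map_le h2
        simp only [coeff_map] at h3
        have h4 : T.coeff d = lc := rfl
        rw [h4] at h3
        calc ‖MvPolynomial.eval z lc * (x - ξ)‖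
            = ‖MvPolynomial.eval z lc * x - MvPolynomial.eval z lc * ξ‖ := by rw [mul_sub]
          _ ≤ ‖MvPolynomial.eval z lc * x‖ + ‖MvPolynomial.eval z lc * ξ‖ := norm_sub_le _ _
          _ ≤ ‖MvPolynomial.eval z lc‖ * ‖x‖ +
              ∑ i ∈ Finset.range (d + 1), ‖MvPolynomial.eval z (T.coeff i)‖ := by
              rw [norm_mul (MvPolynomial.eval z lc) x]
              gcongr
          _ = B x z := rfl
          _ ≤ 1 + B x z := by linarith
    refine h1.trans ?_
    rw [Finset.prod_const]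
    apply pow_le_pow_right₀ (by linarith [hB0 x z])
    exact (Finset.card_le_card (hArsub z)).trans (card_rt_le T z)
  have hBPG : ∀ x, PG (fun z => (1 + B x z) ^ d) := by
    intro x
    apply PG.pow
    apply (PG.const 1).add
    exact ((PG.poly lc).mul (PG.const ‖x‖)).add (PG.sum _ _ fun i => PG.poly (T.coeff i))
  have hBcont : ∀ x, Continuous (fun z => (1 + B x z) ^ d) := by
    intro x
    have h1 : Continuous (fun z : Fin n → ℂ => MvPolynomial.eval z lc) :=
      (contDiff_eval lc (k := 0)).continuous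
    have h2 : ∀ i, Continuous (fun z : Fin n → ℂ => MvPolynomial.eval z (T.coeff i)) :=
      fun i => (contDiff_eval (T.coeff i) (k := 0)).continuous
    simp only [B]
    fun_prop
  let h : ℂ → (Fin n → ℂ) → ℂ := fun x z => (MvPolynomial.eval z Δ) ^ 2 * R z x
  have hslice : ∀ x, ∃ N : ℕ, ∀ z v : Fin n → ℂ, ∃ p : ℂ[X], p.natDegree ≤ N ∧
      ∀ s : ℂ, h x (z + s • v) = p.eval s := by
    intro x
    obtain ⟨C', N, hC', hCN⟩ := ((PG.poly Δ).pow 2).mul (hBPG x)
    refine ⟨N, fun z v => ?_⟩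
    have hcl : Continuous (fun s : ℂ => z + s • v) := by fun_prop
    have hHd : Differentiable ℂ (fun s : ℂ => h x (z + s • v)) := by
      intro s₁
      by_cases hs₁ : MvPolynomial.eval (z + s₁ • v) Δ = 0
      · have hs₁' : (lineP Δ z v).eval s₁ = 0 := by rw [eval_lineP]; exact hs₁
        obtain ⟨q, hq⟩ := dvd_iff_isRoot.2 hs₁'
        have hval : h x (z + s₁ • v) = 0 := by simp [h, hs₁]
        have hO : (fun s : ℂ => h x (z + s • v) - h x (z + s₁ • v) - (s - s₁) • (0 : ℂ)) =O[𝓝 s₁]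
            fun s => ‖s - s₁‖ ^ 2 := by
          have hc : Continuous (fun s : ℂ => ‖q.eval s‖ ^ 2 * (1 + B x (z + s • v)) ^ d) :=
            ((q.continuous.norm).pow 2).mul ((hBcont x).comp hcl)
          have hbdd : ∀ᶠ s in 𝓝 s₁, ‖q.eval s‖ ^ 2 * (1 + B x (z + s • v)) ^ d <
              ‖q.eval s₁‖ ^ 2 * (1 + B x (z + s₁ • v)) ^ d + 1 :=
            hc.continuousAt.eventually_lt continuousAt_const (by linarith)
          apply Asymptotics.IsBigO.of_bound
            (‖q.eval s₁‖ ^ 2 * (1 + B x (z + s₁ • v)) ^ d + 1)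
          filter_upwards [hbdd] with s hs
          rw [hval, smul_zero, sub_zero, sub_zero]
          simp only [h]
          rw [norm_mul, norm_pow, norm_pow, norm_norm]
          have e1 : MvPolynomial.eval (z + s • v) Δ = (s - s₁) * q.eval s := by
            rw [← eval_lineP, hq, eval_mul, eval_sub, eval_X, eval_C]
          rw [e1, norm_mul]
          have h2 := hRb x (z + s • v)
          calc (‖s - s₁‖ * ‖q.eval s‖) ^ 2 * ‖R (z + s • v) x‖
              ≤ (‖s - s₁‖ * ‖q.eval s‖) ^ 2 * (1 + B x (z + s • v)) ^ d := by gcongr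
            _ = (‖q.eval s‖ ^ 2 * (1 + B x (z + s • v)) ^ d) * ‖s - s₁‖ ^ 2 := by ring
            _ ≤ _ := by gcongr
        have hd1 : HasDerivAt (fun s : ℂ => h x (z + s • v)) 0 s₁ := by
          rw [hasDerivAt_iff_isLittleO]
          exact hO.trans_isLittleO (Asymptotics.isLittleO_pow_sub_sub s₁ (by norm_num))
        exact hd1.differentiableAt
      · have h2 : DifferentiableAt ℂ (fun z : Fin n → ℂ => h x z) (z + s₁ • v) := by
          have h3 : DifferentiableAt ℂ (fun z : Fin n → ℂ => MvPolynomial.eval z Δ)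
              (z + s₁ • v) := ((contDiff_eval Δ (k := 1)).differentiable (by simp)) _
          exact (h3.pow 2).mul (hRd x _ hs₁)
        have h4 : DifferentiableAt ℂ (fun s : ℂ => z + s • v) s₁ := by fun_prop
        exact DifferentiableAt.comp (g := fun z => h x z) s₁ h2 h4
    refine poly_of_growth' N _ hHd (C' * (1 + ‖z‖ + ‖v‖) ^ N) fun s => ?_
    have h5 : ‖h x (z + s • v)‖ ≤ C' * (1 + ‖z + s • v‖) ^ N := by
      refine le_trans ?_ ((le_abs_self _).trans (hCN (z + s • v)))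
      simp only [h]
      rw [norm_mul, norm_pow]
      gcongr
      exact hRb x (z + s • v)
    refine h5.trans ?_
    rw [mul_assoc, ← mul_pow]
    have h6 : ‖z + s • v‖ ≤ ‖z‖ + ‖s‖ * ‖v‖ := by
      refine (norm_add_le _ _).trans ?_
      rw [norm_smul]
    have h7 : 1 + ‖z + s • v‖ ≤ (1 + ‖z‖ + ‖v‖) * (1 + ‖s‖) := by
      have h8 : 0 ≤ ‖s‖ := norm_nonneg s
      have h9 : 0 ≤ ‖z‖ := norm_nonneg z
      have h10 : 0 ≤ ‖v‖ := norm_nonneg v
      nlinarith [mul_nonneg h8 h9]
    gcongr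
  have hpoly : ∀ x, ∃ p : MvPolynomial (Fin n) ℂ, ∀ z, h x z = MvPolynomial.eval z p := by
    intro x
    obtain ⟨N, hN⟩ := hslice x
    apply sep_poly N n (h x)
    intro z i
    obtain ⟨p, hp1, hp2⟩ := hN (Function.update z i 0) (Pi.single i 1)
    refine ⟨p, hp1, fun s => ?_⟩
    rw [← hp2 s]
    congr 1
    funext j
    by_cases hj : j = i
    · subst hj
      simp
    · simp [hj]
  choose pp hpp using hpoly
  -- interpolation
  let Rp : (MvPolynomial (Fin n) ℂ)[X] := ∑ i ∈ Finset.range (d + 1),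
    C (pp (i : ℂ)) * (Lagrange.basis (Finset.range (d + 1)) (fun i : ℕ => (i : ℂ)) i).map
      (MvPolynomial.C : ℂ →+* MvPolynomial (Fin n) ℂ)
  have hRp : ∀ z x, vl Rp z x = (MvPolynomial.eval z Δ) ^ 2 * R z x := by
    intro z x
    let Q : ℂ[X] := ∏ ξ ∈ Ar z, (C (MvPolynomial.eval z lc) * (X - C ξ))
    have hQe : ∀ x, Q.eval x = R z x := by
      intro x
      simp only [Q, R]
      rw [eval_prod]
      simp
    have hQd : Q.degree < ((Finset.range (d + 1)).card : WithBot ℕ) := by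
      rw [Finset.card_range]
      have h1 : Q.natDegree ≤ d := by
        calc Q.natDegree ≤ ∑ ξ ∈ Ar z, (C (MvPolynomial.eval z lc) * (X - C ξ)).natDegree :=
              natDegree_prod_le _ _
          _ ≤ ∑ ξ ∈ Ar z, 1 := by
              apply Finset.sum_le_sum
              intro ξ _
              exact (natDegree_C_mul_le _ _).trans (natDegree_X_sub_C_le _)
          _ = (Ar z).card := by simp
          _ ≤ d := (Finset.card_le_card (hArsub z)).trans (card_rt_le T z)
      exact lt_of_le_of_lt degree_le_natDegree (by exact_mod_cast Nat.lt_succ_of_le h1)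
    have hinj : InjOn (fun i : ℕ => (i : ℂ)) (Finset.range (d + 1)) := by
      intro a _ b _ hab
      have hab' : (a : ℂ) = (b : ℂ) := hab
      exact_mod_cast hab'
    have hint := Lagrange.eq_interpolate hinj hQd
    have h1 := congrArg (fun p => eval x p) hint
    simp only [Lagrange.interpolate_apply] at h1
    rw [eval_finsetSum, hQe] at h1
    simp only [Rp]
    rw [vl_sum, h1, Finset.mul_sum]
    apply Finset.sum_congr rfl
    intro i _
    have e1 : eval x (C (eval ((i : ℕ) : ℂ) Q) *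
        Lagrange.basis (Finset.range (d + 1)) (fun i : ℕ => (i : ℂ)) i) =
        R z (i : ℂ) * eval x (Lagrange.basis (Finset.range (d + 1)) (fun i : ℕ => (i : ℂ)) i) := by
      rw [eval_mul, eval_C, hQe]
    rw [vl_mul, vl_C, vl_map_C, ← hpp, e1]
    simp only [h]
    ring
  -- `T` does not divide `Rp`
  have hnd : ¬ T ∣ Rp := by
    rintro ⟨W, hW⟩
    have h1 := hRp z' x'
    rw [hW, vl_mul, hx', zero_mul] at h1
    have h2 : R z' x' = 0 := by
      rcases mul_eq_zero.1 h1.symm with h | h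
      · exact absurd (pow_eq_zero_iff (two_ne_zero)|>.1 h) hz'
      · exact h
    simp only [R] at h2
    rw [Finset.prod_eq_zero_iff] at h2
    obtain ⟨ξ, hξ, h3⟩ := h2
    have h4 : x' = ξ := by
      rcases mul_eq_zero.1 h3 with h | h
      · exact absurd h (hgood z' hz').1
      · exact sub_eq_zero.1 h
    rw [← h4] at hξ
    exact hA' (Finset.mem_filter.1 hξ).2
  obtain ⟨ε, hε0, u', v', huv'⟩ := bezout hT hd hnd
  have hzero : ∀ z, MvPolynomial.eval z (Δ * ε) = 0 := by
    intro z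
    rw [map_mul]
    by_cases hz : MvPolynomial.eval z Δ = 0
    · rw [hz, zero_mul]
    · have hk := hcard z hz
      have hne : (Ar z).Nonempty := by
        rw [← Finset.card_pos, hk]
        exact hk0
      obtain ⟨ξ, hξ⟩ := hne
      have h1 := eval_of_mem_rt (hArsub z hξ)
      have h2 : vl Rp z ξ = 0 := by
        rw [hRp]
        have : R z ξ = 0 := by
          simp only [R]
          exact Finset.prod_eq_zero hξ (by simp)
        rw [this, mul_zero]
      have h3 := congrArg (fun S => vl S z ξ) huv'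
      simp only [vl_add, vl_mul, vl_C] at h3
      rw [h1, h2] at h3
      rw [← h3]
      ring
  have := MvPolynomial.funext (p := Δ * ε) (q := 0) (fun z => by rw [hzero z, map_zero])
  exact mul_ne_zero hΔ0 hε0 this

end Pool.Agent.X882.FB.N
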