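import Pool.Agent.X882.FB.NZero
import Pool.Agent.X882.FB.Omit

/-!
A domain of `ℂⁿ` biholomorphic to `ℂⁿ` with real-analytic boundary: at most `n` irreducible
algebraic hypersurfaces have a germ in the boundary.
-/

set_option autoImplicit false

namespace Pool.Agent.X882.FB.N

open Filter Metric Set Topology
open scoped ContDiff

variable {n : ℕ}

theorem exponent_le {ι M : Type} [Fintype ι] [DecidableEq ι] [CommRing M] [IsDomain M]
    {T : ι → M} (hT : ∀ i, Prime (T i)) (hnd : ∀ i j, i ≠ j → ¬ T i ∣ T j) {a b : ι → ℕ}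
    (h : (∏ i, T i ^ a i) ∣ ∏ i, T i ^ b i) (i : ι) : a i ≤ b i := by
  by_contra hcon
  push Not at hcon
  obtain ⟨k, hk⟩ : ∃ k, a i = b i + (k + 1) := ⟨a i - b i - 1, by omega⟩
  have h1 : T i ^ a i ∣ ∏ j, T j ^ a j := Finset.dvd_prod_of_mem _ (Finset.mem_univ i)
  have h2 := h1.trans h
  rw [← Finset.mul_prod_erase Finset.univ (fun j => T j ^ b j) (Finset.mem_univ i), hk, pow_add] at h2
  have h3 := (mul_dvd_mul_iff_left (pow_ne_zero _ (hT i).ne_zero)).1 h2
  have h4 : T i ∣ ∏ j ∈ Finset.univ.erase i, T j ^ b j :=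
    (dvd_pow_self (T i) (Nat.succ_ne_zero k)).trans h3
  rw [(hT i).dvd_finsetProd_iff] at h4
  obtain ⟨j, hj, h5⟩ := h4
  exact hnd i j (Finset.ne_of_mem_erase hj).symm ((hT i).dvd_of_dvd_pow h5)

/-- `n + 1` polynomials in `n` variables are algebraically dependent -/
theorem dependent (T : Fin (n + 1) → MvPolynomial (Fin n) ℂ) :
    ∃ R : MvPolynomial (Fin (n + 1)) ℂ, R ≠ 0 ∧ MvPolynomial.aeval T R = 0 := by
  by_contra hcon
  push Not at hcon
  have h1 : AlgebraicIndependent ℂ T := by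
    rw [algebraicIndependent_iff]
    intro p hp
    by_contra hne
    exact hcon p hne hp
  have h2 := h1.lift_cardinalMk_le_trdeg
  rw [MvPolynomial.trdeg_of_isDomain] at h2
  simp at h2

/-- Zero-free polynomials on a domain biholomorphic to `ℂⁿ`. -/
theorem omitted {Ω : Set (Fin n → ℂ)} {F G : (Fin n → ℂ) → (Fin n → ℂ)} (hFB : IsFB Ω F G)
    (T : Fin (n + 1) → MvPolynomial (Fin n) ℂ) (hT : ∀ i, Irreducible (T i))
    (hna : ∀ i j, i ≠ j → ¬ Associated (T i) (T j))
    (hz : ∀ i, ∀ w ∈ Ω, MvPolynomial.eval w (T i) ≠ 0) : False := by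
  classical
  obtain ⟨R, hR0, hR⟩ := dependent T
  obtain ⟨m₀, hm₀⟩ := MvPolynomial.support_nonempty.2 hR0
  have hc0 : MvPolynomial.coeff m₀ R ≠ 0 := MvPolynomial.mem_support_iff.1 hm₀
  let κ := {m : Fin (n + 1) →₀ ℕ // m ∈ R.support.erase m₀}
  let mon : (Fin (n + 1) →₀ ℕ) → MvPolynomial (Fin n) ℂ := fun m => ∏ i, T i ^ m i
  have hmon : ∀ m, ∀ w ∈ Ω, MvPolynomial.eval w (mon m) ≠ 0 := by
    intro m w hw
    simp only [mon, map_prod, map_pow]
    exact Finset.prod_ne_zero_iff.2 fun i _ => pow_ne_zero _ (hz i w hw)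
  have hdiff : ∀ p : MvPolynomial (Fin n) ℂ,
      Differentiable ℂ (fun w : Fin n → ℂ => MvPolynomial.eval w p) :=
    fun p => (contDiff_eval p (k := 1)).differentiable (by simp)
  have hcomp : ∀ p : MvPolynomial (Fin n) ℂ,
      Differentiable ℂ (fun y : Fin n → ℂ => MvPolynomial.eval (G y) p) :=
    fun p => Differentiable.comp (g := fun w : Fin n → ℂ => MvPolynomial.eval w p)
      (hdiff p) hFB.dG
  have hrel : ∀ w, ∑ m ∈ R.support, MvPolynomial.coeff m R * MvPolynomial.eval w (mon m) = 0 := by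
    intro w
    have h1 := congrArg (MvPolynomial.eval w) hR
    rw [map_zero, MvPolynomial.aeval_def, MvPolynomial.eval₂_eq', map_sum] at h1
    rw [← h1]
    apply Finset.sum_congr rfl
    intro m _
    rw [map_mul, MvPolynomial.algebraMap_eq, MvPolynomial.eval_C]
  obtain ⟨⟨m, hm⟩, hk⟩ := several (E := Fin n → ℂ) (κ := κ)
    (fun k y => MvPolynomial.eval (G y) (mon k.1)) (fun k => hcomp _)
    (fun k y => hmon _ _ (hFB.mem y))
    (fun y => MvPolynomial.eval (G y) (mon m₀)) (hcomp _) (fun y => hmon _ _ (hFB.mem y))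
    (fun k => -(MvPolynomial.coeff k.1 R / MvPolynomial.coeff m₀ R)) (by
      intro y
      have h1 := hrel (G y)
      rw [← Finset.add_sum_erase _ _ hm₀] at h1
      have h2 : ∑ k : κ, -(MvPolynomial.coeff k.1 R / MvPolynomial.coeff m₀ R) *
          MvPolynomial.eval (G y) (mon k.1) =
          -(∑ m ∈ R.support.erase m₀, MvPolynomial.coeff m R * MvPolynomial.eval (G y) (mon m)) /
            MvPolynomial.coeff m₀ R := by
        rw [← Finset.sum_coe_sort (R.support.erase m₀), ← Finset.sum_neg_distrib,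
          Finset.sum_div]
        apply Finset.sum_congr rfl
        intro k _
        field_simp
      rw [h2, eq_div_iff hc0]
      linear_combination h1)
  simp only at hk
  set s0 := MvPolynomial.eval (G 0) (mon m₀) with hs0
  set r0 := MvPolynomial.eval (G 0) (mon m) with hr0
  have hs0' : s0 ≠ 0 := hmon _ _ (hFB.mem 0)
  have hr0' : r0 ≠ 0 := hmon _ _ (hFB.mem 0)
  have hpoly : mon m * MvPolynomial.C s0 = MvPolynomial.C r0 * mon m₀ := by
    apply MvPolynomial.funext
    intro w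
    have hfd : Differentiable ℂ (fun w : Fin n → ℂ =>
        MvPolynomial.eval w (mon m * MvPolynomial.C s0 - MvPolynomial.C r0 * mon m₀)) := hdiff _
    have h2 := zero_of_near hfd (p := G 0) (by
      filter_upwards [hFB.opn.mem_nhds (hFB.mem 0)] with w hw
      have := hk (F w)
      rw [hFB.gf w hw] at this
      rw [map_sub, map_mul, map_mul, MvPolynomial.eval_C, MvPolynomial.eval_C, this, sub_self]) w
    rw [map_sub] at h2
    exact sub_eq_zero.1 h2
  have hu1 : IsUnit (MvPolynomial.C s0 : MvPolynomial (Fin n) ℂ) :=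
    (isUnit_iff_ne_zero.2 hs0').map MvPolynomial.C
  have hu2 : IsUnit (MvPolynomial.C r0 : MvPolynomial (Fin n) ℂ) :=
    (isUnit_iff_ne_zero.2 hr0').map MvPolynomial.C
  have hd1 : mon m ∣ mon m₀ := by
    rw [← hu2.dvd_mul_left, ← hpoly]
    exact dvd_mul_right _ _
  have hd2 : mon m₀ ∣ mon m := by
    rw [← hu1.dvd_mul_right, hpoly]
    exact dvd_mul_left _ _
  have hprime : ∀ i, Prime (T i) := fun i => UniqueFactorizationMonoid.irreducible_iff_prime.1 (hT i)
  have hnd : ∀ i j, i ≠ j → ¬ T i ∣ T j := fun i j hij h =>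
    hna i j hij ((hT i).associated_of_dvd (hT j) h)
  have hle1 := exponent_le hprime hnd hd1
  have hle2 := exponent_le hprime hnd hd2
  have heq : m = m₀ := Finsupp.ext fun i => le_antisymm (hle1 i) (hle2 i)
  exact (Finset.mem_erase.1 hm).1 heq

/-- At most `n` irreducible algebraic hypersurfaces have a germ in the boundary. -/
theorem at_most {Ω : Set (Fin n → ℂ)} {F G : (Fin n → ℂ) → (Fin n → ℂ)} (hFB : IsFB Ω F G)
    (hb : RABn Ω) (T : Fin (n + 1) → MvPolynomial (Fin n) ℂ) (hT : ∀ i, Irreducible (T i))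
    (hna : ∀ i j, i ≠ j → ¬ Associated (T i) (T j)) (p : Fin (n + 1) → (Fin n → ℂ))
    (hp : ∀ i, MvPolynomial.eval (p i) (T i) = 0)
    (hg : ∀ i, ∀ᶠ z in 𝓝 (p i), MvPolynomial.eval z (T i) = 0 → z ∈ frontier Ω) : False :=
  omitted hFB T hT hna fun i => zero_free hFB.opn hb (hT i) (hp i) (hg i)

end Pool.Agent.X882.FB.N
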