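import Pool.Agent.X882.FB.NRoot

/-!
A polynomial without zeros in the domain is constant on an algebraic hypersurface contained in the
real-analytic boundary.
-/

set_option autoImplicit false

namespace Pool.Agent.X882.FB.N

open Filter Metric Set Topology Polynomial
open scoped ContDiff

/-- degree from growth -/
theorem natDegree_le_of_growth {p : ℂ[X]} {C : ℝ} {N : ℕ}
    (h : ∀ s, ‖p.eval s‖ ≤ C * (1 + ‖s‖) ^ N) : p.natDegree ≤ N := by
  obtain ⟨q, hq, hpq⟩ := poly_of_growth' N (fun s => p.eval s) p.differentiable C h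
  rw [Polynomial.funext hpq]
  exact hq

theorem closure_of_finite {S : Set ℂ} (hS : S.Finite) {f g : ℂ → ℝ} (hf : Continuous f)
    (hg : Continuous g) (h : ∀ s, s ∉ S → f s ≤ g s) (s : ℂ) : f s ≤ g s := by
  have hd : Dense (Sᶜ) := hS.countable.dense_compl ℂ
  have hc : IsClosed {s | f s ≤ g s} := isClosed_le hf hg
  have h1 : closure (Sᶜ) ⊆ {s | f s ≤ g s} := closure_minimal (fun s hs => h s hs) hc
  exact h1 (hd.closure_eq ▸ mem_univ s)

/-- divisibility from a local bound -/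
theorem dvd_of_bound {B : ℂ → ℝ} (hB : Continuous B) : ∀ (k : ℕ) (q p : ℂ[X]), q.natDegree = k →
    q ≠ 0 → (∀ s, ‖p.eval s‖ ≤ ‖q.eval s‖ * B s) → q ∣ p := by
  intro k
  induction k with
  | zero =>
    intro q p hk hq _
    have h1 : IsUnit q := by
      rw [Polynomial.isUnit_iff_degree_eq_zero, degree_eq_natDegree hq, hk]
      rfl
    exact h1.dvd
  | succ k ih =>
    intro q p hk hq h
    obtain ⟨a, ha⟩ := IsAlgClosed.exists_root q (by
      rw [degree_eq_natDegree hq, hk]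
      exact_mod_cast Nat.succ_ne_zero k)
    have hpa : p.IsRoot a := by
      have h1 := h a
      rw [IsRoot.def.1 ha, norm_zero, zero_mul] at h1
      exact norm_le_zero_iff.1 h1
    obtain ⟨q', hq'⟩ := dvd_iff_isRoot.2 ha
    obtain ⟨p', hp'⟩ := dvd_iff_isRoot.2 hpa
    have hq'0 : q' ≠ 0 := by
      rintro rfl
      rw [mul_zero] at hq'
      exact hq hq'
    have hk' : q'.natDegree = k := by
      rw [hq', natDegree_mul (X_sub_C_ne_zero a) hq'0, natDegree_X_sub_C] at hk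
      omega
    rw [hq', hp']
    apply mul_dvd_mul_left
    apply ih q' p' hk' hq'0
    apply closure_of_finite (S := {a}) (finite_singleton a)
      p'.continuous.norm (q'.continuous.norm.mul hB)
    intro s hs
    have hsa : 0 < ‖s - a‖ := norm_pos_iff.2 (sub_ne_zero.2 hs)
    have h1 := h s
    rw [hq', hp', eval_mul, eval_mul, eval_sub, eval_X, eval_C, norm_mul, norm_mul,
      mul_assoc] at h1
    exact le_of_mul_le_mul_left h1 hsa

variable {n : ℕ}

theorem univ_simply : IsSimplyConnected (univ : Set (Fin n → ℂ)) := by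
  have : ContractibleSpace (univ : Set (Fin n → ℂ)) :=
    (convex_univ (𝕜 := ℝ)).contractibleSpace univ_nonempty
  exact SimplyConnectedSpace.ofContractible _

theorem dvd_of_shA {T g : MvPolynomial (Fin n) ℂ} {e : Fin n → ℂ} (h : shA e T ∣ shA e g) :
    T ∣ g := by
  have e1 : ∀ p : MvPolynomial (Fin n) ℂ, shE e (C p) = shA e p := fun p => sh_C e p
  rw [← e1, ← e1] at h
  have h2 : (C T : (MvPolynomial (Fin n) ℂ)[X]) ∣ C g := (map_dvd_iff (shE e)).1 h
  have h3 := (Polynomial.C_dvd_iff_dvd_coeff T (C g)).1 h2 0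
  simpa using h3

/-- a polynomial vanishing at the good points of an irreducible hypersurface is divisible -/
theorem dvd_of_zeros {T g : MvPolynomial (Fin n) ℂ} {e : Fin n → ℂ} (hT : Irreducible T)
    (hd : (shA e T).natDegree ≠ 0) {D : MvPolynomial (Fin n) ℂ} (hD : D ≠ 0)
    (hne : ∀ z, MvPolynomial.eval z D ≠ 0 → ∃ ξ, vl (shA e T) z ξ = 0)
    (h : ∀ z ξ, MvPolynomial.eval z D ≠ 0 → vl (shA e T) z ξ = 0 →
      MvPolynomial.eval (z + ξ • e) g = 0) : T ∣ g := by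
  by_contra hcon
  have h1 : ¬ shA e T ∣ shA e g := fun h => hcon (dvd_of_shA h)
  obtain ⟨ε, hε0, u, v, huv⟩ := bezout (irreducible_shA hT e) hd h1
  have hzero : ∀ z, MvPolynomial.eval z (D * ε) = 0 := by
    intro z
    rw [map_mul]
    by_cases hz : MvPolynomial.eval z D = 0
    · rw [hz, zero_mul]
    · obtain ⟨ξ, hξ⟩ := hne z hz
      have h3 := congrArg (fun S => vl S z ξ) huv
      simp only [vl_add, vl_mul, vl_C] at h3
      rw [hξ, vl_shA g, h z ξ hz hξ] at h3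
      rw [← h3]
      ring
  have := MvPolynomial.funext (p := D * ε) (q := 0) (fun z => by rw [hzero z, map_zero])
  exact mul_ne_zero hD hε0 this

theorem PG.norm_add_smul (e : Fin n → ℂ) {r : (Fin n → ℂ) → ℝ} (hr : PG r)
    (g : MvPolynomial (Fin n) ℂ) : ∃ (C : ℝ) (N : ℕ), 0 ≤ C ∧ ∀ z (ξ : ℂ), ‖ξ‖ ≤ r z →
      ‖MvPolynomial.eval (z + ξ • e) g‖ ≤ C * (1 + ‖z‖) ^ N := by
  obtain ⟨C₁, N₁, hC₁, h₁⟩ := PG.poly g
  have hnorm : PG (fun z : Fin n → ℂ => ‖z‖) := by
    refine ⟨1, 1, zero_le_one, fun z => ?_⟩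
    rw [abs_norm]
    linarith [norm_nonneg z]
  obtain ⟨C₂, N₂, hC₂, h₂⟩ := ((PG.const 1).add (hnorm.add
    (hr.mul (PG.const ‖e‖)))).pow N₁
  refine ⟨C₁ * C₂, N₂, by positivity, fun z ξ hξ => ?_⟩
  have h3 := h₁ (z + ξ • e)
  rw [abs_norm] at h3
  refine h3.trans ?_
  rw [mul_assoc]
  apply mul_le_mul_of_nonneg_left _ hC₁
  refine le_trans ?_ ((le_abs_self _).trans (h₂ z))
  apply pow_le_pow_left₀ (by positivity)
  have h4 : ‖z + ξ • e‖ ≤ ‖z‖ + ‖ξ‖ * ‖e‖ := by
    refine (norm_add_le _ _).trans ?_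
    rw [norm_smul]
  have h5 : ‖ξ‖ * ‖e‖ ≤ r z * ‖e‖ := mul_le_mul_of_nonneg_right hξ (norm_nonneg e)
  linarith

/-- the boundary values of a continuous root are locally holomorphic -/
theorem root_bd {Ω : Set (Fin n → ℂ)} (hΩ : IsOpen Ω) (hb : RABn Ω)
    {g : MvPolynomial (Fin n) ℂ} {s : (Fin n → ℂ) → ℂ} (hs : ContinuousOn s Ω) {m : ℕ}
    (hm : m ≠ 0) (hsg : ∀ y ∈ Ω, s y ^ m = MvPolynomial.eval y g) :
    ∃ sb : (Fin n → ℂ) → ℂ, ∀ y ∈ frontier Ω, MvPolynomial.eval y g ≠ 0 →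
      ∃ κ : (Fin n → ℂ) → ℂ, ContDiffAt ℂ ω κ y ∧ (∀ᶠ y' in 𝓝 y, y' ∈ frontier Ω → sb y' = κ y') ∧
        κ y ^ m = MvPolynomial.eval y g := by
  refine ⟨fun y => limUnder (𝓝[Ω] y) s, fun y hy hgy => ?_⟩
  obtain ⟨κ, hκ1, hκ2, hκ3⟩ := root_ext hΩ hb hs hm hsg hy hgy
  refine ⟨κ, hκ1, ?_, hκ2.self_of_nhds⟩
  have h1 : ∀ᶠ y' in 𝓝 y, ContDiffAt ℂ ω κ y' := hκ1.eventually (by simp)
  filter_upwards [h1, hκ3.eventually_nhds] with y' h2 h3 h4
  have hne : (𝓝[Ω] y').NeBot :=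
    mem_closure_iff_nhdsWithin_neBot.1 (frontier_subset_closure h4)
  apply Tendsto.limUnder_eq
  have h5 : Tendsto κ (𝓝[Ω] y') (𝓝 (κ y')) := h2.continuousAt.mono_left nhdsWithin_le_nhds
  apply h5.congr'
  filter_upwards [mem_nhdsWithin_of_mem_nhds h3, self_mem_nhdsWithin] with w hw1 hw2
  exact (hw1 hw2).symm

/-- A polynomial without zeros in the domain is constant on an algebraic hypersurface in the
boundary. -/
theorem leaf_const {Ω : Set (Fin n → ℂ)} {F G : (Fin n → ℂ) → (Fin n → ℂ)} (hFB : IsFB Ω F G)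
    (hb : RABn Ω) {T g : MvPolynomial (Fin n) ℂ} (hT : Irreducible T)
    (hfr : ∀ w, MvPolynomial.eval w T = 0 → w ∈ frontier Ω)
    (hgz : ∀ w ∈ Ω, MvPolynomial.eval w g ≠ 0) (hnd : ¬ T ∣ g) :
    ∃ c : ℂ, c ≠ 0 ∧ T ∣ g - MvPolynomial.C c := by
  classical
  obtain ⟨e, he⟩ : ∃ e : Fin n → ℂ,
      MvPolynomial.eval e (MvPolynomial.homogeneousComponent T.totalDegree T) ≠ 0 := by
    by_contra hcon
    push Not at hcon
    exact top_ne hT.ne_zero (MvPolynomial.funext (fun z => by rw [hcon z, map_zero]))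
  obtain ⟨hd, hmap⟩ := regular hT he
  obtain ⟨hdeg1, hdeg2⟩ := sh_deg T e
  set ce := MvPolynomial.eval e (MvPolynomial.homogeneousComponent T.totalDegree T) with hce
  set S := shA e T with hS
  have hSv : ∀ z x, vl S z x = MvPolynomial.eval (z + x • e) T := fun z x => vl_shA T e z x
  obtain ⟨Δ, hΔ0, hgood, -⟩ := hyp_connected (irreducible_shA hT e) hd
  obtain ⟨δ, hδ0, u, v₀, huv⟩ := bezout (irreducible_shA hT e) hd (S := shA e g)
    (fun h => hnd (dvd_of_shA h))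
  set D := Δ * δ with hD
  have hD0 : D ≠ 0 := mul_ne_zero hΔ0 hδ0
  have hDgood : ∀ z, MvPolynomial.eval z D ≠ 0 → Good S z := by
    intro z hz
    rw [hD, map_mul] at hz
    exact hgood z (left_ne_zero_of_mul hz)
  have hDg : ∀ z ξ, MvPolynomial.eval z D ≠ 0 → vl S z ξ = 0 →
      MvPolynomial.eval (z + ξ • e) g ≠ 0 := by
    intro z ξ hz hξ h0
    rw [hD, map_mul] at hz
    apply right_ne_zero_of_mul hz
    have h3 := congrArg (fun S => vl S z ξ) huv
    simp only [vl_add, vl_mul, vl_C] at h3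
    rw [hξ, vl_shA g, h0] at h3
    rw [← h3]
    ring
  -- growth of the values on the hypersurface
  let r : (Fin n → ℂ) → ℝ := fun z =>
    (∑ i ∈ Finset.range (T.totalDegree + 1), ‖MvPolynomial.eval z (S.coeff i)‖) * ‖ce‖⁻¹
  have hr : PG r := (PG.sum _ _ fun i => PG.poly (S.coeff i)).mul (PG.const _)
  have hrb : ∀ z ξ, vl S z ξ = 0 → ‖ξ‖ ≤ r z := by
    intro z ξ hξ
    have h1 := root_bound (S.map (MvPolynomial.eval z)) T.totalDegree
      (natDegree_map_le.trans hdeg1) hξ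
    simp only [coeff_map] at h1
    rw [hdeg2, MvPolynomial.eval_C, norm_mul] at h1
    simp only [r]
    rw [← div_eq_mul_inv, le_div_iff₀ (norm_pos_iff.2 he), mul_comm]
    exact h1
  obtain ⟨C₂, N₂, hC₂, hgrow⟩ := PG.norm_add_smul e hr g
  set d := S.natDegree with hdd
  obtain ⟨m, hm⟩ : ∃ m, m = N₂ * d + 1 := ⟨_, rfl⟩
  have hm0 : m ≠ 0 := by omega
  -- the root
  have hgG : Continuous (fun y : Fin n → ℂ => MvPolynomial.eval (G y) g) :=
    ((contDiff_eval g (k := 0)).continuous).comp hFB.dG.continuous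
  obtain ⟨f, hfc, hfm⟩ := Complex.exists_continuousOn_pow_eq (univ_simply (n := n)) isOpen_univ
    (g := fun y : Fin n → ℂ => MvPolynomial.eval (G y) g) hgG.continuousOn (by
      rintro ⟨y, -, hy⟩
      exact hgz _ (hFB.mem y) hy) hm0
  have hsc : ContinuousOn (fun x => f (F x)) Ω :=
    hfc.comp hFB.dF.continuousOn (fun _ _ => mem_univ _)
  obtain ⟨sb, hsb⟩ := root_bd hFB.opn hb hsc hm0 (fun y hy => by
    rw [hfm, hFB.gf y hy])
  let R : (Fin n → ℂ) → ℂ → ℂ := fun z x => ∏ ξ ∈ rt S z, (x - sb (z + ξ • e))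
  have hRd : ∀ x z₁, MvPolynomial.eval z₁ D ≠ 0 → DifferentiableAt ℂ (fun z => R z x) z₁ := by
    intro x z₁ hz₁
    have hDe : ∀ᶠ z in 𝓝 z₁, MvPolynomial.eval z D ≠ 0 :=
      ((contDiff_eval D (k := 0)).continuous).continuousAt.eventually_ne hz₁
    obtain ⟨H, hH1, hH2⟩ := local_roots (hDgood z₁ hz₁) (hDe.mono hDgood)
    have hex : ∀ ξ ∈ rt S z₁, ∃ φ : (Fin n → ℂ) → ℂ, DifferentiableAt ℂ φ z₁ ∧
        ∀ᶠ z in 𝓝 z₁, sb (z + H ξ z • e) = φ z := by
      intro ξ hξ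
      have hξ0 := eval_of_mem_rt hξ
      have hfr' : z₁ + ξ • e ∈ frontier Ω := hfr _ (by rw [← hSv]; exact hξ0)
      obtain ⟨κ, hκ1, hκ2, -⟩ := hsb _ hfr' (hDg z₁ ξ hz₁ hξ0)
      have hHd : DifferentiableAt ℂ (H ξ) z₁ := (hH1 ξ hξ).2.differentiableAt (by simp)
      have hπd : DifferentiableAt ℂ (fun z => z + H ξ z • e) z₁ :=
        differentiableAt_id.add (hHd.smul_const e)
      have hπ1 : (fun z => z + H ξ z • e) z₁ = z₁ + ξ • e := by
        simp only
        rw [(hH1 ξ hξ).1]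
      refine ⟨fun z => κ (z + H ξ z • e), ?_, ?_⟩
      · have h2 : DifferentiableAt ℂ κ ((fun z => z + H ξ z • e) z₁) := by
          rw [hπ1]
          exact hκ1.differentiableAt (by simp)
        exact DifferentiableAt.comp (g := κ) z₁ h2 hπd
      · have ht : Tendsto (fun z => z + H ξ z • e) (𝓝 z₁) (𝓝 (z₁ + ξ • e)) := by
          have h2 := hπd.continuousAt.tendsto
          simp only [(hH1 ξ hξ).1] at h2
          exact h2
        filter_upwards [ht.eventually hκ2, hH2] with z h3 h4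
        apply h3
        apply hfr
        rw [← hSv]
        apply eval_of_mem_rt
        rw [h4.2]
        exact Finset.mem_image_of_mem _ hξ
    choose! φ hφ1 hφ2 using hex
    have h1 : DifferentiableAt ℂ (fun z => ∏ ξ ∈ rt S z₁, (x - φ ξ z)) z₁ :=
      diff_prod (rt S z₁) (fun ξ z => x - φ ξ z)
        (fun ξ hξ => (differentiableAt_const x).sub (hφ1 ξ hξ))
    apply h1.congr_of_eventuallyEq
    filter_upwards [hH2, (Filter.eventually_all_finset _).2 hφ2] with z hz hz2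
    simp only [R]
    rw [hz.2, Finset.prod_image hz.1]
    apply Finset.prod_congr rfl
    intro ξ hξ
    rw [hz2 ξ hξ]
  have hRm : ∀ x, ∃ K : ℝ, 0 ≤ K ∧ ∀ z, MvPolynomial.eval z D ≠ 0 →
      ‖R z x‖ ^ m ≤ K * (1 + ‖z‖) ^ (N₂ * d) := by
    intro x
    obtain ⟨K, hK⟩ : ∃ K : ℝ, K = 2 ^ (m - 1) * (‖x‖ ^ m + C₂) + 1 := ⟨_, rfl⟩
    have hK1 : 1 ≤ K := by
      rw [hK]
      have : 0 ≤ (2 : ℝ) ^ (m - 1) * (‖x‖ ^ m + C₂) := by positivity
      linarith
    refine ⟨K ^ d, by positivity, fun z hz => ?_⟩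
    have h1z : (1 : ℝ) ≤ (1 + ‖z‖) ^ N₂ := one_le_pow₀ (by linarith [norm_nonneg z])
    have hbase : (1 : ℝ) ≤ K * (1 + ‖z‖) ^ N₂ := by nlinarith
    simp only [R]
    rw [norm_prod, ← Finset.prod_pow, pow_mul, ← mul_pow]
    calc ∏ ξ ∈ rt S z, ‖x - sb (z + ξ • e)‖ ^ m ≤ ∏ ξ ∈ rt S z, (K * (1 + ‖z‖) ^ N₂) := by
          apply Finset.prod_le_prod
          · intro ξ _
            positivity
          · intro ξ hξ
            have hξ0 := eval_of_mem_rt hξ
            have hfr' : z + ξ • e ∈ frontier Ω := hfr _ (by rw [← hSv]; exact hξ0)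
            obtain ⟨κ, -, hκ2, hκ3⟩ := hsb _ hfr' (hDg z ξ hz hξ0)
            have h2 : sb (z + ξ • e) ^ m = MvPolynomial.eval (z + ξ • e) g := by
              rw [hκ2.self_of_nhds hfr', hκ3]
            have h3 := hgrow z ξ (hrb z ξ hξ0)
            rw [← h2, norm_pow] at h3
            have h4 : ‖x - sb (z + ξ • e)‖ ≤ ‖x‖ + ‖sb (z + ξ • e)‖ := norm_sub_le _ _
            have h5 : ‖x - sb (z + ξ • e)‖ ^ m ≤ (‖x‖ + ‖sb (z + ξ • e)‖) ^ m :=
              pow_le_pow_left₀ (norm_nonneg _) h4 m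
            have h6 := add_pow_le (norm_nonneg x) (norm_nonneg (sb (z + ξ • e))) m
            have h7 : ‖x‖ ^ m ≤ ‖x‖ ^ m * (1 + ‖z‖) ^ N₂ := by
              have : 0 ≤ ‖x‖ ^ m := by positivity
              nlinarith
            calc ‖x - sb (z + ξ • e)‖ ^ m
                ≤ 2 ^ (m - 1) * (‖x‖ ^ m + ‖sb (z + ξ • e)‖ ^ m) := h5.trans h6
              _ ≤ 2 ^ (m - 1) * (‖x‖ ^ m * (1 + ‖z‖) ^ N₂ + C₂ * (1 + ‖z‖) ^ N₂) := by
                  gcongr
              _ ≤ K * (1 + ‖z‖) ^ N₂ := by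
                  rw [hK]
                  have : 0 ≤ (1 + ‖z‖) ^ N₂ := by positivity
                  nlinarith
      _ = (K * (1 + ‖z‖) ^ N₂) ^ (rt S z).card := by rw [Finset.prod_const]
      _ ≤ (K * (1 + ‖z‖) ^ N₂) ^ d := pow_le_pow_right₀ hbase (card_rt_le S z)
  -- constancy
  have hconst : ∀ x z z', MvPolynomial.eval z D ≠ 0 → MvPolynomial.eval z' D ≠ 0 →
      R z' x = R z x := by
    intro x z z' hz hz'
    obtain ⟨K, hK0, hK⟩ := hRm x
    set v := z' - z with hv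
    set L := lineP D z v with hL
    have hLe : ∀ s, L.eval s = MvPolynomial.eval (z + s • v) D := fun s => eval_lineP D z v s
    have hL0 : L ≠ 0 := by
      intro h
      have h2 := hLe 0
      rw [h, eval_zero, zero_smul, add_zero] at h2
      exact hz h2.symm
    let W : ℂ → ℝ := fun s => K * (1 + ‖z + s • v‖) ^ (N₂ * d)
    have hWc : Continuous W := by
      simp only [W]
      fun_prop
    have hW0 : ∀ s, 0 ≤ W s := fun s => by positivity
    have hRW : ∀ s, L.eval s ≠ 0 → ‖R (z + s • v) x‖ ^ m ≤ W s := by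
      intro s hs
      rw [hLe] at hs
      exact hK _ hs
    have hRW1 : ∀ s, L.eval s ≠ 0 → ‖R (z + s • v) x‖ ≤ 1 + W s := by
      intro s hs
      have h1 := hRW s hs
      rcases le_or_gt ‖R (z + s • v) x‖ 1 with h2 | h2
      · linarith [hW0 s]
      · have h3 : ‖R (z + s • v) x‖ ≤ ‖R (z + s • v) x‖ ^ m := le_self_pow₀ h2.le hm0
        linarith
    let h : ℂ → ℂ := fun s => (L.eval s) ^ 2 * R (z + s • v) x
    have hhb : ∀ s, ‖h s‖ ≤ ‖(L ^ 2).eval s‖ * (1 + W s) := by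
      intro s
      simp only [h]
      rw [norm_mul, eval_pow]
      by_cases hs : L.eval s = 0
      · rw [hs]
        simp
      · exact mul_le_mul_of_nonneg_left (hRW1 s hs) (norm_nonneg _)
    have hhd : Differentiable ℂ h := by
      intro s₁
      by_cases hs₁ : L.eval s₁ = 0
      · obtain ⟨q, hq⟩ := dvd_iff_isRoot.2 hs₁
        have hval : h s₁ = 0 := by simp [h, hs₁]
        have hO : (fun s : ℂ => h s - h s₁ - (s - s₁) • (0 : ℂ)) =O[𝓝 s₁]
            fun s => ‖s - s₁‖ ^ 2 := by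
          have hc : Continuous (fun s : ℂ => ‖q.eval s‖ ^ 2 * (1 + W s)) :=
            ((q.continuous.norm).pow 2).mul (continuous_const.add hWc)
          have hbdd : ∀ᶠ s in 𝓝 s₁, ‖q.eval s‖ ^ 2 * (1 + W s) <
              ‖q.eval s₁‖ ^ 2 * (1 + W s₁) + 1 :=
            hc.continuousAt.eventually_lt continuousAt_const (by linarith)
          apply Asymptotics.IsBigO.of_bound (‖q.eval s₁‖ ^ 2 * (1 + W s₁) + 1)
          filter_upwards [hbdd] with s hs
          rw [hval, smul_zero, sub_zero, sub_zero, norm_pow, norm_norm]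
          have e1 : (L ^ 2).eval s = ((s - s₁) * q.eval s) ^ 2 := by
            rw [eval_pow, hq, eval_mul, eval_sub, eval_X, eval_C]
          have h2 := hhb s
          have h3 : ‖(L ^ 2).eval s‖ = (‖s - s₁‖ * ‖q.eval s‖) ^ 2 := by
            rw [e1, norm_pow, norm_mul]
          rw [h3] at h2
          calc ‖h s‖ ≤ (‖s - s₁‖ * ‖q.eval s‖) ^ 2 * (1 + W s) := h2
            _ = (‖q.eval s‖ ^ 2 * (1 + W s)) * ‖s - s₁‖ ^ 2 := by ring
            _ ≤ _ := by gcongr
        have hd1 : HasDerivAt h 0 s₁ := by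
          rw [hasDerivAt_iff_isLittleO]
          exact hO.trans_isLittleO (Asymptotics.isLittleO_pow_sub_sub s₁ (by norm_num))
        exact hd1.differentiableAt
      · have h2 : DifferentiableAt ℂ (fun z => R z x) (z + s₁ • v) :=
          hRd x _ (by rw [← hLe]; exact hs₁)
        have h4 : DifferentiableAt ℂ (fun s : ℂ => z + s • v) s₁ := by fun_prop
        exact ((L.differentiable s₁).pow 2).mul
          (DifferentiableAt.comp (g := fun z => R z x) s₁ h2 h4)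
    obtain ⟨CL, NL, hCL, hLb⟩ := poly_bound (L ^ 2)
    have hWb : ∀ s, W s ≤ K * (1 + ‖z‖ + ‖v‖) ^ (N₂ * d) * (1 + ‖s‖) ^ (N₂ * d) := by
      intro s
      simp only [W]
      rw [mul_assoc, ← mul_pow]
      have h6 : ‖z + s • v‖ ≤ ‖z‖ + ‖s‖ * ‖v‖ := by
        refine (norm_add_le _ _).trans ?_
        rw [norm_smul]
      have h7 : 1 + ‖z + s • v‖ ≤ (1 + ‖z‖ + ‖v‖) * (1 + ‖s‖) := by
        have h8 : 0 ≤ ‖s‖ := norm_nonneg s
        have h9 : 0 ≤ ‖z‖ := norm_nonneg z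
        have h10 : 0 ≤ ‖v‖ := norm_nonneg v
        nlinarith [mul_nonneg h8 h9]
      gcongr
    obtain ⟨K', hK'⟩ : ∃ K', K' = K * (1 + ‖z‖ + ‖v‖) ^ (N₂ * d) := ⟨_, rfl⟩
    have hK'0 : 0 ≤ K' := by
      rw [hK']
      positivity
    rw [← hK'] at hWb
    obtain ⟨hp, -, hhp⟩ := poly_of_growth' (NL + N₂ * d) h hhd (CL * (1 + K')) (by
      intro s
      have h1 : (1 : ℝ) ≤ (1 + ‖s‖) ^ (N₂ * d) := one_le_pow₀ (by linarith [norm_nonneg s])
      calc ‖h s‖ ≤ ‖(L ^ 2).eval s‖ * (1 + W s) := hhb s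
        _ ≤ (CL * (1 + ‖s‖) ^ NL) * ((1 + K') * (1 + ‖s‖) ^ (N₂ * d)) := by
            apply mul_le_mul (hLb s) _ (by linarith [hW0 s]) (by positivity)
            have := hWb s
            nlinarith
        _ = CL * (1 + K') * (1 + ‖s‖) ^ (NL + N₂ * d) := by
            rw [pow_add]
            ring)
    obtain ⟨rp, hrp⟩ := dvd_of_bound (B := fun s => 1 + W s) (continuous_const.add hWc)
      (L ^ 2).natDegree (L ^ 2) hp rfl (pow_ne_zero 2 hL0) (fun s => by
        rw [← hhp]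
        exact hhb s)
    have hrv : ∀ s, L.eval s ≠ 0 → rp.eval s = R (z + s • v) x := by
      intro s hs
      have h1 := hhp s
      rw [hrp, eval_mul, eval_pow] at h1
      simp only [h] at h1
      exact (mul_left_cancel₀ (pow_ne_zero 2 hs) h1).symm
    have hfin : {s : ℂ | L.eval s = 0}.Finite := by
      have : {s : ℂ | L.eval s = 0} ⊆ ↑L.roots.toFinset := by
        intro s hs
        simpa [hL0] using hs
      exact (Finset.finite_toSet _).subset this
    have hrb2 : ∀ s, ‖(rp ^ m).eval s‖ ≤ K' * (1 + ‖s‖) ^ (N₂ * d) := by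
      apply closure_of_finite hfin (rp ^ m).continuous.norm (by fun_prop)
      intro s hs
      rw [eval_pow, norm_pow, hrv s hs]
      exact (hRW s hs).trans (hWb s)
    have hdr : rp.natDegree = 0 := by
      have h1 := natDegree_le_of_growth hrb2
      rw [natDegree_pow, hm] at h1
      by_contra h2
      have h3 : 1 ≤ rp.natDegree := Nat.one_le_iff_ne_zero.2 h2
      nlinarith
    obtain ⟨cc, hcc⟩ := natDegree_eq_zero.1 hdr
    have h0 := hrv 0 (by rw [hLe]; simpa using hz)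
    have h1 := hrv 1 (by rw [hLe]; simpa [hv] using hz')
    rw [← hcc, eval_C] at h0 h1
    simp only [zero_smul, add_zero] at h0
    rw [← h0, h1]
    congr 1
    simp [hv]
  -- conclusion
  obtain ⟨z₀, hz₀⟩ : ∃ z₀, MvPolynomial.eval z₀ D ≠ 0 := by
    by_contra hcon
    push Not at hcon
    exact hD0 (MvPolynomial.funext (fun z => by rw [hcon z, map_zero]))
  let vals : Finset ℂ := (rt S z₀).image (fun ξ => sb (z₀ + ξ • e))
  have hpow : ∀ z ξ, MvPolynomial.eval z D ≠ 0 → vl S z ξ = 0 →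
      sb (z + ξ • e) ^ m = MvPolynomial.eval (z + ξ • e) g := by
    intro z ξ hz hξ0
    have hfr' : z + ξ • e ∈ frontier Ω := hfr _ (by rw [← hSv]; exact hξ0)
    obtain ⟨κ, -, hκ2, hκ3⟩ := hsb _ hfr' (hDg z ξ hz hξ0)
    rw [hκ2.self_of_nhds hfr', hκ3]
  have hvals : ∀ z ξ, MvPolynomial.eval z D ≠ 0 → vl S z ξ = 0 → sb (z + ξ • e) ∈ vals := by
    intro z ξ hz hξ
    have h1 : R z (sb (z + ξ • e)) = 0 := by
      simp only [R]
      exact Finset.prod_eq_zero ((mem_rt (hmap z)).2 hξ) (sub_self _)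
    rw [← hconst _ z z₀ hz hz₀] at h1
    simp only [R] at h1
    rw [Finset.prod_eq_zero_iff] at h1
    obtain ⟨ξ₀, hξ₀, h2⟩ := h1
    exact Finset.mem_image.2 ⟨ξ₀, hξ₀, (sub_eq_zero.1 h2).symm⟩
  have hdvd : T ∣ ∏ c ∈ vals, (g - MvPolynomial.C (c ^ m)) := by
    apply dvd_of_zeros hT hd hD0
    · intro z hz
      have h1 := (hDgood z hz).card_rt
      have h2 : (rt S z).Nonempty := by
        rw [← Finset.card_pos, h1]
        omega
      obtain ⟨ξ, hξ⟩ := h2
      exact ⟨ξ, eval_of_mem_rt hξ⟩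
    · intro z ξ hz hξ
      rw [map_prod]
      apply Finset.prod_eq_zero (hvals z ξ hz hξ)
      rw [map_sub, MvPolynomial.eval_C, hpow z ξ hz hξ, sub_self]
  have hprime : Prime T := UniqueFactorizationMonoid.irreducible_iff_prime.1 hT
  rw [hprime.dvd_finsetProd_iff] at hdvd
  obtain ⟨c, hc, hcd⟩ := hdvd
  refine ⟨c ^ m, ?_, hcd⟩
  obtain ⟨ξ₀, hξ₀, rfl⟩ := Finset.mem_image.1 hc
  rw [hpow z₀ ξ₀ hz₀ (eval_of_mem_rt hξ₀)]
  exact hDg z₀ ξ₀ hz₀ (eval_of_mem_rt hξ₀)

end Pool.Agent.X882.FB.N
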