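import Pool.Agent.X882.FB.NLeaf
import Pool.Agent.X882.FB.NFinal

/-!
A domain of `ℂⁿ` biholomorphic to `ℂⁿ` with real-analytic boundary: at most one irreducible
algebraic hypersurface has a germ in the boundary.
-/

set_option autoImplicit false

namespace Pool.Agent.X882.FB.N

open Filter Metric Set Topology
open scoped ContDiff

variable {n : ℕ}

theorem totalDegree_sub_C (T : MvPolynomial (Fin n) ℂ) (c : ℂ) (h : T.totalDegree ≠ 0) :
    (T - MvPolynomial.C c).totalDegree = T.totalDegree := by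
  have h1 : (-MvPolynomial.C c : MvPolynomial (Fin n) ℂ) = MvPolynomial.C (-c) := by
    rw [map_neg]
  rw [sub_eq_add_neg, h1]
  apply MvPolynomial.totalDegree_add_eq_left_of_totalDegree_lt
  rw [MvPolynomial.totalDegree_C]
  omega

theorem totalDegree_ne {T : MvPolynomial (Fin n) ℂ} (hT : Irreducible T) :
    T.totalDegree ≠ 0 := by
  intro h
  rw [MvPolynomial.totalDegree_eq_zero_iff_eq_C] at h
  have h0 : MvPolynomial.coeff 0 T ≠ 0 := by
    intro h0
    rw [h0, map_zero] at h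
    exact hT.ne_zero h
  apply hT.not_isUnit
  rw [h]
  exact (isUnit_iff_ne_zero.2 h0).map MvPolynomial.C

/-- a polynomial that is constant on the domain is constant -/
theorem eq_C_of_const {Ω : Set (Fin n → ℂ)} {F G : (Fin n → ℂ) → (Fin n → ℂ)}
    (hFB : IsFB Ω F G) {T : MvPolynomial (Fin n) ℂ} {t : ℂ}
    (h : ∀ y, MvPolynomial.eval (G y) T = t) : T = MvPolynomial.C t := by
  have hfd : Differentiable ℂ (fun w : Fin n → ℂ =>
      MvPolynomial.eval w (T - MvPolynomial.C t)) :=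
    (contDiff_eval (T - MvPolynomial.C t) (k := 1)).differentiable (by simp)
  have h2 := zero_of_near hfd (p := G 0) (by
    filter_upwards [hFB.opn.mem_nhds (hFB.mem 0)] with w hw
    have := h (F w)
    rw [hFB.gf w hw] at this
    rw [map_sub, MvPolynomial.eval_C, this, sub_self])
  apply MvPolynomial.funext
  intro w
  have h3 := h2 w
  rw [map_sub] at h3
  exact sub_eq_zero.1 h3

/-- two zero-free polynomials of the same domain do not differ by an affine relation -/
theorem no_affine {Ω : Set (Fin n → ℂ)} {F G : (Fin n → ℂ) → (Fin n → ℂ)} (hFB : IsFB Ω F G)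
    {T₁ T₂ : MvPolynomial (Fin n) ℂ} (hd : T₁.totalDegree ≠ 0) (hd' : T₂.totalDegree ≠ 0)
    (h₁ : ∀ w ∈ Ω, MvPolynomial.eval w T₁ ≠ 0) (h₂ : ∀ w ∈ Ω, MvPolynomial.eval w T₂ ≠ 0)
    {c s : ℂ} (hc : c ≠ 0) (h : T₂ = MvPolynomial.C c + T₁ * MvPolynomial.C s) : False := by
  have hcomp : ∀ p : MvPolynomial (Fin n) ℂ,
      Differentiable ℂ (fun y : Fin n → ℂ => MvPolynomial.eval (G y) p) :=
    fun p => Differentiable.comp (g := fun w : Fin n → ℂ => MvPolynomial.eval w p)
      ((contDiff_eval p (k := 1)).differentiable (by simp)) hFB.dG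
  have hval : ∀ w, MvPolynomial.eval w T₂ = c + MvPolynomial.eval w T₁ * s := by
    intro w
    rw [h, map_add, map_mul, MvPolynomial.eval_C, MvPolynomial.eval_C]
  obtain ⟨j, hj⟩ := several (E := Fin n → ℂ) (κ := Bool)
    (fun b y => if b then MvPolynomial.eval (G y) T₁ else 1)
    (by
      rintro (_ | _)
      · simp
      · simpa using hcomp T₁)
    (by
      rintro (_ | _) z
      · simp
      · simpa using h₁ _ (hFB.mem z))
    (fun y => MvPolynomial.eval (G y) T₂) (hcomp T₂) (fun y => h₂ _ (hFB.mem y))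
    (fun b => if b then s else c) (by
      intro z
      rw [hval]
      simp
      ring)
  rcases j with _ | _
  · have h3 : ∀ y, MvPolynomial.eval (G y) T₂ = MvPolynomial.eval (G 0) T₂ := by
      intro y
      have := hj y
      simp at this
      exact this.symm
    have h4 := eq_C_of_const hFB h3
    apply hd'
    rw [h4, MvPolynomial.totalDegree_C]
  · have h3 : ∀ y, MvPolynomial.eval (G y) T₁ = MvPolynomial.eval (G 0) T₁ := by
      intro y
      have := hj y
      simp only [if_true] at this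
      rw [hval, hval] at this
      have h5 : c * (MvPolynomial.eval (G y) T₁ - MvPolynomial.eval (G 0) T₁) = 0 := by
        linear_combination this
      exact sub_eq_zero.1 ((mul_eq_zero.1 h5).resolve_left hc)
    have h4 := eq_C_of_const hFB h3
    apply hd
    rw [h4, MvPolynomial.totalDegree_C]

/-- At most one irreducible algebraic hypersurface has a germ in the boundary. -/
theorem at_most_one {Ω : Set (Fin n → ℂ)} {F G : (Fin n → ℂ) → (Fin n → ℂ)} (hFB : IsFB Ω F G)
    (hb : RABn Ω) {T₁ T₂ : MvPolynomial (Fin n) ℂ} (hT₁ : Irreducible T₁) (hT₂ : Irreducible T₂)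
    {p₁ p₂ : Fin n → ℂ} (hp₁ : MvPolynomial.eval p₁ T₁ = 0) (hp₂ : MvPolynomial.eval p₂ T₂ = 0)
    (hg₁ : ∀ᶠ z in 𝓝 p₁, MvPolynomial.eval z T₁ = 0 → z ∈ frontier Ω)
    (hg₂ : ∀ᶠ z in 𝓝 p₂, MvPolynomial.eval z T₂ = 0 → z ∈ frontier Ω) :
    Associated T₁ T₂ := by
  by_contra hna
  have hnd₁ : ¬ T₁ ∣ T₂ := fun h => hna (hT₁.associated_of_dvd hT₂ h)
  have hnd₂ : ¬ T₂ ∣ T₁ := fun h => hna (hT₂.associated_of_dvd hT₁ h).symm
  have hf₁ := all_frontier hFB.opn hb hT₁ hp₁ hg₁
  have hf₂ := all_frontier hFB.opn hb hT₂ hp₂ hg₂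
  have hz₁ := zero_free hFB.opn hb hT₁ hp₁ hg₁
  have hz₂ := zero_free hFB.opn hb hT₂ hp₂ hg₂
  obtain ⟨c, hc, S, hS⟩ := leaf_const hFB hb hT₁ hf₁ hz₂ hnd₁
  obtain ⟨c', hc', S', hS'⟩ := leaf_const hFB hb hT₂ hf₂ hz₁ hnd₂
  have hd₁ := totalDegree_ne hT₁
  have hd₂ := totalDegree_ne hT₂
  have e₁ := totalDegree_sub_C T₂ c hd₂
  have e₂ := totalDegree_sub_C T₁ c' hd₁
  have hS0 : S ≠ 0 := by
    rintro rfl
    rw [mul_zero] at hS
    rw [hS, MvPolynomial.totalDegree_zero] at e₁
    exact hd₂ e₁.symm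
  have hS0' : S' ≠ 0 := by
    rintro rfl
    rw [mul_zero] at hS'
    rw [hS', MvPolynomial.totalDegree_zero] at e₂
    exact hd₁ e₂.symm
  rw [hS, MvPolynomial.totalDegree_mul_of_isDomain hT₁.ne_zero hS0] at e₁
  rw [hS', MvPolynomial.totalDegree_mul_of_isDomain hT₂.ne_zero hS0'] at e₂
  have hSd : S.totalDegree = 0 := by omega
  rw [MvPolynomial.totalDegree_eq_zero_iff_eq_C] at hSd
  refine no_affine hFB hd₁ hd₂ hz₁ hz₂ (c := c) (s := MvPolynomial.coeff 0 S) hc ?_
  rw [← hSd]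
  linear_combination hS

end Pool.Agent.X882.FB.N
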