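import Pool.Agent.X882.FB.Hurwitz

/-!
Polynomials in one variable over the polynomials in several variables.
-/

set_option autoImplicit false

namespace Pool.Agent.X882.FB.N

open Filter Metric Set Topology Polynomial
open scoped ContDiff

variable {n : ℕ}

/-- the value at `(z, x)` -/
noncomputable def vl (T : (MvPolynomial (Fin n) ℂ)[X]) (z : Fin n → ℂ) (x : ℂ) : ℂ :=
  (T.map (MvPolynomial.eval z)).eval x

theorem vl_add (S T : (MvPolynomial (Fin n) ℂ)[X]) (z : Fin n → ℂ) (x : ℂ) :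
    vl (S + T) z x = vl S z x + vl T z x := by simp [vl]

theorem vl_mul (S T : (MvPolynomial (Fin n) ℂ)[X]) (z : Fin n → ℂ) (x : ℂ) :
    vl (S * T) z x = vl S z x * vl T z x := by simp [vl]

theorem vl_C (p : MvPolynomial (Fin n) ℂ) (z : Fin n → ℂ) (x : ℂ) :
    vl (C p) z x = MvPolynomial.eval z p := by simp [vl]

theorem vl_sum {ι : Type} (s : Finset ι) (f : ι → (MvPolynomial (Fin n) ℂ)[X]) (z : Fin n → ℂ)
    (x : ℂ) : vl (∑ i ∈ s, f i) z x = ∑ i ∈ s, vl (f i) z x := by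
  simp only [vl]
  rw [Polynomial.map_sum, eval_finsetSum]

theorem vl_map_C (p : ℂ[X]) (z : Fin n → ℂ) (x : ℂ) :
    vl (p.map (MvPolynomial.C : ℂ →+* MvPolynomial (Fin n) ℂ)) z x = p.eval x := by
  simp only [vl]
  rw [Polynomial.map_map]
  have : (MvPolynomial.eval z).comp (MvPolynomial.C : ℂ →+* MvPolynomial (Fin n) ℂ) =
      RingHom.id ℂ := by
    ext a
    simp
  rw [this, Polynomial.map_id]

theorem bezout' (K : Type) [Field K] [Algebra (MvPolynomial (Fin n) ℂ) K]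
    [IsFractionRing (MvPolynomial (Fin n) ℂ) K] {T S : (MvPolynomial (Fin n) ℂ)[X]}
    (hT : Irreducible T) (hd : T.natDegree ≠ 0) (hS : ¬ T ∣ S) :
    ∃ δ : MvPolynomial (Fin n) ℂ, δ ≠ 0 ∧ ∃ u v : (MvPolynomial (Fin n) ℂ)[X],
      u * T + v * S = C δ := by
  have hprim : T.IsPrimitive := hT.isPrimitive hd
  have hirr : Irreducible (T.map (algebraMap (MvPolynomial (Fin n) ℂ) K)) :=
    (hprim.irreducible_iff_irreducible_map_fraction_map (K := K)).1 hT
  have hnd : ¬ T.map (algebraMap (MvPolynomial (Fin n) ℂ) K) ∣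
      S.map (algebraMap (MvPolynomial (Fin n) ℂ) K) := fun h =>
    hS (hprim.dvd_of_fraction_map_dvd_fraction_map h)
  obtain ⟨a, b, hab⟩ := (hirr.coprime_iff_not_dvd.2 hnd)
  obtain ⟨c, hc0, hc⟩ := IsLocalization.integerNormalization_spec
    (nonZeroDivisors (MvPolynomial (Fin n) ℂ)) a
  obtain ⟨e, he0, he⟩ := IsLocalization.integerNormalization_spec
    (nonZeroDivisors (MvPolynomial (Fin n) ℂ)) b
  set a' := IsLocalization.integerNormalization (nonZeroDivisors (MvPolynomial (Fin n) ℂ)) a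
  set b' := IsLocalization.integerNormalization (nonZeroDivisors (MvPolynomial (Fin n) ℂ)) b
  have hinj := map_injective (algebraMap (MvPolynomial (Fin n) ℂ) K)
    (IsFractionRing.injective (MvPolynomial (Fin n) ℂ) K)
  refine ⟨c * e, mul_ne_zero (nonZeroDivisors.ne_zero hc0) (nonZeroDivisors.ne_zero he0),
    C e * a', C c * b', ?_⟩
  apply hinj
  rw [Polynomial.map_add, Polynomial.map_mul, Polynomial.map_mul, Polynomial.map_mul,
    Polynomial.map_mul, map_C, map_C, map_C, hc, he]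
  rw [Algebra.smul_def, Algebra.smul_def, map_mul, C_mul]
  have e1 : ∀ c : MvPolynomial (Fin n) ℂ, algebraMap (MvPolynomial (Fin n) ℂ) K[X] c =
      C (algebraMap (MvPolynomial (Fin n) ℂ) K c) := fun c => rfl
  rw [e1, e1]
  linear_combination (C (algebraMap (MvPolynomial (Fin n) ℂ) K c) *
    C (algebraMap (MvPolynomial (Fin n) ℂ) K e)) * hab

theorem bezout {T S : (MvPolynomial (Fin n) ℂ)[X]} (hT : Irreducible T) (hd : T.natDegree ≠ 0)
    (hS : ¬ T ∣ S) : ∃ δ : MvPolynomial (Fin n) ℂ, δ ≠ 0 ∧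
      ∃ u v : (MvPolynomial (Fin n) ℂ)[X], u * T + v * S = C δ :=
  bezout' (FractionRing (MvPolynomial (Fin n) ℂ)) hT hd hS

theorem contDiff_eval (p : MvPolynomial (Fin n) ℂ) {k : WithTop ℕ∞} :
    ContDiff ℂ k (fun z : Fin n → ℂ => MvPolynomial.eval z p) := by
  induction p using MvPolynomial.induction_on with
  | C c =>
    simp only [MvPolynomial.eval_C]
    exact contDiff_const
  | add p q hp hq =>
    simp only [map_add]
    exact hp.add hq
  | mul_X p i hp =>
    simp only [map_mul, MvPolynomial.eval_X]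
    exact hp.mul (contDiff_apply ℂ ℂ i)

theorem vl_sum' (T : (MvPolynomial (Fin n) ℂ)[X]) (z : Fin n → ℂ) (x : ℂ) :
    vl T z x = ∑ i ∈ Finset.range (T.natDegree + 1), MvPolynomial.eval z (T.coeff i) * x ^ i := by
  rw [vl, eval_map, eval₂_eq_sum_range]

theorem contDiff_vl (T : (MvPolynomial (Fin n) ℂ)[X]) {k : WithTop ℕ∞} :
    ContDiff ℂ k (fun p : (Fin n → ℂ) × ℂ => vl T p.1 p.2) := by
  simp only [vl_sum']
  apply ContDiff.sum
  intro i _
  exact ((contDiff_eval (T.coeff i)).comp contDiff_fst).mul (contDiff_snd.pow i)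

theorem continuous_vl (T : (MvPolynomial (Fin n) ℂ)[X]) :
    Continuous (fun p : (Fin n → ℂ) × ℂ => vl T p.1 p.2) :=
  (contDiff_vl T (k := 0)).continuous

theorem hasDerivAt_vl (T : (MvPolynomial (Fin n) ℂ)[X]) (z : Fin n → ℂ) (x : ℂ) :
    HasDerivAt (fun x => vl T z x) (vl (derivative T) z x) x := by
  have h1 := (T.map (MvPolynomial.eval z)).hasDerivAt x
  rw [derivative_map] at h1
  exact h1

/-- The branch of an algebraic hypersurface through a point where the last partial derivative does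
not vanish. -/
theorem branch (T : (MvPolynomial (Fin n) ℂ)[X]) {z₁ : Fin n → ℂ} {x₁ : ℂ} (h0 : vl T z₁ x₁ = 0)
    (h1 : vl (derivative T) z₁ x₁ ≠ 0) :
    ∃ g : (Fin n → ℂ) → ℂ, ContDiffAt ℂ ω g z₁ ∧ g z₁ = x₁ ∧ (∀ᶠ z in 𝓝 z₁, vl T z (g z) = 0) ∧
      (∀ᶠ w : (Fin n → ℂ) × ℂ in 𝓝 (z₁, x₁), vl T w.1 w.2 = 0 → w.2 = g w.1) := by
  let f : (Fin n → ℂ) × ℂ → ℂ := fun w => vl T w.1 w.2
  have hf : ∀ w, ContDiffAt ℂ ω f w := fun w => (contDiff_vl T).contDiffAt
  set u : (Fin n → ℂ) × ℂ := (z₁, x₁) with hu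
  have hfu : f u = 0 := h0
  have hinv : (fderiv ℂ f u ∘L .inr ℂ (Fin n → ℂ) ℂ).IsInvertible := by
    have hd : HasFDerivAt f (fderiv ℂ f u) u :=
      ((hf u).differentiableAt (by simp)).hasFDerivAt
    have hline : HasDerivAt (fun t : ℂ => ((z₁, t) : (Fin n → ℂ) × ℂ))
        ((0, 1) : (Fin n → ℂ) × ℂ) x₁ :=
      (hasDerivAt_const x₁ z₁).prodMk (hasDerivAt_id x₁)
    have h2 : HasDerivAt (fun t : ℂ => f (z₁, t)) (fderiv ℂ f u (0, 1)) x₁ :=
      hd.comp_hasDerivAt x₁ hline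
    have h3 := hasDerivAt_vl T z₁ x₁
    have h5 : fderiv ℂ f u (0, 1) = vl (derivative T) z₁ x₁ := h2.unique h3
    set c := vl (derivative T) z₁ x₁ with hc
    have h6 : (fderiv ℂ f u ∘L .inr ℂ (Fin n → ℂ) ℂ) =
        ((ContinuousLinearEquiv.unitsEquivAut ℂ (Units.mk0 c h1) : ℂ ≃L[ℂ] ℂ) : ℂ →L[ℂ] ℂ) := by
      ext
      simp only [ContinuousLinearMap.coe_comp, Function.comp_apply,
        ContinuousLinearMap.inr_apply]
      rw [h5]
      simp
    rw [h6]
    exact ContinuousLinearMap.isInvertible_equiv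
  have hw : (ω : WithTop ℕ∞) ≠ 0 := by simp
  refine ⟨(hf u).implicitFunction hw hinv, ?_, ?_, ?_, ?_⟩
  · exact (hf u).contDiffAt_implicitFunction hw hinv
  · exact (hf u).implicitFunction_apply_self hw hinv
  · have h2 := (hf u).eventually_apply_implicitFunction hw hinv
    rw [hfu] at h2
    exact h2
  · have h2 := (hf u).eventually_apply_eq_iff_implicitFunction hw hinv
    rw [hfu] at h2
    filter_upwards [h2] with w hw2 hw3
    exact (hw2.1 hw3).symm

/-- the roots of `T(z, ·)` -/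
noncomputable def rt (T : (MvPolynomial (Fin n) ℂ)[X]) (z : Fin n → ℂ) : Finset ℂ :=
  (T.map (MvPolynomial.eval z)).roots.toFinset

theorem mem_rt {T : (MvPolynomial (Fin n) ℂ)[X]} {z : Fin n → ℂ}
    (h : T.map (MvPolynomial.eval z) ≠ 0) {x : ℂ} : x ∈ rt T z ↔ vl T z x = 0 := by
  rw [rt, Multiset.mem_toFinset, mem_roots h, IsRoot.def, vl]

theorem eval_of_mem_rt {T : (MvPolynomial (Fin n) ℂ)[X]} {z : Fin n → ℂ} {x : ℂ}
    (h : x ∈ rt T z) : vl T z x = 0 := by
  rw [rt, Multiset.mem_toFinset] at h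
  exact isRoot_of_mem_roots h

theorem card_rt_le (T : (MvPolynomial (Fin n) ℂ)[X]) (z : Fin n → ℂ) :
    (rt T z).card ≤ T.natDegree :=
  (Multiset.toFinset_card_le _).trans ((card_roots' _).trans natDegree_map_le)

/-- good parameters -/
def Good (T : (MvPolynomial (Fin n) ℂ)[X]) (z : Fin n → ℂ) : Prop :=
  MvPolynomial.eval z T.leadingCoeff ≠ 0 ∧ ∀ x, vl T z x = 0 → vl (derivative T) z x ≠ 0

theorem Good.map_ne {T : (MvPolynomial (Fin n) ℂ)[X]} {z : Fin n → ℂ} (h : Good T z) :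
    T.map (MvPolynomial.eval z) ≠ 0 := by
  intro h0
  have h1 := congrArg (fun p => coeff p T.natDegree) h0
  simp only [coeff_map, coeff_zero] at h1
  exact h.1 h1

theorem Good.card_rt {T : (MvPolynomial (Fin n) ℂ)[X]} {z : Fin n → ℂ} (h : Good T z) :
    (rt T z).card = T.natDegree := by
  have hne := h.map_ne
  have h1 : (T.map (MvPolynomial.eval z)).natDegree = T.natDegree :=
    natDegree_map_of_leadingCoeff_ne_zero _ h.1
  have h2 : (T.map (MvPolynomial.eval z)).roots.Nodup := by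
    rw [Multiset.nodup_iff_count_le_one]
    intro x
    rw [count_roots]
    by_contra hcon
    push Not at hcon
    rw [one_lt_rootMultiplicity_iff_isRoot hne] at hcon
    obtain ⟨h3, h4⟩ := hcon
    rw [IsRoot.def] at h3
    rw [IsRoot.def, derivative_map] at h4
    exact h.2 x h3 h4
  rw [rt, Multiset.toFinset_card_of_nodup h2, ← h1]
  exact (splits_iff_card_roots.1 (IsAlgClosed.splits _))

theorem local_roots {T : (MvPolynomial (Fin n) ℂ)[X]} {z₁ : Fin n → ℂ} (hg1 : Good T z₁)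
    (hg : ∀ᶠ z in 𝓝 z₁, Good T z) :
    ∃ G : ℂ → (Fin n → ℂ) → ℂ, (∀ ξ ∈ rt T z₁, G ξ z₁ = ξ ∧ ContDiffAt ℂ ω (G ξ) z₁) ∧
      ∀ᶠ z in 𝓝 z₁, InjOn (fun ξ => G ξ z) (rt T z₁) ∧
        rt T z = (rt T z₁).image (fun ξ => G ξ z) := by
  have hex : ∀ ξ ∈ rt T z₁, ∃ g : (Fin n → ℂ) → ℂ, ContDiffAt ℂ ω g z₁ ∧ g z₁ = ξ ∧
      (∀ᶠ z in 𝓝 z₁, vl T z (g z) = 0) := by
    intro ξ hξ
    have h0 := eval_of_mem_rt hξ
    obtain ⟨g, h1, h2, h3, -⟩ := branch T h0 (hg1.2 ξ h0)
    exact ⟨g, h1, h2, h3⟩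
  choose! G hG1 hG2 hG3 using hex
  refine ⟨G, fun ξ hξ => ⟨hG2 ξ hξ, hG1 ξ hξ⟩, ?_⟩
  have hroot : ∀ᶠ z in 𝓝 z₁, ∀ ξ ∈ rt T z₁, vl T z (G ξ z) = 0 :=
    (Filter.eventually_all_finset _).2 hG3
  have hinj : ∀ᶠ z in 𝓝 z₁, ∀ ξ ∈ rt T z₁, ∀ ξ' ∈ rt T z₁, ξ ≠ ξ' → G ξ z ≠ G ξ' z := by
    rw [Filter.eventually_all_finset]
    intro ξ hξ
    rw [Filter.eventually_all_finset]
    intro ξ' hξ'
    by_cases he : ξ = ξ'
    · exact Eventually.of_forall fun z h => absurd he h
    · have h1 : ContinuousAt (fun z => G ξ z - G ξ' z) z₁ :=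
        (hG1 ξ hξ).continuousAt.sub (hG1 ξ' hξ').continuousAt
      have h2 := h1.eventually_ne (y := 0) (by
        rw [hG2 ξ hξ, hG2 ξ' hξ']
        exact sub_ne_zero.2 he)
      filter_upwards [h2] with z hz _
      exact sub_ne_zero.1 hz
  filter_upwards [hroot, hinj, hg] with z hz1 hz2 hz3
  have hinjOn : InjOn (fun ξ => G ξ z) (rt T z₁) := by
    intro ξ hξ ξ' hξ' h
    by_contra hne
    exact hz2 ξ hξ ξ' hξ' hne h
  refine ⟨hinjOn, ?_⟩
  symm
  apply Finset.eq_of_subset_of_card_le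
  · intro x hx
    obtain ⟨ξ, hξ, rfl⟩ := Finset.mem_image.1 hx
    exact (mem_rt hz3.map_ne).2 (hz1 ξ hξ)
  · rw [Finset.card_image_of_injOn hinjOn, hz3.card_rt, hg1.card_rt]

/-- polynomial growth -/
def PG (f : (Fin n → ℂ) → ℝ) : Prop := ∃ (C : ℝ) (N : ℕ), 0 ≤ C ∧ ∀ z, |f z| ≤ C * (1 + ‖z‖) ^ N

theorem PG.const (c : ℝ) : PG (fun _ : Fin n → ℂ => c) :=
  ⟨|c|, 0, abs_nonneg _, fun z => by simp⟩

theorem PG.add {f g : (Fin n → ℂ) → ℝ} (hf : PG f) (hg : PG g) : PG (fun z => f z + g z) := by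
  obtain ⟨C, N, hC, h⟩ := hf
  obtain ⟨C', N', hC', h'⟩ := hg
  refine ⟨C + C', N + N', by positivity, fun z => ?_⟩
  have h1 : (1 : ℝ) ≤ 1 + ‖z‖ := by linarith [norm_nonneg z]
  have h2 : (1 + ‖z‖) ^ N ≤ (1 + ‖z‖) ^ (N + N') := pow_le_pow_right₀ h1 (by omega)
  have h3 : (1 + ‖z‖) ^ N' ≤ (1 + ‖z‖) ^ (N + N') := pow_le_pow_right₀ h1 (by omega)
  calc |f z + g z| ≤ |f z| + |g z| := abs_add_le _ _
    _ ≤ C * (1 + ‖z‖) ^ N + C' * (1 + ‖z‖) ^ N' := add_le_add (h z) (h' z)
    _ ≤ C * (1 + ‖z‖) ^ (N + N') + C' * (1 + ‖z‖) ^ (N + N') := by gcongr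
    _ = _ := by ring

theorem PG.mul {f g : (Fin n → ℂ) → ℝ} (hf : PG f) (hg : PG g) : PG (fun z => f z * g z) := by
  obtain ⟨C, N, hC, h⟩ := hf
  obtain ⟨C', N', hC', h'⟩ := hg
  refine ⟨C * C', N + N', by positivity, fun z => ?_⟩
  rw [abs_mul]
  calc |f z| * |g z| ≤ (C * (1 + ‖z‖) ^ N) * (C' * (1 + ‖z‖) ^ N') := by
        apply mul_le_mul (h z) (h' z) (abs_nonneg _) (by positivity)
    _ = _ := by ring

theorem PG.pow {f : (Fin n → ℂ) → ℝ} (hf : PG f) (k : ℕ) : PG (fun z => f z ^ k) := by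
  induction k with
  | zero => simpa using PG.const 1
  | succ k ih => simpa only [pow_succ] using ih.mul hf

theorem PG.le {f g : (Fin n → ℂ) → ℝ} (hg : PG g) (h : ∀ z, |f z| ≤ |g z|) : PG f := by
  obtain ⟨C, N, hC, h'⟩ := hg
  exact ⟨C, N, hC, fun z => (h z).trans (h' z)⟩

theorem PG.poly (p : MvPolynomial (Fin n) ℂ) :
    PG (fun z : Fin n → ℂ => ‖MvPolynomial.eval z p‖) := by
  induction p using MvPolynomial.induction_on with
  | C c =>
    simp only [MvPolynomial.eval_C]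
    exact PG.const _
  | add p q hp hq =>
    refine (hp.add hq).le fun z => ?_
    simp only [map_add]
    rw [abs_norm, abs_of_nonneg (by positivity)]
    exact norm_add_le _ _
  | mul_X p i hp =>
    have h1 : PG (fun z : Fin n → ℂ => ‖z i‖) := by
      refine ⟨1, 1, zero_le_one, fun z => ?_⟩
      rw [abs_norm]
      have := norm_le_pi_norm z i
      linarith
    refine (hp.mul h1).le fun z => ?_
    simp only [map_mul, MvPolynomial.eval_X]
    rw [norm_mul]

theorem PG.sum (s : Finset ℕ) (f : ℕ → (Fin n → ℂ) → ℝ) (hf : ∀ i, PG (f i)) :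
    PG (fun z => ∑ i ∈ s, f i z) := by
  classical
  induction s using Finset.induction_on with
  | empty => simpa using PG.const 0
  | insert a s ha ih =>
    simp only [Finset.sum_insert ha]
    exact (hf a).add ih

/-- entire functions of polynomial growth are polynomials of bounded degree -/
theorem poly_of_growth' (N : ℕ) : ∀ (h : ℂ → ℂ), Differentiable ℂ h → ∀ C : ℝ,
    (∀ z, ‖h z‖ ≤ C * (1 + ‖z‖) ^ N) → ∃ p : ℂ[X], p.natDegree ≤ N ∧ ∀ z, h z = p.eval z := by
  induction N with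
  | zero =>
    intro h hd C hb
    have h1 : Bornology.IsBounded (range h) := by
      rw [isBounded_iff_forall_norm_le]
      refine ⟨C, ?_⟩
      rintro _ ⟨z, rfl⟩
      simpa using hb z
    refine ⟨Polynomial.C (h 0), by simp, fun z => ?_⟩
    rw [eval_C]
    exact hd.apply_eq_apply_of_bounded h1 z 0
  | succ N ih =>
    intro h hd C hb
    have hg : Differentiable ℂ (dslope h 0) := by
      rw [← differentiableOn_univ] at hd ⊢
      exact (Complex.differentiableOn_dslope univ_mem).2 hd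
    have hC : 0 ≤ C := by
      have := hb 0
      simp at this
      exact (norm_nonneg _).trans this
    obtain ⟨B, hB⟩ := (isCompact_closedBall (0 : ℂ) 1).bddAbove_image
      hg.continuous.norm.continuousOn
    have hB' : ∀ z : ℂ, ‖z‖ ≤ 1 → ‖dslope h 0 z‖ ≤ B := fun z hz =>
      hB ⟨z, mem_closedBall_zero_iff.2 hz, rfl⟩
    have hB0 : 0 ≤ B := (norm_nonneg _).trans (hB' 0 (by simp))
    obtain ⟨p, hpd, hp⟩ := ih (dslope h 0) hg (B + 4 * C) (by
      intro z
      have h1 : (1 : ℝ) ≤ 1 + ‖z‖ := by linarith [norm_nonneg z]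
      have h1N : (1 : ℝ) ≤ (1 + ‖z‖) ^ N := one_le_pow₀ h1
      rcases le_or_gt ‖z‖ 1 with hz | hz
      · have := hB' z hz
        nlinarith
      · have hz0 : z ≠ 0 := by
          rintro rfl
          simp at hz
          linarith
        rw [dslope_of_ne _ hz0, slope_def_field, sub_zero, norm_div]
        rw [div_le_iff₀ (by linarith)]
        have h2 := hb z
        have h3 := hb 0
        simp only [norm_zero, add_zero, one_pow, mul_one] at h3
        have h4 : ‖h z - h 0‖ ≤ ‖h z‖ + ‖h 0‖ := norm_sub_le _ _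
        have h5 : (1 + ‖z‖) ^ (N + 1) = (1 + ‖z‖) ^ N * (1 + ‖z‖) := pow_succ _ _
        have h6 : (1 + ‖z‖) ≤ 2 * ‖z‖ := by linarith
        have h7 : C * (1 + ‖z‖) ^ (N + 1) ≤ 2 * C * (1 + ‖z‖) ^ N * ‖z‖ := by
          rw [h5]
          have : 0 ≤ C * (1 + ‖z‖) ^ N := by positivity
          nlinarith
        have h8 : C ≤ C * (1 + ‖z‖) ^ N * ‖z‖ := by
          have h9 : 1 ≤ (1 + ‖z‖) ^ N * ‖z‖ := by nlinarith
          nlinarith
        have h10 : 0 ≤ B * (1 + ‖z‖) ^ N * ‖z‖ := by positivity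
        have h11 : 0 ≤ C * (1 + ‖z‖) ^ N * ‖z‖ := by positivity
        nlinarith)
    refine ⟨Polynomial.C (h 0) + X * p, ?_, fun z => ?_⟩
    · refine (natDegree_add_le _ _).trans (max_le (by simp) ?_)
      refine natDegree_mul_le.trans ?_
      rw [natDegree_X]
      omega
    · rw [eval_add, eval_mul, eval_X, eval_C, ← hp z]
      have := sub_smul_dslope h 0 z
      rw [sub_zero, smul_eq_mul] at this
      rw [this]
      ring

/-- a function that is a polynomial of bounded degree in each variable is a polynomial -/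
theorem sep_poly (N : ℕ) : ∀ (m : ℕ) (f : (Fin m → ℂ) → ℂ),
    (∀ z i, ∃ p : ℂ[X], p.natDegree ≤ N ∧ ∀ s, f (Function.update z i s) = p.eval s) →
    ∃ P : MvPolynomial (Fin m) ℂ, ∀ z, f z = MvPolynomial.eval z P := by
  intro m
  induction m with
  | zero =>
    intro f _
    refine ⟨MvPolynomial.C (f default), fun z => ?_⟩
    rw [MvPolynomial.eval_C, Subsingleton.elim z default]
  | succ m ih =>
    intro f hf
    have hcons : ∀ a : ℂ, ∃ P : MvPolynomial (Fin m) ℂ, ∀ z : Fin m → ℂ,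
        f (Fin.cons a z) = MvPolynomial.eval z P := by
      intro a
      apply ih (fun z => f (Fin.cons a z))
      intro z i
      obtain ⟨p, hp1, hp2⟩ := hf (Fin.cons a z) i.succ
      refine ⟨p, hp1, fun s => ?_⟩
      rw [Fin.cons_update]
      exact hp2 s
    choose PP hPP using hcons
    have hinj : InjOn (fun i : ℕ => (i : ℂ)) (Finset.range (N + 1)) := by
      intro a _ b _ hab
      have hab' : (a : ℂ) = (b : ℂ) := hab
      exact_mod_cast hab'
    refine ⟨∑ i ∈ Finset.range (N + 1), MvPolynomial.rename Fin.succ (PP (i : ℂ)) *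
      Polynomial.aeval (MvPolynomial.X 0)
        (Lagrange.basis (Finset.range (N + 1)) (fun i : ℕ => (i : ℂ)) i), fun z => ?_⟩
    obtain ⟨p, hp1, hp2⟩ := hf z 0
    have hint := Lagrange.eq_interpolate hinj (f := p) (by
      rw [Finset.card_range]
      exact lt_of_le_of_lt degree_le_natDegree (by exact_mod_cast Nat.lt_succ_of_le hp1))
    have h1 : f z = p.eval (z 0) := by
      rw [← hp2 (z 0), Function.update_eq_self]
    have h2 : ∀ s : ℂ, p.eval s = MvPolynomial.eval (Fin.tail z) (PP s) := by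
      intro s
      rw [← hPP, ← hp2 s]
      congr 1
      conv_lhs => rw [← Fin.cons_self_tail z]
      rw [Fin.update_cons_zero]
    rw [h1, hint, Lagrange.interpolate_apply, eval_finsetSum, map_sum]
    apply Finset.sum_congr rfl
    intro i _
    rw [eval_mul, eval_C, map_mul, MvPolynomial.eval_rename, h2]
    congr 1
    have h3 : ∀ (L : ℂ[X]), MvPolynomial.eval z (Polynomial.aeval
        (MvPolynomial.X 0 : MvPolynomial (Fin (m + 1)) ℂ) L) = L.eval (z 0) := by
      intro L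
      induction L using Polynomial.induction_on' with
      | add p q hp hq => simp [hp, hq]
      | monomial k a => simp [Polynomial.aeval_monomial]
    exact (h3 _).symm

end Pool.Agent.X882.FB.N
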