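import Pool.Agent.X882.FB.Real

/-!
The sides of a smooth real hypersurface, transport between coordinates, and the two main theorems
on `Fin 2 → ℂ`.
-/

set_option autoImplicit false

namespace Pool.Agent.X882.FB

open Filter Metric Set Topology
open scoped ContDiff ComplexConjugate

section

variable {E' : Type} [NormedAddCommGroup E'] [NormedSpace ℝ E']

theorem subset_or_compl {X : Type} [TopologicalSpace X] {Ω s : Set X} (hs : IsPreconnected s)
    (hd : ∀ z ∈ s, z ∉ frontier Ω) : s ⊆ Ω ∨ s ⊆ Ωᶜ := by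
  have h1 : s ⊆ interior Ω ∪ (closure Ω)ᶜ := by
    intro z hz
    by_cases h : z ∈ closure Ω
    · left
      by_contra h2
      exact hd z hz ⟨h, h2⟩
    · exact Or.inr h
  rcases hs.subset_or_subset isOpen_interior isClosed_closure.isOpen_compl
    (disjoint_compl_right.mono_left (interior_subset.trans subset_closure)) h1 with h | h
  · exact Or.inl (h.trans interior_subset)
  · exact Or.inr (h.trans (compl_subset_compl.2 subset_closure))

theorem side {Ω : Set E'} {ρ : E' → ℝ} {p : E'} (hρ : ContDiffAt ℝ 1 ρ p)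
    (hne : fderiv ℝ ρ p ≠ 0) (h0 : ρ p = 0) (hfr : ∀ᶠ z in 𝓝 p, z ∈ frontier Ω → ρ z = 0) :
    (∀ᶠ z in 𝓝 p, ρ z < 0 → z ∈ Ω) ∨ (∀ᶠ z in 𝓝 p, ρ z < 0 → z ∉ Ω) := by
  obtain ⟨v, hv⟩ := exists_dir hne
  set c := fderiv ℝ ρ p v / 2 with hc
  have hc0 : 0 < c := by positivity
  have h1 : ∀ᶠ w in 𝓝 p, ContDiffAt ℝ 1 ρ w := hρ.eventually (by simp)
  have h2 : ∀ᶠ w in 𝓝 p, c < fderiv ℝ ρ w v := by
    have h3 : ContinuousAt (fun w => fderiv ℝ ρ w v) p :=
      (ContinuousLinearMap.apply ℝ ℝ v).continuous.continuousAt.comp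
        (hρ.continuousAt_fderiv (by simp))
    exact continuousAt_const.eventually_lt h3 (by rw [hc]; linarith)
  obtain ⟨R, hR, hRe⟩ := Metric.eventually_nhds_iff.1 ((h1.and h2).and hfr)
  obtain ⟨t₀, ht₀, ht₀v⟩ : ∃ t₀ : ℝ, 0 < t₀ ∧ t₀ * ‖v‖ < R / 2 := by
    refine ⟨R / (2 * (‖v‖ + 1)), by positivity, ?_⟩
    have h3 : 0 < ‖v‖ + 1 := by positivity
    rw [div_mul_eq_mul_div, div_lt_div_iff₀ (by positivity) (by norm_num)]
    nlinarith [norm_nonneg v]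
  have h3 : ∀ᶠ z in 𝓝 p, ρ z < c * t₀ :=
    hρ.continuousAt.eventually_lt continuousAt_const (by rw [h0]; positivity)
  obtain ⟨s', hs', hs'e⟩ := Metric.eventually_nhds_iff.1 h3
  set s := min s' (R / 2) with hs
  have hs0 : 0 < s := lt_min hs' (by linarith)
  have hin : ∀ z ∈ ball p s, ∀ t ∈ Icc (0 : ℝ) t₀, dist (z - t • v) p < R := by
    intro z hz t ht
    have hz' : dist z p < R / 2 := lt_of_lt_of_le hz (min_le_right _ _)
    calc dist (z - t • v) p ≤ dist (z - t • v) z + dist z p := dist_triangle _ _ _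
      _ = t * ‖v‖ + dist z p := by
          rw [dist_eq_norm, sub_sub_cancel_left, norm_neg, norm_smul, Real.norm_eq_abs,
            abs_of_nonneg ht.1]
      _ ≤ t₀ * ‖v‖ + dist z p := by gcongr; exact ht.2
      _ < R := by linarith
  have hmono : ∀ z ∈ ball p s, ∀ t ∈ Icc (0 : ℝ) t₀, ρ (z - t • v) ≤ ρ z - c * t := by
    intro z hz t ht
    have hder : ∀ τ ∈ Icc (0 : ℝ) t₀, HasDerivAt (fun τ : ℝ => ρ (z - τ • v))
        (-(fderiv ℝ ρ (z - τ • v) v)) τ := by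
      intro τ hτ
      have h4 : HasDerivAt (fun τ : ℝ => z - τ • v) (-v) τ := by
        have := ((hasDerivAt_id τ).smul_const v).const_sub z
        simpa using this
      have h5 : HasFDerivAt ρ (fderiv ℝ ρ (z - τ • v)) ((fun τ : ℝ => z - τ • v) τ) :=
        ((hRe (hin z hz τ hτ)).1.1.differentiableAt (by simp)).hasFDerivAt
      have h6 := HasFDerivAt.comp_hasDerivAt τ h5 h4
      rw [map_neg] at h6
      exact h6
    have h4 := (convex_Icc (0 : ℝ) t₀).image_sub_le_mul_sub_of_deriv_le (C := -c)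
      (f := fun τ : ℝ => ρ (z - τ • v))
      (fun τ hτ => (hder τ hτ).continuousAt.continuousWithinAt)
      (fun τ hτ => (hder τ (interior_subset hτ)).differentiableAt.differentiableWithinAt)
      (fun τ hτ => by
        rw [(hder τ (interior_subset hτ)).deriv]
        have := (hRe (hin z hz τ (interior_subset hτ))).1.2
        linarith) 0 ⟨le_rfl, ht₀.le⟩ t ht ht.1
    simp only [zero_smul, sub_zero] at h4
    linarith
  have hnfr : ∀ z, dist z p < R → ρ z < 0 → z ∉ frontier Ω := by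
    intro z hz hz2 hz3
    have := (hRe hz).2 hz3
    linarith
  have hconv : IsPreconnected ((fun z => z - t₀ • v) '' ball p s) :=
    (convex_ball p s).isPreconnected.image _ (by fun_prop)
  have hseg : ∀ z ∈ ball p s, ρ z < 0 → (z ∈ Ω ↔ z - t₀ • v ∈ Ω) := by
    intro z hz hz2
    have h4 : IsPreconnected ((fun t : ℝ => z - t • v) '' Icc (0 : ℝ) t₀) :=
      isPreconnected_Icc.image _ (by fun_prop)
    have hz0 : z ∈ (fun t : ℝ => z - t • v) '' Icc (0 : ℝ) t₀ :=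
      ⟨0, ⟨le_rfl, ht₀.le⟩, by simp⟩
    have hz1 : z - t₀ • v ∈ (fun t : ℝ => z - t • v) '' Icc (0 : ℝ) t₀ :=
      ⟨t₀, ⟨ht₀.le, le_rfl⟩, rfl⟩
    rcases subset_or_compl (Ω := Ω) h4 (by
      rintro _ ⟨t, ht, rfl⟩
      apply hnfr _ (hin z hz t ht)
      have := hmono z hz t ht
      have : 0 ≤ c * t := mul_nonneg hc0.le ht.1
      linarith) with h | h
    · exact ⟨fun _ => h hz1, fun _ => h hz0⟩
    · exact ⟨fun h5 => absurd h5 (h hz0), fun h5 => absurd h5 (h hz1)⟩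
  rcases subset_or_compl (Ω := Ω) hconv (by
    rintro _ ⟨z, hz, rfl⟩
    apply hnfr _ (hin z hz t₀ ⟨ht₀.le, le_rfl⟩)
    have h4 := hmono z hz t₀ ⟨ht₀.le, le_rfl⟩
    have h5 : ρ z < c * t₀ := hs'e (lt_of_lt_of_le hz (min_le_left _ _))
    linarith) with h | h
  · left
    filter_upwards [Metric.ball_mem_nhds p hs0] with z hz hz2
    exact (hseg z hz hz2).2 (h ⟨z, hz, rfl⟩)
  · right
    filter_upwards [Metric.ball_mem_nhds p hs0] with z hz hz2 hz3
    exact h ⟨z, hz, rfl⟩ ((hseg z hz hz2).1 hz3)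

theorem two_sides {Ω : Set E'} (hΩ : IsOpen Ω) {ρ : E' → ℝ} {p : E'} (hρ : ContDiffAt ℝ 1 ρ p)
    (hne : fderiv ℝ ρ p ≠ 0) (hp : p ∈ frontier Ω)
    (hfr : ∀ᶠ z in 𝓝 p, z ∈ frontier Ω → ρ z = 0) :
    (∀ᶠ z in 𝓝 p, (z ∈ Ω ↔ ρ z < 0)) ∨ (∀ᶠ z in 𝓝 p, (z ∈ Ω ↔ -ρ z < 0)) ∨
      (∀ᶠ z in 𝓝 p, ρ z ≠ 0 → z ∈ Ω) := by
  have h0 : ρ p = 0 := hfr.self_of_nhds hp
  have hne' : fderiv ℝ (fun z => -ρ z) p ≠ 0 := by
    rw [fderiv_fun_neg]
    exact neg_ne_zero.2 hne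
  have h1 : ∀ᶠ w in 𝓝 p, ContDiffAt ℝ 1 ρ w := hρ.eventually (by simp)
  have h2 : ∀ᶠ w in 𝓝 p, fderiv ℝ ρ w ≠ 0 :=
    (hρ.continuousAt_fderiv (by simp)).eventually_ne hne
  have hfr' : ∀ᶠ z in 𝓝 p, z ∈ frontier Ω → -ρ z = 0 := by
    filter_upwards [hfr] with z hz hz2
    rw [hz hz2, neg_zero]
  -- points of the level set are not in `Ω` if one side is outside
  have hout : (∀ᶠ z in 𝓝 p, -ρ z < 0 → z ∉ Ω) → ∀ᶠ z in 𝓝 p, ρ z = 0 → z ∉ Ω := by
    intro ho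
    filter_upwards [h1, h2, ho.eventually_nhds] with z hz1 hz2 hz3 hz4 hz5
    have h3 := (freq_sides (hz1.differentiableAt (by simp)) hz2).2
    obtain ⟨w, hw1, hw2, hw3⟩ := (h3.and_eventually (hz3.and (hΩ.mem_nhds hz5))).exists
    rw [hz4] at hw1
    exact hw2 (by linarith) hw3
  have hout' : (∀ᶠ z in 𝓝 p, ρ z < 0 → z ∉ Ω) → ∀ᶠ z in 𝓝 p, ρ z = 0 → z ∉ Ω := by
    intro ho
    filter_upwards [h1, h2, ho.eventually_nhds] with z hz1 hz2 hz3 hz4 hz5
    have h3 := (freq_sides (hz1.differentiableAt (by simp)) hz2).1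
    obtain ⟨w, hw1, hw2, hw3⟩ := (h3.and_eventually (hz3.and (hΩ.mem_nhds hz5))).exists
    rw [hz4] at hw1
    exact hw2 hw1 hw3
  rcases side hρ hne h0 hfr with ha | ha
  · rcases side (ρ := fun z => -ρ z) hρ.neg hne' (by simp [h0]) hfr' with hb | hb
    · right; right
      filter_upwards [ha, hb] with z hz1 hz2 hz3
      rcases lt_or_gt_of_ne hz3 with h | h
      · exact hz1 h
      · exact hz2 (by linarith)
    · left
      filter_upwards [ha, hb, hout hb] with z hz1 hz2 hz3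
      refine ⟨fun hz => ?_, hz1⟩
      rcases lt_trichotomy (ρ z) 0 with h | h | h
      · exact h
      · exact absurd hz (hz3 h)
      · exact absurd hz (hz2 (by linarith))
  · rcases side (ρ := fun z => -ρ z) hρ.neg hne' (by simp [h0]) hfr' with hb | hb
    · right; left
      filter_upwards [ha, hb, hout' ha] with z hz1 hz2 hz3
      refine ⟨fun hz => ?_, hz2⟩
      rcases lt_trichotomy (ρ z) 0 with h | h | h
      · exact absurd hz (hz1 h)
      · exact absurd hz (hz3 h)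
      · linarith
    · exfalso
      have h3 : ∀ᶠ z in 𝓝 p, z ∉ Ω := by
        filter_upwards [ha, hb, hout hb] with z hz1 hz2 hz3
        rcases lt_trichotomy (ρ z) 0 with h | h | h
        · exact hz1 h
        · exact hz3 h
        · exact hz2 (by linarith)
      have h4 : ∃ᶠ z in 𝓝 p, z ∈ Ω := mem_closure_iff_frequently.1 (frontier_subset_closure hp)
      obtain ⟨z, hz1, hz2⟩ := (h4.and_eventually h3).exists
      exact hz2 hz1

end

section transport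

variable {Ω : Set (Fin 2 → ℂ)} {F G : (Fin 2 → ℂ) → (Fin 2 → ℂ)}

/-- real-analytic boundary -/
def RAB2 (Ω : Set (Fin 2 → ℂ)) : Prop :=
  ∀ p ∈ frontier Ω, ∃ ρ : (Fin 2 → ℂ) → ℝ, AnalyticAt ℝ ρ p ∧ fderiv ℝ ρ p ≠ 0 ∧
    ∃ U ∈ 𝓝 p, ∀ z ∈ U, z ∈ Ω ↔ ρ z < 0

theorem IsFB.transport (hFB : IsFB Ω F G) (e : (ℂ × ℂ) ≃L[ℂ] (Fin 2 → ℂ)) :
    IsFB (e ⁻¹' Ω) (fun w => e.symm (F (e w))) (fun w => e.symm (G (e w))) where
  opn := hFB.opn.preimage e.continuous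
  dF := by
    intro w hw
    have h1 : DifferentiableAt ℂ F (e w) := (hFB.dF _ hw).differentiableAt (hFB.opn.mem_nhds hw)
    exact ((e.symm.differentiableAt).comp w (h1.comp w e.differentiableAt)).differentiableWithinAt
  dG := fun w => (e.symm.differentiableAt).comp w ((hFB.dG _).comp w e.differentiableAt)
  mem := fun w => by
    simp only [mem_preimage, ContinuousLinearEquiv.apply_symm_apply]
    exact hFB.mem _
  gf := fun w hw => by
    simp only [ContinuousLinearEquiv.apply_symm_apply]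
    rw [hFB.gf _ hw, ContinuousLinearEquiv.symm_apply_apply]
  fg := fun w => by
    simp only [ContinuousLinearEquiv.apply_symm_apply]
    rw [hFB.fg, ContinuousLinearEquiv.symm_apply_apply]

theorem frontier_transport (Ω : Set (Fin 2 → ℂ)) (e : (ℂ × ℂ) ≃L[ℂ] (Fin 2 → ℂ)) :
    frontier (e ⁻¹' Ω) = e ⁻¹' (frontier Ω) :=
  (e.toHomeomorph.preimage_frontier Ω).symm

theorem RAB2.transport (hb : RAB2 Ω) (e : (ℂ × ℂ) ≃L[ℂ] (Fin 2 → ℂ)) : RAB (e ⁻¹' Ω) := by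
  intro p hp
  rw [frontier_transport] at hp
  obtain ⟨ρ, h1, h2, U, hU, h3⟩ := hb (e p) hp
  let eR : (ℂ × ℂ) →L[ℝ] (Fin 2 → ℂ) := (e : (ℂ × ℂ) →L[ℂ] (Fin 2 → ℂ)).restrictScalars ℝ
  have heR : ∀ w, eR w = e w := fun w => rfl
  refine ⟨fun w => ρ (e w), ?_, ?_, e ⁻¹' U, e.continuous.continuousAt.preimage_mem_nhds hU, ?_⟩
  · have h4 : AnalyticAt ℝ eR p := eR.analyticAt p
    exact AnalyticAt.comp (g := ρ) (f := eR) h1 h4
  · have h5 : HasFDerivAt (fun w => ρ (eR w)) ((fderiv ℝ ρ (e p)).comp eR) p :=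
      HasFDerivAt.comp p h1.differentiableAt.hasFDerivAt eR.hasFDerivAt
    have h6 : fderiv ℝ (fun w => ρ (e w)) p = (fderiv ℝ ρ (e p)).comp eR := h5.fderiv
    rw [h6]
    intro h7
    apply h2
    ext u
    have h8 := congrArg (fun L => L (e.symm u)) h7
    simp only [ContinuousLinearMap.comp_apply, heR, ContinuousLinearEquiv.apply_symm_apply] at h8
    simpa using h8
  · intro w hw
    exact h3 _ hw

/-- coordinates in the given order -/
noncomputable def e1 : (ℂ × ℂ) ≃L[ℂ] (Fin 2 → ℂ) := (ContinuousLinearEquiv.finTwoArrow ℂ ℂ).symm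

/-- coordinates in the opposite order -/
noncomputable def e2 : (ℂ × ℂ) ≃L[ℂ] (Fin 2 → ℂ) :=
  (ContinuousLinearEquiv.prodComm ℂ ℂ ℂ).trans (ContinuousLinearEquiv.finTwoArrow ℂ ℂ).symm

theorem e1_apply (w : ℂ × ℂ) : e1 w = ![w.1, w.2] := by
  simp [e1]

theorem e2_apply (w : ℂ × ℂ) : e2 w = ![w.2, w.1] := by
  simp [e2]

theorem eta2 (p : Fin 2 → ℂ) : ![p 0, p 1] = p := by
  funext i
  fin_cases i <;> rfl

/-- transfer of a statement from `ℂ × ℂ` to `Fin 2 → ℂ` for a real polynomial -/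
theorem transfer (hFB : IsFB Ω F G) (Q : MvPolynomial (Fin 4) ℝ) {p : Fin 2 → ℂ}
    (hp : p ∈ frontier Ω) (hd : fderiv ℝ (rq Q) p ≠ 0)
    (hloc : ∀ᶠ z in 𝓝 p, (z ∈ Ω ↔ rq Q z < 0))
    (key : ∀ e : (ℂ × ℂ) ≃L[ℂ] (Fin 2 → ℂ), ∀ P : MvPolynomial (Fin 4) ℂ, Herm P →
      (∀ w : ℂ × ℂ, rho P w.1 w.2 = rq Q (e w)) → ∀ q0 q1 : ℂ,
      ((q0, q1) : ℂ × ℂ) ∈ frontier (e ⁻¹' Ω) →
      (∀ᶠ z : ℂ × ℂ in 𝓝 (q0, q1), (z ∈ e ⁻¹' Ω ↔ rho P z.1 z.2 < 0)) →
      ev (MvPolynomial.pderiv 1 P) q0 q1 (conj q0) (conj q1) ≠ 0 → False) : False := by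
  have hgen : ∀ e : (ℂ × ℂ) ≃L[ℂ] (Fin 2 → ℂ), ∀ P : MvPolynomial (Fin 4) ℂ, Herm P →
      (∀ w : ℂ × ℂ, rho P w.1 w.2 = rq Q (e w)) → ∀ q0 q1 : ℂ, e (q0, q1) = p →
      ev (MvPolynomial.pderiv 1 P) q0 q1 (conj q0) (conj q1) ≠ 0 → False := by
    intro e P hP hρ q0 q1 hq h1
    apply key e P hP hρ q0 q1 ?_ ?_ h1
    · rw [frontier_transport, mem_preimage, hq]
      exact hp
    · have ht : Tendsto e (𝓝 (q0, q1)) (𝓝 p) := by
        rw [← hq]
        exact e.continuous.continuousAt.tendsto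
      filter_upwards [ht.eventually hloc] with z hz
      rw [mem_preimage, hz, hρ]
  rcases exists_coord Q p hd with h | h
  · exact hgen e1 (toP w1 Q) (herm_w1 Q) (fun w => by rw [rho_w1, e1_apply]) (p 0) (p 1)
      (by rw [e1_apply]; exact eta2 p) h
  · exact hgen e2 (toP w2 Q) (herm_w2 Q) (fun w => by rw [rho_w2, e2_apply]) (p 1) (p 0)
      (by rw [e2_apply]; exact eta2 p) h

theorem core_i (hFB : IsFB Ω F G) (hb : RAB2 Ω) (Q : MvPolynomial (Fin 4) ℝ) {p : Fin 2 → ℂ}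
    (hp : p ∈ frontier Ω) (hd : fderiv ℝ (rq Q) p ≠ 0)
    (hloc : ∀ᶠ z in 𝓝 p, (z ∈ Ω ↔ rq Q z < 0)) : False :=
  transfer hFB Q hp hd hloc (fun e _ hP _ _ _ hq hl h1 =>
    main (hFB.transport e) (hb.transport e) hP hq hl h1)

theorem core_ii (hFB : IsFB Ω F G) (Q : MvPolynomial (Fin 4) ℝ) (hnz : ∀ z ∈ Ω, rq Q z ≠ 0)
    {p : Fin 2 → ℂ} (hp : p ∈ frontier Ω) (hd : fderiv ℝ (rq Q) p ≠ 0)
    (hloc : ∀ᶠ z in 𝓝 p, (z ∈ Ω ↔ rq Q z < 0)) : False :=
  transfer hFB Q hp hd hloc (fun e _ hP hρ _ _ hq hl h1 =>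
    main' (hFB.transport e) hP (fun w hw => by rw [hρ]; exact hnz _ hw) hq hl h1)

end transport

end Pool.Agent.X882.FB
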