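import Pool.Agent.X882.FB.NFinal
import Pool.Agent.X882.FB.Sides

/-!
Boundary values of a continuous root of a polynomial without zeros in a domain with real-analytic
boundary.
-/

set_option autoImplicit false

namespace Pool.Agent.X882.FB.N

open Filter Metric Set Topology
open scoped ContDiff

section

variable {E' : Type} [NormedAddCommGroup E'] [NormedSpace ℝ E']

/-- one side of a smooth hypersurface is connected near a point -/
theorem conn_near {Ω : Set E'} {ρ : E' → ℝ} {p : E'} (hρ : ContDiffAt ℝ 1 ρ p)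
    (hne : fderiv ℝ ρ p ≠ 0) (h0 : ρ p = 0) (hloc : ∀ᶠ z in 𝓝 p, (z ∈ Ω ↔ ρ z < 0))
    {U : Set E'} (hU : U ∈ 𝓝 p) :
    ∃ U' ∈ 𝓝 p, ∀ y ∈ U', y ∈ Ω → ∀ y' ∈ U', y' ∈ Ω → ∃ C : Set E', IsPreconnected C ∧
      C ⊆ Ω ∩ U ∧ y ∈ C ∧ y' ∈ C := by
  obtain ⟨v, hv⟩ := exists_dir hne
  set c := fderiv ℝ ρ p v / 2 with hc
  have hc0 : 0 < c := by positivity
  have h1 : ∀ᶠ w in 𝓝 p, ContDiffAt ℝ 1 ρ w := hρ.eventually (by simp)
  have h2 : ∀ᶠ w in 𝓝 p, c < fderiv ℝ ρ w v := by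
    have h3 : ContinuousAt (fun w => fderiv ℝ ρ w v) p :=
      (ContinuousLinearMap.apply ℝ ℝ v).continuous.continuousAt.comp
        (hρ.continuousAt_fderiv (by simp))
    exact continuousAt_const.eventually_lt h3 (by rw [hc]; linarith)
  obtain ⟨R, hR, hRe⟩ := Metric.eventually_nhds_iff.1 ((h1.and h2).and (hloc.and hU))
  obtain ⟨t₀, ht₀, ht₀v⟩ : ∃ t₀ : ℝ, 0 < t₀ ∧ t₀ * ‖v‖ < R / 2 := by
    refine ⟨R / (2 * (‖v‖ + 1)), by positivity, ?_⟩
    have h3 : 0 < ‖v‖ + 1 := by positivity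
    rw [div_mul_eq_mul_div, div_lt_div_iff₀ (by positivity) (by norm_num)]
    nlinarith [norm_nonneg v]
  have h3 : ∀ᶠ z in 𝓝 p, ρ z < c * t₀ :=
    hρ.continuousAt.eventually_lt continuousAt_const (by rw [h0]; positivity)
  obtain ⟨s', hs', hs'e⟩ := Metric.eventually_nhds_iff.1 h3
  set s := min s' (R / 2) with hs
  have hs0 : 0 < s := lt_min hs' (by linarith)
  have hin : ∀ z ∈ ball p s, ∀ t ∈ Icc (0 : ℝ) t₀, dist (z - t • v) p < R := by
    intro z hz t ht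
    have hz' : dist z p < R / 2 := lt_of_lt_of_le hz (min_le_right _ _)
    calc dist (z - t • v) p ≤ dist (z - t • v) z + dist z p := dist_triangle _ _ _
      _ = t * ‖v‖ + dist z p := by
          rw [dist_eq_norm, sub_sub_cancel_left, norm_neg, norm_smul, Real.norm_eq_abs,
            abs_of_nonneg ht.1]
      _ ≤ t₀ * ‖v‖ + dist z p := by gcongr; exact ht.2
      _ < R := by linarith
  have hmono : ∀ z ∈ ball p s, ∀ t ∈ Icc (0 : ℝ) t₀, ρ (z - t • v) ≤ ρ z - c * t := by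
    intro z hz t ht
    have hder : ∀ τ ∈ Icc (0 : ℝ) t₀, HasDerivAt (fun τ : ℝ => ρ (z - τ • v))
        (-(fderiv ℝ ρ (z - τ • v) v)) τ := by
      intro τ hτ
      have h4 : HasDerivAt (fun τ : ℝ => z - τ • v) (-v) τ := by
        have := ((hasDerivAt_id τ).smul_const v).const_sub z
        simpa using this
      have h5 : HasFDerivAt ρ (fderiv ℝ ρ (z - τ • v)) ((fun τ : ℝ => z - τ • v) τ) :=
        ((hRe (hin z hz τ hτ)).1.1.differentiableAt (by simp)).hasFDerivAt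
      have h6 := HasFDerivAt.comp_hasDerivAt τ h5 h4
      rw [map_neg] at h6
      exact h6
    have h4 := (convex_Icc (0 : ℝ) t₀).image_sub_le_mul_sub_of_deriv_le (C := -c)
      (f := fun τ : ℝ => ρ (z - τ • v))
      (fun τ hτ => (hder τ hτ).continuousAt.continuousWithinAt)
      (fun τ hτ => (hder τ (interior_subset hτ)).differentiableAt.differentiableWithinAt)
      (fun τ hτ => by
        rw [(hder τ (interior_subset hτ)).deriv]
        have := (hRe (hin z hz τ (interior_subset hτ))).1.2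
        linarith) 0 ⟨le_rfl, ht₀.le⟩ t ht ht.1
    simp only [zero_smul, sub_zero] at h4
    linarith
  have hmem : ∀ z, dist z p < R → ρ z < 0 → z ∈ Ω ∩ U := by
    intro z hz hz2
    exact ⟨(hRe hz).2.1.2 hz2, (hRe hz).2.2⟩
  set S := (fun z => z - t₀ • v) '' ball p s with hS
  have hSc : IsPreconnected S := (convex_ball p s).isPreconnected.image _ (by fun_prop)
  have hSm : S ⊆ Ω ∩ U := by
    rintro _ ⟨z, hz, rfl⟩
    apply hmem _ (hin z hz t₀ ⟨ht₀.le, le_rfl⟩)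
    have h4 := hmono z hz t₀ ⟨ht₀.le, le_rfl⟩
    have h5 : ρ z < c * t₀ := hs'e (lt_of_lt_of_le hz (min_le_left _ _))
    linarith
  have hseg : ∀ z ∈ ball p s, z ∈ Ω → ∃ C : Set E', IsPreconnected C ∧ C ⊆ Ω ∩ U ∧ z ∈ C ∧
      z - t₀ • v ∈ C := by
    intro z hz hz2
    have hz3 : ρ z < 0 := by
      have hzR : dist z p < R := by
        have := hin z hz 0 ⟨le_rfl, ht₀.le⟩
        simpa using this
      exact (hRe hzR).2.1.1 hz2
    refine ⟨(fun t : ℝ => z - t • v) '' Icc (0 : ℝ) t₀,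
      isPreconnected_Icc.image _ (by fun_prop), ?_, ⟨0, ⟨le_rfl, ht₀.le⟩, by simp⟩,
      ⟨t₀, ⟨ht₀.le, le_rfl⟩, rfl⟩⟩
    rintro _ ⟨t, ht, rfl⟩
    apply hmem _ (hin z hz t ht)
    have := hmono z hz t ht
    have : 0 ≤ c * t := mul_nonneg hc0.le ht.1
    linarith
  refine ⟨ball p s, Metric.ball_mem_nhds p hs0, ?_⟩
  intro y hy hyΩ y' hy' hyΩ'
  obtain ⟨C, hC1, hC2, hC3, hC4⟩ := hseg y hy hyΩ
  obtain ⟨C', hC1', hC2', hC3', hC4'⟩ := hseg y' hy' hyΩ'
  have hyS : y - t₀ • v ∈ S := ⟨y, hy, rfl⟩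
  have hyS' : y' - t₀ • v ∈ S := ⟨y', hy', rfl⟩
  refine ⟨(C ∪ S) ∪ C', ?_, ?_, Or.inl (Or.inl hC3), Or.inr hC3'⟩
  · exact (hC1.union (y - t₀ • v) hC4 hyS hSc).union (y' - t₀ • v) (Or.inr hyS') hC4' hC1'
  · exact union_subset (union_subset hC2 hSm) hC2'

end

variable {n : ℕ}

/-- boundary values of a continuous root -/
theorem root_ext {Ω : Set (Fin n → ℂ)} (hΩ : IsOpen Ω) (hb : RABn Ω)
    {g : MvPolynomial (Fin n) ℂ} {s : (Fin n → ℂ) → ℂ} (hs : ContinuousOn s Ω) {m : ℕ}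
    (hm : m ≠ 0) (hsg : ∀ y ∈ Ω, s y ^ m = MvPolynomial.eval y g) {p : Fin n → ℂ}
    (hp : p ∈ frontier Ω) (hgp : MvPolynomial.eval p g ≠ 0) :
    ∃ κ : (Fin n → ℂ) → ℂ, ContDiffAt ℂ ω κ p ∧ (∀ᶠ y in 𝓝 p, κ y ^ m = MvPolynomial.eval y g) ∧
      ∀ᶠ y in 𝓝 p, y ∈ Ω → s y = κ y := by
  obtain ⟨ρ, hρa, hρd, U₀, hU₀, hU₀ρ⟩ := hb p hp
  have hloc : ∀ᶠ z in 𝓝 p, (z ∈ Ω ↔ ρ z < 0) := by
    filter_upwards [hU₀] with w hw using hU₀ρ w hw
  have hfi := frontier_iff hΩ (ρ := ρ) (p := p) hρa.contDiffAt hρd hloc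
  have h0 : ρ p = 0 := hfi.self_of_nhds.1 hp
  have hgc : Continuous (fun y : Fin n → ℂ => MvPolynomial.eval y g) :=
    (contDiff_eval g (k := 0)).continuous
  obtain ⟨c₀, hc₀⟩ : ∃ c₀ : ℂ, c₀ ^ m = MvPolynomial.eval p g :=
    IsAlgClosed.exists_pow_nat_eq _ (Nat.pos_of_ne_zero hm)
  have hc₀0 : c₀ ≠ 0 := by
    rintro rfl
    rw [zero_pow hm] at hc₀
    exact hgp hc₀.symm
  let κ₀ : (Fin n → ℂ) → ℂ := fun y =>
    c₀ * Complex.exp (Complex.log (MvPolynomial.eval y g / MvPolynomial.eval p g) / m)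
  have hslit : MvPolynomial.eval p g / MvPolynomial.eval p g ∈ Complex.slitPlane := by
    rw [div_self hgp]
    exact Complex.one_mem_slitPlane
  have hκc : ContDiffAt ℂ ω κ₀ p := by
    have h1 : ContDiffAt ℂ ω (fun y : Fin n → ℂ =>
        MvPolynomial.eval y g / MvPolynomial.eval p g) p :=
      (contDiff_eval g).contDiffAt.div_const _
    have h2 : ContDiffAt ℂ ω (fun y : Fin n → ℂ => Complex.log
        (MvPolynomial.eval y g / MvPolynomial.eval p g)) p :=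
      ContDiffAt.comp (g := Complex.log) (f := fun y : Fin n → ℂ =>
        MvPolynomial.eval y g / MvPolynomial.eval p g) p (Complex.contDiffAt_log hslit) h1
    exact contDiffAt_const.mul (h2.div_const _).cexp
  have hgne : ∀ᶠ y in 𝓝 p, MvPolynomial.eval y g ≠ 0 := hgc.continuousAt.eventually_ne hgp
  have hκm : ∀ᶠ y in 𝓝 p, κ₀ y ^ m = MvPolynomial.eval y g := by
    filter_upwards [hgne] with y hy
    have hmc : (m : ℂ) ≠ 0 := by exact_mod_cast hm
    simp only [κ₀]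
    rw [mul_pow, hc₀, ← Complex.exp_nat_mul, mul_div_cancel₀ _ hmc,
      Complex.exp_log (div_ne_zero hy hgp), mul_div_cancel₀ _ hgp]
  have hκ0 : ∀ y, κ₀ y ≠ 0 := fun y => mul_ne_zero hc₀0 (Complex.exp_ne_zero _)
  have hκcont : ∀ᶠ y in 𝓝 p, ContinuousAt κ₀ y :=
    (hκc.eventually (by simp)).mono fun y hy => hy.continuousAt
  obtain ⟨U', hU', hconn⟩ := conn_near (hρa.contDiffAt) hρd h0 hloc
    (U := {y | κ₀ y ^ m = MvPolynomial.eval y g ∧ ContinuousAt κ₀ y}) (hκm.and hκcont)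
  let t : (Fin n → ℂ) → ℂ := fun y => s y / κ₀ y
  have ht : ∀ y ∈ Ω, κ₀ y ^ m = MvPolynomial.eval y g → t y ^ m = 1 := by
    intro y hy h1
    simp only [t]
    rw [div_pow, hsg y hy, h1, div_self]
    rw [← h1]
    exact pow_ne_zero _ (hκ0 y)
  have hfin : {c : ℂ | c ^ m = 1}.Finite := by
    have : {c : ℂ | c ^ m = 1} ⊆ ↑(Polynomial.nthRoots m (1 : ℂ)).toFinset := by
      intro c hc
      rw [Finset.mem_coe, Multiset.mem_toFinset, Polynomial.mem_nthRoots (Nat.pos_of_ne_zero hm)]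
      exact hc
    exact (Finset.finite_toSet _).subset this
  have hdisc : DiscreteTopology {c : ℂ | c ^ m = 1} := by
    have := hfin.to_subtype
    infer_instance
  have hconst : ∀ y ∈ U', y ∈ Ω → ∀ y' ∈ U', y' ∈ Ω → t y = t y' := by
    intro y hy hyΩ y' hy' hyΩ'
    obtain ⟨C, hC1, hC2, hC3, hC4⟩ := hconn y hy hyΩ y' hy' hyΩ'
    refine hC1.constant_of_mapsTo (T := {c : ℂ | c ^ m = 1})
      (isDiscrete_iff_discreteTopology.2 hdisc) (f := t) ?_ ?_ hC3 hC4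
    · intro z hz
      obtain ⟨hz1, hz2, hz3⟩ := hC2 hz
      exact ((hs z hz1).mono (fun w hw => (hC2 hw).1)).div hz3.continuousWithinAt (hκ0 z)
    · intro z hz
      obtain ⟨hz1, hz2, hz3⟩ := hC2 hz
      exact ht z hz1 hz2
  have hcl : ∃ᶠ y in 𝓝 p, y ∈ Ω := mem_closure_iff_frequently.1 (frontier_subset_closure hp)
  obtain ⟨y₁, hy₁, hy₁U, hy₁κ⟩ := (hcl.and_eventually ((eventually_mem_set.2 hU').and hκm)).exists
  refine ⟨fun y => t y₁ * κ₀ y, contDiffAt_const.mul hκc, ?_, ?_⟩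
  · filter_upwards [hκm] with y hy
    rw [mul_pow, ht y₁ hy₁ hy₁κ, one_mul, hy]
  · filter_upwards [hU'] with y hy hyΩ
    rw [hconst y₁ hy₁U hy₁ y hy hyΩ]
    simp only [t]
    rw [div_mul_cancel₀ _ (hκ0 y)]

end Pool.Agent.X882.FB.N
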