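import Pool.Agent.X882.FB.NConn

/-!
The polynomial `T(z + x e)` in `x` for a direction `e` in which `T` is regular.
-/

set_option autoImplicit false

namespace Pool.Agent.X882.FB.N

open Filter Metric Set Topology Polynomial
open scoped ContDiff

variable {n : ℕ}

/-- the ring homomorphism `p ↦ p(z + x e)` -/
noncomputable def shA (e : Fin n → ℂ) : MvPolynomial (Fin n) ℂ →ₐ[ℂ] (MvPolynomial (Fin n) ℂ)[X] :=
  MvPolynomial.aeval (fun i => C (MvPolynomial.X i) + X * C (MvPolynomial.C (e i)))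

theorem shA_X (e : Fin n → ℂ) (i : Fin n) :
    shA e (MvPolynomial.X i) = C (MvPolynomial.X i) + X * C (MvPolynomial.C (e i)) := by
  simp [shA]

theorem shA_C (e : Fin n → ℂ) (c : ℂ) : shA e (MvPolynomial.C c) = C (MvPolynomial.C c) := by
  rw [shA, MvPolynomial.aeval_C]
  rfl

theorem vl_shA (T : MvPolynomial (Fin n) ℂ) (e z : Fin n → ℂ) (x : ℂ) :
    vl (shA e T) z x = MvPolynomial.eval (z + x • e) T := by
  induction T using MvPolynomial.induction_on with
  | C c => rw [shA_C, vl_C]; simp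
  | add p q hp hq => rw [map_add, vl_add, hp, hq, map_add]
  | mul_X p i hp =>
    rw [map_mul, vl_mul, hp, shA_X, vl_add, vl_C, vl_mul, vl_C, map_mul]
    simp [vl]

/-- the extension to the polynomial ring -/
noncomputable def sh (e : Fin n → ℂ) : (MvPolynomial (Fin n) ℂ)[X] →+* (MvPolynomial (Fin n) ℂ)[X] :=
  eval₂RingHom (shA e : MvPolynomial (Fin n) ℂ →+* (MvPolynomial (Fin n) ℂ)[X]) X

theorem sh_C (e : Fin n → ℂ) (p : MvPolynomial (Fin n) ℂ) : sh e (C p) = shA e p := by
  simp [sh]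

theorem sh_X (e : Fin n → ℂ) : sh e X = X := by
  simp [sh]

theorem sh_neg (e : Fin n → ℂ) : (sh (-e)).comp (sh e) = RingHom.id _ := by
  apply Polynomial.ringHom_ext'
  · apply MvPolynomial.ringHom_ext
    · intro c
      simp only [RingHom.comp_apply, RingHom.id_apply]
      rw [sh_C, shA_C, sh_C, shA_C]
    · intro i
      simp only [RingHom.comp_apply, RingHom.id_apply]
      rw [sh_C, shA_X, map_add, map_mul, sh_C, sh_C, sh_X, shA_X, shA_C]
      simp
      ring
  · simp only [RingHom.comp_apply, RingHom.id_apply]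
    rw [sh_X, sh_X]

/-- the automorphism -/
noncomputable def shE (e : Fin n → ℂ) : (MvPolynomial (Fin n) ℂ)[X] ≃+* (MvPolynomial (Fin n) ℂ)[X] :=
  RingEquiv.ofRingHom (sh e) (sh (-e)) (by
    have := sh_neg (-e)
    rwa [neg_neg] at this) (sh_neg e)

theorem irreducible_shA {T : MvPolynomial (Fin n) ℂ} (hT : Irreducible T) (e : Fin n → ℂ) :
    Irreducible (shA e T) := by
  have h1 : Prime T := UniqueFactorizationMonoid.irreducible_iff_prime.1 hT
  have h2 : Irreducible (C T : (MvPolynomial (Fin n) ℂ)[X]) :=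
    (Polynomial.prime_C_iff.2 h1).irreducible
  have h3 : Irreducible (shE e (C T)) := (MulEquiv.irreducible_iff (shE e)).2 h2
  have h4 : shE e (C T) = shA e T := sh_C e T
  rwa [h4] at h3

theorem prod_deg (s : Finset (Fin n)) (g : Fin n → (MvPolynomial (Fin n) ℂ)[X]) (m : Fin n → ℕ)
    (hg : ∀ i, (g i).natDegree ≤ m i) : (∏ i ∈ s, g i).natDegree ≤ ∑ i ∈ s, m i ∧
      (∏ i ∈ s, g i).coeff (∑ i ∈ s, m i) = ∏ i ∈ s, (g i).coeff (m i) := by
  classical
  induction s using Finset.induction_on with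
  | empty => simp
  | insert a s ha ih =>
    rw [Finset.prod_insert ha, Finset.sum_insert ha, Finset.prod_insert ha]
    refine ⟨natDegree_mul_le_of_le (hg a) ih.1, ?_⟩
    rw [coeff_mul_add_eq_of_natDegree_le (hg a) ih.1, ih.2]

theorem mono_deg (m : Fin n →₀ ℕ) (c : ℂ) (e : Fin n → ℂ) :
    (shA e (MvPolynomial.monomial m c)).natDegree ≤ m.degree ∧
      (shA e (MvPolynomial.monomial m c)).coeff m.degree =
        MvPolynomial.C (MvPolynomial.eval e (MvPolynomial.monomial m c)) := by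
  have h1 : shA e (MvPolynomial.monomial m c) = C (MvPolynomial.C c) *
      ∏ i ∈ m.support, (C (MvPolynomial.X i) + X * C (MvPolynomial.C (e i))) ^ (m i) := by
    rw [shA, MvPolynomial.aeval_monomial]
    rfl
  have hb : ∀ i : Fin n, (C (MvPolynomial.X i) + X * C (MvPolynomial.C (e i)) :
      (MvPolynomial (Fin n) ℂ)[X]).natDegree ≤ 1 := by
    intro i
    refine (natDegree_add_le _ _).trans (max_le (by simp) ?_)
    refine natDegree_mul_le.trans ?_
    rw [natDegree_C, add_zero]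
    exact natDegree_X_le
  have hc : ∀ i : Fin n, (C (MvPolynomial.X i) + X * C (MvPolynomial.C (e i)) :
      (MvPolynomial (Fin n) ℂ)[X]).coeff 1 = MvPolynomial.C (e i) := by
    intro i
    rw [coeff_add, coeff_C]
    simp
  have hp : ∀ i : Fin n, ((C (MvPolynomial.X i) + X * C (MvPolynomial.C (e i)) :
      (MvPolynomial (Fin n) ℂ)[X]) ^ (m i)).natDegree ≤ m i := by
    intro i
    have := natDegree_pow_le_of_le (m i) (hb i)
    simpa using this
  have hq : ∀ i : Fin n, ((C (MvPolynomial.X i) + X * C (MvPolynomial.C (e i)) :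
      (MvPolynomial (Fin n) ℂ)[X]) ^ (m i)).coeff (m i) = MvPolynomial.C (e i) ^ (m i) := by
    intro i
    have := coeff_pow_of_natDegree_le (m := m i) (hb i)
    rw [mul_one, hc] at this
    exact this
  obtain ⟨h2, h3⟩ := prod_deg m.support _ m hp
  have hdeg : m.degree = ∑ i ∈ m.support, m i := rfl
  rw [h1, hdeg]
  refine ⟨(natDegree_C_mul_le _ _).trans h2, ?_⟩
  rw [coeff_C_mul, h3, MvPolynomial.eval_monomial]
  simp only [hq]
  rw [map_mul, Finsupp.prod, map_prod]
  simp only [map_pow]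

theorem sh_deg (T : MvPolynomial (Fin n) ℂ) (e : Fin n → ℂ) :
    (shA e T).natDegree ≤ T.totalDegree ∧
      (shA e T).coeff T.totalDegree =
        MvPolynomial.C (MvPolynomial.eval e (MvPolynomial.homogeneousComponent T.totalDegree T)) := by
  classical
  have h1 : shA e T = ∑ m ∈ T.support, shA e (MvPolynomial.monomial m (MvPolynomial.coeff m T)) := by
    conv_lhs => rw [MvPolynomial.as_sum T]
    rw [map_sum]
  have hle : ∀ m ∈ T.support, m.degree ≤ T.totalDegree := fun m hm =>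
    MvPolynomial.le_totalDegree hm
  constructor
  · rw [h1]
    apply natDegree_sum_le_of_forall_le
    intro m hm
    exact (mono_deg m _ e).1.trans (hle m hm)
  · rw [MvPolynomial.homogeneousComponent_apply, map_sum, map_sum]
    conv_lhs => rw [h1]
    rw [finsetSum_coeff, Finset.sum_filter]
    apply Finset.sum_congr rfl
    intro m hm
    split_ifs with h2
    · rw [← h2]
      exact (mono_deg m _ e).2
    · apply coeff_eq_zero_of_natDegree_lt
      exact lt_of_le_of_lt (mono_deg m _ e).1 (lt_of_le_of_ne (hle m hm) h2)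

theorem top_ne {T : MvPolynomial (Fin n) ℂ} (hT : T ≠ 0) :
    MvPolynomial.homogeneousComponent T.totalDegree T ≠ 0 := by
  obtain ⟨m, hm, hmd⟩ := Finset.exists_mem_eq_sup T.support
    (MvPolynomial.support_nonempty.2 hT) (fun m => m.sum fun _ e => e)
  intro h
  have h1 := congrArg (MvPolynomial.coeff m) h
  rw [MvPolynomial.coeff_homogeneousComponent, MvPolynomial.coeff_zero] at h1
  have h2 : m.degree = T.totalDegree := hmd.symm
  rw [if_pos h2] at h1
  exact MvPolynomial.mem_support_iff.1 hm h1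

/-- the properties of a regular direction -/
theorem regular {T : MvPolynomial (Fin n) ℂ} (hT : Irreducible T) {e : Fin n → ℂ}
    (he : MvPolynomial.eval e (MvPolynomial.homogeneousComponent T.totalDegree T) ≠ 0) :
    (shA e T).natDegree ≠ 0 ∧ ∀ z, (shA e T).map (MvPolynomial.eval z) ≠ 0 := by
  obtain ⟨h1, h2⟩ := sh_deg T e
  have hc : (shA e T).coeff T.totalDegree ≠ 0 := by
    rw [h2]
    exact MvPolynomial.C_ne_zero.2 he
  constructor
  · intro h0
    have h3 : T.totalDegree = 0 := by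
      have := le_natDegree_of_ne_zero hc
      omega
    have h4 := MvPolynomial.totalDegree_eq_zero_iff_eq_C.1 h3
    apply hT.not_isUnit
    rw [h4]
    apply IsUnit.map
    rw [isUnit_iff_ne_zero]
    intro h5
    rw [h5, MvPolynomial.C_0] at h4
    exact hT.ne_zero h4
  · intro z h0
    have h3 := congrArg (fun p => coeff p T.totalDegree) h0
    simp only [coeff_map, coeff_zero, h2, MvPolynomial.eval_C] at h3
    exact he h3

/-- zeros persist under perturbation of the parameter -/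
theorem persist {f : (Fin n → ℂ) × ℂ → ℂ} (hf : Continuous f)
    (hd : ∀ z, Differentiable ℂ (fun x => f (z, x))) {z₀ : Fin n → ℂ} {x₀ : ℂ}
    (h0 : f (z₀, x₀) = 0)
    (hne : ∀ᶠ x in 𝓝[≠] x₀, f (z₀, x) ≠ 0) {r : ℝ} (hr : 0 < r) :
    ∀ᶠ z in 𝓝 z₀, ∃ x, dist x x₀ < r ∧ f (z, x) = 0 := by
  rw [eventually_nhdsWithin_iff, Metric.eventually_nhds_iff] at hne
  obtain ⟨r₁, hr₁, hr₁n⟩ := hne
  obtain ⟨s, hs0, hs⟩ : ∃ s : ℝ, 0 < s ∧ s < min r r₁ := exists_between (lt_min hr hr₁)
  have hsr : s < r := lt_of_lt_of_le hs (min_le_left _ _)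
  have hsr₁ : s < r₁ := lt_of_lt_of_le hs (min_le_right _ _)
  have hsph : ∀ x ∈ sphere x₀ s, f (z₀, x) ≠ 0 := by
    intro x hx
    rw [mem_sphere] at hx
    apply hr₁n (by rw [hx]; exact hsr₁)
    rintro rfl
    rw [dist_self] at hx
    linarith
  have hc0 : Continuous (fun x => ‖f (z₀, x)‖) := by fun_prop
  obtain ⟨x₁, hx₁, hmin⟩ := (isCompact_sphere x₀ s).exists_isMinOn
    (NormedSpace.sphere_nonempty.2 hs0.le) hc0.continuousOn
  set m := ‖f (z₀, x₁)‖ with hm
  have hm0 : 0 < m := norm_pos_iff.2 (hsph x₁ hx₁)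
  have hev : ∀ᶠ z in 𝓝 z₀, ∀ x ∈ sphere x₀ s, m / 2 < ‖f (z, x)‖ := by
    apply (isCompact_sphere x₀ s).eventually_forall_of_forall_eventually
    intro x hx
    have h2 : m / 2 < ‖f (z₀, x)‖ := by
      have : m ≤ ‖f (z₀, x)‖ := hmin hx
      linarith
    have h3 : ContinuousAt (fun p : (Fin n → ℂ) × ℂ => ‖f (p.1, p.2)‖) (z₀, x) := by
      have : Continuous (fun p : (Fin n → ℂ) × ℂ => ‖f (p.1, p.2)‖) := by fun_prop
      exact this.continuousAt
    exact continuousAt_const.eventually_lt h3 h2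
  have hev2 : ∀ᶠ z in 𝓝 z₀, ‖f (z, x₀)‖ < m / 2 := by
    have h3 : ContinuousAt (fun z => ‖f (z, x₀)‖) z₀ := by
      have : Continuous (fun z => ‖f (z, x₀)‖) := by fun_prop
      exact this.continuousAt
    exact h3.eventually_lt continuousAt_const (by rw [h0, norm_zero]; linarith)
  filter_upwards [hev, hev2] with z hz1 hz2
  by_contra hcon
  push Not at hcon
  have hcb : ∀ x ∈ closedBall x₀ s, f (z, x) ≠ 0 := by
    intro x hx
    exact hcon x (lt_of_le_of_lt hx hsr)
  have hdd : DiffContOnCl ℂ (fun x => (f (z, x))⁻¹) (ball x₀ s) := by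
    apply DifferentiableOn.diffContOnCl
    rw [closure_ball _ hs0.ne']
    intro x hx
    exact ((hd z x).inv (hcb x hx)).differentiableWithinAt
  have h2 := Complex.norm_le_of_forall_mem_frontier_norm_le isBounded_ball hdd (C := (m / 2)⁻¹) (by
    intro x hx
    rw [frontier_ball _ hs0.ne'] at hx
    rw [norm_inv]
    exact inv_anti₀ (by linarith) (hz1 x hx).le) (z := x₀) (by
    rw [closure_ball _ hs0.ne']
    exact mem_closedBall_self hs0.le)
  rw [norm_inv] at h2
  have h3 : 0 < ‖f (z, x₀)‖ := norm_pos_iff.2 (hcb x₀ (mem_closedBall_self hs0.le))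
  have h4 := (inv_le_inv₀ h3 (by linarith)).1 h2
  linarith

/-- a nonzero polynomial is not zero near any point -/
theorem freq_ne {Δ : MvPolynomial (Fin n) ℂ} (hΔ : Δ ≠ 0) (z : Fin n → ℂ) :
    ∃ᶠ z' in 𝓝 z, MvPolynomial.eval z' Δ ≠ 0 := by
  intro hcon
  simp only [not_not] at hcon
  have h1 := zero_of_near (E := Fin n → ℂ)
    ((contDiff_eval Δ (k := 1)).differentiable (by simp)) hcon
  exact hΔ (MvPolynomial.funext (fun z => by rw [h1 z, map_zero]))

theorem exists_zero_near {T : (MvPolynomial (Fin n) ℂ)[X]} {z : Fin n → ℂ} {x : ℂ}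
    (hT : T.map (MvPolynomial.eval z) ≠ 0)
    (h0 : vl T z x = 0) {Δ : MvPolynomial (Fin n) ℂ} (hΔ : Δ ≠ 0) :
    ∃ᶠ w : (Fin n → ℂ) × ℂ in 𝓝 (z, x), vl T w.1 w.2 = 0 ∧ MvPolynomial.eval w.1 Δ ≠ 0 := by
  have hne : ∀ᶠ x' in 𝓝[≠] x, vl T z x' ≠ 0 := by
    have hfin : {x' | vl T z x' = 0}.Finite := by
      have : {x' | vl T z x' = 0} ⊆ ↑(rt T z) := by
        intro x' hx'
        exact (mem_rt hT).2 hx'
      exact (Finset.finite_toSet _).subset this
    have hfin2 : ({x' | vl T z x' = 0} \ {x}).Finite := hfin.subset sdiff_subset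
    have h2 : ({x' | vl T z x' = 0} \ {x})ᶜ ∈ 𝓝 x :=
      hfin2.isClosed.isOpen_compl.mem_nhds (by simp)
    filter_upwards [mem_nhdsWithin_of_mem_nhds h2, self_mem_nhdsWithin] with x' h3 h4 h5
    exact h3 ⟨h5, h4⟩
  rw [Metric.nhds_basis_ball.frequently_iff]
  intro r hr
  have h3 := persist (f := fun p => vl T p.1 p.2) (continuous_vl T)
    (fun z x => (hasDerivAt_vl T z x).differentiableAt) h0 hne hr
  obtain ⟨z', hz1, ⟨x', hx1, hx2⟩, hz2⟩ := ((freq_ne hΔ z).and_eventually (h3.and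
    (Metric.ball_mem_nhds z hr))).exists
  refine ⟨(z', x'), ?_, hx2, hz1⟩
  rw [mem_ball, Prod.dist_eq, max_lt_iff]
  exact ⟨hz2, hx1⟩

end Pool.Agent.X882.FB.N
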