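import Pool.Agent.X882.FB.NShift

/-!
An irreducible algebraic hypersurface of `ℂⁿ` with a germ in a real-analytic boundary does not meet
the domain.
-/

set_option autoImplicit false

namespace Pool.Agent.X882.FB.N

open Filter Metric Set Topology Polynomial
open scoped ContDiff

variable {n : ℕ}

/-- real-analytic boundary -/
def RABn (Ω : Set (Fin n → ℂ)) : Prop :=
  ∀ p ∈ frontier Ω, ∃ ρ : (Fin n → ℂ) → ℝ, AnalyticAt ℝ ρ p ∧ fderiv ℝ ρ p ≠ 0 ∧
    ∃ U ∈ 𝓝 p, ∀ z ∈ U, z ∈ Ω ↔ ρ z < 0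

/-- an irreducible algebraic hypersurface with a germ in the boundary is contained in it -/
theorem all_frontier {Ω : Set (Fin n → ℂ)} (hΩ : IsOpen Ω) (hb : RABn Ω)
    {T : MvPolynomial (Fin n) ℂ} (hT : Irreducible T) {p : Fin n → ℂ}
    (hp : MvPolynomial.eval p T = 0)
    (hg : ∀ᶠ z in 𝓝 p, MvPolynomial.eval z T = 0 → z ∈ frontier Ω) :
    ∀ w, MvPolynomial.eval w T = 0 → w ∈ frontier Ω := by
  obtain ⟨e, he⟩ : ∃ e : Fin n → ℂ,
      MvPolynomial.eval e (MvPolynomial.homogeneousComponent T.totalDegree T) ≠ 0 := by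
    by_contra hcon
    push Not at hcon
    exact top_ne hT.ne_zero (MvPolynomial.funext (fun z => by rw [hcon z, map_zero]))
  obtain ⟨hd, hmap⟩ := regular hT he
  set S := shA e T with hS
  have hSv : ∀ z x, vl S z x = MvPolynomial.eval (z + x • e) T := fun z x => vl_shA T e z x
  obtain ⟨Δ, hΔ0, hgood, hconn⟩ := hyp_connected (irreducible_shA hT e) hd
  let π : (Fin n → ℂ) × ℂ → (Fin n → ℂ) := fun w => w.1 + w.2 • e
  have hπ : Continuous π := by
    simp only [π]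
    fun_prop
  let A : Set ((Fin n → ℂ) × ℂ) :=
    {w | ∀ᶠ y in 𝓝 (π w), MvPolynomial.eval y T = 0 → y ∈ frontier Ω}
  have hAopen : ∀ w ∈ A, ∀ᶠ w' in 𝓝 w, w' ∈ A := by
    intro w hw
    have h1 : ∀ᶠ y in 𝓝 (π w), MvPolynomial.eval y T = 0 → y ∈ frontier Ω := hw
    exact hπ.continuousAt.eventually h1.eventually_nhds
  have hA1 : ∀ z x, MvPolynomial.eval z Δ ≠ 0 → vl S z x = 0 → (z, x) ∈ A →
      ∀ᶠ w : (Fin n → ℂ) × ℂ in 𝓝 (z, x), vl S w.1 w.2 = 0 → w ∈ A := by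
    intro z x _ _ hA
    exact (hAopen _ hA).mono fun w hw _ => hw
  have hA2 : ∀ z x, MvPolynomial.eval z Δ ≠ 0 → vl S z x = 0 → (z, x) ∉ A →
      ∀ᶠ w : (Fin n → ℂ) × ℂ in 𝓝 (z, x), vl S w.1 w.2 = 0 → w ∉ A := by
    intro z x hz hx hA
    by_contra hcon
    rw [not_eventually] at hcon
    simp only [Classical.not_imp, not_not] at hcon
    have hmemfr : ∀ w : (Fin n → ℂ) × ℂ, vl S w.1 w.2 = 0 → w ∈ A → π w ∈ frontier Ω := by
      intro w hw1 hw2
      have h2 : ∀ᶠ y in 𝓝 (π w), MvPolynomial.eval y T = 0 → y ∈ frontier Ω := hw2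
      apply h2.self_of_nhds
      rw [← hSv]
      exact hw1
    have hpf : π (z, x) ∈ frontier Ω := by
      rw [← isClosed_frontier.closure_eq, mem_closure_iff_frequently]
      exact (hπ.continuousAt (x := (z, x))).tendsto.frequently
        (hcon.mono fun w hw => hmemfr w hw.1 hw.2)
    obtain ⟨ρ, hρa, hρd, U, hU, hUρ⟩ := hb _ hpf
    have hfi := frontier_iff hΩ (ρ := ρ) (p := π (z, x)) (hρa.contDiffAt) hρd
      (by filter_upwards [hU] with w hw using hUρ w hw)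
    obtain ⟨g, hg1, hg2, hg3, hg4⟩ := branch S hx ((hgood z hz).2 x hx)
    have hpt : Tendsto (fun a => ((a, g a) : (Fin n → ℂ) × ℂ)) (𝓝 z) (𝓝 (z, x)) := by
      have h1 : ContinuousAt (fun a => ((a, g a) : (Fin n → ℂ) × ℂ)) z :=
        continuousAt_id.prodMk hg1.continuousAt
      have h2 := h1.tendsto
      rw [hg2] at h2
      exact h2
    have hgt : Tendsto (fun a => π (a, g a)) (𝓝 z) (𝓝 (π (z, x))) :=
      (hπ.continuousAt (x := (z, x))).tendsto.comp hpt
    have hgω : ∀ᶠ a in 𝓝 z, ContDiffAt ℂ ω g a := hg1.eventually (by simp)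
    have hall : ∀ᶠ a in 𝓝 z, (ContDiffAt ℂ ω g a ∧ vl S a (g a) = 0) ∧
        AnalyticAt ℝ ρ (π (a, g a)) ∧ (π (a, g a) ∈ frontier Ω ↔ ρ (π (a, g a)) = 0) :=
      (hgω.and hg3).and ((hgt.eventually hρa.eventually_analyticAt).and (hgt.eventually hfi))
    obtain ⟨ε, hε, hεa⟩ := Metric.eventually_nhds_iff.1 hall
    have hφ : AnalyticOnNhd ℝ (fun a : Fin n → ℂ => ρ (π (a, g a))) (ball z ε) := by
      intro a ha
      obtain ⟨⟨h1, h2⟩, h3, h4⟩ := hεa ha
      have h5 : AnalyticAt ℂ g a := h1.analyticAt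
      have h7 : AnalyticAt ℂ (fun a : Fin n → ℂ => π (a, g a)) a := by
        simp only [π]
        exact analyticAt_id.add (h5.smul analyticAt_const)
      exact AnalyticAt.comp (g := ρ) (f := fun a : Fin n → ℂ => π (a, g a)) h3
        h7.restrictScalars
    have hwd : ∀ᶠ w : (Fin n → ℂ) × ℂ in 𝓝 (z, x), dist w.1 z < ε :=
      (continuous_fst.dist continuous_const).continuousAt.eventually_lt continuousAt_const
        (by simpa using hε)
    obtain ⟨w, ⟨hw1, hw2⟩, hw3, hw4⟩ := (hcon.and_eventually (hg4.and hwd)).exists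
    have hw5 : w.2 = g w.1 := hw3 hw1
    have hw6 : ∀ᶠ y in 𝓝 (π w), MvPolynomial.eval y T = 0 → y ∈ frontier Ω := hw2
    have hgt' : Tendsto (fun a => π (a, g a)) (𝓝 w.1) (𝓝 (π w)) := by
      have h1 : ContinuousAt (fun a => ((a, g a) : (Fin n → ℂ) × ℂ)) w.1 :=
        continuousAt_id.prodMk (hεa hw4).1.1.continuousAt
      have h2 := h1.tendsto
      rw [← hw5] at h2
      exact (hπ.continuousAt (x := w)).tendsto.comp h2
    have hz0 : (fun a : Fin n → ℂ => ρ (π (a, g a))) =ᶠ[𝓝 w.1] 0 := by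
      filter_upwards [hgt'.eventually hw6, isOpen_ball.mem_nhds hw4] with a ha1 ha2
      obtain ⟨⟨h1, h2⟩, h3, h4⟩ := hεa ha2
      apply h4.1
      apply ha1
      rw [← h2, hSv]
    have hzero := hφ.eqOn_zero_of_preconnected_of_eventuallyEq_zero
      (convex_ball z ε).isPreconnected hw4 hz0
    apply hA
    show ∀ᶠ y in 𝓝 (π (z, x)), MvPolynomial.eval y T = 0 → y ∈ frontier Ω
    have hback : Tendsto (fun y : Fin n → ℂ => ((y - x • e, x) : (Fin n → ℂ) × ℂ))
        (𝓝 (π (z, x))) (𝓝 (z, x)) := by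
      have h1 : Continuous (fun y : Fin n → ℂ => ((y - x • e, x) : (Fin n → ℂ) × ℂ)) := by
        fun_prop
      have h2 := h1.tendsto (π (z, x))
      simpa [π] using h2
    filter_upwards [hback.eventually hg4, hback.eventually hwd] with y h1 h2 h3
    have h4 : vl S (y - x • e) x = 0 := by
      rw [hSv]
      simpa using h3
    have h5 : x = g (y - x • e) := h1 h4
    have h6 : y = π (y - x • e, g (y - x • e)) := by
      rw [← h5]
      simp [π]
    rw [h6]
    exact (hεa h2).2.2.2 (hzero h2)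
  -- the base point
  have hp0 : vl S p 0 = 0 := by
    rw [hSv]
    simpa using hp
  have hpA : ((p, 0) : (Fin n → ℂ) × ℂ) ∈ A := by
    show ∀ᶠ y in 𝓝 (π (p, 0)), MvPolynomial.eval y T = 0 → y ∈ frontier Ω
    simpa [π] using hg
  obtain ⟨w₀, ⟨h1, h2⟩, h3⟩ := ((exists_zero_near (hmap p) hp0 hΔ0).and_eventually
    (hAopen _ hpA)).exists
  have hallA := hconn A hA1 hA2 w₀.1 w₀.2 h2 h1 h3
  intro w hTw
  have hw0 : vl S w 0 = 0 := by
    rw [hSv]
    simpa using hTw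
  have hfreq : ∃ᶠ w' : (Fin n → ℂ) × ℂ in 𝓝 (w, 0), π w' ∈ frontier Ω := by
    refine (exists_zero_near (hmap w) hw0 hΔ0).mono ?_
    rintro w' ⟨h4, h5⟩
    have h7 : (w'.1, w'.2) ∈ A := hallA w'.1 w'.2 h5 h4
    have h8 : ∀ᶠ y in 𝓝 (π w'), MvPolynomial.eval y T = 0 → y ∈ frontier Ω := h7
    exact h8.self_of_nhds (by rw [← hSv]; exact h4)
  have h9 : π (w, 0) ∈ closure (frontier Ω) := by
    rw [mem_closure_iff_frequently]
    exact (hπ.continuousAt (x := (w, 0))).tendsto.frequently hfreq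
  rw [isClosed_frontier.closure_eq] at h9
  simpa [π] using h9

theorem zero_free {Ω : Set (Fin n → ℂ)} (hΩ : IsOpen Ω) (hb : RABn Ω)
    {T : MvPolynomial (Fin n) ℂ} (hT : Irreducible T) {p : Fin n → ℂ}
    (hp : MvPolynomial.eval p T = 0)
    (hg : ∀ᶠ z in 𝓝 p, MvPolynomial.eval z T = 0 → z ∈ frontier Ω) :
    ∀ w ∈ Ω, MvPolynomial.eval w T ≠ 0 := by
  intro w hw h0
  have h1 := all_frontier hΩ hb hT hp hg w h0
  rw [hΩ.frontier_eq] at h1
  exact h1.2 hw

end Pool.Agent.X882.FB.N
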