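import Mathlib

/-!
Polynomials in four complex variables, their derivatives along curves, and the implicit function
given by the equation `P(a, x, b, v) = ε`.
-/

set_option autoImplicit false

namespace Pool.Agent.X882.FB

open Filter Metric Set Topology MvPolynomial
open scoped ContDiff

/-- The value at `(a, x, b, v)` of a polynomial in four variables. -/
noncomputable def ev (P : MvPolynomial (Fin 4) ℂ) (a x b v : ℂ) : ℂ := eval ![a, x, b, v] P

theorem hasDerivAt_ev {𝕜 : Type} [NontriviallyNormedField 𝕜] [NormedAlgebra 𝕜 ℂ]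
    (P : MvPolynomial (Fin 4) ℂ) {a x b v : 𝕜 → ℂ} {a' x' b' v' : ℂ} {s : 𝕜}
    (ha : HasDerivAt a a' s) (hx : HasDerivAt x x' s) (hb : HasDerivAt b b' s)
    (hv : HasDerivAt v v' s) :
    HasDerivAt (fun t => ev P (a t) (x t) (b t) (v t))
      (a' * ev (pderiv 0 P) (a s) (x s) (b s) (v s)
        + x' * ev (pderiv 1 P) (a s) (x s) (b s) (v s)
        + b' * ev (pderiv 2 P) (a s) (x s) (b s) (v s)
        + v' * ev (pderiv 3 P) (a s) (x s) (b s) (v s)) s := by
  induction P using MvPolynomial.induction_on with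
  | C c =>
    have : (fun t => ev (C c) (a t) (x t) (b t) (v t)) = fun _ => c := by
      funext t
      simp [ev]
    rw [this]
    exact (hasDerivAt_const s c).congr_deriv (by simp [ev])
  | add p q hp hq =>
    have : (fun t => ev (p + q) (a t) (x t) (b t) (v t)) =
        fun t => ev p (a t) (x t) (b t) (v t) + ev q (a t) (x t) (b t) (v t) := by
      funext t
      simp [ev]
    rw [this]
    exact (hp.add hq).congr_deriv (by simp only [ev, map_add]; ring)
  | mul_X p i hp =>
    have key : ∀ (g : 𝕜 → ℂ) (g' : ℂ), HasDerivAt g g' s →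
        (∀ t, g t = ![a t, x t, b t, v t] i) →
        (g' = a' * (if (0 : Fin 4) = i then 1 else 0) + x' * (if (1 : Fin 4) = i then 1 else 0)
          + b' * (if (2 : Fin 4) = i then 1 else 0) + v' * (if (3 : Fin 4) = i then 1 else 0)) →
        HasDerivAt (fun t => ev (p * X i) (a t) (x t) (b t) (v t))
        (a' * ev (pderiv 0 (p * X i)) (a s) (x s) (b s) (v s)
        + x' * ev (pderiv 1 (p * X i)) (a s) (x s) (b s) (v s)
        + b' * ev (pderiv 2 (p * X i)) (a s) (x s) (b s) (v s)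
        + v' * ev (pderiv 3 (p * X i)) (a s) (x s) (b s) (v s)) s := by
      intro g g' hg hgt hg'
      have : (fun t => ev (p * X i) (a t) (x t) (b t) (v t)) =
          fun t => ev p (a t) (x t) (b t) (v t) * g t := by
        funext t
        simp [ev, hgt t]
      rw [this]
      refine (hp.mul hg).congr_deriv ?_
      have hX : ∀ j : Fin 4, ev (pderiv j (p * X i)) (a s) (x s) (b s) (v s)
          = ev (pderiv j p) (a s) (x s) (b s) (v s) * g s
            + ev p (a s) (x s) (b s) (v s) * (if j = i then 1 else 0) := by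
        intro j
        rw [Derivation.leibniz]
        by_cases hji : j = i
        · subst hji
          simp [ev, hgt s]
          ring
        · simp [ev, hgt s, hji, pderiv_X_of_ne (Ne.symm hji)]
          ring
      rw [hX, hX, hX, hX, hg']
      ring
    fin_cases i
    · exact key a a' ha (fun t => by simp) (by simp)
    · exact key x x' hx (fun t => by simp) (by simp)
    · exact key b b' hb (fun t => by simp) (by simp)
    · exact key v v' hv (fun t => by simp) (by simp)

theorem contDiffAt_ev {𝕜 : Type} [NontriviallyNormedField 𝕜] [NormedAlgebra 𝕜 ℂ]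
    {E' : Type} [NormedAddCommGroup E'] [NormedSpace 𝕜 E'] {n : WithTop ℕ∞}
    (P : MvPolynomial (Fin 4) ℂ) {a x b v : E' → ℂ} {s : E'}
    (ha : ContDiffAt 𝕜 n a s) (hx : ContDiffAt 𝕜 n x s) (hb : ContDiffAt 𝕜 n b s)
    (hv : ContDiffAt 𝕜 n v s) :
    ContDiffAt 𝕜 n (fun t => ev P (a t) (x t) (b t) (v t)) s := by
  induction P using MvPolynomial.induction_on with
  | C c =>
    have : (fun t => ev (C c) (a t) (x t) (b t) (v t)) = fun _ => c := by
      funext t
      simp [ev]
    rw [this]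
    exact contDiffAt_const
  | add p q hp hq =>
    have : (fun t => ev (p + q) (a t) (x t) (b t) (v t)) =
        fun t => ev p (a t) (x t) (b t) (v t) + ev q (a t) (x t) (b t) (v t) := by
      funext t
      simp [ev]
    rw [this]
    exact hp.add hq
  | mul_X p i hp =>
    have key : ∀ (g : E' → ℂ), ContDiffAt 𝕜 n g s →
        (∀ t, g t = ![a t, x t, b t, v t] i) →
        ContDiffAt 𝕜 n (fun t => ev (p * X i) (a t) (x t) (b t) (v t)) s := by
      intro g hg hgt
      have : (fun t => ev (p * X i) (a t) (x t) (b t) (v t)) =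
          fun t => ev p (a t) (x t) (b t) (v t) * g t := by
        funext t
        simp [ev, hgt t]
      rw [this]
      exact hp.mul hg
    fin_cases i
    · exact key a ha (fun t => by simp)
    · exact key x hx (fun t => by simp)
    · exact key b hb (fun t => by simp)
    · exact key v hv (fun t => by simp)

theorem continuous_ev (P : MvPolynomial (Fin 4) ℂ) {T : Type} [TopologicalSpace T]
    {a x b v : T → ℂ} (ha : Continuous a) (hx : Continuous x) (hb : Continuous b)
    (hv : Continuous v) : Continuous (fun t => ev P (a t) (x t) (b t) (v t)) := by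
  have h1 : Continuous (fun t => (![a t, x t, b t, v t] : Fin 4 → ℂ)) := by
    apply continuous_pi
    intro i
    fin_cases i
    · exact ha
    · exact hx
    · exact hb
    · exact hv
  exact (MvPolynomial.continuous_eval P).comp h1

theorem continuousAt_ev (P : MvPolynomial (Fin 4) ℂ) {T : Type} [TopologicalSpace T]
    {a x b v : T → ℂ} {t : T} (ha : ContinuousAt a t) (hx : ContinuousAt x t)
    (hb : ContinuousAt b t)
    (hv : ContinuousAt v t) : ContinuousAt (fun t => ev P (a t) (x t) (b t) (v t)) t := by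
  have h1 : ContinuousAt (fun t => (![a t, x t, b t, v t] : Fin 4 → ℂ)) t := by
    apply continuousAt_pi.2
    intro i
    fin_cases i
    · exact ha
    · exact hx
    · exact hb
    · exact hv
  exact (MvPolynomial.continuous_eval P).continuousAt.comp h1

/-- The implicit function. -/
theorem pack (P : MvPolynomial (Fin 4) ℂ) {q0 q1 p0 p1 : ℂ} (h0 : ev P q0 q1 p0 p1 = 0)
    (h1 : ev (pderiv 1 P) q0 q1 p0 p1 ≠ 0) :
    ∃ Θ : ℂ × ℂ × ℂ × ℂ → ℂ, ContDiffAt ℂ ω Θ (q0, p0, p1, 0) ∧ Θ (q0, p0, p1, 0) = q1 ∧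
      (∀ᶠ u : ℂ × ℂ × ℂ × ℂ in 𝓝 (q0, p0, p1, 0),
        ev P u.1 (Θ u) u.2.1 u.2.2.1 = u.2.2.2) ∧
      (∀ᶠ w : (ℂ × ℂ × ℂ × ℂ) × ℂ in 𝓝 ((q0, p0, p1, 0), q1),
        ev P w.1.1 w.2 w.1.2.1 w.1.2.2.1 = w.1.2.2.2 → w.2 = Θ w.1) := by
  let f : (ℂ × ℂ × ℂ × ℂ) × ℂ → ℂ := fun w => ev P w.1.1 w.2 w.1.2.1 w.1.2.2.1 - w.1.2.2.2
  have hf : ∀ w, ContDiffAt ℂ ω f w := by
    intro w
    apply ContDiffAt.sub
    · apply contDiffAt_ev <;> fun_prop
    · fun_prop
  set u : (ℂ × ℂ × ℂ × ℂ) × ℂ := ((q0, p0, p1, 0), q1) with hu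
  have hfu : f u = 0 := by simp [f, hu, h0]
  have hinv : (fderiv ℂ f u ∘L .inr ℂ (ℂ × ℂ × ℂ × ℂ) ℂ).IsInvertible := by
    have hd : HasFDerivAt f (fderiv ℂ f u) u :=
      ((hf u).differentiableAt (by simp)).hasFDerivAt
    have hline : HasDerivAt (fun t : ℂ => (((q0, p0, p1, 0), t) : (ℂ × ℂ × ℂ × ℂ) × ℂ))
        (((0, 0, 0, 0), 1) : (ℂ × ℂ × ℂ × ℂ) × ℂ) q1 := by
      have h2 := (hasDerivAt_const q1 ((q0, p0, p1, 0) : ℂ × ℂ × ℂ × ℂ)).prodMk
        (hasDerivAt_id q1)
      exact h2
    have h2 : HasDerivAt (fun t : ℂ => f ((q0, p0, p1, 0), t))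
        (fderiv ℂ f u ((0, 0, 0, 0), 1)) q1 := hd.comp_hasDerivAt q1 hline
    have h3 : HasDerivAt (fun t : ℂ => f ((q0, p0, p1, 0), t))
        (ev (pderiv 1 P) q0 q1 p0 p1) q1 := by
      have h4 := hasDerivAt_ev (𝕜 := ℂ) P (hasDerivAt_const q1 q0) (hasDerivAt_id q1)
        (hasDerivAt_const q1 p0) (hasDerivAt_const q1 p1)
      simp only [id] at h4
      exact (h4.sub (hasDerivAt_const q1 (0 : ℂ))).congr_deriv (by ring)
    have h5 : fderiv ℂ f u ((0, 0, 0, 0), 1) = ev (pderiv 1 P) q0 q1 p0 p1 := h2.unique h3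
    set c := ev (pderiv 1 P) q0 q1 p0 p1 with hc
    have h6 : (fderiv ℂ f u ∘L .inr ℂ (ℂ × ℂ × ℂ × ℂ) ℂ) =
        ((ContinuousLinearEquiv.unitsEquivAut ℂ (Units.mk0 c h1) : ℂ ≃L[ℂ] ℂ) : ℂ →L[ℂ] ℂ) := by
      ext
      simp only [ContinuousLinearMap.coe_comp, Function.comp_apply,
        ContinuousLinearMap.inr_apply]
      have : ((0 : ℂ × ℂ × ℂ × ℂ), (1 : ℂ)) = (((0, 0, 0, 0), 1) : (ℂ × ℂ × ℂ × ℂ) × ℂ) := rfl
      rw [this, h5]
      simp
    rw [h6]
    exact ContinuousLinearMap.isInvertible_equiv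
  have hw : (ω : WithTop ℕ∞) ≠ 0 := by simp
  refine ⟨(hf u).implicitFunction hw hinv, ?_, ?_, ?_, ?_⟩
  · exact (hf u).contDiffAt_implicitFunction hw hinv
  · exact (hf u).implicitFunction_apply_self hw hinv
  · have h2 := (hf u).eventually_apply_implicitFunction hw hinv
    rw [hfu] at h2
    filter_upwards [h2] with w hw2
    exact sub_eq_zero.1 hw2
  · have h2 := (hf u).eventually_apply_eq_iff_implicitFunction hw hinv
    rw [hfu] at h2
    filter_upwards [h2] with w hw2 hw3
    exact (hw2.1 (sub_eq_zero.2 hw3)).symm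

end Pool.Agent.X882.FB
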