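import Pool.Agent.X882.FB.Main

/-!
Real polynomials in the four real coordinates of `ℂ²`.
-/

set_option autoImplicit false

namespace Pool.Agent.X882.FB

open Filter Metric Set Topology MvPolynomial
open scoped ContDiff ComplexConjugate

/-- the real coordinates of a point -/
noncomputable def rc (z : Fin 2 → ℂ) : Fin 4 → ℝ := ![(z 0).re, (z 0).im, (z 1).re, (z 1).im]

/-- the value of a real polynomial at a point of `ℂ²` -/
noncomputable def rq (Q : MvPolynomial (Fin 4) ℝ) (z : Fin 2 → ℂ) : ℝ := eval (rc z) Q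

theorem contDiff_rq (Q : MvPolynomial (Fin 4) ℝ) {n : WithTop ℕ∞} : ContDiff ℝ n (rq Q) := by
  have hc : ∀ i : Fin 4, ContDiff ℝ n (fun z : Fin 2 → ℂ => rc z i) := by
    have h0 : ∀ j : Fin 2, ContDiff ℝ n (fun z : Fin 2 → ℂ => (z j).re) := fun j =>
      Complex.reCLM.contDiff.comp (contDiff_apply ℝ ℂ j)
    have h1 : ∀ j : Fin 2, ContDiff ℝ n (fun z : Fin 2 → ℂ => (z j).im) := fun j =>
      Complex.imCLM.contDiff.comp (contDiff_apply ℝ ℂ j)
    intro i
    fin_cases i
    · exact h0 0
    · exact h1 0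
    · exact h0 1
    · exact h1 1
  induction Q using MvPolynomial.induction_on with
  | C c =>
    have : rq (C c) = fun _ => c := by
      funext z
      simp [rq]
    rw [this]
    exact contDiff_const
  | add p q hp hq =>
    have : rq (p + q) = fun z => rq p z + rq q z := by
      funext z
      simp [rq]
    rw [this]
    exact hp.add hq
  | mul_X p i hp =>
    have : rq (p * X i) = fun z => rq p z * rc z i := by
      funext z
      simp [rq]
    rw [this]
    exact hp.mul (hc i)

/-- derivative along a curve whose real coordinates move along the `i`-th axis -/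
theorem hasDerivAt_rq (Q : MvPolynomial (Fin 4) ℝ) {z w : Fin 2 → ℂ} {i : Fin 4}
    (hw : ∀ t : ℝ, rc (z + t • w) = fun j => rc z j + t * (if j = i then 1 else 0)) :
    HasDerivAt (fun t : ℝ => rq Q (z + t • w)) (rq (pderiv i Q) z) 0 := by
  induction Q using MvPolynomial.induction_on with
  | C c =>
    have : (fun t : ℝ => rq (C c) (z + t • w)) = fun _ => c := by
      funext z
      simp [rq]
    rw [this]
    exact (hasDerivAt_const (0 : ℝ) c).congr_deriv (by simp [rq])
  | add p q hp hq =>
    have : (fun t : ℝ => rq (p + q) (z + t • w)) =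
        fun t : ℝ => rq p (z + t • w) + rq q (z + t • w) := by
      funext z
      simp [rq]
    rw [this]
    exact (hp.add hq).congr_deriv (by simp [rq])
  | mul_X p k hp =>
    have : (fun t : ℝ => rq (p * X k) (z + t • w)) =
        fun t : ℝ => rq p (z + t • w) * (rc z k + t * (if k = i then 1 else 0)) := by
      funext t
      simp only [rq, map_mul, eval_X]
      rw [hw t]
    rw [this]
    have h2 : HasDerivAt (fun t : ℝ => rc z k + t * (if k = i then 1 else 0))
        (if k = i then 1 else 0) 0 := by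
      exact (((hasDerivAt_id (0 : ℝ)).mul_const _).const_add _).congr_deriv (by simp)
    refine (hp.mul h2).congr_deriv ?_
    simp only [zero_smul, add_zero, zero_mul]
    have h3 : rq (pderiv i (p * X k)) z = rq (pderiv i p) z * rc z k
        + rq p z * (if k = i then 1 else 0) := by
      rw [rq, Derivation.leibniz]
      by_cases hki : k = i
      · subst hki
        simp only [pderiv_X_self, smul_eq_mul, mul_one, map_add, map_mul, eval_X, if_true, rq]
        ring
      · simp only [pderiv_X_of_ne hki, smul_eq_mul, mul_zero, map_add, map_mul, eval_X,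
          if_neg hki, rq, map_zero]
        ring
    rw [h3]

/-- the coordinate directions -/
noncomputable def dirv (i : Fin 4) : Fin 2 → ℂ :=
  (![![1, 0], ![Complex.I, 0], ![0, 1], ![0, Complex.I]] : Fin 4 → Fin 2 → ℂ) i

theorem rc_dirv (z : Fin 2 → ℂ) (i : Fin 4) (t : ℝ) :
    rc (z + t • dirv i) = fun j => rc z j + t * (if j = i then 1 else 0) := by
  funext j
  fin_cases i <;> fin_cases j <;> simp [rc, dirv]

theorem fderiv_rq (Q : MvPolynomial (Fin 4) ℝ) (z : Fin 2 → ℂ) (i : Fin 4) :
    fderiv ℝ (rq Q) z (dirv i) = rq (pderiv i Q) z := by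
  have h1 : HasDerivAt (fun t : ℝ => z + t • dirv i) (dirv i) 0 := by
    have := ((hasDerivAt_id (0 : ℝ)).smul_const (dirv i)).const_add z
    simpa using this
  have hd : HasFDerivAt (rq Q) (fderiv ℝ (rq Q) z) ((fun t : ℝ => z + t • dirv i) 0) := by
    have := ((contDiff_rq Q (n := 1)).differentiable (by simp)) z
    simpa using this.hasFDerivAt
  have h2 : HasDerivAt (rq Q ∘ fun t : ℝ => z + t • dirv i) (fderiv ℝ (rq Q) z (dirv i)) 0 :=
    HasFDerivAt.comp_hasDerivAt (0 : ℝ) hd h1
  have h3 : HasDerivAt (rq Q ∘ fun t : ℝ => z + t • dirv i) (rq (pderiv i Q) z) 0 :=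
    hasDerivAt_rq Q (rc_dirv z i)
  exact h2.unique h3

/-- the complexification of a real polynomial along a substitution -/
noncomputable def toP (w : Fin 4 → MvPolynomial (Fin 4) ℂ) (Q : MvPolynomial (Fin 4) ℝ) :
    MvPolynomial (Fin 4) ℂ :=
  eval₂ (C.comp Complex.ofRealHom) w Q

theorem ev_toP (w : Fin 4 → MvPolynomial (Fin 4) ℂ) (Q : MvPolynomial (Fin 4) ℝ) (a x b v : ℂ) :
    ev (toP w Q) a x b v = eval₂ Complex.ofRealHom (fun i => ev (w i) a x b v) Q := by
  induction Q using MvPolynomial.induction_on with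
  | C c => simp [ev, toP]
  | add p q hp hq =>
    have h1 : toP w (p + q) = toP w p + toP w q := by simp [toP]
    have h2 : ev (toP w p + toP w q) a x b v = ev (toP w p) a x b v + ev (toP w q) a x b v := by
      simp [ev]
    rw [h1, h2, hp, hq, eval₂_add]
  | mul_X p i hp =>
    have h1 : toP w (p * X i) = toP w p * w i := by simp [toP]
    have h2 : ev (toP w p * w i) a x b v = ev (toP w p) a x b v * ev (w i) a x b v := by
      simp [ev]
    rw [h1, h2, hp, eval₂_mul, eval₂_X]

theorem eval₂_real (Q : MvPolynomial (Fin 4) ℝ) (y : Fin 4 → ℝ) :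
    eval₂ Complex.ofRealHom (fun i => (y i : ℂ)) Q = ((eval y Q : ℝ) : ℂ) := by
  induction Q using MvPolynomial.induction_on with
  | C c => simp
  | add p q hp hq => simp [hp, hq]
  | mul_X p i hp => simp [hp]

theorem conj_eval₂ (Q : MvPolynomial (Fin 4) ℝ) (y : Fin 4 → ℂ) :
    conj (eval₂ Complex.ofRealHom y Q) = eval₂ Complex.ofRealHom (fun i => conj (y i)) Q := by
  induction Q using MvPolynomial.induction_on with
  | C c => simp
  | add p q hp hq => simp [hp, hq]
  | mul_X p i hp => simp [hp]

/-- first substitution -/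
noncomputable def w1 : Fin 4 → MvPolynomial (Fin 4) ℂ :=
  ![C (1 / 2) * (X 0 + X 2), C (1 / (2 * Complex.I)) * (X 0 - X 2),
    C (1 / 2) * (X 1 + X 3), C (1 / (2 * Complex.I)) * (X 1 - X 3)]

/-- second substitution -/
noncomputable def w2 : Fin 4 → MvPolynomial (Fin 4) ℂ :=
  ![C (1 / 2) * (X 1 + X 3), C (1 / (2 * Complex.I)) * (X 1 - X 3),
    C (1 / 2) * (X 0 + X 2), C (1 / (2 * Complex.I)) * (X 0 - X 2)]

theorem re_formula (a : ℂ) : 1 / 2 * (a + conj a) = (a.re : ℂ) := by
  rw [Complex.add_conj]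
  push_cast
  ring

theorem im_formula (a : ℂ) : 1 / (2 * Complex.I) * (a - conj a) = (a.im : ℂ) := by
  rw [Complex.sub_conj]
  have := Complex.I_ne_zero
  field_simp
  push_cast
  ring

theorem herm_w1 (Q : MvPolynomial (Fin 4) ℝ) : Herm (toP w1 Q) := by
  intro a x b v
  rw [ev_toP, ev_toP, conj_eval₂]
  congr 1
  funext i
  have hc2 : (starRingEnd ℂ) 2 = 2 := map_ofNat _ 2
  fin_cases i <;> simp [w1, ev, hc2] <;> ring

theorem herm_w2 (Q : MvPolynomial (Fin 4) ℝ) : Herm (toP w2 Q) := by
  intro a x b v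
  rw [ev_toP, ev_toP, conj_eval₂]
  congr 1
  funext i
  have hc2 : (starRingEnd ℂ) 2 = 2 := map_ofNat _ 2
  fin_cases i <;> simp [w2, ev, hc2] <;> ring

theorem rho_w1 (Q : MvPolynomial (Fin 4) ℝ) (a x : ℂ) : rho (toP w1 Q) a x = rq Q ![a, x] := by
  rw [rho, ev_toP, rq]
  have h1 : (fun i => ev (w1 i) a x (conj a) (conj x)) = fun i => ((rc ![a, x] i : ℝ) : ℂ) := by
    funext i
    fin_cases i
    · simpa [w1, ev, rc] using re_formula a
    · simpa [w1, ev, rc] using im_formula a
    · simpa [w1, ev, rc] using re_formula x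
    · simpa [w1, ev, rc] using im_formula x
  rw [h1, eval₂_real, Complex.ofReal_re]

theorem rho_w2 (Q : MvPolynomial (Fin 4) ℝ) (a x : ℂ) : rho (toP w2 Q) a x = rq Q ![x, a] := by
  rw [rho, ev_toP, rq]
  have h1 : (fun i => ev (w2 i) a x (conj a) (conj x)) = fun i => ((rc ![x, a] i : ℝ) : ℂ) := by
    funext i
    fin_cases i
    · simpa [w2, ev, rc] using re_formula x
    · simpa [w2, ev, rc] using im_formula x
    · simpa [w2, ev, rc] using re_formula a
    · simpa [w2, ev, rc] using im_formula a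
  rw [h1, eval₂_real, Complex.ofReal_re]

/-- if the gradient of the real polynomial does not vanish, one of the two complexifications has
nonvanishing derivative in its second variable -/
theorem exists_coord (Q : MvPolynomial (Fin 4) ℝ) (p : Fin 2 → ℂ) (hd : fderiv ℝ (rq Q) p ≠ 0) :
    ev (pderiv 1 (toP w1 Q)) (p 0) (p 1) (conj (p 0)) (conj (p 1)) ≠ 0 ∨
    ev (pderiv 1 (toP w2 Q)) (p 1) (p 0) (conj (p 1)) (conj (p 0)) ≠ 0 := by
  by_contra hcon
  push Not at hcon
  obtain ⟨h1, h2⟩ := hcon
  apply hd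
  have hQd : ∀ (u : Fin 2 → ℂ), HasDerivAt (fun t : ℝ => rq Q (p + t • u))
      (fderiv ℝ (rq Q) p u) 0 := by
    intro u
    have h3 : HasDerivAt (fun t : ℝ => p + t • u) u 0 := by
      have := ((hasDerivAt_id (0 : ℝ)).smul_const u).const_add p
      simpa using this
    have hd : HasFDerivAt (rq Q) (fderiv ℝ (rq Q) p) ((fun t : ℝ => p + t • u) 0) := by
      have := ((contDiff_rq Q (n := 1)).differentiable (by simp)) p
      simpa using this.hasFDerivAt
    exact hd.comp_hasDerivAt 0 h3
  have k1 : ∀ w : ℂ, fderiv ℝ (rq Q) p ![0, w] = 0 := by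
    intro w
    have h3 := rho_dir (herm_w1 Q) (p 0) (p 1) w
    rw [h1] at h3
    have h4 : (fun t : ℝ => rho (toP w1 Q) (p 0) (p 1 + (t : ℂ) * w)) =
        fun t : ℝ => rq Q (p + t • ![0, w]) := by
      funext t
      rw [rho_w1]
      congr 1
      funext i
      fin_cases i <;> simp
    rw [h4] at h3
    have := h3.unique (hQd ![0, w])
    simpa using this.symm
  have k2 : ∀ w : ℂ, fderiv ℝ (rq Q) p ![w, 0] = 0 := by
    intro w
    have h3 := rho_dir (herm_w2 Q) (p 1) (p 0) w
    rw [h2] at h3
    have h4 : (fun t : ℝ => rho (toP w2 Q) (p 1) (p 0 + (t : ℂ) * w)) =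
        fun t : ℝ => rq Q (p + t • ![w, 0]) := by
      funext t
      rw [rho_w2]
      congr 1
      funext i
      fin_cases i <;> simp
    rw [h4] at h3
    have := h3.unique (hQd ![w, 0])
    simpa using this.symm
  ext u
  have h3 : u = ![u 0, 0] + ![0, u 1] := by
    funext i
    fin_cases i <;> simp
  rw [h3, map_add, k1, k2]
  simp

end Pool.Agent.X882.FB
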