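import Pool.Agent.X882.FB.Curve

/-!
Connectedness of an irreducible plane algebraic curve outside finitely many vertical lines.
-/

set_option autoImplicit false

namespace Pool.Agent.X882.FB

open Filter Metric Set Topology Polynomial
open scoped ContDiff

/-- the roots of `T(z, ·)` -/
noncomputable def rt (T : ℂ[X][X]) (z : ℂ) : Finset ℂ := (T.map (evalRingHom z)).roots.toFinset

theorem mem_rt {T : ℂ[X][X]} {z : ℂ} (h : T.map (evalRingHom z) ≠ 0) {x : ℂ} :
    x ∈ rt T z ↔ evalEval z x T = 0 := by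
  rw [rt, Multiset.mem_toFinset, mem_roots h, IsRoot.def, map_evalRingHom_eval]

theorem eval_of_mem_rt {T : ℂ[X][X]} {z x : ℂ} (h : x ∈ rt T z) : evalEval z x T = 0 := by
  rw [rt, Multiset.mem_toFinset] at h
  have := isRoot_of_mem_roots h
  rwa [IsRoot.def, map_evalRingHom_eval] at this

theorem card_rt_le (T : ℂ[X][X]) (z : ℂ) : (rt T z).card ≤ T.natDegree :=
  (Multiset.toFinset_card_le _).trans ((card_roots' _).trans natDegree_map_le)

/-- good parameters -/
def Good (T : ℂ[X][X]) (z : ℂ) : Prop :=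
  T.leadingCoeff.eval z ≠ 0 ∧ ∀ x, evalEval z x T = 0 → evalEval z x (derivative T) ≠ 0

theorem Good.map_ne {T : ℂ[X][X]} {z : ℂ} (h : Good T z) : T.map (evalRingHom z) ≠ 0 := by
  intro h0
  have h1 := congrArg (fun p => coeff p T.natDegree) h0
  simp only [coeff_map, coe_evalRingHom, coeff_zero] at h1
  exact h.1 h1

theorem Good.card_rt {T : ℂ[X][X]} {z : ℂ} (h : Good T z) : (rt T z).card = T.natDegree := by
  have hne := h.map_ne
  have h1 : (T.map (evalRingHom z)).natDegree = T.natDegree :=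
    natDegree_map_of_leadingCoeff_ne_zero _ h.1
  have h2 : (T.map (evalRingHom z)).roots.Nodup := by
    rw [Multiset.nodup_iff_count_le_one]
    intro x
    rw [count_roots]
    by_contra hcon
    push Not at hcon
    rw [one_lt_rootMultiplicity_iff_isRoot hne] at hcon
    obtain ⟨h3, h4⟩ := hcon
    rw [IsRoot.def, map_evalRingHom_eval] at h3
    rw [IsRoot.def, derivative_map, map_evalRingHom_eval] at h4
    exact h.2 x h3 h4
  rw [rt, Multiset.toFinset_card_of_nodup h2, ← h1]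
  exact (splits_iff_card_roots.1 (IsAlgClosed.splits _))

theorem local_roots {T : ℂ[X][X]} {z₁ : ℂ} (hg1 : Good T z₁) (hg : ∀ᶠ z in 𝓝 z₁, Good T z) :
    ∃ G : ℂ → ℂ → ℂ, (∀ ξ ∈ rt T z₁, G ξ z₁ = ξ ∧ ContDiffAt ℂ ω (G ξ) z₁) ∧
      ∀ᶠ z in 𝓝 z₁, InjOn (fun ξ => G ξ z) (rt T z₁) ∧
        rt T z = (rt T z₁).image (fun ξ => G ξ z) := by
  have hex : ∀ ξ ∈ rt T z₁, ∃ g : ℂ → ℂ, ContDiffAt ℂ ω g z₁ ∧ g z₁ = ξ ∧
      (∀ᶠ z in 𝓝 z₁, evalEval z (g z) T = 0) := by
    intro ξ hξ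
    have h0 := eval_of_mem_rt hξ
    obtain ⟨g, h1, h2, h3, -⟩ := branch T h0 (hg1.2 ξ h0)
    exact ⟨g, h1, h2, h3⟩
  choose! G hG1 hG2 hG3 using hex
  refine ⟨G, fun ξ hξ => ⟨hG2 ξ hξ, hG1 ξ hξ⟩, ?_⟩
  have hroot : ∀ᶠ z in 𝓝 z₁, ∀ ξ ∈ rt T z₁, evalEval z (G ξ z) T = 0 :=
    (Filter.eventually_all_finset _).2 hG3
  have hinj : ∀ᶠ z in 𝓝 z₁, ∀ ξ ∈ rt T z₁, ∀ ξ' ∈ rt T z₁, ξ ≠ ξ' → G ξ z ≠ G ξ' z := by
    rw [Filter.eventually_all_finset]
    intro ξ hξ
    rw [Filter.eventually_all_finset]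
    intro ξ' hξ'
    by_cases he : ξ = ξ'
    · exact Eventually.of_forall fun z h => absurd he h
    · have h1 : ContinuousAt (fun z => G ξ z - G ξ' z) z₁ :=
        (hG1 ξ hξ).continuousAt.sub (hG1 ξ' hξ').continuousAt
      have h2 := h1.eventually_ne (y := 0) (by
        rw [hG2 ξ hξ, hG2 ξ' hξ']
        exact sub_ne_zero.2 he)
      filter_upwards [h2] with z hz _
      exact sub_ne_zero.1 hz
  filter_upwards [hroot, hinj, hg] with z hz1 hz2 hz3
  have hinjOn : InjOn (fun ξ => G ξ z) (rt T z₁) := by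
    intro ξ hξ ξ' hξ' h
    by_contra hne
    exact hz2 ξ hξ ξ' hξ' hne h
  refine ⟨hinjOn, ?_⟩
  symm
  apply Finset.eq_of_subset_of_card_le
  · intro x hx
    obtain ⟨ξ, hξ, rfl⟩ := Finset.mem_image.1 hx
    exact (mem_rt hz3.map_ne).2 (hz1 ξ hξ)
  · rw [Finset.card_image_of_injOn hinjOn, hz3.card_rt, hg1.card_rt]

/-- bound for the roots -/
theorem root_bound (p : ℂ[X]) (n : ℕ) (hn : p.natDegree ≤ n) {x : ℂ} (hx : p.eval x = 0) :
    ‖p.coeff n * x‖ ≤ ∑ i ∈ Finset.range (n + 1), ‖p.coeff i‖ := by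
  have hterm : ‖p.coeff n‖ ≤ ∑ i ∈ Finset.range (n + 1), ‖p.coeff i‖ :=
    Finset.single_le_sum (f := fun i => ‖p.coeff i‖) (fun i _ => norm_nonneg _)
      (Finset.mem_range.2 (Nat.lt_succ_self n))
  rcases le_or_gt ‖x‖ 1 with h | h
  · rw [norm_mul]
    calc ‖p.coeff n‖ * ‖x‖ ≤ ‖p.coeff n‖ * 1 := by gcongr
      _ = ‖p.coeff n‖ := mul_one _
      _ ≤ _ := hterm
  · rcases Nat.eq_zero_or_pos n with hn0 | hn0
    · subst hn0
      have h1 : p = C (p.coeff 0) := eq_C_of_natDegree_le_zero hn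
      rw [h1, eval_C] at hx
      rw [hx]
      simp
    · obtain ⟨m, rfl⟩ : ∃ m, n = m + 1 := ⟨n - 1, by omega⟩
      have h1 : p.eval x = ∑ i ∈ Finset.range (m + 1 + 1), p.coeff i * x ^ i :=
        eval_eq_sum_range' (by omega) x
      rw [Finset.sum_range_succ, hx] at h1
      have h2 : p.coeff (m + 1) * x ^ (m + 1) = - ∑ i ∈ Finset.range (m + 1), p.coeff i * x ^ i := by
        linear_combination -h1
      have h3 : ‖p.coeff (m + 1) * x ^ (m + 1)‖ ≤
          (∑ i ∈ Finset.range (m + 1), ‖p.coeff i‖) * ‖x‖ ^ m := by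
        rw [h2, norm_neg, Finset.sum_mul]
        refine (norm_sum_le _ _).trans (Finset.sum_le_sum fun i hi => ?_)
        rw [norm_mul, norm_pow]
        have : i ≤ m := by
          have := Finset.mem_range.1 hi
          omega
        have h4 := pow_le_pow_right₀ h.le this
        gcongr
      have h5 : ‖p.coeff (m + 1) * x ^ (m + 1)‖ = ‖p.coeff (m + 1) * x‖ * ‖x‖ ^ m := by
        rw [norm_mul, norm_mul, norm_pow]
        ring
      rw [h5] at h3
      have h6 : 0 < ‖x‖ ^ m := by positivity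
      have h7 := le_of_mul_le_mul_right h3 h6
      refine h7.trans ?_
      rw [Finset.sum_range_succ _ (m + 1)]
      linarith [norm_nonneg (p.coeff (m + 1))]

/-- polynomial growth -/
def PG (f : ℂ → ℝ) : Prop := ∃ (C : ℝ) (N : ℕ), 0 ≤ C ∧ ∀ z, |f z| ≤ C * (1 + ‖z‖) ^ N

theorem PG.const (c : ℝ) : PG (fun _ => c) := ⟨|c|, 0, abs_nonneg _, fun z => by simp⟩

theorem PG.add {f g : ℂ → ℝ} (hf : PG f) (hg : PG g) : PG (fun z => f z + g z) := by
  obtain ⟨C, N, hC, h⟩ := hf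
  obtain ⟨C', N', hC', h'⟩ := hg
  refine ⟨C + C', N + N', by positivity, fun z => ?_⟩
  have h1 : (1 : ℝ) ≤ 1 + ‖z‖ := by linarith [norm_nonneg z]
  have h2 : (1 + ‖z‖) ^ N ≤ (1 + ‖z‖) ^ (N + N') := pow_le_pow_right₀ h1 (by omega)
  have h3 : (1 + ‖z‖) ^ N' ≤ (1 + ‖z‖) ^ (N + N') := pow_le_pow_right₀ h1 (by omega)
  calc |f z + g z| ≤ |f z| + |g z| := abs_add_le _ _
    _ ≤ C * (1 + ‖z‖) ^ N + C' * (1 + ‖z‖) ^ N' := add_le_add (h z) (h' z)
    _ ≤ C * (1 + ‖z‖) ^ (N + N') + C' * (1 + ‖z‖) ^ (N + N') := by gcongr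
    _ = _ := by ring

theorem PG.mul {f g : ℂ → ℝ} (hf : PG f) (hg : PG g) : PG (fun z => f z * g z) := by
  obtain ⟨C, N, hC, h⟩ := hf
  obtain ⟨C', N', hC', h'⟩ := hg
  refine ⟨C * C', N + N', by positivity, fun z => ?_⟩
  rw [abs_mul]
  calc |f z| * |g z| ≤ (C * (1 + ‖z‖) ^ N) * (C' * (1 + ‖z‖) ^ N') := by
        apply mul_le_mul (h z) (h' z) (abs_nonneg _) (by positivity)
    _ = _ := by ring

theorem PG.pow {f : ℂ → ℝ} (hf : PG f) (n : ℕ) : PG (fun z => f z ^ n) := by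
  induction n with
  | zero => simpa using PG.const 1
  | succ n ih => simpa only [pow_succ] using ih.mul hf

theorem PG.poly (p : ℂ[X]) : PG (fun z => ‖p.eval z‖) := by
  obtain ⟨C, N, hC, h⟩ := poly_bound p
  exact ⟨C, N, hC, fun z => by rw [abs_norm]; exact h z⟩

theorem PG.sum (s : Finset ℕ) (f : ℕ → ℂ → ℝ) (hf : ∀ i, PG (f i)) :
    PG (fun z => ∑ i ∈ s, f i z) := by
  classical
  induction s using Finset.induction_on with
  | empty => simpa using PG.const 0
  | insert a s ha ih =>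
    simp only [Finset.sum_insert ha]
    exact (hf a).add ih

/-- An irreducible plane curve is connected outside finitely many vertical lines: a relatively
open and closed part that is not empty is everything. -/
theorem curve_connected {T : ℂ[X][X]} (hT : Irreducible T) (hd : T.natDegree ≠ 0) :
    ∃ Δ : ℂ[X], Δ ≠ 0 ∧ (∀ z, Δ.eval z ≠ 0 → Good T z) ∧
      ∀ A : Set (ℂ × ℂ), (∀ z x, Δ.eval z ≠ 0 → evalEval z x T = 0 → (z, x) ∈ A →
        ∀ᶠ w : ℂ × ℂ in 𝓝 (z, x), evalEval w.1 w.2 T = 0 → w ∈ A) →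
      (∀ z x, Δ.eval z ≠ 0 → evalEval z x T = 0 → (z, x) ∉ A →
        ∀ᶠ w : ℂ × ℂ in 𝓝 (z, x), evalEval w.1 w.2 T = 0 → w ∉ A) →
      ∀ z₀ x₀, Δ.eval z₀ ≠ 0 → evalEval z₀ x₀ T = 0 → (z₀, x₀) ∈ A →
      ∀ z x, Δ.eval z ≠ 0 → evalEval z x T = 0 → (z, x) ∈ A := by
  classical
  have hT0 : T ≠ 0 := hT.ne_zero
  have hder : derivative T ≠ 0 := fun h => hd (natDegree_eq_zero_of_derivative_eq_zero h)
  have hndvd : ¬ T ∣ derivative T := by
    intro h
    have h1 := natDegree_le_of_dvd h hder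
    have h2 := natDegree_derivative_lt hd
    omega
  obtain ⟨δ, hδ0, u, v, huv⟩ := bezout hT hd hndvd
  set d := T.natDegree with hddef
  set lc := T.leadingCoeff with hlc
  have hlc0 : lc ≠ 0 := leadingCoeff_ne_zero.2 hT0
  set Δ := lc * δ with hΔ
  have hΔ0 : Δ ≠ 0 := mul_ne_zero hlc0 hδ0
  have hgood : ∀ z, Δ.eval z ≠ 0 → Good T z := by
    intro z hz
    rw [hΔ, eval_mul] at hz
    refine ⟨left_ne_zero_of_mul hz, fun x h1 h2 => right_ne_zero_of_mul hz ?_⟩
    have h3 := congrArg (evalEval z x) huv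
    rw [evalEval_add, evalEval_mul, evalEval_mul, h1, h2, evalEval_C] at h3
    simpa using h3.symm
  refine ⟨Δ, hΔ0, hgood, ?_⟩
  intro A hA1 hA2 z₀ x₀ hz₀ hx₀ hA₀
  have hΔc : Continuous (fun z => Δ.eval z) := Δ.continuous
  have hΔe : ∀ z₁, Δ.eval z₁ ≠ 0 → ∀ᶠ z in 𝓝 z₁, Δ.eval z ≠ 0 := fun z₁ h =>
    hΔc.continuousAt.eventually_ne h
  let Ar : ℂ → Finset ℂ := fun z => (rt T z).filter (fun ξ => (z, ξ) ∈ A)
  have hArsub : ∀ z, Ar z ⊆ rt T z := fun z => Finset.filter_subset _ _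
  have hlocal : ∀ z₁, Δ.eval z₁ ≠ 0 → ∃ G : ℂ → ℂ → ℂ,
      (∀ ξ ∈ rt T z₁, G ξ z₁ = ξ ∧ ContDiffAt ℂ ω (G ξ) z₁) ∧
      ∀ᶠ z in 𝓝 z₁, InjOn (fun ξ => G ξ z) (Ar z₁) ∧ Ar z = (Ar z₁).image (fun ξ => G ξ z) := by
    intro z₁ hz₁
    obtain ⟨G, hG1, hG2⟩ := local_roots (hgood z₁ hz₁) ((hΔe z₁ hz₁).mono hgood)
    refine ⟨G, hG1, ?_⟩
    have hmem : ∀ᶠ z in 𝓝 z₁, ∀ ξ ∈ rt T z₁, evalEval z (G ξ z) T = 0 →
        ((z, G ξ z) ∈ A ↔ (z₁, ξ) ∈ A) := by
      rw [Filter.eventually_all_finset]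
      intro ξ hξ
      have ht : Tendsto (fun z => ((z, G ξ z) : ℂ × ℂ)) (𝓝 z₁) (𝓝 (z₁, ξ)) := by
        have h1 : ContinuousAt (fun z => ((z, G ξ z) : ℂ × ℂ)) z₁ :=
          continuousAt_id.prodMk (hG1 ξ hξ).2.continuousAt
        have h2 := h1.tendsto
        rw [(hG1 ξ hξ).1] at h2
        exact h2
      have hξ0 := eval_of_mem_rt hξ
      by_cases hA : (z₁, ξ) ∈ A
      · filter_upwards [ht.eventually (hA1 z₁ ξ hz₁ hξ0 hA)] with z hz hz0
        exact ⟨fun _ => hA, fun _ => hz hz0⟩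
      · filter_upwards [ht.eventually (hA2 z₁ ξ hz₁ hξ0 hA)] with z hz hz0
        exact ⟨fun h => absurd h (hz hz0), fun h => absurd h hA⟩
    filter_upwards [hG2, hmem] with z hz1 hz2
    refine ⟨hz1.1.mono (by exact_mod_cast hArsub z₁), ?_⟩
    ext y
    simp only [Ar, Finset.mem_filter, Finset.mem_image]
    constructor
    · rintro ⟨hy1, hy2⟩
      rw [hz1.2, Finset.mem_image] at hy1
      obtain ⟨ξ, hξ, rfl⟩ := hy1
      have h0 : evalEval z (G ξ z) T = 0 := by
        apply eval_of_mem_rt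
        rw [hz1.2]
        exact Finset.mem_image_of_mem _ hξ
      exact ⟨ξ, ⟨hξ, (hz2 ξ hξ h0).1 hy2⟩, rfl⟩
    · rintro ⟨ξ, ⟨hξ, hξA⟩, rfl⟩
      have h1 : G ξ z ∈ rt T z := by
        rw [hz1.2]
        exact Finset.mem_image_of_mem _ hξ
      exact ⟨h1, (hz2 ξ hξ (eval_of_mem_rt h1)).2 hξA⟩
  -- the number of roots in `A` is constant
  have hfin : {z : ℂ | Δ.eval z = 0}.Finite := by
    have : {z : ℂ | Δ.eval z = 0} ⊆ ↑Δ.roots.toFinset := by
      intro z hz
      simpa [hΔ0] using hz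
    exact (Finset.finite_toSet _).subset this
  have hconn : IsPreconnected ({z : ℂ | Δ.eval z = 0}ᶜ) := by
    have hrank : 1 < Module.rank ℝ ℂ := by
      rw [Complex.rank_real_complex]
      exact Nat.one_lt_ofNat
    exact (hfin.countable.isConnected_compl_of_one_lt_rank hrank).isPreconnected
  have hcard : ∀ z, Δ.eval z ≠ 0 → (Ar z).card = (Ar z₀).card := by
    have hcont : ContinuousOn (fun z => (Ar z).card) ({z : ℂ | Δ.eval z = 0}ᶜ) := by
      intro z₁ hz₁
      apply ContinuousAt.continuousWithinAt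
      obtain ⟨G, hG1, hG2⟩ := hlocal z₁ hz₁
      apply (continuousAt_const (y := (Ar z₁).card)).congr
      filter_upwards [hG2] with z hz
      rw [hz.2, Finset.card_image_of_injOn hz.1]
    intro z hz
    exact hconn.constant hcont hz hz₀
  by_contra hcon
  push Not at hcon
  obtain ⟨z', x', hz', hx', hA'⟩ := hcon
  have hk0 : 0 < (Ar z₀).card := by
    rw [Finset.card_pos]
    exact ⟨x₀, Finset.mem_filter.2 ⟨(mem_rt (hgood z₀ hz₀).map_ne).2 hx₀, hA₀⟩⟩
  -- the function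
  let R : ℂ → ℂ → ℂ := fun z x => ∏ ξ ∈ Ar z, (lc.eval z * (x - ξ))
  have hRd : ∀ x z₁, Δ.eval z₁ ≠ 0 → DifferentiableAt ℂ (fun z => R z x) z₁ := by
    intro x z₁ hz₁
    obtain ⟨G, hG1, hG2⟩ := hlocal z₁ hz₁
    have h1 : DifferentiableAt ℂ (fun z => ∏ ξ ∈ Ar z₁, (lc.eval z * (x - G ξ z))) z₁ := by
      apply DifferentiableAt.fun_finsetProd
      intro ξ hξ
      have h2 : DifferentiableAt ℂ (G ξ) z₁ :=
        (hG1 ξ (hArsub z₁ hξ)).2.differentiableAt (by simp)
      exact (lc.differentiable z₁).mul ((differentiableAt_const x).sub h2)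
    apply h1.congr_of_eventuallyEq
    filter_upwards [hG2] with z hz
    simp only [R]
    rw [hz.2, Finset.prod_image hz.1]
  let B : ℂ → ℂ → ℝ := fun x z => ‖lc.eval z‖ * ‖x‖ +
    ∑ i ∈ Finset.range (d + 1), ‖(T.coeff i).eval z‖
  have hB0 : ∀ x z, 0 ≤ B x z := fun x z => by positivity
  have hRb : ∀ x z, ‖R z x‖ ≤ (1 + B x z) ^ d := by
    intro x z
    simp only [R]
    rw [norm_prod]
    have h1 : ∏ ξ ∈ Ar z, ‖lc.eval z * (x - ξ)‖ ≤ ∏ ξ ∈ Ar z, (1 + B x z) := by
      apply Finset.prod_le_prod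
      · intro ξ _
        exact norm_nonneg _
      · intro ξ hξ
        have h2 := eval_of_mem_rt (hArsub z hξ)
        rw [← map_evalRingHom_eval] at h2
        have h3 := root_bound (T.map (evalRingHom z)) d natDegree_map_le h2
        simp only [coeff_map, coe_evalRingHom] at h3
        have h4 : T.coeff d = lc := rfl
        rw [h4] at h3
        calc ‖lc.eval z * (x - ξ)‖ = ‖lc.eval z * x - lc.eval z * ξ‖ := by rw [mul_sub]
          _ ≤ ‖lc.eval z * x‖ + ‖lc.eval z * ξ‖ := norm_sub_le _ _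
          _ ≤ ‖lc.eval z‖ * ‖x‖ + ∑ i ∈ Finset.range (d + 1), ‖(T.coeff i).eval z‖ := by
              rw [norm_mul (lc.eval z) x]
              gcongr
          _ = B x z := rfl
          _ ≤ 1 + B x z := by linarith
    refine h1.trans ?_
    rw [Finset.prod_const]
    apply pow_le_pow_right₀ (by linarith [hB0 x z])
    exact (Finset.card_le_card (hArsub z)).trans (card_rt_le T z)
  have hBPG : ∀ x, PG (fun z => (1 + B x z) ^ d) := by
    intro x
    apply PG.pow
    apply (PG.const 1).add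
    exact ((PG.poly lc).mul (PG.const ‖x‖)).add (PG.sum _ _ fun i => PG.poly (T.coeff i))
  have hBcont : ∀ x, Continuous (fun z => (1 + B x z) ^ d) := by
    intro x
    have h1 : Continuous (fun z => lc.eval z) := lc.continuous
    have h2 : ∀ i, Continuous (fun z => (T.coeff i).eval z) := fun i => (T.coeff i).continuous
    simp only [B]
    fun_prop
  let h : ℂ → ℂ → ℂ := fun x z => (Δ.eval z) ^ 2 * R z x
  have hhd : ∀ x, Differentiable ℂ (h x) := by
    intro x z₁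
    by_cases hz₁ : Δ.eval z₁ = 0
    · obtain ⟨q, hq⟩ := dvd_iff_isRoot.2 hz₁
      have hval : h x z₁ = 0 := by simp [h, hz₁]
      have hO : (fun z => h x z - h x z₁ - (z - z₁) • (0 : ℂ)) =O[𝓝 z₁]
          fun z => ‖z - z₁‖ ^ 2 := by
        have hc : Continuous (fun z => ‖q.eval z‖ ^ 2 * (1 + B x z) ^ d) :=
          ((q.continuous.norm).pow 2).mul (hBcont x)
        have hbdd : ∀ᶠ z in 𝓝 z₁, ‖q.eval z‖ ^ 2 * (1 + B x z) ^ d <
            ‖q.eval z₁‖ ^ 2 * (1 + B x z₁) ^ d + 1 :=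
          hc.continuousAt.eventually_lt continuousAt_const (by linarith)
        apply Asymptotics.IsBigO.of_bound (‖q.eval z₁‖ ^ 2 * (1 + B x z₁) ^ d + 1)
        filter_upwards [hbdd] with z hz
        rw [hval, smul_zero, sub_zero, sub_zero]
        simp only [h]
        rw [norm_mul, norm_pow, norm_pow, norm_norm]
        have e1 : Δ.eval z = (z - z₁) * q.eval z := by
          rw [hq, eval_mul, eval_sub, eval_X, eval_C]
        rw [e1, norm_mul]
        have h2 := hRb x z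
        calc (‖z - z₁‖ * ‖q.eval z‖) ^ 2 * ‖R z x‖
            ≤ (‖z - z₁‖ * ‖q.eval z‖) ^ 2 * (1 + B x z) ^ d := by gcongr
          _ = (‖q.eval z‖ ^ 2 * (1 + B x z) ^ d) * ‖z - z₁‖ ^ 2 := by ring
          _ ≤ _ := by gcongr
      have hd1 : HasDerivAt (h x) 0 z₁ := by
        rw [hasDerivAt_iff_isLittleO]
        exact hO.trans_isLittleO (Asymptotics.isLittleO_pow_sub_sub z₁ (by norm_num))
      exact hd1.differentiableAt
    · exact ((Δ.differentiable z₁).pow 2).mul (hRd x z₁ hz₁)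
  have hpoly : ∀ x, ∃ p : ℂ[X], ∀ z, h x z = p.eval z := by
    intro x
    obtain ⟨C, N, hC, hCN⟩ := ((PG.poly Δ).pow 2).mul (hBPG x)
    apply poly_of_growth N (h x) (hhd x) C
    intro z
    refine le_trans ?_ ((le_abs_self _).trans (hCN z))
    simp only [h]
    rw [norm_mul, norm_pow]
    gcongr
    exact hRb x z
  choose pp hpp using hpoly
  -- interpolation
  let Rp : ℂ[X][X] := ∑ i ∈ Finset.range (d + 1),
    C (pp (i : ℂ)) * (Lagrange.basis (Finset.range (d + 1)) (fun i : ℕ => (i : ℂ)) i).map C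
  have hRp : ∀ z x, evalEval z x Rp = (Δ.eval z) ^ 2 * R z x := by
    intro z x
    let Q : ℂ[X] := ∏ ξ ∈ Ar z, (C (lc.eval z) * (X - C ξ))
    have hQe : ∀ x, Q.eval x = R z x := by
      intro x
      simp only [Q, R]
      rw [eval_prod]
      simp
    have hQd : Q.degree < ((Finset.range (d + 1)).card : WithBot ℕ) := by
      rw [Finset.card_range]
      have h1 : Q.natDegree ≤ d := by
        calc Q.natDegree ≤ ∑ ξ ∈ Ar z, (C (lc.eval z) * (X - C ξ)).natDegree :=
              natDegree_prod_le _ _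
          _ ≤ ∑ ξ ∈ Ar z, 1 := by
              apply Finset.sum_le_sum
              intro ξ _
              exact (natDegree_C_mul_le _ _).trans (natDegree_X_sub_C_le _)
          _ = (Ar z).card := by simp
          _ ≤ d := (Finset.card_le_card (hArsub z)).trans (card_rt_le T z)
      exact lt_of_le_of_lt degree_le_natDegree (by exact_mod_cast Nat.lt_succ_of_le h1)
    have hinj : InjOn (fun i : ℕ => (i : ℂ)) (Finset.range (d + 1)) := by
      intro a _ b _ hab
      have hab' : (a : ℂ) = (b : ℂ) := hab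
      exact_mod_cast hab'
    have hint := Lagrange.eq_interpolate hinj hQd
    have h1 := congrArg (fun p => eval x p) hint
    simp only [Lagrange.interpolate_apply] at h1
    rw [eval_finsetSum, hQe] at h1
    simp only [Rp]
    rw [evalEval_finsetSum, h1, Finset.mul_sum]
    apply Finset.sum_congr rfl
    intro i _
    have e1 : eval x (C (eval ((i : ℕ) : ℂ) Q) *
        Lagrange.basis (Finset.range (d + 1)) (fun i : ℕ => (i : ℂ)) i) =
        R z (i : ℂ) * eval x (Lagrange.basis (Finset.range (d + 1)) (fun i : ℕ => (i : ℂ)) i) := by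
      rw [eval_mul, eval_C, hQe]
    rw [evalEval_mul, evalEval_C, evalEval_map_C, ← hpp, e1]
    simp only [h]
    ring
  -- `T` does not divide `Rp`
  have hnd : ¬ T ∣ Rp := by
    rintro ⟨W, hW⟩
    have h1 := hRp z' x'
    rw [hW, evalEval_mul, hx', zero_mul] at h1
    have h2 : R z' x' = 0 := by
      rcases mul_eq_zero.1 h1.symm with h | h
      · exact absurd (pow_eq_zero_iff (two_ne_zero)|>.1 h) hz'
      · exact h
    simp only [R] at h2
    rw [Finset.prod_eq_zero_iff] at h2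
    obtain ⟨ξ, hξ, h3⟩ := h2
    have h4 : x' = ξ := by
      rcases mul_eq_zero.1 h3 with h | h
      · exact absurd h (hgood z' hz').1
      · exact sub_eq_zero.1 h
    rw [← h4] at hξ
    exact hA' (Finset.mem_filter.1 hξ).2
  obtain ⟨ε, hε0, u', v', huv'⟩ := bezout hT hd hnd
  have hzero : ∀ z, (Δ * ε).eval z = 0 := by
    intro z
    rw [eval_mul]
    by_cases hz : Δ.eval z = 0
    · rw [hz, zero_mul]
    · have hk := hcard z hz
      have hne : (Ar z).Nonempty := by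
        rw [← Finset.card_pos, hk]
        exact hk0
      obtain ⟨ξ, hξ⟩ := hne
      have h1 := eval_of_mem_rt (hArsub z hξ)
      have h2 : evalEval z ξ Rp = 0 := by
        rw [hRp]
        have : R z ξ = 0 := by
          simp only [R]
          exact Finset.prod_eq_zero hξ (by simp)
        rw [this, mul_zero]
      have h3 := congrArg (evalEval z ξ) huv'
      rw [evalEval_add, evalEval_mul, evalEval_mul, h1, h2, evalEval_C] at h3
      rw [← h3]
      ring
  have := Polynomial.funext (p := Δ * ε) (q := 0) (fun z => by rw [hzero z, eval_zero])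
  exact mul_ne_zero hΔ0 hε0 this

end Pool.Agent.X882.FB
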