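import Pool.Agent.X882.FB.Hurwitz

/-!
The polynomials `P(z, x, b, v)` in `(z, x)`, their irreducible factors, and finite spanning
families of polynomials of bounded degree.
-/

set_option autoImplicit false

namespace Pool.Agent.X882.FB

open Filter Metric Set Topology Polynomial
open scoped ContDiff

/-- `P(z, x, b, v)` as a polynomial in `z` and `x` -/
noncomputable def Sg (P : MvPolynomial (Fin 4) ℂ) (b v : ℂ) : ℂ[X][X] :=
  MvPolynomial.aeval (![C X, X, C (C b), C (C v)] : Fin 4 → ℂ[X][X]) P

theorem evalEval_Sg (P : MvPolynomial (Fin 4) ℂ) (z x b v : ℂ) :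
    evalEval z x (Sg P b v) = ev P z x b v := by
  induction P using MvPolynomial.induction_on with
  | C c =>
    simp only [Sg, ev, MvPolynomial.aeval_C, MvPolynomial.eval_C]
    exact evalEval_CC z x c
  | add p q hp hq =>
    have h1 : Sg (p + q) b v = Sg p b v + Sg q b v := by simp [Sg]
    rw [h1, evalEval_add, hp, hq]
    simp [ev]
  | mul_X p i hp =>
    have h1 : Sg (p * MvPolynomial.X i) b v = Sg p b v *
        (![C X, X, C (C b), C (C v)] : Fin 4 → ℂ[X][X]) i := by simp [Sg]
    rw [h1, evalEval_mul, hp]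
    have h2 : ev (p * MvPolynomial.X i) z x b v = ev p z x b v * (![z, x, b, v] : Fin 4 → ℂ) i := by
      simp [ev]
    rw [h2]
    congr 1
    fin_cases i <;> simp [evalEval_C]

theorem Sg_degree (P : MvPolynomial (Fin 4) ℂ) : ∃ N : ℕ, ∀ b v : ℂ,
    (Sg P b v).natDegree ≤ N ∧ (Bivariate.swap (Sg P b v)).natDegree ≤ N := by
  induction P using MvPolynomial.induction_on with
  | C c =>
    refine ⟨0, fun b v => ?_⟩
    have h1 : Sg (MvPolynomial.C c) b v = C (C c) := by
      simp only [Sg, MvPolynomial.aeval_C]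
      rfl
    rw [h1, Bivariate.swap_C_C]
    simp
  | add p q hp hq =>
    obtain ⟨N, hN⟩ := hp
    obtain ⟨M, hM⟩ := hq
    refine ⟨max N M, fun b v => ?_⟩
    have h1 : Sg (p + q) b v = Sg p b v + Sg q b v := by simp [Sg]
    rw [h1, map_add]
    exact ⟨(natDegree_add_le _ _).trans (max_le_max (hN b v).1 (hM b v).1),
      (natDegree_add_le _ _).trans (max_le_max (hN b v).2 (hM b v).2)⟩
  | mul_X p i hp =>
    obtain ⟨N, hN⟩ := hp
    refine ⟨N + 1, fun b v => ?_⟩
    have h1 : Sg (p * MvPolynomial.X i) b v = Sg p b v *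
        (![C X, X, C (C b), C (C v)] : Fin 4 → ℂ[X][X]) i := by simp [Sg]
    rw [h1, map_mul]
    have h2 : ((![C X, X, C (C b), C (C v)] : Fin 4 → ℂ[X][X]) i).natDegree ≤ 1 := by
      fin_cases i <;> simp
    have h3 : (Bivariate.swap ((![C X, X, C (C b), C (C v)] : Fin 4 → ℂ[X][X]) i)).natDegree ≤ 1 := by
      fin_cases i
      · simp only [Fin.zero_eta, Matrix.cons_val_zero]
        rw [Bivariate.swap_X]
        simp
      · simp only [Fin.mk_one, Matrix.cons_val_one, Matrix.cons_val_zero]
        rw [Bivariate.swap_Y]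
        simp
      · show (Bivariate.swap (C (C b))).natDegree ≤ 1
        rw [Bivariate.swap_C_C]
        simp
      · show (Bivariate.swap (C (C v))).natDegree ≤ 1
        rw [Bivariate.swap_C_C]
        simp
    exact ⟨natDegree_mul_le.trans (add_le_add (hN b v).1 h2),
      natDegree_mul_le.trans (add_le_add (hN b v).2 h3)⟩

theorem coeff_swap (T : ℂ[X][X]) (i j : ℕ) :
    ((Bivariate.swap T).coeff i).coeff j = (T.coeff j).coeff i := by
  induction T using Polynomial.induction_on' with
  | add p q hp hq => simp only [map_add, coeff_add, hp, hq]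
  | monomial n a =>
    induction a using Polynomial.induction_on' with
    | add p q hp hq => simp only [map_add, coeff_add, hp, hq]
    | monomial m r =>
      rw [Bivariate.swap_monomial_monomial]
      rw [coeff_monomial, coeff_monomial]
      by_cases h1 : m = i <;> by_cases h2 : n = j <;> simp [h1, h2, coeff_monomial]

theorem finite_span {ι : Type} (N : ℕ) (T : ι → ℂ[X][X])
    (h : ∀ i, (T i).natDegree ≤ N ∧ (Bivariate.swap (T i)).natDegree ≤ N) :
    ∃ (κ : Type) (_ : Fintype κ) (a : κ → ι), ∀ i, ∃ c : κ → ℂ, T i = ∑ k, c k • T (a k) := by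
  let Φ : ℂ[X][X] →ₗ[ℂ] (Fin (N + 1) × Fin (N + 1) → ℂ) :=
    { toFun := fun T p => (T.coeff p.1).coeff p.2
      map_add' := fun _ _ => by
        ext p
        simp
      map_smul' := fun _ _ => by
        ext p
        simp }
  obtain ⟨κ, a, -, hspan, hli⟩ := exists_linearIndependent' ℂ (fun i => Φ (T i))
  have hfin : Finite κ := hli.finite
  have : Fintype κ := Fintype.ofFinite κ
  refine ⟨κ, this, a, fun i => ?_⟩
  have h1 : Φ (T i) ∈ Submodule.span ℂ (range ((fun i => Φ (T i)) ∘ a)) := by
    rw [hspan]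
    exact Submodule.subset_span ⟨i, rfl⟩
  rw [Submodule.mem_span_range_iff_exists_fun] at h1
  obtain ⟨c, hc⟩ := h1
  refine ⟨c, ?_⟩
  have hbig : ∀ i m k, (N < m ∨ N < k) → ((T i).coeff m).coeff k = 0 := by
    intro i m k hmk
    rcases hmk with hm | hk
    · rw [coeff_eq_zero_of_natDegree_lt (lt_of_le_of_lt (h i).1 hm), coeff_zero]
    · rw [← coeff_swap, coeff_eq_zero_of_natDegree_lt (lt_of_le_of_lt (h i).2 hk), coeff_zero]
  ext m k
  rw [finsetSum_coeff, finsetSum_coeff]
  simp only [coeff_smul]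
  by_cases hm : N < m
  · rw [hbig i m k (Or.inl hm)]
    simp only [hbig _ m k (Or.inl hm), smul_zero, Finset.sum_const_zero]
  · by_cases hk : N < k
    · rw [hbig i m k (Or.inr hk)]
      simp only [hbig _ m k (Or.inr hk), smul_zero, Finset.sum_const_zero]
    · have h2 := congrFun hc (⟨m, by omega⟩, ⟨k, by omega⟩)
      simp only [Finset.sum_apply, Function.comp, Pi.smul_apply] at h2
      exact h2.symm

/-- an irreducible factor vanishing on a given analytic germ -/
theorem factor {q0 : ℂ} {r : ℝ} (hr : 0 < r) {θ : ℂ → ℂ}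
    (hθ : DifferentiableOn ℂ θ (ball q0 r)) (S : ℂ[X][X]) : S ≠ 0 →
    (∀ a ∈ ball q0 r, evalEval a (θ a) S = 0) →
    ∃ T, Irreducible T ∧ T ∣ S ∧ T.natDegree ≠ 0 ∧ ∀ a ∈ ball q0 r, evalEval a (θ a) T = 0 := by
  have hdiff : ∀ S : ℂ[X][X], DifferentiableOn ℂ (fun a => evalEval a (θ a) S) (ball q0 r) := by
    intro S a ha
    have h1 : DifferentiableAt ℂ (fun p : ℂ × ℂ => evalEval p.1 p.2 S) (a, θ a) :=
      (contDiff_evalEval S (n := 1)).contDiffAt.differentiableAt (by simp)
    exact DifferentiableAt.comp_differentiableWithinAt (g := fun p : ℂ × ℂ => evalEval p.1 p.2 S)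
      a h1 (differentiableWithinAt_id.prodMk (hθ a ha))
  induction S using WfDvdMonoid.induction_on_irreducible with
  | zero => exact fun h => absurd rfl h
  | unit u hu =>
    intro _ h
    exfalso
    have h1 : IsUnit (evalEval q0 (θ q0) u) := hu.map (evalEvalRingHom q0 (θ q0))
    rw [h q0 (mem_ball_self hr)] at h1
    exact not_isUnit_zero h1
  | mul a i ha hi ih =>
    intro _ h
    by_cases hcase : ∀ b ∈ ball q0 r, evalEval b (θ b) i = 0
    · refine ⟨i, hi, dvd_mul_right _ _, ?_, hcase⟩
      intro hd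
      obtain ⟨p, hp⟩ := natDegree_eq_zero.1 hd
      have h1 : ∀ᶠ y in 𝓝 q0, p.eval y = 0 := by
        filter_upwards [Metric.ball_mem_nhds q0 hr] with y hy
        have := hcase y hy
        rwa [← hp, evalEval_C] at this
      have h2 := zero_of_near (E := ℂ) p.differentiable h1
      have h3 : p = 0 := Polynomial.funext (fun z => by rw [h2 z, eval_zero])
      rw [h3, C_0] at hp
      exact hi.ne_zero hp.symm
    · push Not at hcase
      obtain ⟨b, hb, hbn⟩ := hcase
      have hc : ∀ᶠ y in 𝓝 b, evalEval y (θ y) i ≠ 0 :=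
        ((hdiff i).continuousOn.continuousAt (isOpen_ball.mem_nhds hb)).eventually_ne hbn
      have hz : (fun y => evalEval y (θ y) a) =ᶠ[𝓝 b] 0 := by
        filter_upwards [hc, isOpen_ball.mem_nhds hb] with y hy1 hy2
        have := h y hy2
        rw [evalEval_mul] at this
        exact (mul_eq_zero.1 this).resolve_left hy1
      have hA : AnalyticOnNhd ℂ (fun y => evalEval y (θ y) a) (ball q0 r) :=
        (hdiff a).analyticOnNhd isOpen_ball
      have h3 := hA.eqOn_zero_of_preconnected_of_eventuallyEq_zero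
        (convex_ball q0 r).isPreconnected hb hz
      obtain ⟨T, hT1, hT2, hT3, hT4⟩ := ih ha (fun y hy => h3 hy)
      exact ⟨T, hT1, hT2.mul_left _, hT3, hT4⟩

end Pool.Agent.X882.FB
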