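import Pool.Agent.X882.FB.Final

/-!
A Fatou-Bieberbach domain in `ℂ²` is never a connected component of the set where a real polynomial
does not vanish, if the gradient of the polynomial is nonzero at one boundary point.
-/

set_option autoImplicit false

open Topology

namespace Pool.Agent.X882.FB.Sublevel

/-- Let `Ω ⊆ ℂ²` be open and biholomorphic to `ℂ²`, let `Q` be a real polynomial in the four real
coordinates, and let `p` be a boundary point of `Ω` where the gradient of `Q` does not vanish. If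
`Q` vanishes on the boundary of `Ω` near `p`, then `Q` has a zero in `Ω`. -/
theorem sublevel (Ω : Set (Fin 2 → ℂ)) (hΩ : IsOpen Ω)
    (hFB : ∃ F G : (Fin 2 → ℂ) → (Fin 2 → ℂ), DifferentiableOn ℂ F Ω ∧ Differentiable ℂ G ∧
      (∀ y, G y ∈ Ω) ∧ (∀ x ∈ Ω, G (F x) = x) ∧ (∀ y, F (G y) = y))
    (Q : MvPolynomial (Fin 4) ℝ) (p : Fin 2 → ℂ) (hp : p ∈ frontier Ω)
    (hd : fderiv ℝ (fun z : Fin 2 → ℂ =>
      MvPolynomial.eval ![(z 0).re, (z 0).im, (z 1).re, (z 1).im] Q) p ≠ 0)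
    (hv : ∀ᶠ z in 𝓝 p, z ∈ frontier Ω →
      MvPolynomial.eval ![(z 0).re, (z 0).im, (z 1).re, (z 1).im] Q = 0) :
    ∃ z ∈ Ω, MvPolynomial.eval ![(z 0).re, (z 0).im, (z 1).re, (z 1).im] Q = 0 := by
  obtain ⟨F, G, h1, h2, h3, h4, h5⟩ := hFB
  exact final_ii (F := F) (G := G) ⟨hΩ, h1, h2, h3, h4, h5⟩ Q hp hd hv

end Pool.Agent.X882.FB.Sublevel
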