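import Pool.Agent.X882.FB.Final

/-!
Entire maps into a sublevel set of a real polynomial on `ℂ²`, and domains biholomorphic to the
whole space on which a real polynomial in two holomorphic functions has no zero.
-/

set_option autoImplicit false

namespace Pool.Agent.X882.FB

open Filter Metric Set Topology Polynomial
open scoped ContDiff ComplexConjugate

section

variable {X : Type} [NormedAddCommGroup X] [NormedSpace ℂ X]

theorem neg_log_local' {h : X → ℂ} (hh : Differentiable ℂ h) {ε : ℂ} {x : X}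
    (hx : h x ≠ ε) : ∃ k : X → ℂ, (∀ᶠ z in 𝓝 x, DifferentiableAt ℂ k z) ∧
      ∀ᶠ z in 𝓝 x, -Real.log ‖h z - ε‖ = (k z).re := by
  have hw : h x - ε ≠ 0 := sub_ne_zero.2 hx
  set w := h x - ε with hwdef
  have hc : ContinuousAt (fun z => (h z - ε) / w) x :=
    ((hh.continuous.continuousAt).sub continuousAt_const).div_const w
  have hslit : ∀ᶠ z in 𝓝 x, (h z - ε) / w ∈ Complex.slitPlane := by
    apply hc.eventually_mem
    rw [← hwdef, div_self hw]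
    exact Complex.isOpen_slitPlane.mem_nhds Complex.one_mem_slitPlane
  refine ⟨fun z => -Complex.log ((h z - ε) / w) - (Real.log ‖w‖ : ℂ), ?_, ?_⟩
  · filter_upwards [hslit] with z hz
    have h2 : DifferentiableAt ℂ (fun z => (h z - ε) / w) z := by
      simpa only [div_eq_mul_inv] using ((hh z).sub_const ε).mul_const w⁻¹
    exact ((h2.clog hz).neg).sub_const _
  · filter_upwards [hslit] with z hz
    have h2 : (h z - ε) / w ≠ 0 := Complex.slitPlane_ne_zero hz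
    have h3 : h z - ε ≠ 0 := fun h4 => h2 (by rw [h4, zero_div])
    rw [Complex.sub_re, Complex.neg_re, Complex.log_re, Complex.ofReal_re, norm_div,
      Real.log_div (norm_ne_zero_iff.2 h3) (norm_ne_zero_iff.2 hw)]
    ring

/-- The whole space is biholomorphic to itself. -/
theorem isFB_univ : IsFB (univ : Set X) id id where
  opn := isOpen_univ
  dF := differentiable_id.differentiableOn
  dG := differentiable_id
  mem := fun _ => mem_univ _
  gf := fun _ _ => rfl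
  fg := fun _ => rfl

/-- An entire map into the set where a real polynomial is negative does not accumulate at a
strictly pseudoconvex zero of it. -/
theorem no_pos_map {P : MvPolynomial (Fin 4) ℂ} {q0 q1 : ℂ} {φ : X → ℂ × ℂ}
    (hφ : Differentiable ℂ φ) (hneg : ∀ y, rho P (φ y).1 (φ y).2 < 0) (hP : Herm P)
    (hcl : ((q0, q1) : ℂ × ℂ) ∈ closure (range φ)) (h00 : rho P q0 q1 = 0)
    (h1 : ev (MvPolynomial.pderiv 1 P) q0 q1 (conj q0) (conj q1) ≠ 0)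
    (hL : 0 < (Lv P q0 q1 (conj q0) (conj q1) /
      (ev (MvPolynomial.pderiv 1 P) q0 q1 (conj q0) (conj q1)
        * ev (MvPolynomial.pderiv 3 P) q0 q1 (conj q0) (conj q1))).re) : False := by
  have h0 : ev P q0 q1 (conj q0) (conj q1) = 0 := by
    rw [rho_eq hP, h00]
    simp
  obtain ⟨θ, r, hr, hθ0, hθs, hθc, hθd, hθe, hθu, hθm⟩ := family hP h0 h1
  have hball : ∀ᶠ s in 𝓝 (0 : ℂ), ‖s‖ < r := by
    filter_upwards [Metric.ball_mem_nhds (0 : ℂ) hr] with s hs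
    rwa [mem_ball_zero_iff] at hs
  have hsec := second_re hP h1 hθs hθ0 (hball.mono fun s hs => by
    simpa using hθe s 0 hs (by simpa using hr)) (η := (Lv P q0 q1 (conj q0) (conj q1) /
      (ev (MvPolynomial.pderiv 1 P) q0 q1 (conj q0) (conj q1)
        * ev (MvPolynomial.pderiv 3 P) q0 q1 (conj q0) (conj q1))).re / 2) (by linarith)
  set L := (Lv P q0 q1 (conj q0) (conj q1) /
      (ev (MvPolynomial.pderiv 1 P) q0 q1 (conj q0) (conj q1)
        * ev (MvPolynomial.pderiv 3 P) q0 q1 (conj q0) (conj q1))).re with hLdef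
  obtain ⟨r₃, hr₃, hsec'⟩ := Metric.eventually_nhds_iff.1 hsec
  obtain ⟨r₈, hr₈, hlt⟩ : ∃ r₈ : ℝ, 0 < r₈ ∧ r₈ < min r r₃ := exists_between (lt_min hr hr₃)
  have hlr : r₈ < r := lt_of_lt_of_le hlt (min_le_left _ _)
  have hl3 : r₈ < r₃ := lt_of_lt_of_le hlt (min_le_right _ _)
  obtain ⟨h, hhdef⟩ : ∃ h : ℂ × ℂ → ℂ, ∀ z, h z = ev P z.1 z.2 (conj q0) (conj q1) :=
    ⟨_, fun _ => rfl⟩
  have hh : Differentiable ℂ h := by
    have : h = fun z : ℂ × ℂ => ev P z.1 z.2 (conj q0) (conj q1) := funext hhdef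
    rw [this]
    exact differentiable_ev2 P _ _
  have hhc : Continuous h := hh.continuous
  set q : ℂ × ℂ := (q0, q1) with hqdef
  have hhq : h q = 0 := by rw [hhdef]; exact h0
  have claimA : ∀ z : ℂ × ℂ, dist z q ≤ r₈ → rho P z.1 z.2 ≤ 0 → ∀ ε : ℝ, 0 ≤ ε → ε < r →
      h z = ε → z = q ∧ ε = 0 := by
    intro z hz hr1 ε hε0 hε hhz
    rw [hqdef, Prod.dist_eq, max_le_iff] at hz
    simp only [dist_eq_norm] at hz
    set s := z.1 - q0 with hs
    have hz1 : z.1 = q0 + s := by rw [hs]; ring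
    have habs : |ε| < r := by rwa [abs_of_nonneg hε0]
    have hsr : ‖s‖ < r := lt_of_le_of_lt hz.1 hlr
    have hz2 : z.2 = θ s ε := hθu s ε z.2 hsr habs (lt_of_le_of_lt hz.2 hlr) (by
      rw [← hz1, ← hhdef]
      exact hhz)
    have h2 := hθm s hsr 0 ε (by simpa using hr) habs hε0
    have h3 := hsec' (y := s) (by rw [dist_zero_right]; exact lt_of_le_of_lt hz.1 hl3)
    rw [abs_le] at h3
    rw [hz1, hz2] at hr1
    have h4 := h3.1
    have h5 : L / 2 * ‖s‖ ^ 2 + ε ≤ 0 := by linarith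
    have h6 : 0 ≤ L / 2 * ‖s‖ ^ 2 := by positivity
    have h7 : ε = 0 := by linarith
    have h8 : ‖s‖ ^ 2 = 0 := by nlinarith
    have h9 : s = 0 := by simpa using h8
    refine ⟨?_, h7⟩
    rw [h9, add_zero] at hz1
    rw [h9, h7, hθ0] at hz2
    exact Prod.ext hz1 hz2
  have hclos : IsClosed {z : ℂ × ℂ | rho P z.1 z.2 ≤ 0} :=
    isClosed_le (continuous_rho P) continuous_const
  -- lower bound on the outer sphere
  obtain ⟨c₁, hc₁, hc₁b⟩ : ∃ c₁ : ℝ, 0 < c₁ ∧ ∀ z : ℂ × ℂ, rho P z.1 z.2 ≤ 0 → dist z q = r₈ →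
      c₁ ≤ ‖h z‖ := by
    have hK : IsCompact ({z : ℂ × ℂ | rho P z.1 z.2 ≤ 0} ∩ sphere q r₈) :=
      (isCompact_sphere q r₈).inter_left hclos
    rcases ({z : ℂ × ℂ | rho P z.1 z.2 ≤ 0} ∩ sphere q r₈).eq_empty_or_nonempty with he | hne
    · refine ⟨1, one_pos, fun z hz hz2 => ?_⟩
      have : z ∈ {z : ℂ × ℂ | rho P z.1 z.2 ≤ 0} ∩ sphere q r₈ := ⟨hz, hz2⟩
      rw [he] at this
      exact absurd this (notMem_empty _)
    · obtain ⟨z, hz, hzm⟩ := hK.exists_isMinOn hne hhc.norm.continuousOn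
      refine ⟨‖h z‖, ?_, fun y hy hy2 => hzm ⟨hy, hy2⟩⟩
      rw [norm_pos_iff]
      intro h2
      have hzd : dist z q = r₈ := hz.2
      have h3 := (claimA z hzd.le hz.1 0 le_rfl hr (by simpa using h2)).1
      rw [h3, dist_self] at hzd
      exact hr₈.ne hzd
  have hnearq : ∀ δ : ℝ, 0 < δ → ∃ x : X, dist (φ x) q < r₈ ∧ ‖h (φ x)‖ < δ := by
    intro δ hδ
    have h3 : ∀ᶠ y : ℂ × ℂ in 𝓝 q, ‖h y‖ < δ :=
      hhc.norm.continuousAt.eventually_lt continuousAt_const (by rw [hhq, norm_zero]; exact hδ)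
    have h4 : ∀ᶠ y : ℂ × ℂ in 𝓝 q, dist y q < r₈ := Metric.ball_mem_nhds q hr₈
    rw [mem_closure_iff_frequently] at hcl
    obtain ⟨y, ⟨x, rfl⟩, hy1, hy2⟩ := (hcl.and_eventually (h3.and h4)).exists
    exact ⟨x, hy2, hy1⟩
  obtain ⟨x₀, hx₀q, hx₀n⟩ := hnearq (min (c₁ / 4) r) (lt_min (by linarith) hr)
  have hx₀c : ‖h (φ x₀)‖ < c₁ / 4 := lt_of_lt_of_le hx₀n (min_le_left _ _)
  have hx₀r : ‖h (φ x₀)‖ < r := lt_of_lt_of_le hx₀n (min_le_right _ _)
  have hx₀0 : 0 < ‖h (φ x₀)‖ := by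
    rw [norm_pos_iff]
    intro h2
    have h3 := (claimA (φ x₀) hx₀q.le (hneg x₀).le 0 le_rfl hr (by simpa using h2)).1
    have h4 := hneg x₀
    rw [h3] at h4
    simp only [hqdef] at h4
    linarith
  set ε : ℝ := ‖h (φ x₀)‖ / 4 with hε
  have hε0 : 0 < ε := by positivity
  have hεr : ε < r := by linarith
  have hne : ∀ z : ℂ × ℂ, rho P z.1 z.2 ≤ 0 → dist z q ≤ r₈ → h z ≠ (ε : ℂ) := by
    intro z hz hzd h2
    have h3 := (claimA z hzd hz ε hε0.le hεr h2).2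
    exact hε0.ne' h3
  obtain ⟨c₂, hc₂, hc₂b⟩ : ∃ c₂ : ℝ, 0 < c₂ ∧ ∀ z : ℂ × ℂ, rho P z.1 z.2 ≤ 0 → dist z q ≤ r₈ →
      c₂ ≤ ‖h z - ε‖ := by
    have hK : IsCompact ({z : ℂ × ℂ | rho P z.1 z.2 ≤ 0} ∩ closedBall q r₈) :=
      (isCompact_closedBall q r₈).inter_left hclos
    have hne' : ({z : ℂ × ℂ | rho P z.1 z.2 ≤ 0} ∩ closedBall q r₈).Nonempty :=
      ⟨q, h00.le, mem_closedBall_self hr₈.le⟩
    obtain ⟨z, hz, hzm⟩ := hK.exists_isMinOn hne'
      (f := fun z => ‖h z - ε‖) ((hhc.sub continuous_const).norm.continuousOn)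
    refine ⟨‖h z - ε‖, ?_, fun y hy hy2 => hzm ⟨hy, hy2⟩⟩
    rw [norm_pos_iff, sub_ne_zero]
    exact hne z hz.1 hz.2
  let V : Set X := {x | dist (φ x) q < r₈}
  have hφc : Continuous φ := hφ.continuous
  have hVo : IsOpen V := isOpen_lt (hφc.dist continuous_const) continuous_const
  have hhφ : Differentiable ℂ (fun x => h (φ x)) := hh.comp hφ
  have hhφc : Continuous (fun x => h (φ x)) := hhφ.continuous
  let u : X → ℝ := fun x => -Real.log ‖h (φ x) - ε‖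
  obtain ⟨x₁, hx₁q, hx₁n⟩ := hnearq (2 * ε) (by linarith)
  have hposV : ∀ x ∈ V, 0 < ‖h (φ x) - ε‖ := by
    intro x hx
    rw [norm_pos_iff, sub_ne_zero]
    exact hne (φ x) (hneg x).le (le_of_lt hx)
  refine no_barrier_u (isFB_univ (X := X)) (V := V) hVo (subset_univ _) (u := u) ?_
    (c := -Real.log (c₁ / 2)) (M := -Real.log c₂) ?_ ?_ (x₀ := x₀) (x₁ := x₁) hx₀q hx₁q ?_ ?_
  · intro x hx
    exact neg_log_local' hhφ (hne (φ x) (hneg x).le (le_of_lt hx))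
  · intro x hx
    have h2 := hc₂b (φ x) (hneg x).le (le_of_lt hx)
    have h3 := Real.log_le_log hc₂ h2
    simp only [u]
    linarith
  · intro x hx hxc
    have hsub : {x | x ∈ V ∧ -Real.log (c₁ / 2) ≤ u x} ⊆
        {x | dist (φ x) q ≤ r₈ ∧ ‖h (φ x) - ε‖ ≤ c₁ / 2} := by
      rintro y ⟨hy1, hy2⟩
      refine ⟨le_of_lt hy1, ?_⟩
      simp only [u] at hy2
      have h2 : Real.log ‖h (φ y) - ε‖ ≤ Real.log (c₁ / 2) := by linarith
      exact (Real.log_le_log_iff (hposV y hy1) (by linarith)).1 h2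
    have hcl : IsClosed {x | dist (φ x) q ≤ r₈ ∧ ‖h (φ x) - ε‖ ≤ c₁ / 2} :=
      (isClosed_le (hφc.dist continuous_const) continuous_const).inter
        (isClosed_le ((hhφc.sub continuous_const).norm) continuous_const)
    have h2 := closure_minimal hsub hcl hxc
    show dist (φ x) q < r₈
    rcases h2.1.lt_or_eq with h3 | h3
    · exact h3
    · exfalso
      have h4 := hc₁b (φ x) (hneg x).le h3
      have h5 := h2.2
      have h6 : ‖h (φ x)‖ ≤ ‖h (φ x) - ε‖ + ‖(ε : ℂ)‖ := by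
        calc ‖h (φ x)‖ = ‖(h (φ x) - ε) + ε‖ := by rw [sub_add_cancel]
          _ ≤ _ := norm_add_le _ _
      rw [Complex.norm_real, Real.norm_eq_abs, abs_of_pos hε0] at h6
      linarith
  · have h6 : ‖h (φ x₀) - ε‖ ≤ ‖h (φ x₀)‖ + ‖(ε : ℂ)‖ := norm_sub_le _ _
    rw [Complex.norm_real, Real.norm_eq_abs, abs_of_pos hε0] at h6
    have h7 : ‖h (φ x₀) - ε‖ < c₁ / 2 := by linarith
    have h8 := Real.log_lt_log (hposV x₀ hx₀q) h7
    simp only [u]
    linarith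
  · have h6 : ‖h (φ x₁) - ε‖ ≤ ‖h (φ x₁)‖ + ‖(ε : ℂ)‖ := norm_sub_le _ _
    have h9 : ‖h (φ x₀)‖ ≤ ‖h (φ x₀) - ε‖ + ‖(ε : ℂ)‖ := by
        calc ‖h (φ x₀)‖ = ‖(h (φ x₀) - ε) + ε‖ := by rw [sub_add_cancel]
          _ ≤ _ := norm_add_le _ _
    rw [Complex.norm_real, Real.norm_eq_abs, abs_of_pos hε0] at h6 h9
    have h7 : ‖h (φ x₁) - ε‖ < ‖h (φ x₀) - ε‖ := by linarith
    have h8 := Real.log_lt_log (hposV x₁ hx₁q) h7
    simp only [u]
    linarith

end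

section

variable {X : Type} [NormedAddCommGroup X] [NormedSpace ℂ X]
variable {Ω : Set X} {F G : X → X} {P : MvPolynomial (Fin 4) ℂ} {q0 q1 : ℂ} {q : X}
  {E : X → ℂ × ℂ} {σ : ℂ × ℂ → X}

/-- The continuity principle along a local section of `E`. -/
theorem no_neg_sec (hFB : IsFB Ω F G) (hP : Herm P) (hqn : q ∉ Ω) (hσq : σ (q0, q1) = q)
    (hσ : ∀ᶠ y : ℂ × ℂ in 𝓝 (q0, q1), DifferentiableAt ℂ σ y ∧
      (rho P y.1 y.2 < 0 → σ y ∈ Ω))
    (h00 : rho P q0 q1 = 0)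
    (h1 : ev (MvPolynomial.pderiv 1 P) q0 q1 (conj q0) (conj q1) ≠ 0)
    (hL : (Lv P q0 q1 (conj q0) (conj q1) /
      (ev (MvPolynomial.pderiv 1 P) q0 q1 (conj q0) (conj q1)
        * ev (MvPolynomial.pderiv 3 P) q0 q1 (conj q0) (conj q1))).re < 0)
    [FiniteDimensional ℂ X] : False := by
  have h0 : ev P q0 q1 (conj q0) (conj q1) = 0 := by
    rw [rho_eq hP, h00]
    simp
  obtain ⟨θ, r, hr, hθ0, hθs, hθc, hθd, hθe, hθu, hθm⟩ := family hP h0 h1
  have hball : ∀ᶠ s in 𝓝 (0 : ℂ), ‖s‖ < r := by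
    filter_upwards [Metric.ball_mem_nhds (0 : ℂ) hr] with s hs
    rwa [mem_ball_zero_iff] at hs
  have hsec := second_re hP h1 hθs hθ0 (hball.mono fun s hs => by
    simpa using hθe s 0 hs (by simpa using hr)) (η := -(Lv P q0 q1 (conj q0) (conj q1) /
      (ev (MvPolynomial.pderiv 1 P) q0 q1 (conj q0) (conj q1)
        * ev (MvPolynomial.pderiv 3 P) q0 q1 (conj q0) (conj q1))).re / 2) (by linarith)
  set L := (Lv P q0 q1 (conj q0) (conj q1) /
      (ev (MvPolynomial.pderiv 1 P) q0 q1 (conj q0) (conj q1)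
        * ev (MvPolynomial.pderiv 3 P) q0 q1 (conj q0) (conj q1))).re with hLdef
  obtain ⟨r₃, hr₃, hsec'⟩ := Metric.eventually_nhds_iff.1 hsec
  obtain ⟨r₄, hr₄, hloc'⟩ := Metric.eventually_nhds_iff.1 hσ
  have hopen : IsOpen {p : ℂ × ℝ | ‖p.1‖ < r ∧ |p.2| < r} :=
    (isOpen_lt (continuous_norm.comp continuous_fst) continuous_const).inter
      (isOpen_lt (continuous_abs.comp continuous_snd) continuous_const)
  have hc0 : ContinuousAt (fun p : ℂ × ℝ => θ p.1 p.2) (0, 0) :=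
    hθc.continuousAt (hopen.mem_nhds (by simpa using hr))
  rw [Metric.continuousAt_iff] at hc0
  obtain ⟨r₆, hr₆, hc0'⟩ := hc0 r₄ hr₄
  obtain ⟨r₅, hr₅, hlt⟩ : ∃ r₅ : ℝ, 0 < r₅ ∧ r₅ < min (min r r₃) (min r₄ r₆) :=
    exists_between (lt_min (lt_min hr hr₃) (lt_min hr₄ hr₆))
  have hlr : r₅ < r := lt_of_lt_of_le hlt ((min_le_left _ _).trans (min_le_left _ _))
  have hl3 : r₅ < r₃ := lt_of_lt_of_le hlt ((min_le_left _ _).trans (min_le_right _ _))
  have hl4 : r₅ < r₄ := lt_of_lt_of_le hlt ((min_le_right _ _).trans (min_le_left _ _))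
  have hl6 : r₅ < r₆ := lt_of_lt_of_le hlt ((min_le_right _ _).trans (min_le_right _ _))
  have hnear : ∀ (s : ℂ) (ε : ℝ), ‖s‖ ≤ r₅ → |ε| ≤ r₅ →
      DifferentiableAt ℂ σ (q0 + s, θ s ε) ∧
      (rho P (q0 + s) (θ s ε) < 0 → σ (q0 + s, θ s ε) ∈ Ω) := by
    intro s ε hs hε
    have h2 : dist ((s, ε) : ℂ × ℝ) (0, 0) < r₆ := by
      rw [Prod.dist_eq, max_lt_iff]
      simp only [dist_zero_right, Real.norm_eq_abs]
      exact ⟨lt_of_le_of_lt hs hl6, lt_of_le_of_lt hε hl6⟩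
    have h3 := hc0' h2
    have h4 : dist ((q0 + s, θ s ε) : ℂ × ℂ) (q0, q1) < r₄ := by
      rw [Prod.dist_eq, max_lt_iff]
      refine ⟨?_, ?_⟩
      · simp only [dist_eq_norm, add_sub_cancel_left]
        exact lt_of_le_of_lt hs hl4
      · simpa [hθ0] using h3
    exact hloc' h4
  have hneg : ∀ (s : ℂ) (ε : ℝ), ‖s‖ ≤ r₅ → 0 ≤ ε → ε ≤ r₅ →
      rho P (q0 + s) (θ s (-ε)) ≤ L / 2 * ‖s‖ ^ 2 - ε := by
    intro s ε hs hε0 hε
    have h2 := hθm s (lt_of_le_of_lt hs hlr) (-ε) 0 (by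
      rw [abs_neg, abs_of_nonneg hε0]; exact lt_of_le_of_lt hε hlr) (by simpa using hr)
      (by linarith)
    have h3 := hsec' (y := s) (by rw [dist_zero_right]; exact lt_of_le_of_lt hs hl3)
    rw [abs_le] at h3
    have := h3.2
    linarith
  have hin : ∀ (s : ℂ) (ε : ℝ), ‖s‖ ≤ r₅ → 0 ≤ ε → ε ≤ r₅ → (0 < ε ∨ 0 < ‖s‖) →
      σ (q0 + s, θ s (-ε)) ∈ Ω := by
    intro s ε hs hε0 hε hor
    apply (hnear s (-ε) hs (by rwa [abs_neg, abs_of_nonneg hε0])).2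
    have h2 := hneg s ε hs hε0 hε
    rcases hor with h | h
    · have : L / 2 * ‖s‖ ^ 2 ≤ 0 := by nlinarith [sq_nonneg ‖s‖]
      linarith
    · have h3 : 0 < ‖s‖ ^ 2 := by positivity
      nlinarith
  -- the compact set
  let κ : ℂ × ℝ → ℂ × ℂ := fun p => (q0 + p.1, θ p.1 (-p.2))
  have hκc : ContinuousOn κ {p | ‖p.1‖ ≤ r₅ ∧ 0 ≤ p.2 ∧ p.2 ≤ r₅} := by
    apply ContinuousOn.prodMk (by fun_prop)
    have h2 : ContinuousOn (fun p : ℂ × ℝ => (p.1, -p.2)) {p | ‖p.1‖ ≤ r₅ ∧ 0 ≤ p.2 ∧ p.2 ≤ r₅} := by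
      fun_prop
    exact hθc.comp h2 (fun p hp => ⟨lt_of_le_of_lt hp.1 hlr, by
      rw [abs_neg, abs_of_nonneg hp.2.1]
      exact lt_of_le_of_lt hp.2.2 hlr⟩)
  have hσκ : ContinuousOn (fun p => σ (κ p)) {p | ‖p.1‖ ≤ r₅ ∧ 0 ≤ p.2 ∧ p.2 ≤ r₅} := by
    intro p hp
    have h2 := (hnear p.1 (-p.2) hp.1 (by
      rw [abs_neg, abs_of_nonneg hp.2.1]; exact hp.2.2)).1.continuousAt
    exact ContinuousAt.comp_continuousWithinAt (g := σ) h2 (hκc p hp)
  have hcomp : IsCompact (sphere (0 : ℂ) r₅ ×ˢ Icc (0 : ℝ) r₅) :=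
    (isCompact_sphere _ _).prod isCompact_Icc
  have hFκ : ContinuousOn (fun p => ‖F (σ (κ p))‖) (sphere (0 : ℂ) r₅ ×ˢ Icc (0 : ℝ) r₅) := by
    apply ContinuousOn.norm
    apply hFB.dF.continuousOn.comp
    · apply hσκ.mono
      rintro p ⟨hp1, hp2⟩
      rw [mem_sphere_zero_iff_norm] at hp1
      exact ⟨hp1.le, hp2.1, hp2.2⟩
    · rintro p ⟨hp1, hp2⟩
      rw [mem_sphere_zero_iff_norm] at hp1
      exact hin p.1 p.2 hp1.le hp2.1 hp2.2 (Or.inr (by rw [hp1]; exact hr₅))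
  obtain ⟨M, hM⟩ := hcomp.bddAbove_image hFκ
  have hbd : ∀ ε : ℝ, 0 < ε → ε ≤ r₅ → ‖F (σ (q0, θ 0 (-ε)))‖ ≤ M := by
    intro ε hε0 hε
    have hd : DiffContOnCl ℂ (fun s => F (σ (q0 + s, θ s (-ε)))) (ball (0 : ℂ) r₅) := by
      apply DifferentiableOn.diffContOnCl
      rw [closure_ball _ hr₅.ne']
      intro s hs
      rw [mem_closedBall_zero_iff] at hs
      have h2 := (hFB.dF _ (hin s ε hs hε0.le hε (Or.inl hε0))).differentiableAt
        (hFB.opn.mem_nhds (hin s ε hs hε0.le hε (Or.inl hε0)))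
      have h3 : DifferentiableAt ℂ (fun s => ((q0 + s, θ s (-ε)) : ℂ × ℂ)) s := by
        apply DifferentiableAt.prodMk (by fun_prop)
        exact hθd (-ε) (by rw [abs_neg, abs_of_pos hε0]; exact lt_of_le_of_lt hε hlr) s
          (lt_of_le_of_lt hs hlr)
      have h4 := (hnear s (-ε) hs (by rwa [abs_neg, abs_of_pos hε0])).1
      have h5 : DifferentiableAt ℂ (fun s => σ (q0 + s, θ s (-ε))) s :=
        DifferentiableAt.comp (g := σ) s h4 h3
      exact (DifferentiableAt.comp (g := F) s h2 h5).differentiableWithinAt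
    have h2 := Complex.norm_le_of_forall_mem_frontier_norm_le isBounded_ball hd (C := M) (by
      intro s hs
      rw [frontier_ball _ hr₅.ne'] at hs
      exact hM ⟨(s, ε), ⟨hs, hε0.le, hε⟩, rfl⟩) (z := 0) (by
      rw [closure_ball _ hr₅.ne']
      simp [hr₅.le])
    simpa using h2
  -- the limit
  have hprop : ProperSpace X := FiniteDimensional.proper ℂ X
  have hKc : IsCompact (G '' closedBall 0 M) :=
    (isCompact_closedBall 0 M).image hFB.dG.continuous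
  have hlim : Tendsto (fun ε : ℝ => σ (q0, θ 0 (-ε))) (𝓝[>] 0) (𝓝 q) := by
    have h2 : ContinuousAt (fun p : ℂ × ℝ => θ p.1 p.2) (0, 0) :=
      hθc.continuousAt (hopen.mem_nhds (by simpa using hr))
    have h3 : Tendsto (fun ε : ℝ => θ 0 (-ε)) (𝓝 0) (𝓝 q1) := by
      have h4 : Tendsto (fun ε : ℝ => ((0, -ε) : ℂ × ℝ)) (𝓝 0) (𝓝 (0, 0)) := by
        have : Continuous (fun ε : ℝ => ((0, -ε) : ℂ × ℝ)) := by fun_prop
        simpa using this.tendsto 0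
      have h5 := h2.tendsto.comp h4
      rw [hθ0] at h5
      exact h5
    have h6 : Tendsto (fun ε : ℝ => ((q0, θ 0 (-ε)) : ℂ × ℂ)) (𝓝[>] 0) (𝓝 (q0, q1)) :=
      (tendsto_const_nhds.prodMk_nhds h3).mono_left nhdsWithin_le_nhds
    have h7 : ContinuousAt σ (q0, q1) := hσ.self_of_nhds.1.continuousAt
    have h8 := h7.tendsto.comp h6
    rw [hσq] at h8
    exact h8
  have hmem : ∀ᶠ ε : ℝ in 𝓝[>] 0, σ (q0, θ 0 (-ε)) ∈ G '' closedBall 0 M := by
    filter_upwards [Ioc_mem_nhdsGT hr₅] with ε hε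
    have h2 := hin 0 ε (by simp [hr₅.le]) hε.1.le hε.2 (Or.inl hε.1)
    rw [add_zero] at h2
    refine ⟨F (σ (q0, θ 0 (-ε))), ?_, hFB.gf _ h2⟩
    rw [mem_closedBall_zero_iff]
    exact hbd ε hε.1 hε.2
  obtain ⟨y, -, hy⟩ := hKc.isClosed.mem_of_tendsto hlim hmem
  exact hqn (hy ▸ hFB.mem y)

end

end Pool.Agent.X882.FB
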