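import Pool.Agent.X882.FB.TwoMain

/-!
Real polynomials in two holomorphic functions on a domain biholomorphic to the whole space.
-/

set_option autoImplicit false

namespace Pool.Agent.X882.FB

open Filter Metric Set Topology
open scoped ContDiff ComplexConjugate

section

variable {X : Type} [NormedAddCommGroup X] [NormedSpace ℂ X]

/-- a local section of a submersion -/
theorem exists_section {E : X → ℂ × ℂ} {q : X} (hE : AnalyticAt ℂ E q)
    (hs : Function.Surjective (fderiv ℂ E q)) :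
    ∃ σ : ℂ × ℂ → X, σ (E q) = q ∧ ∀ᶠ y in 𝓝 (E q), DifferentiableAt ℂ σ y ∧ E (σ y) = y := by
  obtain ⟨A, hA⟩ := (fderiv ℂ E q).exists_rightInverse_of_surjective
    (LinearMap.range_eq_top.2 hs)
  let τ : ℂ × ℂ → X := fun y => q + A (y - E q)
  have hτ : Differentiable ℂ τ := by
    intro y
    fun_prop
  have hτq : τ (E q) = q := by simp [τ]
  have hτc : ContDiff ℂ ω τ := by
    apply contDiff_const.add
    exact A.contDiff.comp (contDiff_id.sub contDiff_const)
  have hτd : HasFDerivAt τ A (E q) := by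
    have h1 : HasFDerivAt (fun y : ℂ × ℂ => y - E q) (ContinuousLinearMap.id ℂ (ℂ × ℂ)) (E q) :=
      (hasFDerivAt_id (E q)).sub_const _
    have hA2 : HasFDerivAt (fun y => A y) A ((fun y : ℂ × ℂ => y - E q) (E q)) := A.hasFDerivAt
    have h2 := (HasFDerivAt.comp (f := fun y : ℂ × ℂ => y - E q) (g := fun y => A y)
      (E q) hA2 h1).const_add q
    rw [ContinuousLinearMap.comp_id] at h2
    exact h2
  let g : ℂ × ℂ → ℂ × ℂ := fun y => E (τ y)
  have hEq : ContDiffAt ℂ ω E (τ (E q)) := by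
    rw [hτq]
    exact hE.contDiffAt
  have hgc : ContDiffAt ℂ ω g (E q) := hEq.comp (E q) hτc.contDiffAt
  have hgd : HasFDerivAt g ((ContinuousLinearEquiv.refl ℂ (ℂ × ℂ) : (ℂ × ℂ) ≃L[ℂ] (ℂ × ℂ)) :
      (ℂ × ℂ) →L[ℂ] (ℂ × ℂ)) (E q) := by
    have h1 : HasFDerivAt E (fderiv ℂ E q) (τ (E q)) := by
      rw [hτq]
      exact hE.differentiableAt.hasFDerivAt
    have h2 := h1.comp (E q) hτd
    rw [hA] at h2
    exact h2
  have hw : (ω : WithTop ℕ∞) ≠ 0 := by simp
  have hgq : g (E q) = E q := by simp [g, hτq]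
  let s : ℂ × ℂ → ℂ × ℂ := hgc.localInverse hgd hw
  have hs1 : s (g (E q)) = E q := hgc.localInverse_apply_image hgd hw
  have hs2 : ContDiffAt ℂ ω s (g (E q)) := hgc.to_localInverse hgd hw
  have hs3 : ∀ᶠ y in 𝓝 (g (E q)), g (s y) = y :=
    (hgc.hasStrictFDerivAt' hgd hw).eventually_right_inverse
  rw [hgq] at hs1 hs2 hs3
  refine ⟨fun y => τ (s y), by simp only [hs1, hτq], ?_⟩
  have hs4 : ∀ᶠ y in 𝓝 (E q), ContDiffAt ℂ ω s y := hs2.eventually (by simp)
  filter_upwards [hs3, hs4] with y h1 h2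
  refine ⟨?_, h1⟩
  exact (hτ _).comp y (h2.differentiableAt (by simp))

end

section

variable {X : Type} [NormedAddCommGroup X] [NormedSpace ℂ X] [FiniteDimensional ℂ X]
variable {Ω : Set X} {F G : X → X}

theorem IsFB.preconnected (hFB : IsFB Ω F G) : IsPreconnected Ω := by
  have h3 : Ω = range G := by
    ext x
    constructor
    · intro hx
      exact ⟨F x, hFB.gf x hx⟩
    · rintro ⟨y, rfl⟩
      exact hFB.mem y
  rw [h3]
  exact isPreconnected_range hFB.dG.continuous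

/-- two functions, one side -/
theorem two_one (hFB : IsFB Ω F G) {E : X → (Fin 2 → ℂ)} (hE : DifferentiableOn ℂ E Ω) {q : X}
    (hq : q ∈ frontier Ω) (hEq : AnalyticAt ℂ E q)
    (hs : Function.Surjective (fderiv ℂ E q)) (Q : MvPolynomial (Fin 4) ℝ)
    (hd : fderiv ℝ (rq Q) (E q) ≠ 0) (h0 : rq Q (E q) = 0)
    (hnz : ∀ x ∈ Ω, rq Q (E x) ≠ 0)
    (hloc : ∀ᶠ x in 𝓝 q, (x ∈ Ω ↔ rq Q (E x) < 0)) : False := by
  have hcont : ContinuousOn (fun x => rq Q (E x)) Ω :=
    (contDiff_rq Q (n := 0)).continuous.comp_continuousOn hE.continuousOn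
  obtain ⟨x₀, hx₀, hx₀n⟩ : ∃ x ∈ Ω, rq Q (E x) < 0 := by
    have h1 : ∃ᶠ x in 𝓝 q, x ∈ Ω := mem_closure_iff_frequently.1 (frontier_subset_closure hq)
    obtain ⟨x, hx1, hx2⟩ := (h1.and_eventually hloc).exists
    exact ⟨x, hx1, hx2.1 hx1⟩
  have hneg : ∀ x ∈ Ω, rq Q (E x) < 0 := by
    intro x hx
    by_contra hcon
    push Not at hcon
    obtain ⟨w, hw, hw0⟩ := hFB.preconnected.intermediate_value hx₀ hx hcont ⟨hx₀n.le, hcon⟩
    exact hnz w hw hw0
  have hqn : q ∉ Ω := by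
    rw [hFB.opn.frontier_eq] at hq
    exact hq.2
  have hgen : ∀ e : (ℂ × ℂ) ≃L[ℂ] (Fin 2 → ℂ), ∀ P : MvPolynomial (Fin 4) ℂ, Herm P →
      (∀ w : ℂ × ℂ, rho P w.1 w.2 = rq Q (e w)) → ∀ q0 q1 : ℂ, e (q0, q1) = E q →
      ev (MvPolynomial.pderiv 1 P) q0 q1 (conj q0) (conj q1) ≠ 0 → False := by
    intro e P hP hρ q0 q1 hqe h1
    let E₂ : X → ℂ × ℂ := fun x => e.symm (E x)
    have hρE : ∀ x, rho P (E₂ x).1 (E₂ x).2 = rq Q (E x) := by
      intro x
      rw [hρ]
      simp [E₂]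
    have hE₂q : E₂ q = (q0, q1) := by
      simp only [E₂]
      rw [← hqe]
      simp
    have hE₂a : AnalyticAt ℂ E₂ q :=
      AnalyticAt.comp ((e.symm : (Fin 2 → ℂ) →L[ℂ] (ℂ × ℂ)).analyticAt (E q)) hEq
    have hE₂s : Function.Surjective (fderiv ℂ E₂ q) := by
      have h2 : HasFDerivAt E₂ ((e.symm : (Fin 2 → ℂ) →L[ℂ] (ℂ × ℂ)).comp (fderiv ℂ E q)) q :=
        (e.symm : (Fin 2 → ℂ) →L[ℂ] (ℂ × ℂ)).hasFDerivAt.comp q
          hEq.differentiableAt.hasFDerivAt
      rw [h2.fderiv]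
      exact e.symm.surjective.comp hs
    obtain ⟨σ, hσ1, hσ2⟩ := exists_section hE₂a hE₂s
    rw [hE₂q] at hσ1 hσ2
    have hσc : Tendsto σ (𝓝 (q0, q1)) (𝓝 q) := by
      have h2 := hσ2.self_of_nhds.1.continuousAt.tendsto
      rwa [hσ1] at h2
    refine main_sec (E := E₂) (σ := σ) (q0 := q0) (q1 := q1) hFB hP ?_ ?_ ?_ ?_ h1
    · intro y
      have h2 : DifferentiableAt ℂ E (G y) :=
        (hE _ (hFB.mem y)).differentiableAt (hFB.opn.mem_nhds (hFB.mem y))
      have h3 : DifferentiableAt ℂ (fun y => E (G y)) y := h2.comp y (hFB.dG y)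
      exact e.symm.differentiableAt.comp y h3
    · intro x hx
      rw [hρE]
      exact hneg x hx
    · filter_upwards [hσ2, hσc.eventually hloc] with y h2 h3
      refine ⟨h2.1, h2.2, fun h4 => h3.2 ?_⟩
      rw [← hρE, h2.2]
      exact h4
    · have h2 := hρE q
      rw [hE₂q] at h2
      rw [h2, h0]
  rcases exists_coord Q (E q) hd with h | h
  · exact hgen e1 (toP w1 Q) (herm_w1 Q) (fun w => by rw [rho_w1, e1_apply]) (E q 0) (E q 1)
      (by rw [e1_apply]; exact eta2 (E q)) h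
  · exact hgen e2 (toP w2 Q) (herm_w2 Q) (fun w => by rw [rho_w2, e2_apply]) (E q 1) (E q 0)
      (by rw [e2_apply]; exact eta2 (E q)) h

/-- A real polynomial in two holomorphic functions which vanishes on the boundary near a point
where it is smooth has a zero in the domain. -/
theorem final_two (hFB : IsFB Ω F G) {E : X → (Fin 2 → ℂ)} (hE : DifferentiableOn ℂ E Ω) {q : X}
    (hq : q ∈ frontier Ω) (hEq : AnalyticAt ℂ E q)
    (hs : Function.Surjective (fderiv ℂ E q)) (Q : MvPolynomial (Fin 4) ℝ)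
    (hd : fderiv ℝ (rq Q) (E q) ≠ 0)
    (hv : ∀ᶠ x in 𝓝 q, x ∈ frontier Ω → rq Q (E x) = 0) : ∃ x ∈ Ω, rq Q (E x) = 0 := by
  by_contra hnz
  push Not at hnz
  have h0 : rq Q (E q) = 0 := hv.self_of_nhds hq
  have hcd : ContDiffAt ℝ 1 (fun x => rq Q (E x)) q :=
    (contDiff_rq Q).contDiffAt.comp q (hEq.restrictScalars (𝕜 := ℝ)).contDiffAt
  have hER : HasFDerivAt E ((fderiv ℂ E q).restrictScalars ℝ) q :=
    hEq.differentiableAt.hasFDerivAt.restrictScalars ℝ
  have hfd : HasFDerivAt (fun x => rq Q (E x))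
      ((fderiv ℝ (rq Q) (E q)).comp ((fderiv ℂ E q).restrictScalars ℝ)) q :=
    (((contDiff_rq Q (n := 1)).differentiable (by simp)) (E q)).hasFDerivAt.comp q hER
  have hne : fderiv ℝ (fun x => rq Q (E x)) q ≠ 0 := by
    rw [hfd.fderiv]
    intro h2
    apply hd
    ext u
    obtain ⟨v, hv⟩ := hs u
    have h3 := congrArg (fun L => L v) h2
    simp only [ContinuousLinearMap.comp_apply, ContinuousLinearMap.coe_restrictScalars',
      ContinuousLinearMap.zero_apply] at h3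
    rw [hv] at h3
    simpa using h3
  rcases two_sides hFB.opn hcd hne hq hv with h | h | h
  · exact two_one hFB hE hq hEq hs Q hd h0 hnz h
  · refine two_one hFB hE hq hEq hs (-Q) ?_ ?_ ?_ ?_
    · rw [rq_neg, fderiv_fun_neg]
      exact neg_ne_zero.2 hd
    · simp only [rq_neg, h0, neg_zero]
    · intro x hx
      simp only [rq_neg]
      exact neg_ne_zero.2 (hnz x hx)
    · simpa only [rq_neg] using h
  · obtain ⟨h1, h2⟩ := freq_sides hfd.differentiableAt hne
    simp only [h0] at h1 h2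
    obtain ⟨z, hz1, hz2⟩ := (h1.and_eventually h).exists
    obtain ⟨z', hz1', hz2'⟩ := (h2.and_eventually h).exists
    have hz : z ∈ Ω := hz2 hz1.ne
    have hz' : z' ∈ Ω := hz2' hz1'.ne'
    have hcont : ContinuousOn (fun x => rq Q (E x)) Ω :=
      (contDiff_rq Q (n := 0)).continuous.comp_continuousOn hE.continuousOn
    obtain ⟨w, hw, hw0⟩ := hFB.preconnected.intermediate_value hz hz' hcont ⟨hz1.le, hz1'.le⟩
    exact hnz w hw hw0

end

end Pool.Agent.X882.FB
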