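import Pool.Agent.X882.FB.Target

/-!
Domains biholomorphic to the whole space and real polynomials in two holomorphic functions.
-/

set_option autoImplicit false

namespace Pool.Agent.X882.FB

open Filter Metric Set Topology Polynomial
open scoped ContDiff ComplexConjugate

section

variable {X : Type} [NormedAddCommGroup X] [NormedSpace ℂ X] [FiniteDimensional ℂ X]
variable {Ω : Set X} {F G : X → X} {P : MvPolynomial (Fin 4) ℂ} {q0 q1 : ℂ} {q : X}
  {E : X → ℂ × ℂ} {σ : ℂ × ℂ → X}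

/-- the Levi form vanishes -/
theorem levi_zero_sec (hFB : IsFB Ω F G) (hP : Herm P) (hE : Differentiable ℂ (fun y => E (G y)))
    (hneg : ∀ x ∈ Ω, rho P (E x).1 (E x).2 < 0) (hqn : q ∉ Ω) (hσq : σ (q0, q1) = q)
    (hσ : ∀ᶠ y : ℂ × ℂ in 𝓝 (q0, q1), DifferentiableAt ℂ σ y ∧ E (σ y) = y ∧
      (rho P y.1 y.2 < 0 → σ y ∈ Ω))
    (h00 : rho P q0 q1 = 0)
    (h1 : ev (MvPolynomial.pderiv 1 P) q0 q1 (conj q0) (conj q1) ≠ 0) :
    Lv P q0 q1 (conj q0) (conj q1) = 0 := by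
  have h0 : ev P q0 q1 (conj q0) (conj q1) = 0 := by
    rw [rho_eq hP, h00]
    simp
  have h3 : ev (MvPolynomial.pderiv 3 P) q0 q1 (conj q0) (conj q1) ≠ 0 := by
    rw [hP.p3]
    simpa using h1
  obtain ⟨θ, r, hr, hθ0, hθs, hθc, hθd, hθe, hθu, hθm⟩ := family hP h0 h1
  have hball : ∀ᶠ s in 𝓝 (0 : ℂ), ‖s‖ < r := by
    filter_upwards [Metric.ball_mem_nhds (0 : ℂ) hr] with s hs
    rwa [mem_ball_zero_iff] at hs
  have him := second_im hP h1 hθs hθ0 (hball.mono fun s hs => by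
    simpa using hθe s 0 hs (by simpa using hr))
  have hcl : ((q0, q1) : ℂ × ℂ) ∈ closure (range (fun y => E (G y))) := by
    rw [mem_closure_iff_frequently]
    refine ((freq_neg hP h00 h1).and_eventually hσ).mono fun y hy => ?_
    obtain ⟨hy1, hy2, hy3, hy4⟩ := hy
    refine ⟨F (σ y), ?_⟩
    simp only
    rw [hFB.gf _ (hy4 hy1), hy3]
  have hre : (Lv P q0 q1 (conj q0) (conj q1) / (ev (MvPolynomial.pderiv 1 P) q0 q1 (conj q0) (conj q1)
        * ev (MvPolynomial.pderiv 3 P) q0 q1 (conj q0) (conj q1))).re = 0 := by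
    rcases lt_trichotomy (Lv P q0 q1 (conj q0) (conj q1) /
      (ev (MvPolynomial.pderiv 1 P) q0 q1 (conj q0) (conj q1)
        * ev (MvPolynomial.pderiv 3 P) q0 q1 (conj q0) (conj q1))).re 0 with h | h | h
    · exact (no_neg_sec hFB hP hqn hσq (hσ.mono fun y hy => ⟨hy.1, hy.2.2⟩) h00 h1 h).elim
    · exact h
    · exact (no_pos_map (φ := fun y => E (G y)) hE (fun y => hneg _ (hFB.mem y)) hP hcl h00 h1
        h).elim
  have h4 : Lv P q0 q1 (conj q0) (conj q1) / (ev (MvPolynomial.pderiv 1 P) q0 q1 (conj q0) (conj q1)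
        * ev (MvPolynomial.pderiv 3 P) q0 q1 (conj q0) (conj q1)) = 0 := Complex.ext hre him
  exact (div_eq_zero_iff.1 h4).resolve_right (mul_ne_zero h1 h3)

theorem near_facts_sec (hFB : IsFB Ω F G) (hP : Herm P)
    (hE : Differentiable ℂ (fun y => E (G y)))
    (hneg : ∀ x ∈ Ω, rho P (E x).1 (E x).2 < 0)
    (hσ : ∀ᶠ y : ℂ × ℂ in 𝓝 (q0, q1), DifferentiableAt ℂ σ y ∧ E (σ y) = y ∧
      (rho P y.1 y.2 < 0 → σ y ∈ Ω))
    (h1 : ev (MvPolynomial.pderiv 1 P) q0 q1 (conj q0) (conj q1) ≠ 0) :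
    ∀ᶠ z : ℂ × ℂ in 𝓝 (q0, q1), rho P z.1 z.2 = 0 →
      Lv P z.1 z.2 (conj z.1) (conj z.2) = 0 := by
  filter_upwards [hσ.eventually_nhds, p1_eventually P h1] with z hz1 hz2 hz0
  have hn : σ z ∉ Ω := fun h => by
    have h2 := hneg _ h
    rw [hz1.self_of_nhds.2.1, hz0] at h2
    exact lt_irrefl _ h2
  exact levi_zero_sec hFB hP hE hneg hn (q0 := z.1) (q1 := z.2) rfl hz1 hz0 hz2

/-- the main theorem for two functions in normalised form -/
theorem main_sec (hFB : IsFB Ω F G) (hP : Herm P)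
    (hE : Differentiable ℂ (fun y => E (G y)))
    (hneg : ∀ x ∈ Ω, rho P (E x).1 (E x).2 < 0)
    (hσ : ∀ᶠ y : ℂ × ℂ in 𝓝 (q0, q1), DifferentiableAt ℂ σ y ∧ E (σ y) = y ∧
      (rho P y.1 y.2 < 0 → σ y ∈ Ω))
    (h0 : rho P q0 q1 = 0)
    (h1 : ev (MvPolynomial.pderiv 1 P) q0 q1 (conj q0) (conj q1) ≠ 0) : False := by
  have hcomplete : CompleteSpace X := FiniteDimensional.complete ℂ X
  have hnear := near_facts_sec hFB hP hE hneg hσ h1
  obtain ⟨δ, hδ, hδn⟩ := Metric.eventually_nhds_iff.1 (p1_eventually P h1)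
  obtain ⟨r₀, hr₀, hflat⟩ := flat hP h0 h1 hnear hδ
  set r := min r₀ δ with hr
  have hr0 : 0 < r := lt_min hr₀ hδ
  have hrr₀ : r ≤ r₀ := min_le_left _ _
  have hrδ : r ≤ δ := min_le_right _ _
  have hIinf : {x : ℂ | dist x q1 < r ∧ rho P q0 x = 0}.Infinite :=
    (slice_infinite hP h0 h1 hr0).self_of_nhds
  set I : Set ℂ := {x : ℂ | dist x q1 < r ∧ rho P q0 x = 0} with hI
  let N : Set (ℂ × ℂ) := {w | rho P w.1 w.2 < 0}
  have hex : ∀ i : I, ∃ T : ℂ[X][X], T ∣ Sg P (conj q0) (conj i.1) ∧ Sg P (conj q0) (conj i.1) ≠ 0 ∧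
      evalEval q0 i.1 T = 0 ∧ T.map (evalRingHom q0) ≠ 0 ∧ ∀ w ∈ N, evalEval w.1 w.2 T ≠ 0 := by
    rintro ⟨x', hx', hρx'⟩
    obtain ⟨θ, hθd, hθ0, hθe, hθK, hθn⟩ := hflat x' (lt_of_lt_of_le hx' hrr₀) hρx'
    have hS : Sg P (conj q0) (conj x') ≠ 0 := by
      intro hS
      have h2 := hδn (y := (q0, x')) (by
        rw [Prod.dist_eq, max_lt_iff, dist_self]
        exact ⟨hδ, lt_of_lt_of_le hx' hrδ⟩)
      apply h2
      have h3 := hasDerivAt_ev (𝕜 := ℂ) P (hasDerivAt_const x' q0) (hasDerivAt_id x')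
        (hasDerivAt_const x' (conj q0)) (hasDerivAt_const x' (conj x'))
      simp only [id, zero_mul, one_mul, zero_add, add_zero] at h3
      have h4 : HasDerivAt (fun x => ev P q0 x (conj q0) (conj x')) 0 x' := by
        have h5 : (fun x => ev P q0 x (conj q0) (conj x')) = fun _ => 0 := by
          funext x
          rw [← evalEval_Sg, hS, evalEval_zero]
        rw [h5]
        exact hasDerivAt_const x' (0 : ℂ)
      exact h3.unique h4
    have hθd' : DifferentiableOn ℂ θ (ball q0 r) := hθd.mono (ball_subset_ball hrr₀)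
    obtain ⟨T, hT1, hT2, hT3, hT4⟩ := factor hr0 hθd' _ hS (by
      intro a ha
      rw [evalEval_Sg]
      exact hθe a (ball_subset_ball hrr₀ ha))
    refine ⟨T, hT2, hS, ?_, map_eval_ne hT1 hT3 q0, ?_⟩
    · have := hT4 q0 (mem_ball_self hr0)
      rwa [hθ0] at this
    · exact zero_free' (Ω := N) hP (fun w hw => ne_of_lt hw) hT1 hT3 hr0 hT4
        (fun a ha c hc => hθK a (ball_subset_ball hrr₀ ha) c (ball_subset_ball hrr₀ hc))
  choose T hT1 hT2 hT3 hT4 hT5 using hex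
  obtain ⟨M, hM⟩ := Sg_degree P
  obtain ⟨κ, hκ, a, hspan⟩ := finite_span M T (fun i => by
    refine ⟨(natDegree_le_of_dvd (hT1 i) (hT2 i)).trans (hM _ _).1, ?_⟩
    exact (natDegree_le_of_dvd (swap_dvd (hT1 i)) (swap_ne (hT2 i))).trans (hM _ _).2)
  have hφN : ∀ y, E (G y) ∈ N := fun y => hneg _ (hFB.mem y)
  -- a nearby point of `N`
  obtain ⟨w₀, hw₀1, hw₀2⟩ := ((freq_neg hP h0 h1).and_eventually hσ.eventually_nhds).exists
  have hrange : ∀ᶠ w : ℂ × ℂ in 𝓝 w₀, ∃ y, E (G y) = w := by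
    have h2 : ∀ᶠ w : ℂ × ℂ in 𝓝 w₀, rho P w.1 w.2 < 0 :=
      (continuous_rho P).continuousAt.eventually_lt continuousAt_const hw₀1
    filter_upwards [h2, hw₀2] with w hw1 hw2
    refine ⟨F (σ w), ?_⟩
    rw [hFB.gf _ (hw2.2.2 hw1), hw2.2.1]
  -- every member vanishes at a point of the finite set
  have hkey : ∀ i : I, ∃ k : κ, evalEval q0 i.1 (T (a k)) = 0 := by
    intro i
    obtain ⟨c, hc⟩ := hspan i
    have hdiff : ∀ S : ℂ[X][X], Differentiable ℂ (fun w : ℂ × ℂ => evalEval w.1 w.2 S) :=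
      fun S => (contDiff_evalEval S (n := 1)).differentiable (by simp)
    have hcomp : ∀ S : ℂ[X][X], Differentiable ℂ (fun y : X => evalEval (E (G y)).1 (E (G y)).2 S) :=
      fun S => Differentiable.comp (g := fun w : ℂ × ℂ => evalEval w.1 w.2 S) (hdiff S) hE
    obtain ⟨k, hk⟩ := several (E := X) (κ := κ)
      (fun k y => evalEval (E (G y)).1 (E (G y)).2 (T (a k)))
      (fun k => hcomp (T (a k)))
      (fun k y => hT5 (a k) (E (G y)) (hφN y))
      (fun y => evalEval (E (G y)).1 (E (G y)).2 (T i))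
      (hcomp (T i)) (fun y => hT5 i (E (G y)) (hφN y)) c (by
        intro y
        conv_lhs => rw [hc]
        rw [evalEval_finsetSum]
        apply Finset.sum_congr rfl
        intro k _
        rw [evalEval_smul, smul_eq_mul])
    refine ⟨k, ?_⟩
    have hfd : Differentiable ℂ (fun w : ℂ × ℂ =>
        evalEval w.1 w.2 (T (a k)) * evalEval (E (G 0)).1 (E (G 0)).2 (T i) -
        evalEval (E (G 0)).1 (E (G 0)).2 (T (a k)) * evalEval w.1 w.2 (T i)) :=
      ((hdiff (T (a k))).mul_const _).sub ((hdiff (T i)).const_mul _)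
    have h2 := zero_of_near hfd (p := w₀) (by
      filter_upwards [hrange] with w hw
      obtain ⟨y, rfl⟩ := hw
      exact sub_eq_zero.2 (hk y)) (q0, i.1)
    simp only [hT3 i, mul_zero, sub_zero] at h2
    exact (mul_eq_zero.1 h2).resolve_right (hT5 i _ (hφN 0))
  apply hIinf
  have hsub : I ⊆ ⋃ k : κ, (↑(rt (T (a k)) q0) : Set ℂ) := by
    intro x hx
    obtain ⟨k, hk⟩ := hkey ⟨x, hx⟩
    exact mem_iUnion.2 ⟨k, (mem_rt (hT4 (a k))).2 hk⟩
  exact (finite_iUnion fun k => Finset.finite_toSet _).subset hsub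

end

end Pool.Agent.X882.FB
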